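import Pool.Agent.H17.TC.Jump

/-!
# ADD : adding cells below a family
-/

set_option autoImplicit false

namespace Pool.H17.TC

open Pool.H22.VC Function Set

variable {r : ℕ} {K κ κ' : Type} {N : Col r K ℕ}

/-- the family `F` with the cells `B` (ordered as in `G`) below -/
def addLow (F G : Fam κ) (B : Set (κ → ℕ)) : Fam κ :=
  ⟨B ∪ F.cells, fun c c' => (c ∈ B ∧ c' ∈ F.cells) ∨ (c ∈ B ∧ c' ∈ B ∧ G.lt c c') ∨
    (c ∈ F.cells ∧ c' ∈ F.cells ∧ F.lt c c')⟩

/-- the family `F` with the cells `B` above -/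
def addUp (F G : Fam κ) (B : Set (κ → ℕ)) : Fam κ :=
  ⟨B ∪ F.cells, fun c c' => (c ∈ F.cells ∧ c' ∈ B) ∨ (c ∈ B ∧ c' ∈ B ∧ G.lt c c') ∨
    (c ∈ F.cells ∧ c' ∈ F.cells ∧ F.lt c c')⟩

/-- the cells of a family -/
private structure CL (F : Fam κ) where
  val : κ → ℕ
  property : val ∈ F.cells

private theorem CL.inj {F : Fam κ} : Injective (CL.val (F := F)) := by
  rintro ⟨a, ha⟩ ⟨b, hb⟩ h
  cases h
  rfl

/-- finite sets of cells embed in infinite ones -/
private theorem mono_emb {F : Fam κ} (h : F.OK) {U Y : Set (κ → ℕ)} (hU : U ⊆ F.cells)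
    (hUf : U.Finite) (hY : Y ⊆ F.cells) (hYi : Y.Infinite) :
    ∃ ψ : (κ → ℕ) → (κ → ℕ), (∀ c ∈ U, ψ c ∈ Y) ∧
      ∀ c ∈ U, ∀ c' ∈ U, F.lt c c' → F.lt (ψ c) (ψ c') := by
  classical
  let i0 : LinearOrder (CL F) :=
    { le := fun c c' => c = c' ∨ F.lt c.1 c'.1
      lt := fun c c' => F.lt c.1 c'.1
      le_refl := fun c => Or.inl rfl
      le_trans := by
        rintro a b c (rfl | h1) (rfl | h2)
        · exact Or.inl rfl
        · exact Or.inr h2
        · exact Or.inr h1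
        · exact Or.inr (h.trans _ a.2 _ b.2 _ c.2 h1 h2)
      lt_iff_le_not_ge := by
        intro a b
        constructor
        · intro h1
          refine ⟨Or.inr h1, ?_⟩
          rintro (rfl | h2)
          · exact h.irr _ b.2 h1
          · exact h.irr _ a.2 (h.trans _ a.2 _ b.2 _ a.2 h1 h2)
        · rintro ⟨rfl | h1, h2⟩
          · exact absurd (Or.inl rfl) h2
          · exact h1
      le_antisymm := by
        rintro a b (rfl | h1) (h2 | h2)
        · rfl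
        · rfl
        · exact h2.symm
        · exact absurd (h.trans _ a.2 _ b.2 _ a.2 h1 h2) (h.irr _ a.2)
      le_total := by
        intro a b
        by_cases hab : a = b
        · exact Or.inl (Or.inl hab)
        · rcases h.total _ a.2 _ b.2 (fun e => hab (CL.inj e)) with h1 | h1
          · exact Or.inl (Or.inr h1)
          · exact Or.inr (Or.inr h1)
      toDecidableLE := Classical.decRel _ }
  have hlt : ∀ a b : CL F, a < b ↔ F.lt a.1 b.1 := fun _ _ => Iff.rfl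
  have hU' : (CL.val ⁻¹' U : Set (CL F)).Finite := hUf.preimage CL.inj.injOn
  have hY' : (CL.val ⁻¹' Y : Set (CL F)).Infinite := by
    intro hf
    apply hYi
    refine (hf.image CL.val).subset ?_
    intro y hy
    exact ⟨⟨y, hY hy⟩, hy, rfl⟩
  obtain ⟨Z, hZ, hZc⟩ := hY'.exists_subset_card_eq hU'.toFinset.card
  let e1 := hU'.toFinset.orderIsoOfFin rfl
  let e2 := Z.orderIsoOfFin hZc
  have hm : ∀ c, c ∈ U → ∀ hc : c ∈ F.cells, (⟨c, hc⟩ : CL F) ∈ hU'.toFinset := by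
    intro c hcU hc
    rw [Finite.mem_toFinset]
    exact hcU
  refine ⟨fun c => if hc : c ∈ U then (e2 (e1.symm ⟨⟨c, hU hc⟩, hm c hc (hU hc)⟩)).1.1 else c,
    ?_, ?_⟩
  · intro c hc
    simp only [hc, dif_pos]
    exact hZ (e2 (e1.symm ⟨⟨c, hU hc⟩, hm c hc (hU hc)⟩)).2
  · intro c hc c' hc' hcc
    simp only [hc, hc', dif_pos]
    rw [← hlt]
    have h1 : (⟨⟨c, hU hc⟩, hm c hc (hU hc)⟩ : hU'.toFinset) <
        ⟨⟨c', hU hc'⟩, hm c' hc' (hU hc')⟩ := hcc
    exact (e2.lt_iff_lt.2 (e1.symm.lt_iff_lt.2 h1))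

private theorem low_ok {F G : Fam κ} (hF : F.OK) (hG : G.OK) {B : Set (κ → ℕ)}
    (hBG : B ⊆ G.cells) (hBF : ∀ b ∈ B, ∀ k, b k ∉ F.supp) : (addLow F G B).OK := by
  have hne : Nonempty κ := hF.nonempty
  have hd : ∀ b ∈ B, b ∉ F.cells := fun b hb hb' =>
    hBF b hb (Classical.arbitrary κ) ⟨b, hb', _, rfl⟩
  refine ⟨?_, ?_, ?_, ?_, ?_, ?_⟩
  · rintro c (hc | hc)
    · exact hG.inj c (hBG hc)
    · exact hF.inj c hc
  · rintro c (hc | hc) c' (hc' | hc') k k' h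
    · exact hG.disj c (hBG hc) c' (hBG hc') k k' h
    · exact absurd ⟨c', hc', k', h.symm⟩ (hBF c hc k)
    · exact absurd ⟨c, hc, k, h⟩ (hBF c' hc' k')
    · exact hF.disj c hc c' hc' k k' h
  · rintro c hc (h | h | h)
    · exact hd c h.1 h.2
    · exact hG.irr c (hBG h.1) h.2.2
    · exact hF.irr c h.1 h.2.2
  · rintro c hc c' hc' c'' hc'' (h | h | h) (h' | h' | h')
    · exact absurd h.2 (hd c' h'.1)
    · exact absurd h.2 (hd c' h'.1)
    · exact Or.inl ⟨h.1, h'.2.1⟩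
    · exact Or.inl ⟨h.1, h'.2⟩
    · exact Or.inr (Or.inl ⟨h.1, h'.2.1, hG.trans c (hBG h.1) c' (hBG h.2.1) c'' (hBG h'.2.1)
        h.2.2 h'.2.2⟩)
    · exact absurd h'.1 (hd c' h.2.1)
    · exact absurd h.2.1 (hd c' h'.1)
    · exact absurd h.2.1 (hd c' h'.1)
    · exact Or.inr (Or.inr ⟨h.1, h'.2.1, hF.trans c h.1 c' h.2.1 c'' h'.2.1 h.2.2 h'.2.2⟩)
  · rintro c (hc | hc) c' (hc' | hc') h
    · rcases hG.total c (hBG hc) c' (hBG hc') h with h' | h'
      · exact Or.inl (Or.inr (Or.inl ⟨hc, hc', h'⟩))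
      · exact Or.inr (Or.inr (Or.inl ⟨hc', hc, h'⟩))
    · exact Or.inl (Or.inl ⟨hc, hc'⟩)
    · exact Or.inr (Or.inl ⟨hc', hc⟩)
    · rcases hF.total c hc c' hc' h with h' | h'
      · exact Or.inl (Or.inr (Or.inr ⟨hc, hc', h'⟩))
      · exact Or.inr (Or.inr (Or.inr ⟨hc', hc, h'⟩))
  · exact hF.inf.mono subset_union_right

/-- all used cells can be moved into `Y` in an order preserving way -/
private theorem low_move {F G : Fam κ} (hF : FN N F) (hG : FN N G) {Y B : Set (κ → ℕ)}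
    (hYF : Y ⊆ F.cells) (hYG : Y ⊆ G.cells) (hY : Y.Infinite)
    (hor : ∀ y ∈ Y, ∀ y' ∈ Y, F.lt y y' ↔ G.lt y y') (hBG : B ⊆ G.cells)
    (hBF : ∀ b ∈ B, ∀ k, b k ∉ F.supp) (hlow : ∀ b ∈ B, ∀ y ∈ Y, G.lt b y)
    (hull : ∀ g ∈ G.cells, (∃ c, (c ∈ B ∨ c ∈ Y) ∧ G.lt c g) → (∃ y ∈ Y, G.lt g y) →
      g ∈ B ∨ ∃ f ∈ F.cells, range f = range g) (t : Fin r → ℕ) :
    ∃ Θ : (κ → ℕ) → (κ → ℕ), (∀ c, Used (addLow F G B) t c → Θ c ∈ Y) ∧
      (∀ c c', Used (addLow F G B) t c → Used (addLow F G B) t c' → (addLow F G B).lt c c' →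
        F.lt (Θ c) (Θ c')) ∧ N (fun j => (addLow F G B).mv Θ (t j)) = N t := by
  classical
  have hne : Nonempty κ := hF.ok.nonempty
  have hH := low_ok hF.ok hG.ok hBG hBF
  have hd : ∀ b ∈ B, b ∉ F.cells := fun b hb hb' =>
    hBF b hb (Classical.arbitrary κ) ⟨b, hb', _, rfl⟩
  obtain ⟨y0, hy0⟩ := hY.nonempty
  -- step 1
  obtain ⟨ψ, hψ1, hψ2⟩ := mono_emb hF.ok (U := {c | Used F t c}) (fun c hc => hc.1)
    (used_finite hF.ok t).1 hYF hY
  have hψm : Mv F t ψ := by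
    refine ⟨fun c hc => hYF (hψ1 c hc), fun c c' hc hc' he => ?_⟩
    by_contra hcc
    rcases hF.ok.total c hc.1 c' hc'.1 hcc with h | h
    · have := hψ2 c hc c' hc' h
      rw [he] at this
      exact hF.ok.irr _ (hYF (hψ1 c' hc')) this
    · have := hψ2 c' hc' c hc h
      rw [he] at this
      exact hF.ok.irr _ (hYF (hψ1 c' hc')) this
  have h1 : N (fun j => F.mv ψ (t j)) = N t := hF.free t ψ hψm
    (fun c c' hc hc' h => hψ2 c ⟨hc.1, by
      obtain ⟨j, hj⟩ := hc.2 (Classical.arbitrary κ)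
      exact ⟨j, _, hj⟩⟩ c' ⟨hc'.1, by
      obtain ⟨j, hj⟩ := hc'.2 (Classical.arbitrary κ)
      exact ⟨j, _, hj⟩⟩ h)
  set t1 : Fin r → ℕ := fun j => F.mv ψ (t j) with ht1
  -- the points of `t1` in `F.supp` are in used cells in `Y`
  have hs1 : ∀ j, t j ∈ F.supp → ∃ c, Used F t c ∧ ∃ k, t j = c k ∧ t1 j = ψ c k := by
    rintro j ⟨c, hc, k, hk⟩
    exact ⟨c, ⟨hc, j, k, hk.symm⟩, k, hk.symm, by
      rw [ht1]
      simp only
      rw [← hk, Fam.mv_cell hF.ok ψ hc k]⟩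
  have hs2 : ∀ j, t j ∉ F.supp → t1 j = t j := fun j hj => Fam.mv_out ψ hj
  -- step 2
  let U2 : Set (κ → ℕ) := {c | Used G t1 c ∧ (c ∈ B ∨ c ∈ Y)}
  obtain ⟨χ, hχ1, hχ2⟩ := mono_emb hG.ok (U := U2) (fun c hc => hc.1.1)
    ((used_finite hG.ok t1).1.subset fun c hc => hc.1) hYG hY
  have hχi : ∀ c ∈ U2, ∀ c' ∈ U2, χ c = χ c' → c = c' := by
    intro c hc c' hc' he
    by_contra hcc
    rcases hG.ok.total c hc.1.1 c' hc'.1.1 hcc with h | h
    · have := hχ2 c hc c' hc' h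
      rw [he] at this
      exact hG.ok.irr _ (hYG (hχ1 c' hc')) this
    · have := hχ2 c' hc' c hc h
      rw [he] at this
      exact hG.ok.irr _ (hYG (hχ1 c' hc')) this
  let χ' : (κ → ℕ) → (κ → ℕ) := fun c => if c ∈ B ∨ c ∈ Y then χ c else c
  have hχ'1 : ∀ c, (c ∈ B ∨ c ∈ Y) → χ' c = χ c := fun c hc => if_pos hc
  have hχ'2 : ∀ c, ¬ (c ∈ B ∨ c ∈ Y) → χ' c = c := fun c hc => if_neg hc
  have hm2 : Mv G t1 χ' := by
    refine ⟨fun c hc => ?_, fun c c' hc hc' he => ?_⟩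
    · by_cases hcb : c ∈ B ∨ c ∈ Y
      · rw [hχ'1 c hcb]
        exact hYG (hχ1 c ⟨hc, hcb⟩)
      · rw [hχ'2 c hcb]
        exact hc.1
    · by_cases hcb : c ∈ B ∨ c ∈ Y
      · by_cases hcb' : c' ∈ B ∨ c' ∈ Y
        · rw [hχ'1 c hcb, hχ'1 c' hcb'] at he
          exact hχi c ⟨hc, hcb⟩ c' ⟨hc', hcb'⟩ he
        · rw [hχ'1 c hcb, hχ'2 c' hcb'] at he
          exact absurd (Or.inr (he ▸ hχ1 c ⟨hc, hcb⟩)) hcb'
      · by_cases hcb' : c' ∈ B ∨ c' ∈ Y
        · rw [hχ'2 c hcb, hχ'1 c' hcb'] at he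
          exact absurd (Or.inr (he ▸ hχ1 c' ⟨hc', hcb'⟩)) hcb
        · rw [hχ'2 c hcb, hχ'2 c' hcb'] at he
          exact he
  -- the points of `t1` outside `B`, `Y` are the ones of `t`, outside `F.supp`
  have hpt : ∀ j k c, c ∈ G.cells → ¬ (c ∈ B ∨ c ∈ Y) → t1 j = c k → t1 j = t j ∧ t j ∉ F.supp := by
    intro j k c hc hcb hj
    have hjF : t j ∉ F.supp := by
      intro h'
      obtain ⟨f, hf, k', -, hk'⟩ := hs1 j h'
      rw [hk'] at hj
      have := hG.ok.disj _ (hYG (hψ1 f hf)) c hc k' k hj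
      exact hcb (Or.inr (this ▸ hψ1 f hf))
    exact ⟨hs2 j hjF, hjF⟩
  have hfull : ∀ g, Full G t1 g → ¬ (g ∈ B ∨ g ∈ Y) →
      (∀ c, (c ∈ B ∨ c ∈ Y) → G.lt g c) ∨ ∀ c, (c ∈ B ∨ c ∈ Y) → G.lt c g := by
    intro g hg hgb
    have hgF : ¬ ∃ f ∈ F.cells, range f = range g := by
      rintro ⟨f, hf, he⟩
      have k := Classical.arbitrary κ
      obtain ⟨j, hj⟩ := hg.2 k
      have h' := hpt j k g hg.1 hgb hj
      have : g k ∈ range f := by
        rw [he]
        exact ⟨k, rfl⟩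
      obtain ⟨k', hk'⟩ := this
      exact h'.2 ⟨f, hf, k', by rw [hk', ← hj, h'.1]⟩
    have hcG : ∀ c, (c ∈ B ∨ c ∈ Y) → c ∈ G.cells := fun c hc => hc.elim (fun h => hBG h)
      (fun h => hYG h)
    by_cases hlo : ∃ c, (c ∈ B ∨ c ∈ Y) ∧ G.lt c g
    · right
      have hup : ∀ y ∈ Y, G.lt y g := by
        intro y hy
        have hyg : y ≠ g := fun e => hgb (Or.inr (e ▸ hy))
        refine (hG.ok.total y (hYG hy) g hg.1 hyg).resolve_right fun h' => ?_
        exact (hull g hg.1 hlo ⟨y, hy, h'⟩).elim (fun h => hgb (Or.inl h)) hgF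
      rintro c (hc | hc)
      · exact hG.ok.trans c (hBG hc) y0 (hYG hy0) g hg.1 (hlow c hc y0 hy0) (hup y0 hy0)
      · exact hup c hc
    · left
      intro c hc
      have hcg : c ≠ g := fun e => hgb (e ▸ hc)
      exact (hG.ok.total c (hcG c hc) g hg.1 hcg).resolve_left fun h' => hlo ⟨c, hc, h'⟩
  have hused : ∀ c, Full G t1 c → Used G t1 c := fun c hc => ⟨hc.1, by
    obtain ⟨j, hj⟩ := hc.2 (Classical.arbitrary κ)
    exact ⟨j, _, hj⟩⟩
  have h2 : N (fun j => G.mv χ' (t1 j)) = N t1 := by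
    refine hG.free t1 χ' hm2 fun c c' hc hc' h => ?_
    by_cases hcb : c ∈ B ∨ c ∈ Y
    · by_cases hcb' : c' ∈ B ∨ c' ∈ Y
      · rw [hχ'1 c hcb, hχ'1 c' hcb']
        exact hχ2 c ⟨hused c hc, hcb⟩ c' ⟨hused c' hc', hcb'⟩ h
      · rw [hχ'1 c hcb, hχ'2 c' hcb']
        rcases hfull c' hc' hcb' with h' | h'
        · exact absurd (hG.ok.trans c hc.1 c' hc'.1 c hc.1 h (h' c hcb)) (hG.ok.irr c hc.1)
        · exact h' _ (Or.inr (hχ1 c ⟨hused c hc, hcb⟩))
    · by_cases hcb' : c' ∈ B ∨ c' ∈ Y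
      · rw [hχ'2 c hcb, hχ'1 c' hcb']
        rcases hfull c hc hcb with h' | h'
        · exact h' _ (Or.inr (hχ1 c' ⟨hused c' hc', hcb'⟩))
        · exact absurd (hG.ok.trans c hc.1 c' hc'.1 c hc.1 h (h' c' hcb')) (hG.ok.irr c hc.1)
      · rw [hχ'2 c hcb, hχ'2 c' hcb']
        exact h
  -- the composition
  let Θ : (κ → ℕ) → (κ → ℕ) := fun c => if c ∈ B then χ c else χ (ψ c)
  have hΘ1 : ∀ c ∈ B, Θ c = χ c := fun c hc => if_pos hc
  have hΘ2 : ∀ c ∈ F.cells, Θ c = χ (ψ c) := fun c hc => if_neg fun h => hd c h hc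
  have hUB : ∀ c ∈ B, Used (addLow F G B) t c → c ∈ U2 := by
    rintro c hc ⟨-, j, k, hj⟩
    refine ⟨⟨hBG hc, j, k, ?_⟩, Or.inl hc⟩
    rw [hs2 j (by rw [hj]; exact hBF c hc k), hj]
  have hUF : ∀ c ∈ F.cells, Used (addLow F G B) t c → ψ c ∈ U2 ∧ Used F t c := by
    rintro c hc ⟨-, j, k, hj⟩
    have hu : Used F t c := ⟨hc, j, k, hj⟩
    refine ⟨⟨⟨hYG (hψ1 c hu), j, k, ?_⟩, Or.inr (hψ1 c hu)⟩, hu⟩
    rw [ht1]
    simp only
    rw [hj, Fam.mv_cell hF.ok ψ hc k]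
  refine ⟨Θ, ?_, ?_, ?_⟩
  · intro c hc
    rcases hc.1 with h | h
    · rw [hΘ1 c h]
      exact hχ1 c (hUB c h hc)
    · rw [hΘ2 c h]
      exact hχ1 _ (hUF c h hc).1
  · have hfin : ∀ c c', c ∈ U2 → c' ∈ U2 → G.lt c c' → F.lt (χ c) (χ c') := fun c c' hc hc' h =>
      (hor _ (hχ1 c hc) _ (hχ1 c' hc')).2 (hχ2 c hc c' hc' h)
    rintro c c' hc hc' (h | h | h)
    · rw [hΘ1 c h.1, hΘ2 c' h.2]
      exact hfin _ _ (hUB c h.1 hc) (hUF c' h.2 hc').1
        (hlow c h.1 _ (hψ1 c' (hUF c' h.2 hc').2))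
    · rw [hΘ1 c h.1, hΘ1 c' h.2.1]
      exact hfin _ _ (hUB c h.1 hc) (hUB c' h.2.1 hc') h.2.2
    · rw [hΘ2 c h.1, hΘ2 c' h.2.1]
      refine hfin _ _ (hUF c h.1 hc).1 (hUF c' h.2.1 hc').1 ?_
      exact (hor _ (hψ1 c (hUF c h.1 hc).2) _ (hψ1 c' (hUF c' h.2.1 hc').2)).1
        (hψ2 c (hUF c h.1 hc).2 c' (hUF c' h.2.1 hc').2 h.2.2)
  · rw [← h1, ← h2]
    congr 1
    funext j
    by_cases hjF : t j ∈ F.supp
    · obtain ⟨c, hc, k, hk, hk'⟩ := hs1 j hjF
      rw [hk', hk, Fam.mv_cell hH Θ (Or.inr hc.1) k, hΘ2 c hc.1,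
        Fam.mv_cell hG.ok χ' (hYG (hψ1 c hc)) k, hχ'1 _ (Or.inr (hψ1 c hc))]
    · rw [hs2 j hjF]
      by_cases hjB : ∃ c ∈ B, ∃ k, c k = t j
      · obtain ⟨c, hc, k, hk⟩ := hjB
        rw [← hk, Fam.mv_cell hH Θ (Or.inl hc) k, hΘ1 c hc,
          Fam.mv_cell hG.ok χ' (hBG hc) k, hχ'1 _ (Or.inl hc)]
      · have hjH : t j ∉ (addLow F G B).supp := by
          rintro ⟨c, hc | hc, k, hk⟩
          · exact hjB ⟨c, hc, k, hk⟩
          · exact hjF ⟨c, hc, k, hk⟩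
        rw [Fam.mv_out Θ hjH]
        symm
        apply Fam.mv_fix hG.ok
        rintro c hc ⟨k, hk⟩
        apply hχ'2
        rintro (hcb | hcb)
        · exact hjB ⟨c, hcb, k, hk⟩
        · exact hjF ⟨c, hYF hcb, k, hk⟩

/-- ADD. `F`, `G` are free families with an infinite common set `Y` of cells on which the orders
agree, `B` is a set of cells of `G`, disjoint from `F.supp` and below `Y`, and every cell of `G`
between a cell of `B` and a cell of `Y` or between two cells of `Y` is in `B` or has the range of a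
cell of `F`. Then `F` with `B` below is a free family. PROOF. Let `t`, `φ` be an admissible move of
`H = addLow F G B`. (1) Move all used cells of `F` in `t` into `Y`, in an order preserving way
(`gen_pos`, for `F`; the points of `B` are outside `F.supp` and are not moved). (2) Move all used cells
of `B` and all the cells in `Y` into `Y`, in an order preserving way, in `G`, keeping all other used
cells of `G` fixed: these consist of points outside `H.supp` (as far as used); a full one is not of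
the range of a cell of `F` and not in `B`, so it is not between the moved cells and their images. Now
all `H`-cells used are in `Y`, their order pattern is the one of `H`. (3) The same for the tuple moved
by `φ`. (4) The two results differ by a move of `F` inside `Y` (order preserving on full cells).
`nsym`: the witness of `F` with the identity on `B`. -/
theorem add_low {F G : Fam κ} (hF : FN N F) (hG : FN N G) {Y B : Set (κ → ℕ)}
    (hYF : Y ⊆ F.cells) (hYG : Y ⊆ G.cells) (hY : Y.Infinite)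
    (hor : ∀ y ∈ Y, ∀ y' ∈ Y, F.lt y y' ↔ G.lt y y') (hBG : B ⊆ G.cells)
    (hBF : ∀ b ∈ B, ∀ k, b k ∉ F.supp) (hlow : ∀ b ∈ B, ∀ y ∈ Y, G.lt b y)
    (hull : ∀ g ∈ G.cells, (∃ c, (c ∈ B ∨ c ∈ Y) ∧ G.lt c g) → (∃ y ∈ Y, G.lt g y) →
      g ∈ B ∨ ∃ f ∈ F.cells, range f = range g) : FN N (addLow F G B) := by
  classical
  have hne : Nonempty κ := hF.ok.nonempty
  have hH := low_ok hF.ok hG.ok hBG hBF
  have hd : ∀ b ∈ B, b ∉ F.cells := fun b hb hb' =>
    hBF b hb (Classical.arbitrary κ) ⟨b, hb', _, rfl⟩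
  refine ⟨hH, fun t φ hφ hmon => ?_, ?_⟩
  · obtain ⟨Θ, h1, h2, h3⟩ := low_move hF hG hYF hYG hY hor hBG hBF hlow hull t
    obtain ⟨Θ', h1', h2', h3'⟩ := low_move hF hG hYF hYG hY hor hBG hBF hlow hull
      (fun j => (addLow F G B).mv φ (t j))
    rw [← h3, ← h3']
    have hu' : ∀ c, Used (addLow F G B) t c →
        Used (addLow F G B) (fun j => (addLow F G B).mv φ (t j)) (φ c) := fun c hc =>
      (used_mv hH hφ (φ c)).2 ⟨c, hc, rfl⟩
    have hΘi : ∀ c c', Used (addLow F G B) t c → Used (addLow F G B) t c' → Θ c = Θ c' → c = c' := by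
      intro c c' hc hc' he
      by_contra hcc
      rcases hH.total c hc.1 c' hc'.1 hcc with h | h
      · have := h2 c c' hc hc' h
        rw [he] at this
        exact hF.ok.irr _ (hYF (h1 c' hc')) this
      · have := h2 c' c hc' hc h
        rw [he] at this
        exact hF.ok.irr _ (hYF (h1 c' hc')) this
    have hΘi' : ∀ c c', Used (addLow F G B) t c → Used (addLow F G B) t c' →
        Θ' (φ c) = Θ' (φ c') → c = c' := by
      intro c c' hc hc' he
      by_contra hcc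
      have hcc' : φ c ≠ φ c' := fun e => hcc (hφ.2 c c' hc hc' e)
      rcases hH.total _ (hφ.1 c hc) _ (hφ.1 c' hc') hcc' with h | h
      · have := h2' _ _ (hu' c hc) (hu' c' hc') h
        rw [he] at this
        exact hF.ok.irr _ (hYF (h1' _ (hu' c' hc'))) this
      · have := h2' _ _ (hu' c' hc') (hu' c hc) h
        rw [he] at this
        exact hF.ok.irr _ (hYF (h1' _ (hu' c' hc'))) this
    -- the two results differ by a move of `F`
    set s : Fin r → ℕ := fun j => (addLow F G B).mv Θ (t j) with hs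
    have hval : ∀ j c k, c ∈ (addLow F G B).cells → t j = c k → s j = Θ c k := by
      intro j c k hc hj
      rw [hs]
      simp only
      rw [hj, Fam.mv_cell hH Θ hc k]
    have hval' : ∀ j, t j ∉ (addLow F G B).supp → s j = t j := fun j hj => Fam.mv_out Θ hj
    have hFH : F.supp ⊆ (addLow F G B).supp := by
      rintro a ⟨c, hc, k, hk⟩
      exact ⟨c, Or.inr hc, k, hk⟩
    have husedF : ∀ d, Used F s d → ∃ c, Used (addLow F G B) t c ∧ Θ c = d := by
      rintro d ⟨hd', j, k, hj⟩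
      have hjs : t j ∈ (addLow F G B).supp := by
        by_contra hn
        rw [hval' j hn] at hj
        exact hn (hFH ⟨d, hd', k, hj.symm⟩)
      obtain ⟨c, hc, k', hk'⟩ := hjs
      have hcu : Used (addLow F G B) t c := ⟨hc, j, k', hk'.symm⟩
      refine ⟨c, hcu, ?_⟩
      have := hval j c k' hc hk'.symm
      rw [hj] at this
      exact (hF.ok.disj d hd' _ (hYF (h1 c hcu)) k k' this).symm
    have hfullF : ∀ c, Used (addLow F G B) t c → Full F s (Θ c) → Full (addLow F G B) t c := by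
      intro c hc hf
      refine ⟨hc.1, fun k => ?_⟩
      obtain ⟨j, hj⟩ := hf.2 k
      have hjs : t j ∈ (addLow F G B).supp := by
        by_contra hn
        rw [hval' j hn] at hj
        exact hn (hFH ⟨Θ c, hf.1, k, hj.symm⟩)
      obtain ⟨c', hc', k', hk'⟩ := hjs
      have hcu : Used (addLow F G B) t c' := ⟨hc', j, k', hk'.symm⟩
      have h4 := hval j c' k' hc' hk'.symm
      rw [hj] at h4
      have h5 := hF.ok.disj _ (hYF (h1 c hc)) _ (hYF (h1 c' hcu)) k k' h4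
      have h6 := hΘi c c' hc hcu h5
      subst h6
      have h7 : k = k' := hF.ok.inj _ (hYF (h1 c hc)) h4
      exact ⟨j, by rw [h7, hk']⟩
    let ρ : (κ → ℕ) → (κ → ℕ) := fun d =>
      if h : ∃ c, Used (addLow F G B) t c ∧ Θ c = d then Θ' (φ h.choose) else d
    have hρ : ∀ c, Used (addLow F G B) t c → ρ (Θ c) = Θ' (φ c) := by
      intro c hc
      have hex : ∃ c', Used (addLow F G B) t c' ∧ Θ c' = Θ c := ⟨c, hc, rfl⟩
      show (if h : ∃ c', Used (addLow F G B) t c' ∧ Θ c' = Θ c then Θ' (φ h.choose) else Θ c) = _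
      rw [dif_pos hex]
      rw [hΘi _ _ hex.choose_spec.1 hc hex.choose_spec.2]
    have hmv : Mv F s ρ := by
      refine ⟨fun d hd' => ?_, fun d d' hd1 hd2 he => ?_⟩
      · obtain ⟨c, hc, rfl⟩ := husedF d hd'
        rw [hρ c hc]
        exact hYF (h1' _ (hu' c hc))
      · obtain ⟨c, hc, rfl⟩ := husedF d hd1
        obtain ⟨c', hc', rfl⟩ := husedF d' hd2
        rw [hρ c hc, hρ c' hc'] at he
        rw [hΘi' c c' hc hc' he]
    have hmo : Mon F s ρ := by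
      intro d d' hd1 hd2 hlt
      have hus : ∀ d, Full F s d → Used F s d := fun d hf => ⟨hf.1, by
        obtain ⟨j, hj⟩ := hf.2 (Classical.arbitrary κ)
        exact ⟨j, _, hj⟩⟩
      obtain ⟨c, hc, rfl⟩ := husedF d (hus d hd1)
      obtain ⟨c', hc', rfl⟩ := husedF d' (hus d' hd2)
      rw [hρ c hc, hρ c' hc']
      refine h2' _ _ (hu' c hc) (hu' c' hc') (hmon c c' (hfullF c hc hd1) (hfullF c' hc' hd2) ?_)
      have hcc : c ≠ c' := by
        rintro rfl
        exact hF.ok.irr _ (hYF (h1 c hc)) hlt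
      refine (hH.total c hc.1 c' hc'.1 hcc).resolve_right fun h => ?_
      exact hF.ok.irr _ (hYF (h1 c hc)) (hF.ok.trans _ (hYF (h1 c hc)) _ (hYF (h1 c' hc')) _
        (hYF (h1 c hc)) hlt (h2 c' c hc' hc h))
    have h4 := hF.free s ρ hmv hmo
    rw [← h4]
    congr 1
    funext j
    by_cases hjs : t j ∈ (addLow F G B).supp
    · obtain ⟨c, hc, k, hk⟩ := hjs
      have hcu : Used (addLow F G B) t c := ⟨hc, j, k, hk.symm⟩
      rw [hval j c k hc hk.symm, Fam.mv_cell hF.ok ρ (hYF (h1 c hcu)) k, hρ c hcu, ← hk,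
        Fam.mv_cell hH φ hc k, Fam.mv_cell hH Θ' (hφ.1 c hcu) k]
    · rw [hval' j hjs, Fam.mv_out φ hjs, Fam.mv_out Θ' hjs,
        Fam.mv_out ρ (fun h => hjs (hFH h))]
  · obtain ⟨t, φ, hφ, hn⟩ := hF.nsym
    let φ' : (κ → ℕ) → (κ → ℕ) := fun c => if c ∈ B then c else φ c
    have hφ1 : ∀ c ∈ B, φ' c = c := fun c hc => if_pos hc
    have hφ2 : ∀ c ∈ F.cells, φ' c = φ c := fun c hc => if_neg fun h => hd c h hc
    have huF : ∀ c ∈ F.cells, Used (addLow F G B) t c → Used F t c := fun c hc hu => ⟨hc, hu.2⟩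
    refine ⟨t, φ', ⟨?_, ?_⟩, ?_⟩
    · rintro c hc
      rcases hc.1 with h | h
      · rw [hφ1 c h]
        exact Or.inl h
      · rw [hφ2 c h]
        exact Or.inr (hφ.1 c (huF c h hc))
    · intro c c' hc hc' he
      rcases hc.1 with h | h
      · rcases hc'.1 with h' | h'
        · rw [hφ1 c h, hφ1 c' h'] at he
          exact he
        · rw [hφ1 c h, hφ2 c' h'] at he
          exact absurd (he ▸ hφ.1 c' (huF c' h' hc')) (hd c h)
      · rcases hc'.1 with h' | h'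
        · rw [hφ2 c h, hφ1 c' h'] at he
          exact absurd (he ▸ hφ.1 c (huF c h hc)) (hd c' h')
        · rw [hφ2 c h, hφ2 c' h'] at he
          exact hφ.2 c c' (huF c h hc) (huF c' h' hc') he
    · have e : (fun j => (addLow F G B).mv φ' (t j)) = fun j => F.mv φ (t j) := by
        funext j
        by_cases hjF : t j ∈ F.supp
        · obtain ⟨c, hc, k, hk⟩ := hjF
          rw [← hk, Fam.mv_cell hH φ' (Or.inr hc) k, Fam.mv_cell hF.ok φ hc k, hφ2 c hc]
        · rw [Fam.mv_out φ hjF]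
          apply Fam.mv_fix hH
          rintro c (hc | hc) ⟨k, hk⟩
          · exact hφ1 c hc
          · exact absurd ⟨c, hc, k, hk⟩ hjF
      rw [e]
      exact hn

/-- the same above (reverse both families) -/
theorem add_up {F G : Fam κ} (hF : FN N F) (hG : FN N G) {Y B : Set (κ → ℕ)}
    (hYF : Y ⊆ F.cells) (hYG : Y ⊆ G.cells) (hY : Y.Infinite)
    (hor : ∀ y ∈ Y, ∀ y' ∈ Y, F.lt y y' ↔ G.lt y y') (hBG : B ⊆ G.cells)
    (hBF : ∀ b ∈ B, ∀ k, b k ∉ F.supp) (hup : ∀ b ∈ B, ∀ y ∈ Y, G.lt y b)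
    (hull : ∀ g ∈ G.cells, (∃ c, (c ∈ B ∨ c ∈ Y) ∧ G.lt g c) → (∃ y ∈ Y, G.lt y g) →
      g ∈ B ∨ ∃ f ∈ F.cells, range f = range g) : FN N (addUp F G B) := by
  have e : addUp F G B = (addLow F.rev G.rev B).rev := by
    unfold addUp addLow Fam.rev
    congr 1
    funext c c'
    apply propext
    constructor
    · rintro (h | h | h)
      · exact Or.inl ⟨h.2, h.1⟩
      · exact Or.inr (Or.inl ⟨h.2.1, h.1, h.2.2⟩)
      · exact Or.inr (Or.inr ⟨h.2.1, h.1, h.2.2⟩)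
    · rintro (h | h | h)
      · exact Or.inl ⟨h.2, h.1⟩
      · exact Or.inr (Or.inl ⟨h.2.1, h.1, h.2.2⟩)
      · exact Or.inr (Or.inr ⟨h.2.1, h.1, h.2.2⟩)
  rw [e]
  refine FN.rev (add_low hF.rev hG.rev hYF hYG hY ?_ hBG hBF hup ?_)
  · intro y hy y' hy'
    exact hor y' hy' y hy
  · rintro g hg ⟨c, hc, hcg⟩ ⟨y, hy, hgy⟩
    exact hull g hg ⟨c, hc, hcg⟩ ⟨y, hy, hgy⟩

end Pool.H17.TC
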