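import Pool.Agent.H17.TB.Cax
import Pool.Agent.H22.VN.Dtr

/-!
# A subset without chain atoms is cellular
-/

set_option autoImplicit false

namespace Pool.H17.TC

open Pool.H22.VC Function Set Pool.H17.TA Pool.H17.TB

variable {r : ℕ} {K ι κ κ' : Type} {N : Col r K ℕ} {A : Set ℕ} {e : ℕ → ι → ℕ}

/-- PROOF. `D` is infinite: let `d : ℕ → ℕ` be a bijection onto `D`; `cellular_of_perp` for `MF N ∅ d`
(`MF_finite`, `wild_of_MF`, `hom_of_MF`, `teq_MF` of `H22/VN/Dtr`, exactly as in the proof of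
`H22/VN/Cel.cel_of_perp`); `MF_apply`. -/
theorem cell_on (hW : ¬ Wild N univ) (hN : (range N).Finite) {D : Set ℕ} (hD : D.Infinite)
    (hP : ∀ (A : Set ℕ) (ι : Type) [Finite ι] (e : ℕ → ι → ℕ), A.Finite → Hom N A e →
      (∀ i c, e i c ∈ D) → ∀ (κ κ' : Type) [Finite κ] [Finite κ'] (τ : κ → ι) (τ' : κ' → ι),
        Perp N A e τ τ') :
    ∃ (m : ℕ) (c : ℕ → Fin m) (q : ℕ → ℕ), ∀ t t' : Fin r → ℕ, (∀ j, t j ∈ D) →
      (∀ j, t' j ∈ D) → (∀ j, c (t j) = c (t' j)) →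
        (∀ i j, q (t i) = q (t j) ↔ q (t' i) = q (t' j)) → N t = N t' := by
  classical
  haveI : Infinite D := hD.to_subtype
  obtain ⟨E⟩ : Nonempty (ℕ ≃ D) := by
    haveI : Denumerable D := Classical.choice (nonempty_denumerable D)
    exact ⟨(Denumerable.eqv D).symm⟩
  let d : ℕ → ℕ := fun i => (E i : ℕ)
  have hd : Injective d := fun i j hij => E.injective (Subtype.ext hij)
  have hdD : ∀ i, d i ∈ D := fun i => (E i).2
  have hdF : ∀ i, d i ∉ (∅ : Set ℕ) := fun i h => h.elim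
  have hF : (∅ : Set ℕ).Finite := Set.finite_empty
  have hcell : Cellular (Pool.H22.VN.MF N ∅ d) := by
    refine Pool.H22.VN.cellular_of_perp (Pool.H22.VN.MF_finite hN hF)
      (fun h => hW (Pool.H22.VN.wild_of_MF hd hF hdF h)) ?_
    intro A ι _ e hA hH κ κ' _ _ τ τ'
    apply Pool.H22.VN.teq_MF
    exact hP (d '' A ∪ ∅) ι (fun i c => d (e i c)) ((hA.image d).union hF)
      (Pool.H22.VN.hom_of_MF hd hdF hH) (fun i c => hdD _) κ κ' τ τ'
  obtain ⟨m, c, q, -, hcq⟩ := hcell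
  let g : ℕ → ℕ := fun x => if h : x ∈ D then E.symm ⟨x, h⟩ else 0
  have hg : ∀ x ∈ D, d (g x) = x := by
    intro x hx
    simp only [g, d]
    rw [dif_pos hx, Equiv.apply_symm_apply]
  refine ⟨m, fun x => c (g x), fun x => q (g x), fun t t' ht ht' hc hq => ?_⟩
  have h1 := hcq (fun j => g (t j)) (fun j => g (t' j)) hc hq
  exact Pool.H22.VN.MF_apply _ _ h1 t t' (fun j => Or.inr ⟨j, (hg _ (ht j)).symm,
    (hg _ (ht' j)).symm⟩)

end Pool.H17.TC
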