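import Pool.Agent.H17.TC.Mx

/-!
# Common cells of maximal families
-/

set_option autoImplicit false

namespace Pool.H17.TC

open Pool.H22.VC Function Set Pool.H17.TA Pool.H17.TB

variable {r : ℕ} {K ι κ κ' : Type} {N : Col r K ℕ} {A : Set ℕ} {x : ℕ → κ → ℕ}

/-- Two maximal families with infinitely many common cells with a third family have infinitely many
common cells. -/
theorem com_trans (hW : ¬ Wild N univ) (hN : (range N).Finite) [Finite κ] {F F' G : Fam κ}
    (hF : FMax N F) (hF' : FMax N F') (hG : FN N G) (hi : (Com F G).Infinite)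
    (hi' : (Com F' G).Infinite) : (Com F F').Infinite := by
  classical
  have hGok := hG.ok
  have hfin := mx hW hN hF hG hi
  have hinf : (Com F' G ∩ Com F G).Infinite := by
    intro h1
    apply hi'
    refine (h1.union hfin).subset ?_
    intro c hc
    by_cases h2 : c ∈ Com F G
    · exact Or.inl ⟨hc, h2⟩
    · exact Or.inr ⟨hc.1, h2⟩
  have h1 : ∀ c, c ∈ Com F' G ∩ Com F G → ∃ c', c' ∈ F'.cells ∧ range c' = range c := by
    rintro c ⟨⟨-, c', hc', hr⟩, -⟩
    exact ⟨c', hc', hr⟩
  let f : (κ → ℕ) → (κ → ℕ) := fun c =>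
    if h : ∃ c', c' ∈ F'.cells ∧ range c' = range c then h.choose else c
  have hf : ∀ c, c ∈ Com F' G ∩ Com F G → f c ∈ F'.cells ∧ range (f c) = range c := by
    intro c hc
    have h2 := h1 c hc
    have h3 : f c = h2.choose := dif_pos h2
    rw [h3]
    exact h2.choose_spec
  obtain ⟨k₀⟩ := hGok.nonempty
  have hinj : InjOn f (Com F' G ∩ Com F G) := by
    intro c hc c' hc' he
    have h2 : range c = range c' := by
      rw [← (hf c hc).2, ← (hf c' hc').2, he]
    have h3 : c k₀ ∈ range c' := by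
      rw [← h2]
      exact ⟨k₀, rfl⟩
    obtain ⟨k', hk'⟩ := h3
    exact hGok.disj c hc.1.1 c' hc'.1.1 k₀ k' hk'.symm
  refine (hinf.image hinj).mono ?_
  rintro y ⟨c, hc, rfl⟩
  obtain ⟨-, c', hc', hr⟩ := hc.2
  exact ⟨(hf c hc).1, c', hc', hr.trans (hf c hc).2.symm⟩

end Pool.H17.TC
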