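import Pool.Agent.H17.TC.Fam

/-!
# General position and the visible transposition
-/

set_option autoImplicit false

namespace Pool.H17.TC

open Pool.H22.VC Function Set

variable {r : ℕ} {K κ κ' : Type} {N : Col r K ℕ}

private theorem exists_incr0 {S : Type} (R : S → S → Prop) (hst : IsStrictTotalOrder S R)
    (U : Finset S) {p : ℕ} (hp : U.card = p) : ∃ u : Fin p → S,
      (∀ s s', s < s' → R (u s) (u s')) ∧ range u = (U : Set S) := by
  classical
  let inst : LinearOrder S := linearOrderOfSTO R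
  refine ⟨U.orderEmbOfFin hp, fun s s' hs => (U.orderEmbOfFin hp).strictMono hs, ?_⟩
  rw [Finset.range_orderEmbOfFin]

/-- (auxiliary) increasing enumeration of a finite set of cells -/
theorem exists_incr {F : Fam κ} (h : F.OK) (U : Set (κ → ℕ)) (hU : U ⊆ F.cells)
    (hf : U.Finite) {p : ℕ} (hp : U.ncard = p) : ∃ u : Fin p → κ → ℕ, (∀ s, u s ∈ F.cells) ∧
      (∀ s s', s < s' → F.lt (u s) (u s')) ∧ range u = U := by
  classical
  have hst : IsStrictTotalOrder {c // c ∈ F.cells} (fun a b => F.lt a.1 b.1) :=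
    { trichotomous := by
        intro a b h1 h2
        by_contra hne
        rcases h.total a.1 a.2 b.1 b.2 (fun e => hne (Subtype.ext e)) with h3 | h3
        · exact h1 h3
        · exact h2 h3
      irrefl := fun a => h.irr a.1 a.2
      trans := fun a b c h1 h2 => h.trans a.1 a.2 b.1 b.2 c.1 c.2 h1 h2 }
  have hpre : {c : {c // c ∈ F.cells} | c.1 ∈ U}.Finite := hf.preimage Subtype.val_injective.injOn
  have hcard : hpre.toFinset.card = p := by
    rw [← Set.ncard_eq_toFinset_card _ hpre, ← hp]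
    have e : U = Subtype.val '' {c : {c // c ∈ F.cells} | c.1 ∈ U} := by
      ext c
      constructor
      · intro hc
        exact ⟨⟨c, hU hc⟩, hc, rfl⟩
      · rintro ⟨c', hc', rfl⟩
        exact hc'
    conv_rhs => rw [e]
    exact (Set.ncard_image_of_injective _ Subtype.val_injective).symm
  obtain ⟨u, hu1, hu2⟩ := exists_incr0 _ hst hpre.toFinset hcard
  refine ⟨fun s => (u s).1, fun s => (u s).2, hu1, ?_⟩
  ext c
  constructor
  · rintro ⟨s, rfl⟩
    have : u s ∈ range u := mem_range_self s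
    rw [hu2] at this
    exact hpre.mem_toFinset.1 (Finset.mem_coe.1 this)
  · intro hc
    have h1 : (⟨c, hU hc⟩ : {c // c ∈ F.cells}) ∈ range u := by
      rw [hu2]
      exact Finset.mem_coe.2 (hpre.mem_toFinset.2 hc)
    obtain ⟨s, hs⟩ := h1
    exact ⟨s, by simp only [hs]⟩

theorem incr_inj {F : Fam κ} (h : F.OK) {p : ℕ} {u : Fin p → κ → ℕ}
    (hu : ∀ s, u s ∈ F.cells) (hi : ∀ s s', s < s' → F.lt (u s) (u s')) : Injective u := by
  intro s s' hs
  rcases lt_trichotomy s s' with h1 | h1 | h1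
  · have := hi _ _ h1
    rw [hs] at this
    exact absurd this (h.irr _ (hu _))
  · exact h1
  · have := hi _ _ h1
    rw [hs] at this
    exact absurd this (h.irr _ (hu _))

theorem incr_iff {F : Fam κ} (h : F.OK) {p : ℕ} {u : Fin p → κ → ℕ}
    (hu : ∀ s, u s ∈ F.cells) (hi : ∀ s s', s < s' → F.lt (u s) (u s')) (s s' : Fin p) :
    F.lt (u s) (u s') ↔ s < s' := by
  refine ⟨fun h1 => ?_, hi s s'⟩
  rcases lt_trichotomy s s' with h2 | h2 | h2
  · exact h2
  · subst h2
    exact absurd h1 (h.irr _ (hu _))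
  · exact absurd (h.trans _ (hu _) _ (hu _) _ (hu _) h1 (hi _ _ h2)) (h.irr _ (hu _))

/-- General position: the used cells of `t` can be moved, in an order preserving way, into any
infinite set `Y` of cells. -/
theorem gen_pos {F : Fam κ} (h : F.OK) (t : Fin r → ℕ) (Y : Set (κ → ℕ)) (hY : Y ⊆ F.cells)
    (hi : Y.Infinite) :
    ∃ φ, Mv F t φ ∧ (∀ c, Used F t c → φ c ∈ Y) ∧
      ∀ c c', Used F t c → Used F t c' → F.lt c c' → F.lt (φ c) (φ c') := by
  classical
  obtain ⟨hf, -⟩ := used_finite h t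
  obtain ⟨u, hu1, hu2, hu3⟩ := exists_incr h {c | Used F t c} (fun c hc => hc.1) hf rfl
  obtain ⟨Y', hY1, hY2⟩ := hi.exists_subset_ncard_eq {c | Used F t c}.ncard
  have hY'f : Y'.Finite := by
    by_contra hc
    have h1 : Y'.ncard = 0 := Set.Infinite.ncard hc
    rw [h1] at hY2
    have h2 : {c | Used F t c} = ∅ := (Set.ncard_eq_zero hf).1 hY2.2.symm
    exact hc hY2.1
  obtain ⟨y, hy1, hy2, hy3⟩ := exists_incr h Y' (hY1.trans hY) hY'f hY2.2
  have hui := incr_inj h hu1 hu2
  have hyi := incr_inj h hy1 hy2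
  let φ : (κ → ℕ) → (κ → ℕ) := fun c => if h : ∃ s, u s = c then y h.choose else c
  have hφ : ∀ s, φ (u s) = y s := by
    intro s
    have hex : ∃ s', u s' = u s := ⟨s, rfl⟩
    have h1 : hex.choose = s := hui hex.choose_spec
    simp only [φ]
    rw [dif_pos hex, h1]
  have hus : ∀ c, Used F t c → ∃ s, u s = c := by
    intro c hc
    have : c ∈ range u := by
      rw [hu3]
      exact hc
    exact this
  refine ⟨φ, ⟨?_, ?_⟩, ?_, ?_⟩
  · intro c hc
    obtain ⟨s, rfl⟩ := hus c hc
    rw [hφ]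
    exact hy1 s
  · intro c c' hc hc' hcc
    obtain ⟨s, rfl⟩ := hus c hc
    obtain ⟨s', rfl⟩ := hus c' hc'
    rw [hφ, hφ] at hcc
    rw [hyi hcc]
  · intro c hc
    obtain ⟨s, rfl⟩ := hus c hc
    rw [hφ]
    apply hY1
    rw [← hy3]
    exact mem_range_self s
  · intro c c' hc hc' hcc
    obtain ⟨s, rfl⟩ := hus c hc
    obtain ⟨s', rfl⟩ := hus c' hc'
    rw [hφ, hφ]
    exact hy2 _ _ ((incr_iff h hu1 hu2 s s').1 hcc)

/-- The tuple given by a template `T` and cells `c`. -/
def ap {p : ℕ} (T : Fin r → ℕ ⊕ (Fin p × κ)) (c : Fin p → κ → ℕ) : Fin r → ℕ :=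
  fun j => Sum.elim id (fun q => c q.1 q.2) (T j)

/-- `c` is an increasing sequence of cells of `F` -/
def Inc (F : Fam κ) {p : ℕ} (c : Fin p → κ → ℕ) : Prop :=
  (∀ s, c s ∈ F.cells) ∧ ∀ s s', s < s' → F.lt (c s) (c s')

/-- Visible transposition: a template `T` with constants outside `F`, with places `i`, `i + 1`, and
two colours. -/
structure Jmp (N : Col r K ℕ) (F : Fam κ) (p : ℕ) (T : Fin r → ℕ ⊕ (Fin p × κ)) (i i' : Fin p)
    (ε ε' : K) : Prop where
  le : p ≤ r
  succ : (i' : ℕ) = (i : ℕ) + 1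
  out : ∀ j a, T j = Sum.inl a → a ∉ F.supp
  ne : ε ≠ ε'
  full : ∀ k, (∃ j, T j = Sum.inr (i, k)) ∧ ∃ j, T j = Sum.inr (i', k)
  inc : ∀ c, Inc F c → N (ap T c) = ε
  swp : ∀ c, Inc F c → N (ap T (fun s => c (Equiv.swap i i' s))) = ε'

private theorem ap_free' {F : Fam κ} (h : FN N F) {p : ℕ} (T : Fin r → ℕ ⊕ (Fin p × κ))
    (hT : ∀ j a, T j = Sum.inl a → a ∉ F.supp) (c d : Fin p → κ → ℕ)
    (hc : ∀ s, c s ∈ F.cells) (hd : ∀ s, d s ∈ F.cells) (ic : Injective c) (id' : Injective d)
    (ho : ∀ s s', (∀ k, ∃ j, T j = Sum.inr (s, k)) → (∀ k, ∃ j, T j = Sum.inr (s', k)) →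
      F.lt (c s) (c s') → F.lt (d s) (d s')) : N (ap T c) = N (ap T d) := by
  classical
  let φ : (κ → ℕ) → (κ → ℕ) := fun x => if h : ∃ s, c s = x then d h.choose else x
  have hφ : ∀ s, φ (c s) = d s := by
    intro s
    have hex : ∃ s', c s' = c s := ⟨s, rfl⟩
    have h1 : hex.choose = s := ic hex.choose_spec
    simp only [φ]
    rw [dif_pos hex, h1]
  have hus : ∀ x, Used F (ap T c) x → ∃ s, c s = x := by
    rintro x ⟨hx, j, k, hjk⟩
    unfold ap at hjk
    rcases hTj : T j with a | ⟨s, k'⟩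
    · rw [hTj] at hjk
      simp only [Sum.elim_inl, id_eq] at hjk
      exact absurd ⟨x, hx, k, hjk.symm⟩ (hT j a hTj)
    · rw [hTj] at hjk
      simp only [Sum.elim_inr] at hjk
      exact ⟨s, h.ok.disj _ (hc s) _ hx _ _ hjk⟩
  have hfull : ∀ s, Full F (ap T c) (c s) → ∀ k, ∃ j, T j = Sum.inr (s, k) := by
    rintro s ⟨-, hs⟩ k
    obtain ⟨j, hj⟩ := hs k
    refine ⟨j, ?_⟩
    unfold ap at hj
    rcases hTj : T j with a | ⟨s', k'⟩
    · rw [hTj] at hj
      simp only [Sum.elim_inl, id_eq] at hj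
      exact absurd ⟨_, hc s, k, hj.symm⟩ (hT j a hTj)
    · rw [hTj] at hj
      simp only [Sum.elim_inr] at hj
      have h1 : s' = s := ic (h.ok.disj _ (hc s') _ (hc s) _ _ hj)
      subst h1
      rw [h.ok.inj _ (hc s') hj]
  have hMv : Mv F (ap T c) φ := by
    constructor
    · intro x hx
      obtain ⟨s, rfl⟩ := hus x hx
      rw [hφ]
      exact hd s
    · intro x x' hx hx' hxx
      obtain ⟨s, rfl⟩ := hus x hx
      obtain ⟨s', rfl⟩ := hus x' hx'
      rw [hφ, hφ] at hxx
      rw [id' hxx]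
  have hMon : Mon F (ap T c) φ := by
    intro x x' hx hx' hxx
    have ux : ∃ s, c s = x := by
      obtain ⟨k⟩ := h.ok.nonempty
      obtain ⟨j, hj⟩ := hx.2 k
      exact hus x ⟨hx.1, j, k, hj⟩
    have ux' : ∃ s, c s = x' := by
      obtain ⟨k⟩ := h.ok.nonempty
      obtain ⟨j, hj⟩ := hx'.2 k
      exact hus x' ⟨hx'.1, j, k, hj⟩
    obtain ⟨s, rfl⟩ := ux
    obtain ⟨s', rfl⟩ := ux'
    rw [hφ, hφ]
    exact ho s s' (hfull s hx) (hfull s' hx') hxx
  rw [← h.free _ _ hMv hMon]
  congr 1
  funext j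
  unfold ap
  rcases hTj : T j with a | ⟨s, k⟩
  · simp only [Sum.elim_inl, id_eq]
    exact Fam.mv_out φ (hT j a hTj)
  · simp only [Sum.elim_inr]
    rw [Fam.mv_cell h.ok φ (hc s) k, hφ]

/-- JUMP. PROOF. Let `t`, `φ` be a witness of `nsym`, `u_0 < … < u_{p-1}` the used cells of `t` and `T`
the template of `t`. For a permutation `π` of `Fin p` the colour `val π = N (ap T (c ∘ π))` does not
depend on the increasing sequence `c` (`free`). `N t = val 1`, and the moved tuple has the colour
`val π` for some `π`. Adjacent transpositions generate all permutations, so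
`val π ≠ val (swap i (i + 1) ∘ π)` for some `π`, `i`. Rename the places by `π`. If the place `i` or the
place `i + 1` is not full then the two colours are equal by `free`. (`p ≥ 2`, `p ≤ r`.) -/
theorem exists_jmp [Finite κ] {F : Fam κ} (h : FN N F) :
    ∃ (p : ℕ) (T : Fin r → ℕ ⊕ (Fin p × κ)) (i i' : Fin p) (ε ε' : K), Jmp N F p T i i' ε ε' := by
  classical
  obtain ⟨t, φ, hMv, hne⟩ := h.nsym
  obtain ⟨hf, hle⟩ := used_finite h.ok t
  set p := {c | Used F t c}.ncard with hp
  obtain ⟨u, hu1, hu2, hu3⟩ := exists_incr h.ok {c | Used F t c} (fun c hc => hc.1) hf hp.symm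
  have hui := incr_inj h.ok hu1 hu2
  have hul := incr_iff h.ok hu1 hu2
  -- the template
  have hT0 : ∀ j, ∃ x : ℕ ⊕ (Fin p × κ), (∀ a, x = Sum.inl a → a = t j ∧ a ∉ F.supp) ∧
      ∀ q, x = Sum.inr q → t j = u q.1 q.2 := by
    intro j
    by_cases hj : t j ∈ F.supp
    · obtain ⟨c, hc, k, hk⟩ := hj
      have : c ∈ range u := by
        rw [hu3]
        exact ⟨hc, j, k, hk.symm⟩
      obtain ⟨s, rfl⟩ := this
      refine ⟨Sum.inr (s, k), by simp, ?_⟩
      intro q hq
      rw [← Sum.inr.inj hq]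
      exact hk.symm
    · refine ⟨Sum.inl (t j), ?_, by simp⟩
      intro a ha
      rw [← Sum.inl.inj ha]
      exact ⟨rfl, hj⟩
  choose T hT1 hT2 using hT0
  have hapt : ap T u = t := by
    funext j
    unfold ap
    rcases hTj : T j with a | q
    · simp only [Sum.elim_inl, id_eq]
      exact (hT1 j a hTj).1
    · simp only [Sum.elim_inr]
      exact (hT2 j q hTj).symm
  have hTout : ∀ j a, T j = Sum.inl a → a ∉ F.supp := fun j a ha => (hT1 j a ha).2
  -- moved tuple
  have huse : ∀ s, Used F t (u s) := by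
    intro s
    have : u s ∈ range u := mem_range_self s
    rw [hu3] at this
    exact this
  have hφi : Injective (fun s => φ (u s)) := fun s s' hs =>
    hui (hMv.2 _ _ (huse s) (huse s') hs)
  have hapm : ap T (fun s => φ (u s)) = fun j => F.mv φ (t j) := by
    funext j
    unfold ap
    rcases hTj : T j with a | q
    · simp only [Sum.elim_inl, id_eq]
      rw [← (hT1 j a hTj).1]
      exact (Fam.mv_out φ (hT1 j a hTj).2).symm
    · simp only [Sum.elim_inr]
      rw [hT2 j q hTj, Fam.mv_cell h.ok φ (hu1 _)]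
  have hcard2 : (range fun s => φ (u s)).ncard = p := by
    rw [← Set.image_univ, Set.ncard_image_of_injective _ hφi, Set.ncard_univ, Nat.card_fin]
  obtain ⟨w, hw1, hw2, hw3⟩ := exists_incr h.ok (range fun s => φ (u s)) (by
    rintro _ ⟨s, rfl⟩
    exact hMv.1 _ (huse s)) (finite_range _) hcard2
  have hwi := incr_inj h.ok hw1 hw2
  have hwl := incr_iff h.ok hw1 hw2
  have hπ0 : ∀ s, ∃ s', w s' = φ (u s) := by
    intro s
    have : φ (u s) ∈ range w := by
      rw [hw3]
      exact mem_range_self (f := fun s => φ (u s)) s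
    exact this
  choose π0 hπ0 using hπ0
  have hπi : Injective π0 := by
    intro s s' hs
    apply hφi
    show φ (u s) = φ (u s')
    rw [← hπ0 s, ← hπ0 s', hs]
  let π : Equiv.Perm (Fin p) := Equiv.ofBijective π0 (Finite.injective_iff_bijective.1 hπi)
  have hπ : ∀ s, π s = π0 s := fun s => rfl
  -- the colour of a permutation
  let val : Equiv.Perm (Fin p) → K := fun π => N (ap T (fun s => u (π s)))
  have hval1 : val 1 = N t := by
    show N (ap T (fun s => u ((1 : Equiv.Perm (Fin p)) s))) = N t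
    simp only [Equiv.Perm.coe_one, id_eq]
    rw [hapt]
  have hvalπ : val π = N (fun j => F.mv φ (t j)) := by
    rw [← hapm]
    have e : (fun s => φ (u s)) = fun s => w (π s) := by
      funext s
      rw [hπ, hπ0]
    rw [e]
    refine ap_free' h T hTout _ _ (fun s => hu1 _) (fun s => hw1 _) (hui.comp π.injective)
      (hwi.comp π.injective) ?_
    intro s s' _ _ hlt
    exact (hwl _ _).2 ((hul _ _).1 hlt)
  have hex : ∃ (ρ : Equiv.Perm (Fin p)) (i i' : Fin p), (i' : ℕ) = (i : ℕ) + 1 ∧
      val ρ ≠ val (Equiv.swap i i' * ρ) := by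
    by_contra hc
    push Not at hc
    apply hne
    rw [← hvalπ, ← hval1]
    have key : ∀ σ : Equiv.Perm (Fin p), val σ = val 1 := by
      intro σ
      rcases Nat.eq_zero_or_pos p with h0 | h0
      · have : Subsingleton (Equiv.Perm (Fin p)) := by
          constructor
          intro σ τ
          ext s
          exact absurd s.2 (by omega)
        rw [Subsingleton.elim σ 1]
      · obtain ⟨m, hm⟩ : ∃ m, p = m + 1 := ⟨p - 1, by omega⟩
        have gen : ∀ (q m : ℕ) (hq : q = m + 1) (val : Equiv.Perm (Fin q) → K)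
            (hc : ∀ (ρ : Equiv.Perm (Fin q)) (i i' : Fin q), (i' : ℕ) = (i : ℕ) + 1 →
              val ρ = val (Equiv.swap i i' * ρ)) (σ : Equiv.Perm (Fin q)), val σ = val 1 := by
          intro q m hq
          subst hq
          intro val hc σ
          have hσ : σ ∈ Submonoid.closure
              (Set.range fun i : Fin m => Equiv.swap i.castSucc i.succ) := by
            rw [Equiv.Perm.mclosure_swap_castSucc_succ]
            trivial
          refine Submonoid.closure_induction_left (motive := fun σ _ => val σ = val 1) rfl ?_ hσ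
          rintro _ ⟨i, rfl⟩ ρ _ ih
          rw [← ih]
          exact (hc ρ i.castSucc i.succ (by simp)).symm
        exact gen p m hm val hc σ
    exact key π
  obtain ⟨ρ, i, i', hii, hρ⟩ := hex
  let T' : Fin r → ℕ ⊕ (Fin p × κ) := fun j =>
    Sum.elim Sum.inl (fun q => Sum.inr (ρ q.1, q.2)) (T j)
  have hT'a : ∀ c : Fin p → κ → ℕ, ap T' c = ap T (fun s => c (ρ s)) := by
    intro c
    funext j
    unfold ap
    simp only [T']
    rcases T j with a | q <;> simp
  have hT'out : ∀ j a, T' j = Sum.inl a → a ∉ F.supp := by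
    intro j a ha
    simp only [T'] at ha
    rcases hTj : T j with a' | q
    · rw [hTj] at ha
      simp only [Sum.elim_inl, Sum.inl.injEq] at ha
      rw [← ha]
      exact hTout j a' hTj
    · rw [hTj] at ha
      simp at ha
  have hswlt : ∀ s s' : Fin p, ¬ (s = i ∧ s' = i') → s < s' → Equiv.swap i i' s < Equiv.swap i i' s' := by
    intro s s' hn hlt
    rw [Fin.lt_def] at hlt ⊢
    rcases eq_or_ne s i with rfl | h1
    · rw [Equiv.swap_apply_left]
      have h2 : s' ≠ i' := fun e => hn ⟨rfl, e⟩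
      have h3 : s' ≠ s := by
        rintro rfl
        exact lt_irrefl _ hlt
      rw [Equiv.swap_apply_of_ne_of_ne h3 h2]
      have : (s' : ℕ) ≠ (i' : ℕ) := fun e => h2 (Fin.ext e)
      omega
    · rcases eq_or_ne s i' with rfl | h2
      · rw [Equiv.swap_apply_right]
        have h3 : s' ≠ i := by
          rintro rfl
          omega
        have h4 : s' ≠ s := by
          rintro rfl
          exact lt_irrefl _ hlt
        rw [Equiv.swap_apply_of_ne_of_ne h3 h4]
        omega
      · rw [Equiv.swap_apply_of_ne_of_ne h1 h2]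
        rcases eq_or_ne s' i with rfl | h3
        · rw [Equiv.swap_apply_left]
          omega
        · rcases eq_or_ne s' i' with rfl | h4
          · rw [Equiv.swap_apply_right]
            have : (s : ℕ) ≠ (i : ℕ) := fun e => h1 (Fin.ext e)
            omega
          · rw [Equiv.swap_apply_of_ne_of_ne h3 h4]
            exact hlt
  have hinc : ∀ c, Inc F c → N (ap T' c) = val ρ := by
    intro c hc
    rw [hT'a]
    have hci := incr_inj h.ok hc.1 hc.2
    have hcl := incr_iff h.ok hc.1 hc.2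
    refine ap_free' h T hTout _ _ (fun s => hc.1 _) (fun s => hu1 _) (hci.comp ρ.injective)
      (hui.comp ρ.injective) ?_
    intro s s' _ _ hlt
    exact (hul _ _).2 ((hcl _ _).1 hlt)
  have hswp : ∀ c, Inc F c → N (ap T' (fun s => c (Equiv.swap i i' s))) =
      val (Equiv.swap i i' * ρ) := by
    intro c hc
    rw [hT'a]
    have hci := incr_inj h.ok hc.1 hc.2
    have hcl := incr_iff h.ok hc.1 hc.2
    refine ap_free' h T hTout _ _ (fun s => hc.1 _) (fun s => hu1 _)
      (hci.comp ((Equiv.swap i i').injective.comp ρ.injective))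
      (hui.comp (Equiv.swap i i' * ρ).injective) ?_
    intro s s' _ _ hlt
    exact (hul _ _).2 ((hcl _ _).1 hlt)
  refine ⟨p, T', i, i', val ρ, val (Equiv.swap i i' * ρ), hle, hii, hT'out, hρ, ?_, hinc, hswp⟩
  by_contra hnf
  push Not at hnf
  obtain ⟨k, hk⟩ := hnf
  apply hρ
  rw [← hinc u ⟨hu1, hu2⟩, ← hswp u ⟨hu1, hu2⟩]
  refine ap_free' h T' hT'out _ _ hu1 (fun s => hu1 _) hui (hui.comp (Equiv.swap i i').injective) ?_
  intro s s' hs hs' hlt
  refine (hul _ _).2 (hswlt s s' ?_ ((hul _ _).1 hlt))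
  rintro ⟨rfl, rfl⟩
  obtain ⟨j, hj⟩ := hs' k
  exact hk (hs k) j hj

/-- in particular two cells fit into an `r`-tuple -/
theorem FN.card_le [Finite κ] {F : Fam κ} (h : FN N F) : Nat.card κ ≤ r := by
  obtain ⟨p, T, i, i', ε, ε', hJ⟩ := exists_jmp h
  have h1 : ∀ k, ∃ j, T j = Sum.inr (i, k) := fun k => (hJ.full k).1
  choose f hf using h1
  have hi : Injective f := by
    intro k k' hk
    have h2 := hf k
    rw [hk, hf k'] at h2
    simp only [Sum.inr.injEq, Prod.mk.injEq, true_and] at h2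
    exact h2.symm
  have := Nat.card_le_card_of_injective f hi
  rwa [Nat.card_fin] at this

/-- General form of the invariance for templates: `c` and `d` are injective families of cells,
`T` has all constants outside `F`, and the order of the full places is the same. -/
theorem ap_free {F : Fam κ} (h : FN N F) {p : ℕ} (T : Fin r → ℕ ⊕ (Fin p × κ))
    (hT : ∀ j a, T j = Sum.inl a → a ∉ F.supp) (c d : Fin p → κ → ℕ)
    (hc : ∀ s, c s ∈ F.cells) (hd : ∀ s, d s ∈ F.cells) (ic : Injective c) (id' : Injective d)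
    (ho : ∀ s s', (∀ k, ∃ j, T j = Sum.inr (s, k)) → (∀ k, ∃ j, T j = Sum.inr (s', k)) →
      F.lt (c s) (c s') → F.lt (d s) (d s')) : N (ap T c) = N (ap T d) :=
  ap_free' h T hT c d hc hd ic id' ho

end Pool.H17.TC
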