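import Pool.Agent.H17.TB.Cax
import Pool.Agent.H17.TC.Jump

/-!
# Convex pieces of families
-/

set_option autoImplicit false

namespace Pool.H17.TC

open Pool.H22.VC Function Set Pool.H17.TA Pool.H17.TB

variable {r : ℕ} {K ι κ κ' : Type} {N : Col r K ℕ} {A : Set ℕ} {e : ℕ → ι → ℕ}

private theorem fam_max' (F : Fam κ) (h : F.OK) (S : Finset (κ → ℕ)) :
    S.Nonempty → (∀ c ∈ S, c ∈ F.cells) → ∃ m ∈ S, ∀ c ∈ S, c ≠ m → F.lt c m := by
  classical
  induction S using Finset.induction_on with
  | empty =>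
    intro h0
    exact absurd h0 (by simp)
  | insert a S ha ih =>
    intro _ hS
    rcases S.eq_empty_or_nonempty with h0 | h0
    · subst h0
      refine ⟨a, by simp, fun c hc hca => ?_⟩
      have : c = a := by simpa using hc
      exact absurd this hca
    · obtain ⟨m, hm, hmax⟩ := ih h0 (fun c hc => hS c (Finset.mem_insert_of_mem hc))
      have haF := hS a (Finset.mem_insert_self a S)
      have hmF := hS m (Finset.mem_insert_of_mem hm)
      have ham : a ≠ m := by
        rintro rfl
        exact ha hm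
      rcases h.total a haF m hmF ham with h1 | h1
      · refine ⟨m, Finset.mem_insert_of_mem hm, fun c hc hcm => ?_⟩
        rcases Finset.mem_insert.1 hc with rfl | hc
        · exact h1
        · exact hmax c hc hcm
      · refine ⟨a, Finset.mem_insert_self a S, fun c hc hca => ?_⟩
        rcases Finset.mem_insert.1 hc with rfl | hc
        · exact absurd rfl hca
        · rcases eq_or_ne c m with rfl | hcm
          · exact h1
          · exact h.trans c (hS c (Finset.mem_insert_of_mem hc)) m hmF a haF (hmax c hc hcm) h1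

/-- sorting a finite set of cells -/
private theorem sort_cells (F : Fam κ) (h : F.OK) : ∀ (p : ℕ) (S : Finset (κ → ℕ)), S.card = p →
    (∀ c ∈ S, c ∈ F.cells) → ∃ s : Fin p → κ → ℕ, Inc F s ∧ ∀ q, s q ∈ S := by
  classical
  intro p
  induction p with
  | zero =>
    intro S _ _
    exact ⟨fun q => q.elim0, ⟨fun q => q.elim0, fun q => q.elim0⟩, fun q => q.elim0⟩
  | succ p ih =>
    intro S hS hSF
    have hne : S.Nonempty := Finset.card_pos.1 (by omega)
    obtain ⟨m, hm, hmax⟩ := fam_max' F h S hne hSF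
    obtain ⟨s, ⟨hs1, hs2⟩, hs3⟩ := ih (S.erase m)
      (by rw [Finset.card_erase_of_mem hm]; omega)
      (fun c hc => hSF c (Finset.mem_of_mem_erase hc))
    refine ⟨Fin.snoc (α := fun _ => κ → ℕ) s m, ⟨?_, ?_⟩, ?_⟩
    · intro q
      refine Fin.lastCases ?_ (fun q => ?_) q
      · rw [Fin.snoc_last]
        exact hSF m hm
      · rw [Fin.snoc_castSucc]
        exact hs1 q
    · intro q q' hqq'
      revert hqq'
      refine Fin.lastCases ?_ (fun q' => ?_) q'
      · refine Fin.lastCases ?_ (fun q => ?_) q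
        · intro h1
          exact absurd h1 (lt_irrefl _)
        · intro _
          rw [Fin.snoc_last, Fin.snoc_castSucc]
          have h2 := Finset.mem_erase.1 (hs3 q)
          exact hmax _ h2.2 h2.1
      · refine Fin.lastCases ?_ (fun q => ?_) q
        · intro h1
          exact absurd h1 (not_lt.2 (Fin.le_last _))
        · intro h1
          rw [Fin.snoc_castSucc, Fin.snoc_castSucc]
          exact hs2 q q' (Fin.castSucc_lt_castSucc_iff.1 h1)
    · intro q
      refine Fin.lastCases ?_ (fun q => ?_) q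
      · rw [Fin.snoc_last]
        exact hm
      · rw [Fin.snoc_castSucc]
        exact Finset.mem_of_mem_erase (hs3 q)

private theorem inc_inj {F : Fam κ} (h : F.OK) {p : ℕ} {s : Fin p → κ → ℕ} (hs : Inc F s) :
    Injective s := by
  intro a b hab
  rcases lt_trichotomy a b with h1 | h1 | h1
  · have h2 := hs.2 a b h1
    rw [hab] at h2
    exact absurd h2 (h.irr _ (hs.1 b))
  · exact h1
  · have h2 := hs.2 b a h1
    rw [hab] at h2
    exact absurd h2 (h.irr _ (hs.1 b))

/-- An infinite convex part of a free non-symmetric family is one. PROOF. `free`: extend `φ` by the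
identity to the other used cells; the order of the full cells is preserved by convexity. `nsym`:
`exists_jmp`, with `p` increasing cells of `P` (`p` elements of an infinite linearly ordered set). -/
theorem sub_convex [Finite κ] {F : Fam κ} (hF : FN N F) {P : Set (κ → ℕ)} (hP : P ⊆ F.cells)
    (hi : P.Infinite) (hc : ∀ c ∈ P, ∀ c' ∈ F.cells, ∀ c'' ∈ P, F.lt c c' → F.lt c' c'' → c' ∈ P) :
    FN N ⟨P, F.lt⟩ := by
  classical
  have hok := hF.ok
  have hcv := hc
  have hok' : (Fam.mk P F.lt).OK := by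
    refine ⟨fun c hc => hok.inj c (hP hc), fun c hc c' hc' => hok.disj c (hP hc) c' (hP hc'),
      fun c hc => hok.irr c (hP hc),
      fun c hc c' hc' c'' hc'' => hok.trans c (hP hc) c' (hP hc') c'' (hP hc''),
      fun c hc c' hc' => hok.total c (hP hc) c' (hP hc'), hi⟩
  refine ⟨hok', ?_, ?_⟩
  · intro t φ hMv hMon
    let ψ : (κ → ℕ) → (κ → ℕ) := fun c => if c ∈ P then φ c else c
    have hψP : ∀ c, c ∈ P → ψ c = φ c := fun c hc => if_pos hc
    have hψn : ∀ c, c ∉ P → ψ c = c := fun c hc => if_neg hc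
    have hu : ∀ c, c ∈ P → Used F t c → Used (Fam.mk P F.lt) t c := fun c hc h => ⟨hc, h.2⟩
    have hMv' : Mv F t ψ := by
      constructor
      · intro c hc
        by_cases h1 : c ∈ P
        · rw [hψP c h1]
          exact hP (hMv.1 c (hu c h1 hc))
        · rw [hψn c h1]
          exact hc.1
      · intro c c' hc hc' he
        by_cases h1 : c ∈ P <;> by_cases h2 : c' ∈ P
        · rw [hψP c h1, hψP c' h2] at he
          exact hMv.2 c c' (hu c h1 hc) (hu c' h2 hc') he
        · rw [hψP c h1, hψn c' h2] at he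
          have h3 : φ c ∈ P := hMv.1 c (hu c h1 hc)
          rw [he] at h3
          exact absurd h3 h2
        · rw [hψn c h1, hψP c' h2] at he
          have h3 : φ c' ∈ P := hMv.1 c' (hu c' h2 hc')
          rw [← he] at h3
          exact absurd h3 h1
        · rw [hψn c h1, hψn c' h2] at he
          exact he
    have hfu : ∀ c, Full F t c → Used F t c := by
      rintro c ⟨h1, h2⟩
      obtain ⟨k₀⟩ := hok.nonempty
      obtain ⟨j, hj⟩ := h2 k₀
      exact ⟨h1, j, k₀, hj⟩
    have hMon' : Mon F t ψ := by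
      intro c c' hc hc' hlt
      by_cases h1 : c ∈ P <;> by_cases h2 : c' ∈ P
      · rw [hψP c h1, hψP c' h2]
        exact hMon c c' ⟨h1, hc.2⟩ ⟨h2, hc'.2⟩ hlt
      · rw [hψP c h1, hψn c' h2]
        have h3 : φ c ∈ P := hMv.1 c (hu c h1 (hfu c hc))
        have h4 : φ c ≠ c' := by
          intro h5
          rw [h5] at h3
          exact h2 h3
        rcases hok.total _ (hP h3) c' hc'.1 h4 with h5 | h5
        · exact h5
        · exact absurd (hcv c h1 c' hc'.1 (φ c) h3 hlt h5) h2
      · rw [hψn c h1, hψP c' h2]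
        have h3 : φ c' ∈ P := hMv.1 c' (hu c' h2 (hfu c' hc'))
        have h4 : c ≠ φ c' := by
          intro h5
          rw [← h5] at h3
          exact h1 h3
        rcases hok.total c hc.1 _ (hP h3) h4 with h5 | h5
        · exact h5
        · exact absurd (hcv (φ c') h3 c hc.1 c' h2 h5 hlt) h1
      · rw [hψn c h1, hψn c' h2]
        exact hlt
    have key := hF.free t ψ hMv' hMon'
    have he : (fun j => (Fam.mk P F.lt).mv φ (t j)) = fun j => F.mv ψ (t j) := by
      funext j
      by_cases h1 : ∃ c ∈ P, ∃ k, c k = t j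
      · obtain ⟨c, hcP, k, hk⟩ := h1
        rw [← hk, Fam.mv_cell hok' φ (c := c) hcP k, Fam.mv_cell hok ψ (hP hcP) k, hψP c hcP]
      · rw [Fam.mv_out φ (F := Fam.mk P F.lt) (a := t j) h1]
        symm
        refine Fam.mv_fix hok ψ ?_
        intro c hcF hk
        refine hψn c (fun h2 => h1 ⟨c, h2, hk⟩)
    rw [he]
    exact key
  · obtain ⟨p, T, i, i', ε, ε', hJ⟩ := exists_jmp hF
    obtain ⟨S, hSP, hSc⟩ := hi.exists_subset_card_eq p
    obtain ⟨s, hs, hsS⟩ := sort_cells F hok p S hSc (fun c hc => hP (hSP hc))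
    have hsP : ∀ q, s q ∈ P := fun q => hSP (hsS q)
    have hsi := inc_inj hok hs
    let φ : (κ → ℕ) → (κ → ℕ) := fun c => Equiv.swap (s i) (s i') c
    refine ⟨ap T s, φ, ⟨?_, ?_⟩, ?_⟩
    · intro c hc
      show Equiv.swap (s i) (s i') c ∈ P
      by_cases h1 : c = s i
      · rw [h1, Equiv.swap_apply_left]
        exact hsP i'
      · by_cases h2 : c = s i'
        · rw [h2, Equiv.swap_apply_right]
          exact hsP i
        · rw [Equiv.swap_apply_of_ne_of_ne h1 h2]
          exact hc.1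
    · intro c c' _ _ he
      exact (Equiv.swap (s i) (s i')).injective he
    · have he : (fun j => (Fam.mk P F.lt).mv φ (ap T s j)) =
          ap T (fun q => s (Equiv.swap i i' q)) := by
        funext j
        show (Fam.mk P F.lt).mv φ (Sum.elim id (fun z => s z.1 z.2) (T j)) =
          Sum.elim id (fun z => s (Equiv.swap i i' z.1) z.2) (T j)
        rcases hTj : T j with a | ⟨q, k⟩
        · show (Fam.mk P F.lt).mv φ a = a
          refine Fam.mv_out φ ?_
          rintro ⟨c, hc1, k, hk⟩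
          exact hJ.out j a hTj ⟨c, hP hc1, k, hk⟩
        · show (Fam.mk P F.lt).mv φ (s q k) = s (Equiv.swap i i' q) k
          rw [Fam.mv_cell hok' φ (c := s q) (hsP q) k]
          show (Equiv.swap (s i) (s i') (s q)) k = s (Equiv.swap i i' q) k
          rw [← hsi.swap_apply]
      rw [he, hJ.swp s hs, hJ.inc s hs]
      exact Ne.symm hJ.ne

/-- PROOF. For `S ⊆ E` let `P S` be the set of the cells `c ∉ E` with `F.lt e c ↔ e ∈ S` for all
`e ∈ E`; it is convex; take the infinite ones. -/
theorem cut [Finite κ] {F : Fam κ} (hF : FN N F) (E : Set (κ → ℕ)) (hE : E.Finite) :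
    ∃ (n : ℕ) (P : Fin n → Set (κ → ℕ)), (∀ b, FN N ⟨P b, F.lt⟩) ∧
      (∀ b, P b ⊆ F.cells \ E) ∧ (∀ b b', b ≠ b' → Disjoint (P b) (P b')) ∧
      (F.cells \ ⋃ b, P b).Finite := by
  classical
  have hok := hF.ok
  let E' : Set (κ → ℕ) := {c | c ∈ E ∧ c ∈ F.cells}
  have hE' : E'.Finite := hE.subset (fun c hc => hc.1)
  let P : Set (κ → ℕ) → Set (κ → ℕ) := fun S =>
    {c | (c ∈ F.cells ∧ c ∉ E) ∧ ∀ e ∈ E', F.lt e c ↔ e ∈ S}
  have hPF : ∀ S, P S ⊆ F.cells := fun S c hc => hc.1.1
  have hconv : ∀ S, ∀ c ∈ P S, ∀ c' ∈ F.cells, ∀ c'' ∈ P S, F.lt c c' → F.lt c' c'' →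
      c' ∈ P S := by
    intro S c hc c' hc' c'' hc'' h1 h2
    refine ⟨⟨hc', fun h3 => ?_⟩, fun e he => ⟨fun h3 => ?_, fun h3 => ?_⟩⟩
    · have h4 : c' ∈ S := (hc''.2 c' ⟨h3, hc'⟩).1 h2
      have h5 : F.lt c' c := (hc.2 c' ⟨h3, hc'⟩).2 h4
      exact hok.irr c hc.1.1 (hok.trans c hc.1.1 c' hc' c hc.1.1 h1 h5)
    · exact (hc''.2 e he).1 (hok.trans e he.2 c' hc' c'' hc''.1.1 h3 h2)
    · exact hok.trans e he.2 c hc.1.1 c' hc' ((hc.2 e he).2 h3) h1
  let I : Set (Set (κ → ℕ)) := {S | S ⊆ E' ∧ (P S).Infinite}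
  have hIfin : I.Finite := (hE'.finite_subsets).subset (fun S hS => hS.1)
  haveI : Finite I := hIfin.to_subtype
  obtain ⟨n, ⟨eq⟩⟩ := Finite.exists_equiv_fin I
  refine ⟨n, fun b => P (eq.symm b).1, fun b => ?_, fun b c hc => ⟨hc.1.1, hc.1.2⟩, ?_, ?_⟩
  · exact sub_convex hF (hPF _) (eq.symm b).2.2 (hconv _)
  · intro b b' hbb
    rw [Set.disjoint_left]
    intro c hc hc'
    apply hbb
    apply eq.symm.injective
    apply Subtype.ext
    ext e
    constructor
    · intro h1
      have h2 : e ∈ E' := (eq.symm b).2.1 h1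
      exact (hc'.2 e h2).1 ((hc.2 e h2).2 h1)
    · intro h1
      have h2 : e ∈ E' := (eq.symm b').2.1 h1
      exact (hc.2 e h2).1 ((hc'.2 e h2).2 h1)
  · have h1 : (⋃ S ∈ {S | S ⊆ E' ∧ (P S).Finite}, P S).Finite := by
      refine Set.Finite.biUnion ((hE'.finite_subsets).subset (fun S hS => hS.1)) ?_
      intro S hS
      exact hS.2
    refine (hE'.union h1).subset ?_
    rintro c ⟨hc1, hc2⟩
    by_cases h2 : c ∈ E
    · exact Or.inl ⟨h2, hc1⟩
    · right
      let S : Set (κ → ℕ) := {e | e ∈ E' ∧ F.lt e c}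
      have hcS : c ∈ P S := ⟨⟨hc1, h2⟩, fun e he => ⟨fun h3 => ⟨he, h3⟩, fun h3 => h3.2⟩⟩
      rw [mem_iUnion₂]
      refine ⟨S, ⟨fun e he => he.1, ?_⟩, hcS⟩
      by_contra h3
      apply hc2
      rw [mem_iUnion]
      refine ⟨eq ⟨S, fun e he => he.1, h3⟩, ?_⟩
      rw [Equiv.symm_apply_apply]
      exact hcS

end Pool.H17.TC
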