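import Pool.Agent.H17.TB.Cax
import Pool.Agent.H17.TC.Jump
import Pool.Agent.H92.BH.XRam

/-!
# A finite combinatorial lemma
-/

set_option autoImplicit false

namespace Pool.H17.TC

open Pool.H22.VC Function Set Pool.H17.TA Pool.H17.TB

variable {r : ℕ} {K ι κ κ' : Type} {N : Col r K ℕ} {A : Set ℕ} {e : ℕ → ι → ℕ}

/-- DELTA. For large `R`: among the `κ`-tuples `q l`, `l < R`, of numbers (with codes `f l`, and given
numbers `u`) there are `p` with the same codes and symmetric equality patterns. PROOF. Codes and the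
pattern of equalities inside the tuples and with `u`: pigeonhole (finitely many possibilities).
Cross equalities: for `d`, `v`, `p` there is `R` such that for every set `K'` of `d` labels, every set
`V` of at most `v` numbers and every set `S` with at least `R` elements there are `H ⊆ S` with `p`
elements and `C ⊆ K'` such that `q l k` does not depend on `l ∈ H` for `k ∈ C`, and for `k ∈ K' \ C`,
`l ∈ H`: `q l k ∉ V`, `q l k ≠ q l k'` for `k' ∈ C`, `q l k ≠ q l' k'` for `l' ≠ l` in `H` and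
`k' ∈ K' \ C`. Induction on `d`: if some value of some label `k` in `K'` is taken at least `R (d - 1)`
(for `v + 1`) times, restrict to these `l` and remove `k` from `K'`, add the value to `V`. Otherwise
every value of every label is taken by less than `R (d - 1)` elements; then choose the elements of
`H` one after the other (each excludes a bounded number of others). -/
theorem delta [Finite κ] (m p a : ℕ) :
    ∃ R : ℕ, ∀ (f : ℕ → κ → Fin m) (q : ℕ → κ → ℕ) (u : Fin a → ℕ),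
      ∃ H : Finset ℕ, H.card = p ∧ (∀ l ∈ H, l < R) ∧ (∀ l ∈ H, ∀ l' ∈ H, f l = f l') ∧
        (∀ l ∈ H, ∀ l' ∈ H, ∀ k k', q l k = q l k' ↔ q l' k = q l' k') ∧
        (∀ l₁ ∈ H, ∀ l₂ ∈ H, ∀ l₁' ∈ H, ∀ l₂' ∈ H, l₁ ≠ l₂ → l₁' ≠ l₂' → ∀ k k',
          q l₁ k = q l₂ k' ↔ q l₁' k = q l₂' k') ∧
        ∀ l ∈ H, ∀ l' ∈ H, ∀ k b, q l k = u b ↔ q l' k = u b := by
  classical
  obtain ⟨M, hM⟩ := Pool.Agent.H92.BH.ramsey_pairs
    (Set.finite_univ (α := (κ → Fin m) × (κ → κ → Prop) × (κ → Fin a → Prop) ×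
      (κ → κ → Prop))).toFinset (p + 2)
  refine ⟨M, fun f q u => ?_⟩
  obtain ⟨Y, hYX, hYc, t, -, ht⟩ := hM (Finset.range M) (by simp)
    (fun x y => (f x, (fun k k' => q x k = q x k'), (fun k b => q x k = u b),
      (fun k k' => q x k = q y k'))) (fun x y => by simp)
  obtain ⟨t1, t2, t3, t4⟩ := t
  have hne : Y.Nonempty := Finset.card_pos.mp (by omega)
  obtain ⟨mn, hmn⟩ : ∃ mn, mn = Y.min' hne := ⟨_, rfl⟩
  obtain ⟨mx, hmx⟩ : ∃ mx, mx = Y.max' hne := ⟨_, rfl⟩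
  have hmnY : mn ∈ Y := by
    rw [hmn]
    exact Y.min'_mem hne
  have hmxY : mx ∈ Y := by
    rw [hmx]
    exact Y.max'_mem hne
  have hcard : p ≤ ((Y.erase mn).erase mx).card := by
    have h1 : Y.card - 1 ≤ (Y.erase mn).card := Finset.pred_card_le_card_erase
    have h2 : (Y.erase mn).card - 1 ≤ ((Y.erase mn).erase mx).card :=
      Finset.pred_card_le_card_erase
    omega
  obtain ⟨H, hH, hHc⟩ := Finset.exists_subset_card_eq hcard
  have hin : ∀ l ∈ H, l ∈ Y ∧ mn < l ∧ l < mx := by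
    intro l hl
    have h1 := hH hl
    rw [Finset.mem_erase, Finset.mem_erase] at h1
    obtain ⟨h2, h3, h4⟩ := h1
    refine ⟨h4, ?_, ?_⟩
    · have h5 : mn ≤ l := by
        rw [hmn]
        exact Y.min'_le l h4
      omega
    · have h5 : l ≤ mx := by
        rw [hmx]
        exact Y.le_max' l h4
      omega
  have hpair : ∀ x ∈ Y, ∀ y ∈ Y, x < y → f x = t1 ∧ (∀ k k', q x k = q x k' ↔ t2 k k') ∧
      (∀ k b, q x k = u b ↔ t3 k b) ∧ ∀ k k', q x k = q y k' ↔ t4 k k' := by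
    intro x hx y hy hxy
    have h1 := ht x hx y hy hxy
    rw [Prod.mk.injEq, Prod.mk.injEq, Prod.mk.injEq] at h1
    obtain ⟨h2, h3, h4, h5⟩ := h1
    refine ⟨h2, fun k k' => ?_, fun k b => ?_, fun k k' => ?_⟩
    · exact iff_of_eq (congrFun (congrFun h3 k) k')
    · exact iff_of_eq (congrFun (congrFun h4 k) b)
    · exact iff_of_eq (congrFun (congrFun h5 k) k')
  have hone : ∀ l ∈ H, f l = t1 ∧ (∀ k k', q l k = q l k' ↔ t2 k k') ∧
      (∀ k b, q l k = u b ↔ t3 k b) := by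
    intro l hl
    obtain ⟨h1, h2, h3⟩ := hin l hl
    obtain ⟨h4, h5, h6, -⟩ := hpair l h1 mx hmxY h3
    exact ⟨h4, h5, h6⟩
  have hsym : H.Nonempty → ∀ k k', t4 k k' → t4 k' k := by
    rintro ⟨l, hl⟩ k k' hk
    obtain ⟨h1, h2, h3⟩ := hin l hl
    have a1 := ((hpair mn hmnY l h1 h2).2.2.2 k k').2 hk
    have a2 := ((hpair mn hmnY mx hmxY (h2.trans h3)).2.2.2 k k').2 hk
    have a3 := ((hpair l h1 mx hmxY h3).2.2.2 k k').2 hk
    have a4 : q l k = q l k' := by rw [a3, ← a2, a1]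
    have a5 : t2 k k' := ((hpair l h1 mx hmxY h3).2.1 k k').1 a4
    have a6 : q mn k = q mn k' := ((hpair mn hmnY l h1 h2).2.1 k k').2 a5
    exact ((hpair mn hmnY l h1 h2).2.2.2 k' k).1 (by rw [← a6, a1, ← a4])
  have hcross : ∀ l₁ ∈ H, ∀ l₂ ∈ H, l₁ ≠ l₂ → ∀ k k', q l₁ k = q l₂ k' ↔ t4 k k' := by
    intro l₁ h1 l₂ h2 h12 k k'
    rcases Nat.lt_or_gt_of_ne h12 with h3 | h3
    · exact (hpair l₁ (hin l₁ h1).1 l₂ (hin l₂ h2).1 h3).2.2.2 k k'
    · have h4 := (hpair l₂ (hin l₂ h2).1 l₁ (hin l₁ h1).1 h3).2.2.2 k' k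
      constructor
      · intro h5
        exact hsym ⟨l₁, h1⟩ k' k (h4.1 h5.symm)
      · intro h5
        exact (h4.2 (hsym ⟨l₁, h1⟩ k k' h5)).symm
  refine ⟨H, hHc, ?_, ?_, ?_, ?_, ?_⟩
  · intro l hl
    exact Finset.mem_range.1 (hYX (hin l hl).1)
  · intro l hl l' hl'
    rw [(hone l hl).1, (hone l' hl').1]
  · intro l hl l' hl' k k'
    rw [(hone l hl).2.1 k k', (hone l' hl').2.1 k k']
  · intro l₁ h1 l₂ h2 l₁' h1' l₂' h2' h12 h12' k k'
    rw [hcross l₁ h1 l₂ h2 h12 k k', hcross l₁' h1' l₂' h2' h12' k k']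
  · intro l hl l' hl' k b
    rw [(hone l hl).2.2 k b, (hone l' hl').2.2 k b]

end Pool.H17.TC
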