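import Pool.Agent.H17.TB.Cax

/-!
# Replacing atoms by atoms
-/

set_option autoImplicit false

namespace Pool.H17.TC

open Pool.H22.VC Function Set Pool.H17.TA Pool.H17.TB

variable {r : ℕ} {K ι κ κ' : Type} {N : Col r K ℕ} {A : Set ℕ} {e : ℕ → ι → ℕ}

/-- the letter `l` lies in a chain atom -/
def ATT (N : Col r K ℕ) (A : Set ℕ) (e : ℕ → ι → ℕ) (l : ι) : Prop :=
  ∃ (n : ℕ) (T : Fin n → ι), CA N A e T ∧ l ∈ range T

/-- the labels of the `b`-th atom -/
private def Lb {B : Type} (n : B → ℕ) (κ : Type) (b : B) : Set (((b : B) × Fin (n b)) ⊕ κ) :=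
  {x | ∃ k, x = Sum.inl ⟨b, k⟩}

/-- enumeration of the labels of an atom -/
private theorem exists_lbEquiv {B : Type} (n : B → ℕ) (κ : Type) (b : B) :
    ∃ E : Fin (n b) ≃ Lb n κ b, ∀ k, (E k : ((b : B) × Fin (n b)) ⊕ κ) = Sum.inl ⟨b, k⟩ := by
  have hbij : Bijective (fun k : Fin (n b) => (⟨Sum.inl ⟨b, k⟩, k, rfl⟩ : Lb n κ b)) := by
    constructor
    · intro k k' h
      have h1 := congrArg Subtype.val h
      have h2 := Sum.inl.inj h1
      exact eq_of_heq (Sigma.mk.inj h2).2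
    · rintro ⟨x, k, rfl⟩
      exact ⟨k, rfl⟩
  exact ⟨Equiv.ofBijective _ hbij, fun k => rfl⟩

private theorem tot_inj {B : Type} {n : B → ℕ} {T : ∀ b, Fin (n b) → ι}
    (hT : ∀ b, CA N A e (T b)) (hd : ∀ b b', b ≠ b' → Disjoint (range (T b)) (range (T b')))
    {ρ : κ → ι} (hρ : Injective ρ) (hR : ∀ k, ¬ ATT N A e (ρ k)) :
    Injective (Sum.elim (fun q : (b : B) × Fin (n b) => T q.1 q.2) ρ) := by
  rintro (⟨b, k⟩ | k) (⟨b', k'⟩ | k') h
  · have h1 : T b k = T b' k' := h
    by_cases hb : b = b'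
    · subst hb
      rw [(hT b).inj h1]
    · exact absurd ⟨k', h1.symm⟩ (Set.disjoint_left.1 (hd b b' hb) ⟨k, rfl⟩)
  · have h1 : T b k = ρ k' := h
    exact absurd ⟨n b, T b, hT b, k, h1⟩ (hR k')
  · have h1 : ρ k = T b' k' := h
    exact absurd ⟨n b', T b', hT b', k', h1.symm⟩ (hR k)
  · exact congrArg Sum.inr (hρ h)

private theorem at_iff (hW : ¬ Wild N univ) (hH : Hom N A e) (hA : A.Finite) [Finite ι] {B : Type}
    [Finite B] {n : B → ℕ} {T : ∀ b, Fin (n b) → ι}
    (hT : ∀ b, CA N A e (T b)) (hd : ∀ b b', b ≠ b' → Disjoint (range (T b)) (range (T b')))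
    [Finite κ] {ρ : κ → ι} (hρ : Injective ρ) (hR : ∀ k, ¬ ATT N A e (ρ k))
    (L : Set (((b : B) × Fin (n b)) ⊕ κ)) :
    IsAt N A e (blk 0 (Sum.elim (fun q : (b : B) × Fin (n b) => T q.1 q.2) ρ)) L ↔
      ∃ b, L = Lb n κ b := by
  have hi := tot_inj hT hd hρ hR
  have hz : Injective (blk 0 (Sum.elim (fun q : (b : B) × Fin (n b) => T q.1 q.2) ρ) :
      ((b : B) × Fin (n b)) ⊕ κ → ℕ × ι) := fun k k' hk => hi (congrArg Prod.snd hk)
  constructor
  · intro h
    obtain ⟨i, -, hca, ⟨x, hx⟩⟩ := h.ca hH hz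
    obtain ⟨m, ⟨Em⟩⟩ := Finite.exists_equiv_fin L
    rcases x with ⟨b, k⟩ | k
    · refine ⟨b, ?_⟩
      have hr : range (T b) = range (fun k : L =>
          (blk 0 (Sum.elim (fun q : (b : B) × Fin (n b) => T q.1 q.2) ρ) k).2) :=
        c3 hW hH hA (hT b) hca ⟨T b k, ⟨k, rfl⟩, ⟨⟨_, hx⟩, rfl⟩⟩
      ext y
      constructor
      · intro hy
        have h1 : Sum.elim (fun q : (b : B) × Fin (n b) => T q.1 q.2) ρ y ∈ range (T b) := by
          rw [hr]
          exact ⟨⟨y, hy⟩, rfl⟩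
        obtain ⟨k', hk'⟩ := h1
        exact ⟨k', (hi (a₁ := Sum.inl ⟨b, k'⟩) (a₂ := y) hk').symm⟩
      · rintro ⟨k', rfl⟩
        have h1 : T b k' ∈ range (T b) := ⟨k', rfl⟩
        rw [hr] at h1
        obtain ⟨⟨y, hy⟩, hyk⟩ := h1
        have h2 := hi (a₁ := y) (a₂ := Sum.inl ⟨b, k'⟩) hyk
        rw [← h2]
        exact hy
    · exfalso
      apply hR k
      refine ⟨m, _, hca.equiv hH Em.symm, Em ⟨_, hx⟩, ?_⟩
      simp [blk]
  · rintro ⟨b, rfl⟩
    obtain ⟨E, hE⟩ := exists_lbEquiv n κ b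
    refine isAt_of_ca hH (i := 0) (fun _ _ => rfl) ?_
    have h1 := (hT b).equiv hH E.symm
    have e1 : (fun k : Lb n κ b => T b (E.symm k)) = fun k : Lb n κ b =>
        (blk 0 (Sum.elim (fun q : (b : B) × Fin (n b) => T q.1 q.2) ρ) k).2 := by
      funext k
      obtain ⟨j, rfl⟩ := E.surjective k
      rw [Equiv.symm_apply_apply, hE]
      rfl
    rw [e1] at h1
    exact h1

/-- Replacing atoms `T b` by atoms `T' b` of the same types and in the same order does not change the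
type; `ρ` are letters in no atom. PROOF. `flat` for the two configurations in the block `0`. They
are injective (atoms are equal or disjoint, `c3`). If `L` is an atom of the first one then the
letters of `L` are a chain atom (`CA.congr`), so they are not in `range ρ`, and by `c3` they are
`range (T b)` for some `b`; so the atoms of the first configuration are the `b`, `{(b, k) | k}`;
the same for the second one. Order: for similar atoms `T b`, `T b'`, `b ≠ b'`, by `hp` and
`IsAt`/`Bef` (two tuples in the block `0`: `Bef` is `Prec`). The rest is `ρ` for both. -/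
theorem frz (hW : ¬ Wild N univ) (hH : Hom N A e) (hA : A.Finite) [Finite ι] {B : Type}
    [Finite B] (n : B → ℕ) (T T' : ∀ b, Fin (n b) → ι) (hT : ∀ b, CA N A e (T b))
    (hT' : ∀ b, CA N A e (T' b)) (hTT : ∀ b, Teq N A e (blk 0 (T b)) (blk 0 (T' b)))
    (hd : ∀ b b', b ≠ b' → Disjoint (range (T b)) (range (T b')))
    (hd' : ∀ b b', b ≠ b' → Disjoint (range (T' b)) (range (T' b')))
    (hp : ∀ b b', b ≠ b' → Sim N A e (T b) (T b') → Prec N A e (T b) (T b') →
      Prec N A e (T' b) (T' b')) [Finite κ] (ρ : κ → ι) (hρ : Injective ρ)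
    (hR : ∀ k, ¬ ATT N A e (ρ k)) :
    Teq N A e (blk 0 (Sum.elim (fun q : (b : B) × Fin (n b) => T q.1 q.2) ρ))
      (blk 0 (Sum.elim (fun q : (b : B) × Fin (n b) => T' q.1 q.2) ρ)) := by
  classical
  have hi := tot_inj hT hd hρ hR
  have hi' := tot_inj hT' hd' hρ hR
  have hz : Injective (blk 0 (Sum.elim (fun q : (b : B) × Fin (n b) => T q.1 q.2) ρ) :
      ((b : B) × Fin (n b)) ⊕ κ → ℕ × ι) := fun k k' hk => hi (congrArg Prod.snd hk)
  have hw : Injective (blk 0 (Sum.elim (fun q : (b : B) × Fin (n b) => T' q.1 q.2) ρ) :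
      ((b : B) × Fin (n b)) ⊕ κ → ℕ × ι) := fun k k' hk => hi' (congrArg Prod.snd hk)
  have hat := at_iff hW hH hA hT hd hρ hR
  have hat' := at_iff hW hH hA hT' hd' hρ hR
  choose E hE using exists_lbEquiv n κ
  -- restriction to the labels of an atom
  have er : ∀ (T : ∀ b, Fin (n b) → ι) (b : B),
      res (Lb n κ b) (blk 0 (Sum.elim (fun q : (b : B) × Fin (n b) => T q.1 q.2) ρ)) =
        fun x => blk 0 (T b) ((E b).symm x) := by
    intro T b
    funext x
    obtain ⟨k, rfl⟩ := (E b).surjective x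
    rw [Equiv.symm_apply_apply]
    show (blk 0 (Sum.elim (fun q : (b : B) × Fin (n b) => T q.1 q.2) ρ) _ : ℕ × ι) = _
    rw [hE]
    rfl
  have el : ∀ (T : ∀ b, Fin (n b) → ι) (b : B),
      lt' (blk 0 (Sum.elim (fun q : (b : B) × Fin (n b) => T q.1 q.2) ρ)) (Lb n κ b) =
        fun x => T b ((E b).symm x) := by
    intro T b
    funext x
    exact congrArg Prod.snd (congrFun (er T b) x)
  have hne : ∀ b b', Lb n κ b ≠ Lb n κ b' → b ≠ b' := by
    rintro b b' h rfl
    exact h rfl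
  refine flat hW hH hA hz hw ?_ ?_ ?_ ?_
  · intro L
    rw [hat, hat']
  · intro L hL
    obtain ⟨b, rfl⟩ := (hat L).1 hL
    rw [er T b, er T' b]
    exact (hTT b).comp hH (E b).symm
  · intro L L' hL hL' hLL hs hb
    obtain ⟨b, rfl⟩ := (hat L).1 hL
    obtain ⟨b', rfl⟩ := (hat L').1 hL'
    have hbb := hne b b' hLL
    rw [el T b, el T b'] at hs
    rw [er T b, er T b'] at hb
    rw [er T' b, er T' b']
    have hs' : Sim N A e (T b) (T b') := by
      obtain ⟨σ, hσ⟩ := hs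
      refine ⟨((E b).trans σ).trans (E b').symm, ?_⟩
      have h1 := hσ.comp hH (E b)
      have e1 : (fun k => (blk 0 (fun x => T b ((E b).symm x)) : Lb n κ b → ℕ × ι) (E b k)) =
          blk 0 (T b) := by
        funext k
        simp [blk]
      rw [e1] at h1
      exact h1
    have hb' : Prec N A e (T b) (T b') := by
      have h1 := hb.comp hH (E b) (E b')
      have e1 : ∀ b, (fun k => (blk 0 (T b) ((E b).symm (E b k)) : ℕ × ι)) = blk 0 (T b) := by
        intro b
        funext k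
        rw [Equiv.symm_apply_apply]
      rw [e1, e1] at h1
      exact (bef_blk_iff hH 0 _ _).1 h1
    exact ((bef_blk_iff hH 0 _ _).2 (hp b b' hbb hs' hb')).comp hH (E b).symm (E b').symm
  · have e1 : res {k | ∀ L, IsAt N A e
        (blk 0 (Sum.elim (fun q : (b : B) × Fin (n b) => T q.1 q.2) ρ)) L → k ∉ L}
          (blk 0 (Sum.elim (fun q : (b : B) × Fin (n b) => T q.1 q.2) ρ)) =
        res {k | ∀ L, IsAt N A e
        (blk 0 (Sum.elim (fun q : (b : B) × Fin (n b) => T q.1 q.2) ρ)) L → k ∉ L}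
          (blk 0 (Sum.elim (fun q : (b : B) × Fin (n b) => T' q.1 q.2) ρ)) := by
      funext x
      obtain ⟨x, hx⟩ := x
      rcases x with ⟨b, k⟩ | k
      · exact absurd ⟨k, rfl⟩ (hx (Lb n κ b) ((hat _).2 ⟨b, rfl⟩))
      · rfl
    rw [e1]
    exact Teq.refl hH _

end Pool.H17.TC
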