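import Pool.Agent.H17.TC.Ltr
import Pool.Agent.H17.TC.Frz

/-!
# 6c : the maximal homogeneous sequence for the constants
-/

set_option autoImplicit false

namespace Pool.H17.TC

open Pool.H22.VC Function Set Pool.H17.TA Pool.H17.TB

variable {r : ℕ} {K ι κ κ' : Type} {N : Col r K ℕ} {A : Set ℕ} {e : ℕ → ι → ℕ}

/-- `e'` is a homogeneous block sequence over `A'` which contains the subsequence `φ` of the
sequence `c` of `r`-tuples (letters `χ`) -/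
structure ES (N : Col r K ℕ) (c : ℕ → Fin r → ℕ) (A' : Set ℕ) (φ : ℕ → ℕ) {m : ℕ}
    (e' : ℕ → Fin m → ℕ) (χ : Fin r → ℕ ⊕ Fin m) : Prop where
  fin : A'.Finite
  mono : StrictMono φ
  hom : Hom N A' e'
  cst : ∀ j a, χ j = Sum.inl a → a ∈ A'
  eq : ∀ i j, c (φ i) j = Sum.elim id (e' i) (χ j)

/-- the places whose letters lie in atoms -/
def AL (N : Col r K ℕ) (A' : Set ℕ) {m : ℕ} (e' : ℕ → Fin m → ℕ) (χ : Fin r → ℕ ⊕ Fin m) :
    Set (Fin r) := {j | ∃ l, χ j = Sum.inr l ∧ ATT N A' e' l}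

/-- the number of places in atoms is maximal, these atoms are pure -/
structure EM (N : Col r K ℕ) (c : ℕ → Fin r → ℕ) (A' : Set ℕ) (φ : ℕ → ℕ) {m : ℕ}
    (e' : ℕ → Fin m → ℕ) (χ : Fin r → ℕ ⊕ Fin m) : Prop where
  es : ES N c A' φ e' χ
  max : ∀ (A'' : Set ℕ) (φ'' : ℕ → ℕ) (m'' : ℕ) (e'' : ℕ → Fin m'' → ℕ)
    (χ'' : Fin r → ℕ ⊕ Fin m''), ES N c A'' φ'' e'' χ'' →
      (AL N A'' e'' χ'').ncard ≤ (AL N A' e' χ).ncard
  pure : ∀ l, (∃ j, χ j = Sum.inr l) → ATT N A' e' l → ∃ (n : ℕ) (T : Fin n → Fin m),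
    l ∈ range T ∧ CA N A' e' T ∧ PCh N A' (fun i k => e' i (T k)) ∧
      MG N A' (fun i k => e' i (T k))

/-- The extension of an `ES` is an `ES`, with more places in atoms (`CA.ext`). -/
theorem ES.ext (hW : ¬ Wild N univ) {c : ℕ → Fin r → ℕ} {A' A'' : Set ℕ} {φ : ℕ → ℕ} {m m'' : ℕ}
    {e' : ℕ → Fin m → ℕ} {χ : Fin r → ℕ ⊕ Fin m} (h : ES N c A' φ e' χ) (hA'' : A''.Finite)
    {e'' : ℕ → Fin m'' → ℕ} (hH'' : Hom N A'' e'') {mu : Fin m → Fin m''}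
    (hx : Ext A' e' A'' e'' mu) :
    (∃ φ'', ES N c A'' φ'' e'' (fun j => Sum.map id mu (χ j))) ∧
      (∀ l, ATT N A' e' l → ATT N A'' e'' (mu l)) ∧
      AL N A' e' χ ⊆ AL N A'' e'' (fun j => Sum.map id mu (χ j)) := by
  have hatt : ∀ l, ATT N A' e' l → ATT N A'' e'' (mu l) := by
    rintro l ⟨n, T, hT, k, rfl⟩
    exact ⟨n, fun k => mu (T k), CA.ext hW h.hom h.fin hH'' hA'' hx hT, k, rfl⟩
  refine ⟨?_, hatt, ?_⟩
  · obtain ⟨hsub, ψ, hψ, hψe⟩ := hx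
    refine ⟨fun i => φ (ψ i), hA'', h.mono.comp hψ, hH'', ?_, ?_⟩
    · intro j a hj
      rcases hχ : χ j with a' | l
      · rw [hχ] at hj
        have h1 : a' = a := Sum.inl.inj hj
        rw [← h1]
        exact hsub (h.cst j a' hχ)
      · rw [hχ] at hj
        exact absurd hj (by simp)
    · intro i j
      rw [h.eq (ψ i) j]
      rcases χ j with a' | l
      · rfl
      · exact (hψe i l).symm
  · rintro j ⟨l, hl, hat⟩
    refine ⟨mu l, ?_, hatt l hat⟩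
    simp only [hl, Sum.map_inr]

/-- 6c. PROOF. `norm` gives an `ES`; `ncard ≤ r`, so there is one with maximal `ncard`; `pure_all` for
it: a subsequence over more constants with the same letters; it is an `ES` with the same places in
atoms (`ES.ext`, maximality); an atom of the new sequence through a letter `χ j` has the range of an
old one (`c3`, `CA.ext`), which is pure. -/
theorem exists_em (hW : ¬ Wild N univ) (hN : (range N).Finite) (c : ℕ → Fin r → ℕ) :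
    ∃ (A' : Set ℕ) (φ : ℕ → ℕ) (m : ℕ) (e' : ℕ → Fin m → ℕ) (χ : Fin r → ℕ ⊕ Fin m),
      EM N c A' φ e' χ := by
  classical
  let S : Set ℕ := {n | ∃ (A' : Set ℕ) (φ : ℕ → ℕ) (m : ℕ) (e' : ℕ → Fin m → ℕ)
    (χ : Fin r → ℕ ⊕ Fin m), ES N c A' φ e' χ ∧ (AL N A' e' χ).ncard = n}
  have hSne : S.Nonempty := by
    obtain ⟨A', φ, m, e', χ, h1, -, h3, h4, h5, -, h7⟩ :=
      norm (N := N) (A := ∅) hN Set.finite_empty c
    exact ⟨_, A', φ, m, e', χ, ⟨h1, h3, h4, h5, h7⟩, rfl⟩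
  have hSb : BddAbove S := by
    refine ⟨r, ?_⟩
    rintro n ⟨A', φ, m, e', χ, -, rfl⟩
    calc (AL N A' e' χ).ncard ≤ (univ : Set (Fin r)).ncard :=
          Set.ncard_le_ncard (Set.subset_univ _) (Set.toFinite _)
      _ = r := by rw [Set.ncard_univ]; simp
  obtain ⟨A', φ, m, e', χ, hes, hmx⟩ := Nat.sSup_mem hSne hSb
  have hle : ∀ n ∈ S, n ≤ (AL N A' e' χ).ncard := by
    intro n hn
    rw [hmx]
    exact le_csSup hSb hn
  obtain ⟨A₂, φ₂, hA₂, hAA₂, hφ₂, hH₂, hpure⟩ := pure_all hW hN hes.hom hes.fin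
  have hx : Ext A' e' A₂ (fun i => e' (φ₂ i)) (id : Fin m → Fin m) :=
    ⟨hAA₂, φ₂, hφ₂, fun _ _ => rfl⟩
  obtain ⟨⟨φ'', hes₂⟩, hatt, hAL⟩ := ES.ext hW hes hA₂ hH₂ hx
  have hid : (fun j => Sum.map id (id : Fin m → Fin m) (χ j)) = χ := by
    funext j
    rw [Sum.map_id_id]
    rfl
  rw [hid] at hes₂ hAL
  have hALe : AL N A' e' χ = AL N A₂ (fun i => e' (φ₂ i)) χ :=
    Set.eq_of_subset_of_ncard_le hAL (hle _ ⟨A₂, φ'', m, _, χ, hes₂, rfl⟩) (Set.toFinite _)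
  refine ⟨A₂, φ'', m, fun i => e' (φ₂ i), χ, hes₂, ?_, ?_⟩
  · intro A3 φ3 m3 e3 χ3 h3
    rw [← hALe]
    exact hle _ ⟨A3, φ3, m3, e3, χ3, h3, rfl⟩
  · rintro l ⟨j, hj⟩ hat
    have h1 : j ∈ AL N A' e' χ := by
      rw [hALe]
      exact ⟨l, hj, hat⟩
    obtain ⟨l', hl', n, T, hT, hlT⟩ := h1
    have h2 : l = l' := Sum.inr.inj (hj.symm.trans hl')
    obtain ⟨hp, hg⟩ := hpure n T hT
    exact ⟨n, T, h2 ▸ hlT, CA.ext hW hes.hom hes.fin hH₂ hA₂ hx hT, hp, hg⟩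

/-- the letters outside `AL` are in no atom, in all extensions -/
theorem EM.off (hW : ¬ Wild N univ) {c : ℕ → Fin r → ℕ} {A' A'' : Set ℕ} {φ : ℕ → ℕ} {m m'' : ℕ}
    {e' : ℕ → Fin m → ℕ} {χ : Fin r → ℕ ⊕ Fin m} (h : EM N c A' φ e' χ) (hA'' : A''.Finite)
    {e'' : ℕ → Fin m'' → ℕ} (hH'' : Hom N A'' e'') {mu : Fin m → Fin m''}
    (hx : Ext A' e' A'' e'' mu) {j : Fin r} (hj : j ∉ AL N A' e' χ) {l : Fin m}
    (hl : χ j = Sum.inr l) : ¬ ATT N A'' e'' (mu l) := by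
  intro hat
  obtain ⟨⟨φ'', hes⟩, -, hAL⟩ := ES.ext hW h.es hA'' hH'' hx
  have h1 := h.max _ _ _ _ _ hes
  have h2 := Set.eq_of_subset_of_ncard_le hAL h1 (Set.toFinite _)
  apply hj
  rw [h2]
  refine ⟨mu l, ?_, hat⟩
  simp only [hl, Sum.map_inr]

end Pool.H17.TC
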