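import Pool.Agent.H17.TC.FamCA
import Pool.Agent.H17.TB.PCh

/-!
# L1 : exceptional pairs ; chains inside families
-/

set_option autoImplicit false

namespace Pool.H17.TC

open Pool.H22.VC Function Set Pool.H17.TA Pool.H17.TB

variable {r : ℕ} {K ι κ κ' : Type} {N : Col r K ℕ}

/-- only finitely many cells meet a finite set -/
theorem meet_finite {F : Fam κ} (h : F.OK) {B : Set ℕ} (hB : B.Finite) :
    {c | c ∈ F.cells ∧ ∃ k, c k ∈ B}.Finite := by
  have h1 : {c | c ∈ F.cells ∧ ∃ k, c k ∈ B} ⊆ ⋃ a ∈ B, {c | c ∈ F.cells ∧ ∃ k, c k = a} := by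
    rintro c ⟨hc1, k, hk⟩
    rw [mem_iUnion₂]
    exact ⟨c k, hk, hc1, k, rfl⟩
  refine (hB.biUnion fun a _ => ?_).subset h1
  refine Set.Subsingleton.finite ?_
  rintro c ⟨hc, k, hk⟩ c' ⟨hc', k', hk'⟩
  exact h.disj c hc c' hc' k k' (hk.trans hk'.symm)

/-- `norm` for tuples with an arbitrary finite set of labels -/
private theorem normJ {J : Type} [Finite J] {A : Set ℕ} (hN : (range N).Finite) (hA : A.Finite)
    (u : ℕ → J → ℕ) :
    ∃ (A' : Set ℕ) (φ : ℕ → ℕ) (m : ℕ) (e' : ℕ → Fin m → ℕ) (χ : J → ℕ ⊕ Fin m),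
      A'.Finite ∧ A ⊆ A' ∧ StrictMono φ ∧ Hom N A' e' ∧
      (∀ c a, χ c = Sum.inl a → a ∈ A') ∧
      ∀ i c, u (φ i) c = Sum.elim id (e' i) (χ c) := by
  obtain ⟨n, ⟨E⟩⟩ := Finite.exists_equiv_fin J
  obtain ⟨A', φ, m, e', χ, h1, h2, h3, h4, h5, -, h7⟩ :=
    norm hN hA (fun i c => u i (E.symm c))
  refine ⟨A', φ, m, e', fun c => χ (E c), h1, h2, h3, h4, fun c a h => h5 _ a h, fun i c => ?_⟩
  have := h7 i (E c)
  rw [E.symm_apply_apply] at this
  exact this

/-- the points of different cells are letters in a limit -/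
private theorem letters {F : Fam κ} (h : F.OK) {u : ℕ → κ → ℕ} (hu : ∀ i, u i ∈ F.cells)
    (hi : Injective u) {φ : ℕ → ℕ} (hφ : StrictMono φ) {m : ℕ} {e' : ℕ → Fin m → ℕ}
    {χ : κ → ℕ ⊕ Fin m} (hχ : ∀ i c, u (φ i) c = Sum.elim id (e' i) (χ c)) :
    ∃ lam : κ → Fin m, (∀ c, χ c = Sum.inr (lam c)) ∧ ∀ i c, e' i (lam c) = u (φ i) c := by
  have h1 : ∀ c, ∃ d, χ c = Sum.inr d := by
    intro c
    rcases hc : χ c with a | d
    · exfalso
      have e0 := hχ 0 c
      have e1 := hχ 1 c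
      rw [hc] at e0 e1
      have h2 := h.disj _ (hu _) _ (hu _) c c (e0.trans e1.symm)
      have h3 := hφ.injective (hi h2)
      omega
    · exact ⟨d, rfl⟩
  choose lam hlam using h1
  refine ⟨lam, hlam, fun i c => ?_⟩
  rw [hχ i c, hlam c]
  rfl

/-- L1. Only finitely many pairs of cells of two families meet without being equal. PROOF. Otherwise
there is a sequence of such pairs `(f n, g n)` with pairwise different `f n` and pairwise different
`g n` (a cell meets only finitely many cells of the other family), and constant `k`, `k'` with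
`f n k = g n k'`. `norm` for the tuples `(f n, g n)` over the constants of `fam_ca` for both families:
all entries are letters (different cells of a family are disjoint), so `f` and `g` are chain atoms
(`fam_ca`) which meet; by `c3` their ranges are equal, so `range (f n) = range (g n)`. -/
theorem exc_finite (hW : ¬ Wild N univ) (hN : (range N).Finite) [Finite κ] [Finite κ']
    {F : Fam κ} {G : Fam κ'} (hF : FN N F) (hG : FN N G) :
    {p : (κ → ℕ) × (κ' → ℕ) | p.1 ∈ F.cells ∧ p.2 ∈ G.cells ∧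
      (range p.1 ∩ range p.2).Nonempty ∧ range p.1 ≠ range p.2}.Finite := by
  classical
  by_contra hinf
  obtain ⟨P, hP⟩ : ∃ P : Set ((κ → ℕ) × (κ' → ℕ)), P = {p | p.1 ∈ F.cells ∧ p.2 ∈ G.cells ∧
      (range p.1 ∩ range p.2).Nonempty ∧ range p.1 ≠ range p.2} := ⟨_, rfl⟩
  rw [← hP] at hinf
  have hPi : P.Infinite := hinf
  have hPm : ∀ p ∈ P, p.1 ∈ F.cells ∧ p.2 ∈ G.cells ∧
      (range p.1 ∩ range p.2).Nonempty ∧ range p.1 ≠ range p.2 := by
    intro p hp
    rw [hP] at hp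
    exact hp
  have fib1 : ∀ f : κ → ℕ, {p | p ∈ P ∧ p.1 = f}.Finite := by
    intro f
    have h1 := (meet_finite hG.ok (Set.finite_range f))
    refine (h1.image (fun g => (f, g))).subset ?_
    rintro ⟨a, g⟩ ⟨hp, rfl⟩
    obtain ⟨-, h3, ⟨x, ⟨k, hk⟩, ⟨k', hk'⟩⟩, -⟩ := hPm _ hp
    refine ⟨g, ⟨h3, k', ?_⟩, rfl⟩
    show g k' ∈ _
    have h4 : g k' = x := hk'
    have h5 : a k = x := hk
    rw [h4, ← h5]
    exact mem_range_self k
  have fib2 : ∀ g : κ' → ℕ, {p | p ∈ P ∧ p.2 = g}.Finite := by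
    intro g
    have h1 := (meet_finite hF.ok (Set.finite_range g))
    refine (h1.image (fun f => (f, g))).subset ?_
    rintro ⟨f, a⟩ ⟨hp, rfl⟩
    obtain ⟨h3, -, ⟨x, ⟨k, hk⟩, ⟨k', hk'⟩⟩, -⟩ := hPm _ hp
    refine ⟨f, ⟨h3, k, ?_⟩, rfl⟩
    show f k ∈ _
    have h4 : a k' = x := hk'
    have h5 : f k = x := hk
    rw [h5, ← h4]
    exact mem_range_self k'
  obtain ⟨p, hp1, hp2⟩ := exists_seq_of_forall_finset_exists (fun p => p ∈ P)
    (fun a b => a.1 ≠ b.1 ∧ a.2 ≠ b.2) (by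
      intro s _
      have h1 : (⋃ q ∈ (s : Set ((κ → ℕ) × (κ' → ℕ))),
          ({p | p ∈ P ∧ p.1 = q.1} ∪ {p | p ∈ P ∧ p.2 = q.2})).Finite :=
        (Finset.finite_toSet s).biUnion (fun q _ => (fib1 q.1).union (fib2 q.2))
      obtain ⟨y, hy1, hy2⟩ := (hPi.sdiff h1).nonempty
      refine ⟨y, hy1, fun q hq => ?_⟩
      rw [mem_iUnion₂] at hy2
      push Not at hy2
      have h2 := hy2 q hq
      constructor
      · intro h
        exact h2 (Or.inl ⟨hy1, h.symm⟩)
      · intro h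
        exact h2 (Or.inr ⟨hy1, h.symm⟩))
  have i1 : Injective (fun n => (p n).1) := by
    intro a b hab
    rcases lt_trichotomy a b with h | h | h
    · exact absurd hab (hp2 a b h).1
    · exact h
    · exact absurd hab.symm (hp2 b a h).1
  have i2 : Injective (fun n => (p n).2) := by
    intro a b hab
    rcases lt_trichotomy a b with h | h | h
    · exact absurd hab (hp2 a b h).2
    · exact h
    · exact absurd hab.symm (hp2 b a h).2
  obtain ⟨CF, hCF, hcaF⟩ := fam_ca hF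
  obtain ⟨CG, hCG, hcaG⟩ := fam_ca hG
  obtain ⟨A', φ, m, e', χ, g1, g2, hφ, hH, g4, g5⟩ := normJ (J := κ ⊕ κ') hN (hCF.union hCG)
    (fun i => Sum.elim (p i).1 (p i).2)
  obtain ⟨l1, h1, h1'⟩ := letters hF.ok (u := fun i => (p i).1) (fun i => (hPm _ (hp1 i)).1) i1 hφ
    (χ := fun c => χ (Sum.inl c)) (fun i c => g5 i (Sum.inl c))
  obtain ⟨l2, h2, h2'⟩ := letters hG.ok (u := fun i => (p i).2) (fun i => (hPm _ (hp1 i)).2.1) i2 hφ
    (χ := fun c => χ (Sum.inr c)) (fun i c => g5 i (Sum.inr c))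
  have ca1 : CA N A' e' l1 := hcaF _ A' e' l1 (subset_union_left.trans g2) hH (fun i => by
    have : (fun k => e' i (l1 k)) = (p (φ i)).1 := funext (h1' i)
    rw [this]
    exact (hPm _ (hp1 _)).1)
  have ca2 : CA N A' e' l2 := hcaG _ A' e' l2 (subset_union_right.trans g2) hH (fun i => by
    have : (fun k => e' i (l2 k)) = (p (φ i)).2 := funext (h2' i)
    rw [this]
    exact (hPm _ (hp1 _)).2.1)
  obtain ⟨-, -, ⟨x, ⟨k, hk⟩, ⟨k', hk'⟩⟩, hne⟩ := hPm _ (hp1 (φ 0))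
  have hkk : l1 k = l2 k' := by
    have h3 : e' 0 (l1 k) = e' 0 (l2 k') := by
      rw [h1' 0 k, h2' 0 k']
      exact hk.trans hk'.symm
    exact (hH.inj _ _ _ _ h3).2
  have hr := c3 hW hH g1 ca1 ca2 ⟨l1 k, mem_range_self k, by rw [hkk]; exact mem_range_self k'⟩
  apply hne
  ext y
  constructor
  · rintro ⟨a, rfl⟩
    have h3 : l1 a ∈ range l2 := by
      rw [← hr]
      exact mem_range_self a
    obtain ⟨b, hb⟩ := h3
    refine ⟨b, ?_⟩
    have h4 := h1' 0 a
    have h5 := h2' 0 b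
    beta_reduce at h4 h5
    rw [← h4, ← h5, hb]
  · rintro ⟨b, rfl⟩
    have h3 : l2 b ∈ range l1 := by
      rw [hr]
      exact mem_range_self b
    obtain ⟨a, ha⟩ := h3
    refine ⟨a, ?_⟩
    have h4 := h1' 0 a
    have h5 := h2' 0 b
    beta_reduce at h4 h5
    rw [← h4, ← h5, ha]

/-- The same, monotone in two families. -/
theorem chain_in2 (hW : ¬ Wild N univ) (hN : (range N).Finite) [Finite κ] {F G : Fam κ}
    (hF : FN N F) (hG : FN N G) {Y : Set (κ → ℕ)} (hY : Y ⊆ F.cells) (hY' : Y ⊆ G.cells)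
    (hi : Y.Infinite) {C : Set ℕ} (hC : C.Finite) :
    ∃ (A : Set ℕ) (x : ℕ → κ → ℕ), C ⊆ A ∧ PCh N A x ∧ MG N A x ∧ (∀ l, x l ∈ Y) ∧
      ((∀ l, F.lt (x l) (x (l + 1))) ∨ ∀ l, F.lt (x (l + 1)) (x l)) ∧
      ((∀ l, G.lt (x l) (x (l + 1))) ∨ ∀ l, G.lt (x (l + 1)) (x l)) := by
  classical
  let u₀ := hi.natEmbedding
  obtain ⟨θ, hθ, hram⟩ := ramseyN (C := Bool × Bool) 2 (fun t =>
    (decide (F.lt (u₀ (t 0) : κ → ℕ) (u₀ (t 1) : κ → ℕ)),
      decide (G.lt (u₀ (t 0) : κ → ℕ) (u₀ (t 1) : κ → ℕ))))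
  let u : ℕ → κ → ℕ := fun i => (u₀ (θ i) : κ → ℕ)
  have hu : ∀ i, u i ∈ Y := fun i => (u₀ (θ i)).2
  have hui : Injective u := fun i j hij => hθ.injective (u₀.injective (Subtype.ext hij))
  have hmono : ∀ (H : Fam κ), H.OK → Y ⊆ H.cells →
      (∀ i j i' j', i < j → i' < j' → (H.lt (u i) (u j) ↔ H.lt (u i') (u j'))) →
      (∀ i j, i < j → H.lt (u i) (u j)) ∨ ∀ i j, i < j → H.lt (u j) (u i) := by
    intro H hH hYH h
    by_cases h0 : H.lt (u 0) (u 1)
    · left
      intro i j hij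
      exact (h 0 1 i j (by omega) hij).1 h0
    · right
      intro i j hij
      have h1 : ¬ H.lt (u i) (u j) := fun h2 => h0 ((h 0 1 i j (by omega) hij).2 h2)
      rcases hH.total _ (hYH (hu i)) _ (hYH (hu j)) (fun e => hij.ne (hui e)) with h2 | h2
      · exact absurd h2 h1
      · exact h2
  have hcol : ∀ i j i' j', i < j → i' < j' →
      ((F.lt (u i) (u j) ↔ F.lt (u i') (u j')) ∧ (G.lt (u i) (u j) ↔ G.lt (u i') (u j'))) := by
    intro i j i' j' h h'
    have hsm : ∀ a b : ℕ, a < b → StrictMono (![a, b] : Fin 2 → ℕ) := by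
      intro a b hab s s' hs
      fin_cases s <;> fin_cases s'
      · exact absurd hs (lt_irrefl _)
      · exact hab
      · exact absurd hs (by simp)
      · exact absurd hs (lt_irrefl _)
    have h1 := hram ![i, j] ![i', j'] (hsm _ _ h) (hsm _ _ h')
    have h2 := Prod.mk.inj h1
    exact ⟨decide_eq_decide.1 h2.1, decide_eq_decide.1 h2.2⟩
  have mF := hmono F hF.ok hY (fun i j i' j' h h' => (hcol i j i' j' h h').1)
  have mG := hmono G hG.ok hY' (fun i j i' j' h h' => (hcol i j i' j' h h').2)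
  obtain ⟨CF, hCF, hcaF⟩ := fam_ca hF
  obtain ⟨A', φ, m, e', χ, g1, g2, hφ, hH, g4, g5⟩ := normJ (J := κ) hN (hC.union hCF) u
  obtain ⟨lam, h1, h1'⟩ := letters hF.ok (fun i => hY (hu i)) hui hφ g5
  have ca1 : CA N A' e' lam := hcaF _ A' e' lam (subset_union_right.trans g2) hH (fun i => by
    have : (fun k => e' i (lam k)) = u (φ i) := funext (h1' i)
    rw [this]
    exact hY (hu _))
  obtain ⟨A'', ψ, k1, hψ, k2, k3⟩ := exists_pure hW hH g1 ca1
  have hx : ∀ l, (fun k => e' (ψ l) (lam k)) = u (φ (ψ l)) := fun l => funext (h1' (ψ l))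
  have hlt : ∀ l, φ (ψ l) < φ (ψ (l + 1)) := fun l => hφ (hψ (Nat.lt_succ_self l))
  refine ⟨A'', fun i k => e' (ψ i) (lam k), (subset_union_left.trans g2).trans k1, k2, k3,
    fun l => ?_, ?_, ?_⟩
  · beta_reduce
    rw [hx]
    exact hu _
  · beta_reduce
    simp only [hx]
    rcases mF with h | h
    · exact Or.inl fun l => h _ _ (hlt l)
    · exact Or.inr fun l => h _ _ (hlt l)
  · beta_reduce
    simp only [hx]
    rcases mG with h | h
    · exact Or.inl fun l => h _ _ (hlt l)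
    · exact Or.inr fun l => h _ _ (hlt l)

/-- Chains inside a family: `Y` infinite set of cells. PROOF. A sequence of different cells of `Y`,
monotone in the order of `F` (Ramsey, `ramseyN` for pairs); `norm` over `C` and the constants of
`fam_ca`; all entries are letters; `fam_ca` and `exists_pure`. -/
theorem chain_in (hW : ¬ Wild N univ) (hN : (range N).Finite) [Finite κ] {F : Fam κ}
    (hF : FN N F) {Y : Set (κ → ℕ)} (hY : Y ⊆ F.cells) (hi : Y.Infinite) {C : Set ℕ}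
    (hC : C.Finite) :
    ∃ (A : Set ℕ) (x : ℕ → κ → ℕ), C ⊆ A ∧ PCh N A x ∧ MG N A x ∧ (∀ l, x l ∈ Y) ∧
      ((∀ l, F.lt (x l) (x (l + 1))) ∨ ∀ l, F.lt (x (l + 1)) (x l)) := by
  obtain ⟨A, x, h1, h2, h3, h4, h5, -⟩ := chain_in2 hW hN hF hF hY hY hi hC
  exact ⟨A, x, h1, h2, h3, h4, h5⟩

end Pool.H17.TC
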