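import Pool.Agent.H22.VC.Defs

/-!
# Families of cells
-/

set_option autoImplicit false

namespace Pool.H17.TC

open Pool.H22.VC Function Set

variable {r : ℕ} {K κ κ' : Type}

/-- A family of labelled cells with an order. -/
structure Fam (κ : Type) where
  cells : Set (κ → ℕ)
  lt : (κ → ℕ) → (κ → ℕ) → Prop

/-- the points of the cells -/
def Fam.supp (F : Fam κ) : Set ℕ := {a | ∃ c ∈ F.cells, ∃ k, c k = a}

open Classical in
/-- the map moving the cell `c` to the cell `φ c`, the identity outside the cells -/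
noncomputable def Fam.mv (F : Fam κ) (φ : (κ → ℕ) → (κ → ℕ)) (a : ℕ) : ℕ :=
  if h : ∃ p : (κ → ℕ) × κ, p.1 ∈ F.cells ∧ p.1 p.2 = a then φ h.choose.1 h.choose.2 else a

/-- the cell `c` is used by the tuple `t` -/
def Used (F : Fam κ) (t : Fin r → ℕ) (c : κ → ℕ) : Prop := c ∈ F.cells ∧ ∃ j k, t j = c k

/-- all points of the cell `c` are entries of the tuple `t` -/
def Full (F : Fam κ) (t : Fin r → ℕ) (c : κ → ℕ) : Prop := c ∈ F.cells ∧ ∀ k, ∃ j, t j = c k

/-- cells are injective and disjoint, the order is linear, there are infinitely many cells -/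
structure Fam.OK (F : Fam κ) : Prop where
  inj : ∀ c ∈ F.cells, Injective c
  disj : ∀ c ∈ F.cells, ∀ c' ∈ F.cells, ∀ k k', c k = c' k' → c = c'
  irr : ∀ c ∈ F.cells, ¬ F.lt c c
  trans : ∀ c ∈ F.cells, ∀ c' ∈ F.cells, ∀ c'' ∈ F.cells, F.lt c c' → F.lt c' c'' → F.lt c c''
  total : ∀ c ∈ F.cells, ∀ c' ∈ F.cells, c ≠ c' → F.lt c c' ∨ F.lt c' c
  inf : F.cells.Infinite

/-- `φ` moves the used cells of `t` injectively to cells -/
def Mv (F : Fam κ) (t : Fin r → ℕ) (φ : (κ → ℕ) → (κ → ℕ)) : Prop :=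
  (∀ c, Used F t c → φ c ∈ F.cells) ∧ ∀ c c', Used F t c → Used F t c' → φ c = φ c' → c = c'

/-- `φ` preserves the order of the full cells of `t` -/
def Mon (F : Fam κ) (t : Fin r → ℕ) (φ : (κ → ℕ) → (κ → ℕ)) : Prop :=
  ∀ c c', Full F t c → Full F t c' → F.lt c c' → F.lt (φ c) (φ c')

/-- `FN N F`: free family which is not symmetric. -/
structure FN (N : Col r K ℕ) (F : Fam κ) : Prop where
  ok : F.OK
  free : ∀ t φ, Mv F t φ → Mon F t φ → N (fun j => F.mv φ (t j)) = N t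
  nsym : ∃ t φ, Mv F t φ ∧ N (fun j => F.mv φ (t j)) ≠ N t

theorem Fam.OK.nonempty {F : Fam κ} (h : F.OK) : Nonempty κ := by
  by_contra hne
  rw [not_nonempty_iff] at hne
  exact h.inf (Set.toFinite F.cells)

theorem Fam.mv_cell {F : Fam κ} (h : F.OK) (φ : (κ → ℕ) → (κ → ℕ)) {c : κ → ℕ} (hc : c ∈ F.cells)
    (k : κ) : F.mv φ (c k) = φ c k := by
  have hex : ∃ p : (κ → ℕ) × κ, p.1 ∈ F.cells ∧ p.1 p.2 = c k := ⟨(c, k), hc, rfl⟩
  have hs := hex.choose_spec
  have e1 : hex.choose.1 = c := h.disj _ hs.1 c hc _ k hs.2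
  have e2 : hex.choose.2 = k := by
    have h2 := hs.2
    rw [e1] at h2
    exact h.inj c hc h2
  unfold Fam.mv
  rw [dif_pos hex, e1, e2]

theorem Fam.mv_out {F : Fam κ} (φ : (κ → ℕ) → (κ → ℕ)) {a : ℕ} (ha : a ∉ F.supp) :
    F.mv φ a = a := by
  unfold Fam.mv
  rw [dif_neg]
  rintro ⟨p, hp, hpa⟩
  exact ha ⟨p.1, hp, p.2, hpa⟩

/-- a cell disjoint from the support is not moved -/
theorem Fam.mv_fix {F : Fam κ} (h : F.OK) (φ : (κ → ℕ) → (κ → ℕ)) {a : ℕ}
    (ha : ∀ c ∈ F.cells, (∃ k, c k = a) → φ c = c) : F.mv φ a = a := by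
  by_cases hs : a ∈ F.supp
  · obtain ⟨c, hc, k, rfl⟩ := hs
    rw [Fam.mv_cell h φ hc k, ha c hc ⟨k, rfl⟩]
  · exact Fam.mv_out φ hs

/-- the used cells of a tuple are finite in number, at most `r` -/
theorem used_finite {F : Fam κ} (h : F.OK) (t : Fin r → ℕ) :
    {c | Used F t c}.Finite ∧ {c | Used F t c}.ncard ≤ r := by
  have hch : ∀ c : {c | Used F t c}, ∃ j, ∃ k, t j = c.1 k := fun c => c.2.2
  choose f hf using hch
  have hinj : Injective f := by
    intro c c' hcc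
    obtain ⟨k, hk⟩ := hf c
    obtain ⟨k', hk'⟩ := hf c'
    rw [hcc] at hk
    exact Subtype.ext (h.disj c.1 c.2.1 c'.1 c'.2.1 k k' (hk.symm.trans hk'))
  have hfin : Finite {c | Used F t c} := Finite.of_injective f hinj
  refine ⟨Set.toFinite _, ?_⟩
  rw [← Nat.card_coe_set_eq]
  calc Nat.card {c | Used F t c} ≤ Nat.card (Fin r) := Nat.card_le_card_of_injective f hinj
    _ = r := by simp

/-- the used cells of the moved tuple -/
theorem used_mv {F : Fam κ} (h : F.OK) {t : Fin r → ℕ} {φ : (κ → ℕ) → (κ → ℕ)} (hφ : Mv F t φ)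
    (c : κ → ℕ) : Used F (fun j => F.mv φ (t j)) c ↔ ∃ c', Used F t c' ∧ φ c' = c := by
  constructor
  · rintro ⟨hc, j, k, hjk⟩
    simp only at hjk
    by_cases hs : t j ∈ F.supp
    · obtain ⟨c', hc', k', hk'⟩ := hs
      have hu : Used F t c' := ⟨hc', j, k', hk'.symm⟩
      rw [← hk', Fam.mv_cell h φ hc' k'] at hjk
      exact ⟨c', hu, h.disj _ (hφ.1 c' hu) c hc k' k hjk⟩
    · rw [Fam.mv_out φ hs] at hjk
      exact absurd ⟨c, hc, k, hjk.symm⟩ hs
  · rintro ⟨c', hu, rfl⟩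
    obtain ⟨hc', j, k, hjk⟩ := hu
    refine ⟨hφ.1 c' ⟨hc', j, k, hjk⟩, j, k, ?_⟩
    simp only
    rw [hjk, Fam.mv_cell h φ hc' k]

/-- the full cells of the moved tuple -/
theorem full_mv {F : Fam κ} (h : F.OK) {t : Fin r → ℕ} {φ : (κ → ℕ) → (κ → ℕ)} (hφ : Mv F t φ)
    (c : κ → ℕ) : Full F (fun j => F.mv φ (t j)) c ↔ ∃ c', Full F t c' ∧ φ c' = c := by
  obtain ⟨k0⟩ := h.nonempty
  constructor
  · rintro ⟨hc, hfull⟩
    obtain ⟨j0, hj0⟩ := hfull k0
    obtain ⟨c', hu', hφc⟩ := (used_mv h hφ c).1 ⟨hc, j0, k0, hj0⟩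
    refine ⟨c', ⟨hu'.1, fun k => ?_⟩, hφc⟩
    obtain ⟨j, hj⟩ := hfull k
    refine ⟨j, ?_⟩
    simp only at hj
    by_cases hs : t j ∈ F.supp
    · obtain ⟨c'', hc'', k'', hk''⟩ := hs
      have hu'' : Used F t c'' := ⟨hc'', j, k'', hk''.symm⟩
      rw [← hk'', Fam.mv_cell h φ hc'' k''] at hj
      have e1 : φ c'' = c := h.disj _ (hφ.1 c'' hu'') c hc k'' k hj
      have e2 : c'' = c' := hφ.2 c'' c' hu'' hu' (e1.trans hφc.symm)
      rw [e1] at hj
      have e3 : k'' = k := h.inj c hc hj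
      rw [← hk'', e2, e3]
    · rw [Fam.mv_out φ hs] at hj
      exact absurd ⟨c, hc, k, hj.symm⟩ hs
  · rintro ⟨c', hf, rfl⟩
    obtain ⟨j0, hj0⟩ := hf.2 k0
    refine ⟨hφ.1 c' ⟨hf.1, j0, k0, hj0⟩, fun k => ?_⟩
    obtain ⟨j, hj⟩ := hf.2 k
    refine ⟨j, ?_⟩
    simp only
    rw [hj, Fam.mv_cell h φ hf.1 k]

/-- composition of moves -/
theorem mv_comp {F : Fam κ} (h : F.OK) {t : Fin r → ℕ} {φ ψ : (κ → ℕ) → (κ → ℕ)} (hφ : Mv F t φ)
    (hψ : Mv F (fun j => F.mv φ (t j)) ψ) :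
    Mv F t (fun c => ψ (φ c)) ∧
      (fun j => F.mv ψ (F.mv φ (t j))) = fun j => F.mv (fun c => ψ (φ c)) (t j) := by
  have hu : ∀ c, Used F t c → Used F (fun j => F.mv φ (t j)) (φ c) :=
    fun c hc => (used_mv h hφ (φ c)).2 ⟨c, hc, rfl⟩
  refine ⟨⟨fun c hc => hψ.1 _ (hu c hc), fun c c' hc hc' hcc =>
    hφ.2 c c' hc hc' (hψ.2 _ _ (hu c hc) (hu c' hc') hcc)⟩, ?_⟩
  funext j
  by_cases hs : t j ∈ F.supp
  · obtain ⟨c, hc, k, hk⟩ := hs
    have hu' : Used F t c := ⟨hc, j, k, hk.symm⟩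
    rw [← hk, Fam.mv_cell h φ hc k, Fam.mv_cell h _ hc k,
      Fam.mv_cell h ψ (hφ.1 c hu') k]
  · rw [Fam.mv_out φ hs, Fam.mv_out _ hs, Fam.mv_out _ hs]

/-- the reversed family -/
def Fam.rev (F : Fam κ) : Fam κ := ⟨F.cells, fun c c' => F.lt c' c⟩

/-- the relabelled family -/
def Fam.relab (F : Fam κ) (σ : κ ≃ κ) : Fam κ :=
  ⟨{c | (fun k => c (σ.symm k)) ∈ F.cells},
    fun c c' => F.lt (fun k => c (σ.symm k)) (fun k => c' (σ.symm k))⟩

theorem FN.rev {N : Col r K ℕ} {F : Fam κ} (h : FN N F) : FN N F.rev := by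
  have hu : ∀ (t : Fin r → ℕ) c, Used F.rev t c ↔ Used F t c := fun t c => Iff.rfl
  have hf : ∀ (t : Fin r → ℕ) c, Full F.rev t c ↔ Full F t c := fun t c => Iff.rfl
  have hm : ∀ φ a, F.rev.mv φ a = F.mv φ a := fun φ a => rfl
  refine ⟨⟨h.ok.inj, h.ok.disj, h.ok.irr, ?_, ?_, h.ok.inf⟩, ?_, ?_⟩
  · intro c hc c' hc' c'' hc'' h1 h2
    exact h.ok.trans c'' hc'' c' hc' c hc h2 h1
  · intro c hc c' hc' hne
    exact h.ok.total c' hc' c hc hne.symm
  · intro t φ hM hMon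
    exact h.free t φ hM (fun c c' hc hc' hlt => hMon c' c hc' hc hlt)
  · obtain ⟨t, φ, hM, hne⟩ := h.nsym
    exact ⟨t, φ, hM, hne⟩

theorem FN.relab {N : Col r K ℕ} {F : Fam κ} (h : FN N F) (σ : κ ≃ κ) : FN N (F.relab σ) := by
  have hcell : ∀ c : κ → ℕ, c ∈ (F.relab σ).cells ↔ (fun k => c (σ.symm k)) ∈ F.cells :=
    fun c => Iff.rfl
  have hcell' : ∀ d ∈ F.cells, (fun k => d (σ k)) ∈ (F.relab σ).cells := by
    intro d hd
    rw [hcell]
    simpa using hd
  have hlt : ∀ c c' : κ → ℕ, (F.relab σ).lt c c' ↔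
      F.lt (fun k => c (σ.symm k)) (fun k => c' (σ.symm k)) := fun c c' => Iff.rfl
  have hcan : ∀ c c' : κ → ℕ, (fun k => c (σ.symm k)) = (fun k => c' (σ.symm k)) → c = c' := by
    intro c c' hcc
    funext k
    simpa using congrFun hcc (σ k)
  have hcan' : ∀ c c' : κ → ℕ, (fun k => c (σ k)) = (fun k => c' (σ k)) → c = c' := by
    intro c c' hcc
    funext k
    simpa using congrFun hcc (σ.symm k)
  have hok : (F.relab σ).OK := by
    refine ⟨?_, ?_, ?_, ?_, ?_, ?_⟩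
    · intro c hc k k' hkk
      have h1 := h.ok.inj _ hc (a₁ := σ k) (a₂ := σ k') (by simpa using hkk)
      exact σ.injective h1
    · intro c hc c' hc' k k' hkk
      apply hcan
      exact h.ok.disj _ hc _ hc' (σ k) (σ k') (by simpa using hkk)
    · intro c hc
      exact h.ok.irr _ hc
    · intro c hc c' hc' c'' hc'' h1 h2
      exact h.ok.trans _ hc _ hc' _ hc'' h1 h2
    · intro c hc c' hc' hne
      exact h.ok.total _ hc _ hc' (fun h1 => hne (hcan c c' h1))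
    · have h1 : ((fun (d : κ → ℕ) (k : κ) => d (σ k)) '' F.cells).Infinite :=
        h.ok.inf.image (fun c _ c' _ hcc => hcan' c c' hcc)
      exact h1.mono (by rintro _ ⟨d, hd, rfl⟩; exact hcell' d hd)
  have hsupp : (F.relab σ).supp = F.supp := by
    ext a
    constructor
    · rintro ⟨c, hc, k, rfl⟩
      exact ⟨_, hc, σ k, by simp⟩
    · rintro ⟨c, hc, k, rfl⟩
      exact ⟨_, hcell' c hc, σ.symm k, by simp⟩
  -- the two moves
  have hmv : ∀ φ : (κ → ℕ) → (κ → ℕ),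
      (F.relab σ).mv φ = F.mv (fun d k => φ (fun k => d (σ k)) (σ.symm k)) := by
    intro φ
    funext a
    by_cases hs : a ∈ F.supp
    · obtain ⟨d, hd, k, rfl⟩ := hs
      rw [Fam.mv_cell h.ok _ hd k]
      have h1 := Fam.mv_cell hok φ (hcell' d hd) (σ.symm k)
      simp only [Equiv.apply_symm_apply] at h1
      exact h1
    · rw [Fam.mv_out _ hs, Fam.mv_out _ (by rw [hsupp]; exact hs)]
  have hused : ∀ (t : Fin r → ℕ) c, Used (F.relab σ) t c ↔ Used F t (fun k => c (σ.symm k)) := by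
    intro t c
    constructor
    · rintro ⟨hc, j, k, hjk⟩
      exact ⟨hc, j, σ k, by simpa using hjk⟩
    · rintro ⟨hc, j, k, hjk⟩
      exact ⟨hc, j, σ.symm k, hjk⟩
  have hfull : ∀ (t : Fin r → ℕ) c, Full (F.relab σ) t c ↔ Full F t (fun k => c (σ.symm k)) := by
    intro t c
    constructor
    · rintro ⟨hc, hk⟩
      refine ⟨hc, fun k => ?_⟩
      exact hk (σ.symm k)
    · rintro ⟨hc, hk⟩
      refine ⟨hc, fun k => ?_⟩
      obtain ⟨j, hj⟩ := hk (σ k)
      exact ⟨j, by simpa using hj⟩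
  have hback : ∀ c : κ → ℕ, (fun k => (fun k => c (σ k)) (σ.symm k)) = c := by
    intro c
    funext k
    simp
  have hback' : ∀ c : κ → ℕ, (fun k => (fun k => c (σ.symm k)) (σ k)) = c := by
    intro c
    funext k
    simp
  refine ⟨hok, ?_, ?_⟩
  · intro t φ hM hMon
    rw [hmv φ]
    apply h.free
    · refine ⟨fun d hd => ?_, fun d d' hd hd' hdd => ?_⟩
      · have h1 : Used (F.relab σ) t (fun k => d (σ k)) := by
          rw [hused, hback]
          exact hd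
        exact hM.1 _ h1
      · have h1 : Used (F.relab σ) t (fun k => d (σ k)) := by
          rw [hused, hback]
          exact hd
        have h2 : Used (F.relab σ) t (fun k => d' (σ k)) := by
          rw [hused, hback]
          exact hd'
        exact hcan' _ _ (hM.2 _ _ h1 h2 (hcan _ _ hdd))
    · intro d d' hd hd' hdd
      have h1 : Full (F.relab σ) t (fun k => d (σ k)) := by
        rw [hfull, hback]
        exact hd
      have h2 : Full (F.relab σ) t (fun k => d' (σ k)) := by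
        rw [hfull, hback]
        exact hd'
      have h3 := hMon _ _ h1 h2 (by rw [hlt, hback, hback]; exact hdd)
      exact h3
  · obtain ⟨t, φ, hM, hne⟩ := h.nsym
    refine ⟨t, fun c k => φ (fun k => c (σ.symm k)) (σ k), ⟨fun c hc => ?_,
      fun c c' hc hc' hcc => ?_⟩, ?_⟩
    · rw [hused] at hc
      rw [hcell]
      simp only [Equiv.apply_symm_apply]
      exact hM.1 _ hc
    · rw [hused] at hc hc'
      exact hcan _ _ (hM.2 _ _ hc hc' (hcan' _ _ hcc))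
    · rw [hmv]
      have h1 : (fun (d : κ → ℕ) (k : κ) => φ (fun k => (fun k => d (σ k)) (σ.symm k))
          (σ (σ.symm k))) = φ := by
        funext d k
        rw [hback]
        simp
      rw [h1]
      exact hne

/-- inclusion of families -/
def FLe (F G : Fam κ) : Prop :=
  F.cells ⊆ G.cells ∧ ∀ c ∈ F.cells, ∀ c' ∈ F.cells, F.lt c c' ↔ G.lt c c'

/-- maximal free non-symmetric family -/
def FMax (N : Col r K ℕ) (F : Fam κ) : Prop :=
  FN N F ∧ ∀ G : Fam κ, FN N G → FLe F G → G.cells ⊆ F.cells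

theorem FMax.rev {N : Col r K ℕ} {F : Fam κ} (h : FMax N F) : FMax N F.rev := by
  refine ⟨h.1.rev, fun G hG hle => ?_⟩
  exact h.2 G.rev hG.rev ⟨hle.1, fun c hc c' hc' => hle.2 c' hc' c hc⟩

end Pool.H17.TC
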