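import Pool.Agent.H17.TC.Jump
import Pool.Agent.H17.TB.Perm

/-!
# L0 : cells of a free non-symmetric family are chain atoms
-/

set_option autoImplicit false

namespace Pool.H17.TC

open Pool.H22.VC Function Set Pool.H17.TA Pool.H17.TB

variable {r : ℕ} {K ι κ κ' : Type} {N : Col r K ℕ}

/-- Proper pairs of parts of cells commute (no constants needed). PROOF. Let `t` be an admissible
context for the parts `s`, `s'`. At most `r` block numbers are used; by `Hom.pat` we may choose: front
blocks `0, …, f - 1`, the two parts in blocks `i₀ < i₁` among the candidates `f, …, f + r + 1`, the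
blocks behind after them. The full cells of the tuple outside the two parts are among at most `r`
cells, which do not depend on the choice of `i₀ < i₁`; so two candidates `i₀ < i₁` are not separated
by them. The move exchanging the cells `e i₀ ∘ lam` and `e i₁ ∘ lam` is order preserving on the full
cells, because at most one of the two is full and no full cell is between them. It exchanges the two
parts. -/
theorem fam_perp {F : Fam κ} (hF : FN N F) [Finite κ] {A : Set ℕ} {e : ℕ → ι → ℕ}
    (hH : Hom N A e) {lam : κ → ι} (hl : ∀ i, (fun k => e i (lam k)) ∈ F.cells) (s s' : Set κ)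
    (hs : s ≠ univ ∨ s' ≠ univ) : Perp N A e (res s lam) (res s' lam) := by
  classical
  obtain ⟨k0⟩ := hF.ok.nonempty
  have hlam : Injective lam := fun k k' h =>
    hF.ok.inj _ (hl 0) (show e 0 (lam k) = e 0 (lam k') by rw [h])
  intro f b b' hb hb' hz hz' t ht
  obtain ⟨B, hB⟩ : ∃ B, B = f + r + 3 := ⟨_, rfl⟩
  let c : ℕ → κ → ℕ := fun i k => e (f + i) (lam k)
  have hc : ∀ i, c i ∈ F.cells := fun i => hl (f + i)
  let zz : ℕ → ℕ → s ⊕ s' → ℕ × ι := fun i j => Sum.elim (blk i (res s lam)) (blk j (res s' lam))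
  have hzz : ∀ i j, i < r + 2 → j < r + 2 → ∀ k, f + (zz i j k).1 < B := by
    rintro i j hi hj (k | k)
    · show f + i < B
      omega
    · show f + j < B
      omega
  have X1 : ∀ i j, i < j → j < r + 2 →
      N (fun x => pl e f b (Sum.elim (blk 0 (res s lam)) (blk 1 (res s' lam))) (t x)) =
        N (fun x => pl e f B (zz i j) (t x)) := by
    intro i j hij hj
    refine teq_pat hH _ (zz i j) ?_ ?_ f b B hb (by omega) hz (hzz i j (by omega) hj) t ht
    · rintro (k | k) <;> rfl
    · rintro (k | k) (k' | k')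
      · show 0 < 0 ↔ i < i
        omega
      · show 0 < 1 ↔ i < j
        omega
      · show 1 < 0 ↔ j < i
        omega
      · show 1 < 1 ↔ j < j
        omega
  have Y1 : ∀ i j, i < j → j < r + 2 →
      N (fun x => pl e f b' (Sum.elim (blk 1 (res s lam)) (blk 0 (res s' lam))) (t x)) =
        N (fun x => pl e f B (zz j i) (t x)) := by
    intro i j hij hj
    refine teq_pat hH _ (zz j i) ?_ ?_ f b' B hb' (by omega) hz' (hzz j i hj (by omega)) t ht
    · rintro (k | k) <;> rfl
    · rintro (k | k) (k' | k')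
      · show 1 < 1 ↔ j < j
        omega
      · show 1 < 0 ↔ j < i
        omega
      · show 0 < 1 ↔ i < j
        omega
      · show 0 < 0 ↔ i < i
        omega
  -- entries outside the two parts
  have hnp : ∀ x, (∀ q, t x ≠ Sum.inr (Sum.inr (Sum.inl q))) → (∀ i j i' j',
      pl e f B (zz i j) (t x) = pl e f B (zz i' j') (t x)) ∧
      ∀ i j i', i' < r + 2 → ∀ l, pl e f B (zz i j) (t x) ≠ e (f + i') l := by
    intro x hx
    rcases htx : t x with a | p | q | p
    · refine ⟨fun _ _ _ _ => rfl, fun i j i' _ l h1 => ?_⟩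
      have h2 : a = e (f + i') l := h1
      exact hH.notA _ _ (h2 ▸ ht.1 x a htx)
    · refine ⟨fun _ _ _ _ => rfl, fun i j i' _ l h1 => ?_⟩
      have h2 : e p.1 p.2 = e (f + i') l := h1
      have h3 := (hH.inj _ _ _ _ h2).1
      have h4 := ht.2 x p htx
      omega
    · exact absurd htx (hx q)
    · refine ⟨fun _ _ _ _ => rfl, fun i j i' hi' l h1 => ?_⟩
      have h2 : e (B + p.1) p.2 = e (f + i') l := h1
      have h3 := (hH.inj _ _ _ _ h2).1
      omega
  let W : Set (κ → ℕ) := {w | w ∈ F.cells ∧ ∀ k, ∃ x, (∀ q, t x ≠ Sum.inr (Sum.inr (Sum.inl q))) ∧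
    pl e f B (zz 0 1) (t x) = w k}
  have hWu : W ⊆ {w | Used F (fun x => pl e f B (zz 0 1) (t x)) w} := by
    rintro w ⟨h1, h2⟩
    obtain ⟨x, -, hx⟩ := h2 k0
    exact ⟨h1, x, k0, hx⟩
  obtain ⟨hUf, hUc⟩ := used_finite hF.ok (fun x => pl e f B (zz 0 1) (t x))
  have hWf : W.Finite := hUf.subset hWu
  have hWc : hWf.toFinset.card ≤ r := by
    rw [← Set.ncard_eq_toFinset_card _ hWf]
    exact (Set.ncard_le_ncard hWu hUf).trans hUc
  have hWn : ∀ w ∈ W, ∀ i, i < r + 2 → w ≠ c i := by
    rintro w ⟨-, h2⟩ i hi rfl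
    obtain ⟨x, hx, hx'⟩ := h2 k0
    exact (hnp x hx).2 0 1 i hi _ hx'
  -- pigeonhole
  obtain ⟨i, j, hij, hj, hcount⟩ : ∃ i j, i < j ∧ j < r + 2 ∧
      (hWf.toFinset.filter (fun w => F.lt w (c i))).card =
        (hWf.toFinset.filter (fun w => F.lt w (c j))).card := by
    obtain ⟨i, hi, j, hj, hne, heq⟩ := Finset.exists_ne_map_eq_of_card_lt_of_maps_to
      (s := Finset.range (r + 2)) (t := Finset.range (r + 1))
      (f := fun i => (hWf.toFinset.filter (fun w => F.lt w (c i))).card)
      (by rw [Finset.card_range, Finset.card_range]; omega) (by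
        intro i _
        rw [Finset.coe_range, Set.mem_Iio]
        have h1 := Finset.card_filter_le hWf.toFinset (fun w => F.lt w (c i))
        show (hWf.toFinset.filter (fun w => F.lt w (c i))).card < r + 1
        omega)
    rw [Finset.mem_range] at hi hj
    rcases Nat.lt_or_gt_of_ne hne with h1 | h1
    · exact ⟨i, j, h1, hj, heq⟩
    · exact ⟨j, i, h1, hi, heq.symm⟩
  have hi : i < r + 2 := by omega
  have hcne : c i ≠ c j := by
    intro h1
    have h2 : e (f + i) (lam k0) = e (f + j) (lam k0) := congrFun h1 k0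
    have := (hH.inj _ _ _ _ h2).1
    omega
  have hcut : ∀ w ∈ W, (F.lt w (c i) ↔ F.lt w (c j)) := by
    have key : ∀ i j : ℕ, (hWf.toFinset.filter (fun w => F.lt w (c i))).card =
        (hWf.toFinset.filter (fun w => F.lt w (c j))).card → F.lt (c i) (c j) →
        ∀ w ∈ W, (F.lt w (c i) ↔ F.lt w (c j)) := by
      intro i j h1 h2 w hw
      have h3 : hWf.toFinset.filter (fun w => F.lt w (c i)) ⊆
          hWf.toFinset.filter (fun w => F.lt w (c j)) := by
        intro v hv
        rw [Finset.mem_filter] at hv ⊢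
        exact ⟨hv.1, hF.ok.trans _ ((hWf.mem_toFinset.1 hv.1).1) _ (hc i) _ (hc j) hv.2 h2⟩
      have h4 := Finset.eq_of_subset_of_card_le h3 h1.ge
      have h5 := Finset.ext_iff.1 h4 w
      rw [Finset.mem_filter, Finset.mem_filter, hWf.mem_toFinset] at h5
      exact ⟨fun h => (h5.1 ⟨hw, h⟩).2, fun h => (h5.2 ⟨hw, h⟩).2⟩
    rcases hF.ok.total _ (hc i) _ (hc j) hcne with h1 | h1
    · exact key i j hcount h1
    · exact fun w hw => (key j i hcount.symm h1 w hw).symm
  have hcut' : ∀ w ∈ W, (F.lt (c i) w ↔ F.lt (c j) w) := by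
    have key : ∀ i, i < r + 2 → ∀ w ∈ W, (F.lt (c i) w ↔ ¬ F.lt w (c i)) := by
      intro i hi w hw
      constructor
      · intro h1 h2
        exact hF.ok.irr _ (hc i) (hF.ok.trans _ (hc i) _ hw.1 _ (hc i) h1 h2)
      · intro h1
        exact (hF.ok.total _ (hc i) _ hw.1 (hWn w hw i hi).symm).resolve_right h1
    intro w hw
    rw [key i hi w hw, key j hj w hw, hcut w hw]
  -- the move
  obtain ⟨X, hX⟩ : ∃ X : Fin r → ℕ, X = fun x => pl e f B (zz i j) (t x) := ⟨_, rfl⟩
  have hXv : ∀ x, X x = pl e f B (zz i j) (t x) := fun x => by rw [hX]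
  have hcase : ∀ u, Full F X u → u = c i ∨ u = c j ∨ u ∈ W := by
    rintro u ⟨hu, hfull⟩
    by_cases h1 : u = c i
    · exact Or.inl h1
    by_cases h2 : u = c j
    · exact Or.inr (Or.inl h2)
    refine Or.inr (Or.inr ⟨hu, fun k => ?_⟩)
    obtain ⟨x, hx⟩ := hfull k
    rw [hXv] at hx
    refine ⟨x, ?_, ?_⟩
    · rintro (q | q) htx
      · rw [htx] at hx
        exact h1 (hF.ok.disj _ hu _ (hc i) k q.1 hx.symm)
      · rw [htx] at hx
        exact h2 (hF.ok.disj _ hu _ (hc j) k q.1 hx.symm)
    · rw [← hx]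
      by_cases hq : ∃ q, t x = Sum.inr (Sum.inr (Sum.inl q))
      · exfalso
        obtain ⟨q | q, htx⟩ := hq
        · rw [htx] at hx
          exact h1 (hF.ok.disj _ hu _ (hc i) k q.1 hx.symm)
        · rw [htx] at hx
          exact h2 (hF.ok.disj _ hu _ (hc j) k q.1 hx.symm)
      · push Not at hq
        exact (hnp x hq).1 _ _ _ _
  have hfi : Full F X (c i) → s = univ := by
    rintro ⟨-, h1⟩
    rw [eq_univ_iff_forall]
    intro k
    obtain ⟨x, hx⟩ := h1 k
    rw [hXv] at hx
    by_cases hq : ∃ q, t x = Sum.inr (Sum.inr (Sum.inl q))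
    · obtain ⟨q | q, htx⟩ := hq
      · rw [htx] at hx
        have h2 : e (f + i) (lam q.1) = e (f + i) (lam k) := hx
        have h3 := hlam (hH.inj _ _ _ _ h2).2
        rw [← h3]
        exact q.2
      · rw [htx] at hx
        have h2 : e (f + j) (lam q.1) = e (f + i) (lam k) := hx
        have h3 := (hH.inj _ _ _ _ h2).1
        omega
    · push Not at hq
      exact absurd hx ((hnp x hq).2 _ _ i hi _)
  have hfj : Full F X (c j) → s' = univ := by
    rintro ⟨-, h1⟩
    rw [eq_univ_iff_forall]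
    intro k
    obtain ⟨x, hx⟩ := h1 k
    rw [hXv] at hx
    by_cases hq : ∃ q, t x = Sum.inr (Sum.inr (Sum.inl q))
    · obtain ⟨q | q, htx⟩ := hq
      · rw [htx] at hx
        have h2 : e (f + i) (lam q.1) = e (f + j) (lam k) := hx
        have h3 := (hH.inj _ _ _ _ h2).1
        omega
      · rw [htx] at hx
        have h2 : e (f + j) (lam q.1) = e (f + j) (lam k) := hx
        have h3 := hlam (hH.inj _ _ _ _ h2).2
        rw [← h3]
        exact q.2
    · push Not at hq
      exact absurd hx ((hnp x hq).2 _ _ j hj _)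
  let φ : (κ → ℕ) → (κ → ℕ) := fun u => Equiv.swap (c i) (c j) u
  have hφi : φ (c i) = c j := Equiv.swap_apply_left _ _
  have hφj : φ (c j) = c i := Equiv.swap_apply_right _ _
  have hφo : ∀ u, u ≠ c i → u ≠ c j → φ u = u := fun u h1 h2 => Equiv.swap_apply_of_ne_of_ne h1 h2
  have hMv : Mv F X φ := by
    constructor
    · rintro u ⟨hu, -⟩
      by_cases h1 : u = c i
      · rw [h1, hφi]
        exact hc j
      · by_cases h2 : u = c j
        · rw [h2, hφj]
          exact hc i
        · rw [hφo u h1 h2]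
          exact hu
    · intro u u' _ _ h1
      exact (Equiv.swap (c i) (c j)).injective h1
  have hMon : Mon F X φ := by
    intro u u' hu hu' hlt
    rcases hcase u hu with rfl | rfl | hw
    · rcases hcase u' hu' with rfl | rfl | hw'
      · exact absurd hlt (hF.ok.irr _ (hc i))
      · rcases hs with hs | hs
        · exact absurd (hfi hu) hs
        · exact absurd (hfj hu') hs
      · rw [hφi, hφo u' (hWn _ hw' i hi) (hWn _ hw' j hj)]
        exact (hcut' _ hw').1 hlt
    · rcases hcase u' hu' with rfl | rfl | hw'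
      · rcases hs with hs | hs
        · exact absurd (hfi hu') hs
        · exact absurd (hfj hu) hs
      · exact absurd hlt (hF.ok.irr _ (hc j))
      · rw [hφj, hφo u' (hWn _ hw' i hi) (hWn _ hw' j hj)]
        exact (hcut' _ hw').2 hlt
    · rcases hcase u' hu' with rfl | rfl | hw'
      · rw [hφi, hφo u (hWn _ hw i hi) (hWn _ hw j hj)]
        exact (hcut _ hw).1 hlt
      · rw [hφj, hφo u (hWn _ hw i hi) (hWn _ hw j hj)]
        exact (hcut _ hw).2 hlt
      · rw [hφo u (hWn _ hw i hi) (hWn _ hw j hj), hφo u' (hWn _ hw' i hi) (hWn _ hw' j hj)]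
        exact hlt
  have hmv : (fun x => F.mv φ (X x)) = fun x => pl e f B (zz j i) (t x) := by
    funext x
    rw [hXv]
    by_cases hq : ∃ q, t x = Sum.inr (Sum.inr (Sum.inl q))
    · obtain ⟨q | q, htx⟩ := hq
      · rw [htx]
        show F.mv φ (c i q.1) = c j q.1
        rw [Fam.mv_cell hF.ok φ (hc i), hφi]
      · rw [htx]
        show F.mv φ (c j q.1) = c i q.1
        rw [Fam.mv_cell hF.ok φ (hc j), hφj]
    · push Not at hq
      rw [(hnp x hq).1 j i i j]
      apply Fam.mv_fix hF.ok
      rintro u hu ⟨k, hk⟩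
      apply hφo
      · rintro rfl
        exact (hnp x hq).2 i j i hi _ hk.symm
      · rintro rfl
        exact (hnp x hq).2 i j j hj _ hk.symm
  rw [X1 i j hij hj, Y1 i j hij hj, ← hmv, ← hX]
  exact (hF.free X φ hMv hMon).symm

/-- The whole cells do not commute, if `A` contains the constants of a visible transposition. PROOF.
Otherwise all parts commute (`Perp.comp`) and by `teq_perm` every permutation of the blocks of a
configuration of letters of `lam` is invisible. Take a sequence of blocks in which the cells are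
increasing (there is an increasing sequence of `p` cells among the infinitely many `e i ∘ lam`:
sort any `p` of them): `Jmp.inc` and `Jmp.swp` are colours of two such configurations. -/
theorem fam_not_perp {F : Fam κ} (hF : FN N F) [Finite κ] {p : ℕ}
    {T : Fin r → ℕ ⊕ (Fin p × κ)} {i i' : Fin p} {ε ε' : K} (hJ : Jmp N F p T i i' ε ε')
    {A : Set ℕ} {e : ℕ → ι → ℕ} (hH : Hom N A e) (hA : ∀ j a, T j = Sum.inl a → a ∈ A)
    {lam : κ → ι} (hl : ∀ i, (fun k => e i (lam k)) ∈ F.cells) : ¬ Perp N A e lam lam := by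
  classical
  intro hP
  apply hJ.ne
  obtain ⟨k0⟩ := hF.ok.nonempty
  let y : ℕ → κ → ℕ := fun n k => e n (lam k)
  have hyi : Injective y := by
    intro n n' h
    exact (hH.inj _ _ _ _ (congrFun h k0)).1
  obtain ⟨Y, hY1, hY2⟩ := (infinite_range_of_injective hyi).exists_subset_ncard_eq p
  obtain ⟨c, hc1, hc2, hc3⟩ := exists_incr hF.ok Y (by
    intro u hu
    obtain ⟨n, rfl⟩ := hY1 hu
    exact hl n) hY2.1 hY2.2
  have hex : ∀ s, ∃ n, y n = c s := by
    intro s
    have h1 : c s ∈ Y := by
      rw [← hc3]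
      exact mem_range_self s
    exact hY1 h1
  choose n hn using hex
  have hci := incr_inj hF.ok hc1 hc2
  have hni : Injective n := by
    intro s s' h
    apply hci
    rw [← hn s, ← hn s', h]
  let ψ : ℕ → ℕ := fun m => if h : ∃ s, n s = m then n (Equiv.swap i i' h.choose) else m
  have hψ : ∀ s, ψ (n s) = n (Equiv.swap i i' s) := by
    intro s
    have hex : ∃ s', n s' = n s := ⟨s, rfl⟩
    have h1 : hex.choose = s := hni hex.choose_spec
    simp only [ψ]
    rw [dif_pos hex, h1]
  let z : Fin p × κ → ℕ × ι := fun q => (n q.1, lam q.2)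
  have hT : Teq N A e z (fun q => (ψ (z q).1, (z q).2)) := by
    refine teq_perm hH z ψ ?_ ?_
    · rintro ⟨s, k⟩ ⟨s', k'⟩ h1
      show ψ (n s) ≠ ψ (n s')
      rw [hψ, hψ]
      intro h2
      apply h1
      show n s = n s'
      rw [(Equiv.swap i i').injective (hni h2)]
    · intro a b _ _ _ _
      exact hP.comp hH (fun q : {q | (z q).1 = a} => q.1.2) (fun q : {q | (z q).1 = b} => q.1.2)
  let t : Fin r → ℕ ⊕ ((ℕ × ι) ⊕ ((Fin p × κ) ⊕ (ℕ × ι))) := fun j =>
    Sum.elim Sum.inl (fun q => Sum.inr (Sum.inr (Sum.inl q))) (T j)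
  have ht : Adm A 0 t := by
    constructor
    · intro j a hj
      rcases hTj : T j with a' | q
      · simp only [t, hTj, Sum.elim_inl, Sum.inl.injEq] at hj
        rw [← hj]
        exact hA j a' hTj
      · simp [t, hTj] at hj
    · intro j q hj
      rcases hTj : T j with a' | q'
      · simp [t, hTj] at hj
      · simp [t, hTj] at hj
  have hfin : (range fun s => n s).Finite := finite_range _
  obtain ⟨m, hm⟩ := hfin.bddAbove
  have hm' : ∀ s, n s < m + 1 := fun s => Nat.lt_succ_of_le (hm (mem_range_self s))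
  have h1 := hT 0 (m + 1) (m + 1) (Nat.zero_le _) (Nat.zero_le _) (by
    rintro ⟨s, k⟩
    show 0 + n s < m + 1
    have := hm' s
    omega) (by
    rintro ⟨s, k⟩
    show 0 + ψ (n s) < m + 1
    rw [hψ]
    have := hm' (Equiv.swap i i' s)
    omega) t ht
  rw [← hJ.inc c ⟨hc1, hc2⟩, ← hJ.swp c ⟨hc1, hc2⟩]
  have e1 : ap T c = fun j => pl e 0 (m + 1) z (t j) := by
    funext j
    unfold ap
    rcases hTj : T j with a' | q
    · simp only [t, hTj]
      rfl
    · simp only [t, hTj]
      show c q.1 q.2 = e (0 + n q.1) (lam q.2)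
      rw [← hn, Nat.zero_add]
  have e2 : ap T (fun s => c (Equiv.swap i i' s)) =
      fun j => pl e 0 (m + 1) (fun q => (ψ (z q).1, (z q).2)) (t j) := by
    funext j
    unfold ap
    rcases hTj : T j with a' | q
    · simp only [t, hTj]
      rfl
    · simp only [t, hTj]
      show c (Equiv.swap i i' q.1) q.2 = e (0 + ψ (n q.1)) (lam q.2)
      rw [← hn, Nat.zero_add, hψ]
  rw [e1, e2]
  exact h1

/-- L0 -/
theorem fam_ca {F : Fam κ} (hF : FN N F) [Finite κ] :
    ∃ C : Set ℕ, C.Finite ∧ ∀ (ι : Type) (A : Set ℕ) (e : ℕ → ι → ℕ) (lam : κ → ι), C ⊆ A →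
      Hom N A e → (∀ i, (fun k => e i (lam k)) ∈ F.cells) → CA N A e lam := by
  obtain ⟨p, T, i, i', ε, ε', hJ⟩ := exists_jmp hF
  refine ⟨{a | ∃ j, T j = Sum.inl a}, ?_, ?_⟩
  · have h1 : {a | ∃ j, T j = Sum.inl a} ⊆ (fun x : ℕ ⊕ (Fin p × κ) => Sum.elim id (fun _ => 0) x) ''
        range T := by
      rintro a ⟨j, hj⟩
      exact ⟨_, mem_range_self j, by rw [hj]; rfl⟩
    exact ((finite_range T).image _).subset h1
  · intro ι A e lam hC hH hl
    refine ⟨?_, ?_, ?_⟩
    · intro k k' h
      exact hF.ok.inj _ (hl 0) (show e 0 (lam k) = e 0 (lam k') by rw [h])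
    · exact fam_not_perp hF hJ hH (fun j a hj => hC ⟨j, hj⟩) hl
    · intro s s' hs
      exact fam_perp hF hH hl s s' hs

end Pool.H17.TC
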