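import Pool.Agent.H17.TC.NoSeq

/-!
# Finitely many maximal families
-/

set_option autoImplicit false

namespace Pool.H17.TC

open Pool.H22.VC Function Set Pool.H17.TA Pool.H17.TB

variable {r : ℕ} {K ι κ κ' : Type} {N : Col r K ℕ} {A : Set ℕ} {e : ℕ → ι → ℕ}

private theorem rec_seq {E : Type} (P : ℕ → (ℕ → E) → Prop)
    (hcongr : ∀ q e e', (∀ p < q, e p = e' p) → P q e → P q e') (e₀ : ℕ → E) (h0 : P 0 e₀)
    (hs : ∀ q e, P q e → ∃ x, P (q + 1) (Function.update e q x)) : ∃ e, ∀ q, P q e := by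
  classical
  let st : (k : ℕ) → {e : ℕ → E // P k e} := fun k =>
    Nat.rec ⟨e₀, h0⟩ (fun k e => ⟨Function.update e.1 k (hs k e.1 e.2).choose,
      (hs k e.1 e.2).choose_spec⟩) k
  have hst : ∀ k, (st (k + 1)).1 = Function.update (st k).1 k
      (hs k (st k).1 (st k).2).choose := fun k => rfl
  let e : ℕ → E := fun p => (st (p + 1)).1 p
  have he : ∀ k p, p < k → (st k).1 p = e p := by
    intro k
    induction k with
    | zero => intro p hp; exact absurd hp (Nat.not_lt_zero p)
    | succ k ih =>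
      intro p hp
      by_cases hpk : p = k
      · subst hpk
        rfl
      · rw [hst k, Function.update_of_ne hpk]
        exact ih p (by omega)
  exact ⟨e, fun q => hcongr q _ e (he q) (st q).2⟩

theorem com_symm {F G : Fam κ} (hF : F.OK) (hG : G.OK) (h : (Com F G).Finite) :
    (Com G F).Finite := by
  classical
  have h1 : ∀ c, c ∈ Com G F → ∃ c', c' ∈ G.cells ∧ range c' = range c := by
    rintro c ⟨-, c', hc', hr⟩
    exact ⟨c', hc', hr⟩
  let f : (κ → ℕ) → (κ → ℕ) := fun c =>
    if h : ∃ c', c' ∈ G.cells ∧ range c' = range c then h.choose else c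
  have hf : ∀ c, c ∈ Com G F → f c ∈ G.cells ∧ range (f c) = range c := by
    intro c hc
    have h2 := h1 c hc
    have h3 : f c = h2.choose := dif_pos h2
    rw [h3]
    exact h2.choose_spec
  obtain ⟨k₀⟩ := hF.nonempty
  have hinj : InjOn f (Com G F) := by
    intro c hc c' hc' he
    have h2 : range c = range c' := by
      rw [← (hf c hc).2, ← (hf c' hc').2, he]
    have h3 : c k₀ ∈ range c' := by
      rw [← h2]
      exact ⟨k₀, rfl⟩
    obtain ⟨k', hk'⟩ := h3
    exact hF.disj c hc.1 c' hc'.1 k₀ k' hk'.symm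
  refine Set.Finite.of_finite_image (f := f) (h.subset ?_) hinj
  rintro y ⟨c, hc, rfl⟩
  exact ⟨(hf c hc).1, c, hc.1, (hf c hc).2.symm⟩

/-- PROOF. Otherwise a sequence for `no_seq` can be chosen recursively (`com_symm`). -/
theorem fin_list (hW : ¬ Wild N univ) (hN : (range N).Finite) [Finite κ] :
    ∃ (n : ℕ) (F : Fin n → Fam κ), (∀ b, FMax N (F b)) ∧
      (∀ b b', b ≠ b' → (Com (F b) (F b')).Finite) ∧
      ∀ G : Fam κ, FMax N G → ∃ b, (Com (F b) G).Infinite := by
  classical
  by_contra hcon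
  have hstep : ∀ (q : ℕ) (e : ℕ → Fam κ), (∀ i < q, FMax N (e i)) →
      (∀ i j, i < j → j < q → (Com (e i) (e j)).Finite) →
        ∃ G, FMax N G ∧ ∀ i < q, (Com (e i) G).Finite := by
    intro q e h1 h2
    by_contra hno
    apply hcon
    refine ⟨q, fun b => e b, fun b => h1 b b.2, fun b b' hbb => ?_, fun G hG => ?_⟩
    · rcases Nat.lt_or_ge (b : ℕ) (b' : ℕ) with h3 | h3
      · exact h2 _ _ h3 b'.2
      · have h4 : (b' : ℕ) < (b : ℕ) := lt_of_le_of_ne h3 (fun h5 => hbb (Fin.ext h5.symm))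
        exact com_symm (h1 b' b'.2).1.ok (h1 b b.2).1.ok (h2 _ _ h4 b.2)
    · by_contra h3
      apply hno
      refine ⟨G, hG, fun i hi => ?_⟩
      by_contra h4
      exact h3 ⟨⟨i, hi⟩, h4⟩
  obtain ⟨e, he⟩ := rec_seq (E := Fam κ) (fun q e => (∀ i < q, FMax N (e i)) ∧
      ∀ i j, i < j → j < q → (Com (e i) (e j)).Finite) (by
    rintro q e e' hee ⟨h1, h2⟩
    refine ⟨fun i hi => ?_, fun i j hij hj => ?_⟩
    · rw [← hee i hi]
      exact h1 i hi
    · rw [← hee i (hij.trans hj), ← hee j hj]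
      exact h2 i j hij hj) (fun _ => ⟨∅, fun _ _ => False⟩)
    ⟨fun i hi => absurd hi (Nat.not_lt_zero i), fun i j _ hj => absurd hj (Nat.not_lt_zero j)⟩ (by
    rintro q e ⟨h1, h2⟩
    obtain ⟨G, hG1, hG2⟩ := hstep q e h1 h2
    refine ⟨G, fun i hi => ?_, fun i j hij hj => ?_⟩
    · by_cases h3 : i = q
      · subst h3
        rw [Function.update_self]
        exact hG1
      · rw [Function.update_of_ne h3]
        exact h1 i (by omega)
    · have h4 : i ≠ q := by omega
      rw [Function.update_of_ne h4]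
      by_cases h3 : j = q
      · subst h3
        rw [Function.update_self]
        exact hG2 i hij
      · rw [Function.update_of_ne h3]
        exact h2 i j hij (by omega))
  have hM : ∀ n, FMax N (e n) := fun n => (he (n + 1)).1 n (Nat.lt_succ_self n)
  refine no_seq hW hN e hM ?_
  intro i j hij
  rcases Nat.lt_or_gt_of_ne hij with h1 | h1
  · exact (he (j + 1)).2 i j h1 (Nat.lt_succ_self j)
  · exact com_symm (hM j).1.ok (hM i).1.ok ((he (i + 1)).2 j i h1 (Nat.lt_succ_self i))

end Pool.H17.TC
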