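import Pool.Agent.H17.TC.FamCA
import Pool.Agent.H17.TB.Dyn4

/-!
# G1 : the cells between `x n` and the far cells form a free family
-/

set_option autoImplicit false

namespace Pool.H17.TC

open Pool.H22.VC Function Set Pool.H17.TA Pool.H17.TB

variable {r : ℕ} {K ι κ κ' : Type} {N : Col r K ℕ} {A : Set ℕ} {x : ℕ → κ → ℕ}

/-- two injective tuples with the same range differ by a relabelling -/
private theorem exists_relabel {v w : κ → ℕ} (hv : Injective v) (hw : Injective w)
    (h : range v = range w) : ∃ σ : κ ≃ κ, ∀ k, w k = v (σ k) := by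
  have h1 : ∀ k, ∃ k', v k' = w k := by
    intro k
    have : w k ∈ range v := by
      rw [h]
      exact mem_range_self k
    exact this
  choose g hg using h1
  have hgi : Injective g := fun a b hab => hw (by rw [← hg a, ← hg b, hab])
  have hgs : Surjective g := by
    intro k'
    have : v k' ∈ range w := by
      rw [← h]
      exact mem_range_self k'
    obtain ⟨k, hk⟩ := this
    exact ⟨k, hv (by rw [hg, hk])⟩
  exact ⟨Equiv.ofBijective g ⟨hgi, hgs⟩, fun k => (hg k).symm⟩

/-- G1. PROOF. For every range of a cell in `VV n` choose one labelling, the one in `X` if there is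
one. The order is `LT n`: irreflexive and asymmetric (`LT_asymm`), total and transitive by
`vt_exists` for `p = 2`, `3` (and `VT.comp`); the cells are disjoint by `vt_exists` for `p = 2`;
infinitely many by `VV_self`. `free`: let `t`, `φ` be given; let `v` enumerate the used cells of `t`
(at most `r`), `w = φ ∘ v`: `vv_inv` (points outside the support are outside all cells of `VV n`,
because every cell of `VV n` has the range of a chosen one). `nsym`: a context showing that `(x 0, x 1)`
and `(x 1, x 0)` have different types (`CA.nperp`), shifted to blocks `> n`; the chosen cells with the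
range of `x l` are `x l ∘ σ l` with label symmetries `σ l` (`vv_label`), which do not change the types
(`Teq` for `blk 0 σ`, `blk 0 id`, in a context, `cp`). -/
theorem g1 (hW : ¬ Wild N univ) (hN : (range N).Finite) (hP : PCh N A x) [Finite κ]
    (hG : MG N A x) :
    ∃ n₀, ∀ n, n₀ ≤ n → ∀ X : Set (κ → ℕ), X ⊆ VV N A x n →
      (∀ c ∈ X, ∀ c' ∈ X, range c = range c' → c = c') →
        ∃ F : Fam κ, FN N F ∧ F.cells ⊆ VV N A x n ∧ X ⊆ F.cells ∧
          (∀ v ∈ VV N A x n, ∃ c ∈ F.cells, range c = range v) ∧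
          ∀ c c', F.lt c c' ↔ LT N A x n c c' := by
  classical
  obtain ⟨n₂, hn₂⟩ := vt_exists hW hN hP hG 2
  obtain ⟨n₃, hn₃⟩ := vt_exists hW hN hP hG 3
  obtain ⟨n₄, hn₄⟩ := vv_inv hW hN hP hG
  obtain ⟨k₀⟩ := hP.ca.nonempty hP.hom
  refine ⟨n₂ + n₃ + n₄ + r, fun n hn X hX hXr => ?_⟩
  have hrn : r ≤ n := by omega
  -- properties of the cells of `VV n`
  have vinj : ∀ v ∈ VV N A x n, Injective v := by
    rintro v ⟨L, -, h, -⟩
    exact h
  have vA : ∀ v ∈ VV N A x n, ∀ k, v k ∉ A := by
    rintro v ⟨L, -, -, h, -⟩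
    exact h
  have vx : ∀ v ∈ VV N A x n, ∀ i c k, i ≤ n → v k ≠ x i c := by
    rintro v ⟨L, -, -, -, h, -⟩ i c k hi
    exact h i c k (Or.inl hi)
  have vdisj : ∀ v ∈ VV N A x n, ∀ w ∈ VV N A x n, range v ≠ range w →
      Disjoint (range v) (range w) := by
    intro v hv w hw hne
    have h1 := (hn₂ n (by omega) ![v, w] (by
      intro s
      fin_cases s
      · exact hv
      · exact hw) (by
      intro s s' hs
      fin_cases s <;> fin_cases s'
      · exact absurd rfl hs
      · exact hne
      · exact hne.symm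
      · exact absurd rfl hs)).1 0 1 (by simp)
    exact h1
  have vtot : ∀ v ∈ VV N A x n, ∀ w ∈ VV N A x n, range v ≠ range w →
      LT N A x n v w ∨ LT N A x n w v := by
    intro v hv w hw hne
    obtain ⟨-, π, L, hL, hVT⟩ := hn₂ n (by omega) ![v, w] (by
      intro s
      fin_cases s
      · exact hv
      · exact hw) (by
      intro s s' hs
      fin_cases s <;> fin_cases s'
      · exact absurd rfl hs
      · exact hne
      · exact hne.symm
      · exact absurd rfl hs)
    have hπ : ∀ π : Equiv.Perm (Fin 2), (π 0 = 0 ∧ π 1 = 1) ∨ (π 0 = 1 ∧ π 1 = 0) := by decide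
    rcases hπ π with ⟨h0, h1⟩ | ⟨h0, h1⟩
    · left
      refine ⟨L, hL, ?_⟩
      have e1 : (fun s => (![v, w] : Fin 2 → κ → ℕ) (π s)) = ![v, w] := by
        funext s
        fin_cases s
        · show (![v, w] : Fin 2 → κ → ℕ) (π 0) = v
          rw [h0]
          rfl
        · show (![v, w] : Fin 2 → κ → ℕ) (π 1) = w
          rw [h1]
          rfl
      rw [e1] at hVT
      exact hVT
    · right
      refine ⟨L, hL, ?_⟩
      have e1 : (fun s => (![v, w] : Fin 2 → κ → ℕ) (π s)) = ![w, v] := by
        funext s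
        fin_cases s
        · show (![v, w] : Fin 2 → κ → ℕ) (π 0) = w
          rw [h0]
          rfl
        · show (![v, w] : Fin 2 → κ → ℕ) (π 1) = v
          rw [h1]
          rfl
      rw [e1] at hVT
      exact hVT
  have vtr : ∀ v₁ ∈ VV N A x n, ∀ v₂ ∈ VV N A x n, ∀ v₃ ∈ VV N A x n,
      range v₁ ≠ range v₂ → range v₂ ≠ range v₃ → range v₁ ≠ range v₃ → LT N A x n v₁ v₂ →
      LT N A x n v₂ v₃ → LT N A x n v₁ v₃ := by
    intro v₁ h₁ v₂ h₂ v₃ h₃ n12 n23 n13 l12 l23
    obtain ⟨-, π, L, hL, hVT⟩ := hn₃ n (by omega) ![v₁, v₂, v₃] (by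
      intro s
      fin_cases s
      · exact h₁
      · exact h₂
      · exact h₃) (by
      intro s s' hs
      fin_cases s <;> fin_cases s'
      · exact absurd rfl hs
      · exact n12
      · exact n13
      · exact n12.symm
      · exact absurd rfl hs
      · exact n23
      · exact n13.symm
      · exact n23.symm
      · exact absurd rfl hs)
    -- the order of the positions
    have hpos : ∀ a b : Fin 3, π.symm a < π.symm b →
        LT N A x n ((![v₁, v₂, v₃] : Fin 3 → κ → ℕ) a) ((![v₁, v₂, v₃] : Fin 3 → κ → ℕ) b) := by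
      intro a b hab
      refine ⟨L, by omega, ?_⟩
      have h1 := hVT.comp hP hL (![π.symm a, π.symm b] : Fin 2 → Fin 3) (by
        intro s s' hs
        fin_cases s <;> fin_cases s'
        · exact absurd hs (lt_irrefl _)
        · exact hab
        · exact absurd hs (by simp)
        · exact absurd hs (lt_irrefl _))
      have e1 : (fun s => (![v₁, v₂, v₃] : Fin 3 → κ → ℕ)
          (π ((![π.symm a, π.symm b] : Fin 2 → Fin 3) s))) =
          ![(![v₁, v₂, v₃] : Fin 3 → κ → ℕ) a, (![v₁, v₂, v₃] : Fin 3 → κ → ℕ) b] := by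
        funext s
        fin_cases s
        · show (![v₁, v₂, v₃] : Fin 3 → κ → ℕ) (π (π.symm a)) = _
          rw [Equiv.apply_symm_apply]
          rfl
        · show (![v₁, v₂, v₃] : Fin 3 → κ → ℕ) (π (π.symm b)) = _
          rw [Equiv.apply_symm_apply]
          rfl
      rw [e1] at h1
      exact h1
    have hrev : ∀ a b : Fin 3, a ≠ b →
        LT N A x n ((![v₁, v₂, v₃] : Fin 3 → κ → ℕ) a) ((![v₁, v₂, v₃] : Fin 3 → κ → ℕ) b) →
        π.symm a < π.symm b := by
      intro a b hab h
      rcases lt_trichotomy (π.symm a) (π.symm b) with h1 | h1 | h1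
      · exact h1
      · exact absurd (π.symm.injective h1) hab
      · exact absurd (hpos b a h1) (LT_asymm hP hrn h)
    have g1 := hrev 0 1 (by decide) l12
    have g2 := hrev 1 2 (by decide) l23
    exact hpos 0 2 (g1.trans g2)
  -- representatives
  let rep : Set ℕ → (κ → ℕ) := fun R =>
    if h : ∃ c, c ∈ X ∧ range c = R then h.choose
    else if h' : ∃ v, v ∈ VV N A x n ∧ range v = R then h'.choose else fun _ => 0
  have hrep : ∀ v ∈ VV N A x n, rep (range v) ∈ VV N A x n ∧ range (rep (range v)) = range v := by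
    intro v hv
    simp only [rep]
    by_cases h : ∃ c, c ∈ X ∧ range c = range v
    · rw [dif_pos h]
      exact ⟨hX h.choose_spec.1, h.choose_spec.2⟩
    · rw [dif_neg h]
      have h' : ∃ w, w ∈ VV N A x n ∧ range w = range v := ⟨v, hv, rfl⟩
      rw [dif_pos h']
      exact h'.choose_spec
  have hrepX : ∀ c ∈ X, rep (range c) = c := by
    intro c hc
    have h : ∃ c', c' ∈ X ∧ range c' = range c := ⟨c, hc, rfl⟩
    simp only [rep]
    rw [dif_pos h]
    exact hXr _ h.choose_spec.1 _ hc h.choose_spec.2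
  obtain ⟨F, hFc, hFl⟩ : ∃ F : Fam κ, F.cells = {c | c ∈ VV N A x n ∧ rep (range c) = c} ∧
      F.lt = LT N A x n := ⟨⟨_, _⟩, rfl, rfl⟩
  have hFV : ∀ c ∈ F.cells, c ∈ VV N A x n := by
    intro c hc
    rw [hFc] at hc
    exact hc.1
  have hFr : ∀ c ∈ F.cells, ∀ c' ∈ F.cells, range c = range c' → c = c' := by
    intro c hc c' hc' h
    rw [hFc] at hc hc'
    rw [← hc.2, ← hc'.2, h]
  have hFrep : ∀ v ∈ VV N A x n, rep (range v) ∈ F.cells := by
    intro v hv
    rw [hFc]
    obtain ⟨h1, h2⟩ := hrep v hv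
    exact ⟨h1, by rw [h2]⟩
  have hrne : ∀ c ∈ F.cells, ∀ c' ∈ F.cells, c ≠ c' → range c ≠ range c' :=
    fun c hc c' hc' hne h => hne (hFr c hc c' hc' h)
  have hFdisj : ∀ c ∈ F.cells, ∀ c' ∈ F.cells, ∀ k k', c k = c' k' → c = c' := by
    intro c hc c' hc' k k' hk
    by_contra hne
    exact Set.disjoint_left.1 (vdisj c (hFV c hc) c' (hFV c' hc') (hrne c hc c' hc' hne))
      ⟨k, rfl⟩ ⟨k', hk.symm⟩
  -- the chain itself
  have hxr : ∀ l, n < l → ∃ σ : κ ≃ κ, ∀ k, rep (range (x l)) k = x l (σ k) := by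
    intro l hl
    have h1 := hrep (x l) (VV_self hP hl)
    exact exists_relabel (vinj _ (VV_self hP hl)) (vinj _ h1.1) h1.2.symm
  have hxne : ∀ l l', l ≠ l' → range (x l) ≠ range (x l') := by
    intro l l' hll h
    have : x l k₀ ∈ range (x l') := by
      rw [← h]
      exact mem_range_self _
    obtain ⟨k', hk'⟩ := this
    exact hll (hP.hom.inj _ _ _ _ hk').1.symm
  have hrepne : ∀ l l', n < l → n < l' → l ≠ l' → rep (range (x l)) ≠ rep (range (x l')) := by
    intro l l' hl hl' hll h
    apply hxne l l' hll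
    rw [← (hrep _ (VV_self hP hl)).2, ← (hrep _ (VV_self hP hl')).2, h]
  have hok : F.OK := by
    refine ⟨fun c hc => vinj c (hFV c hc), hFdisj, ?_, ?_, ?_, ?_⟩
    · intro c hc h
      rw [hFl] at h
      exact LT_asymm hP hrn h h
    · intro c hc c' hc' c'' hc'' h h'
      rw [hFl] at h h' ⊢
      have n1 : c ≠ c' := by
        rintro rfl
        exact LT_asymm hP hrn h h
      have n2 : c' ≠ c'' := by
        rintro rfl
        exact LT_asymm hP hrn h' h'
      have n3 : c ≠ c'' := by
        rintro rfl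
        exact LT_asymm hP hrn h h'
      exact vtr c (hFV c hc) c' (hFV c' hc') c'' (hFV c'' hc'') (hrne _ hc _ hc' n1)
        (hrne _ hc' _ hc'' n2) (hrne _ hc _ hc'' n3) h h'
    · intro c hc c' hc' hne
      rw [hFl]
      exact vtot c (hFV c hc) c' (hFV c' hc') (hrne _ hc _ hc' hne)
    · have h1 : Injective (fun l : ℕ => rep (range (x (n + 1 + l)))) := by
        intro l l' h
        by_contra hne
        exact hrepne _ _ (by omega) (by omega) (by omega) h
      refine (Set.infinite_range_of_injective h1).mono ?_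
      rintro _ ⟨l, rfl⟩
      exact hFrep _ (VV_self hP (by omega))
  refine ⟨F, ⟨hok, ?_, ?_⟩, hFV, ?_, ?_, fun c c' => by rw [hFl]⟩
  · -- free
    intro t φ hMv hMon
    obtain ⟨hUf, hUc⟩ := used_finite hok t
    obtain ⟨p, hp⟩ : ∃ p, p = {c | Used F t c}.ncard := ⟨_, rfl⟩
    haveI : Finite {c | Used F t c} := hUf.to_subtype
    obtain ⟨E⟩ : Nonempty (Fin p ≃ {c | Used F t c}) := by
      have h1 : Nat.card {c | Used F t c} = p := by
        rw [hp]
        rfl
      exact ⟨(Finite.equivFinOfCardEq h1).symm⟩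
    let v : Fin p → κ → ℕ := fun s => ((E s : {c | Used F t c}) : κ → ℕ)
    have hv : ∀ s, Used F t (v s) := fun s => (E s).2
    have hvc : ∀ s, v s ∈ F.cells := fun s => (hv s).1
    have hvi : Injective v := fun s s' h => E.injective (Subtype.ext h)
    have hvs : ∀ c, Used F t c → ∃ s, v s = c := fun c hc =>
      ⟨E.symm ⟨c, hc⟩, by simp only [v, Equiv.apply_symm_apply]⟩
    let w : Fin p → κ → ℕ := fun s => φ (v s)
    have hwc : ∀ s, w s ∈ F.cells := fun s => hMv.1 _ (hv s)
    have hwi : Injective w := fun s s' h => hvi (hMv.2 _ _ (hv s) (hv s') h)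
    -- the template
    have hTex : ∀ j, ∃ u : ℕ ⊕ (Fin p × κ), (∀ a, u = Sum.inl a → t j = a ∧ a ∉ F.supp) ∧
        ∀ q, u = Sum.inr q → t j = v q.1 q.2 := by
      intro j
      by_cases h : ∃ q : Fin p × κ, t j = v q.1 q.2
      · obtain ⟨q, hq⟩ := h
        exact ⟨Sum.inr q, fun a ha => by simp at ha, fun q' hq' => by
          rw [← Sum.inr.inj hq']
          exact hq⟩
      · refine ⟨Sum.inl (t j), fun a ha => ?_, fun q hq => by simp at hq⟩
        rw [← Sum.inl.inj ha]
        refine ⟨rfl, ?_⟩
        rintro ⟨c, hc, k, hk⟩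
        obtain ⟨s, rfl⟩ := hvs c ⟨hc, j, k, hk.symm⟩
        exact h ⟨(s, k), hk.symm⟩
    choose T hT1 hT2 using hTex
    have h1 := hn₄ n (by omega) p (hp ▸ hUc) v w T (fun s => hFV _ (hvc s))
      (fun s => hFV _ (hwc s))
      (fun s s' hs => hrne _ (hvc s) _ (hvc s') (fun h => hs (hvi h)))
      (fun s s' hs => hrne _ (hwc s) _ (hwc s') (fun h => hs (hwi h)))
      (fun j a hj c hc hac => by
        obtain ⟨-, h2⟩ := hT1 j a hj
        apply h2
        rw [← (hrep c hc).2] at hac
        obtain ⟨k, hk⟩ := hac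
        exact ⟨_, hFrep c hc, k, hk⟩)
      (fun s s' hs hs' hlt => by
        have f1 : Full F t (v s) := ⟨hvc s, fun k => by
          obtain ⟨j, hj⟩ := hs k
          exact ⟨j, hT2 j _ hj⟩⟩
        have f2 : Full F t (v s') := ⟨hvc s', fun k => by
          obtain ⟨j, hj⟩ := hs' k
          exact ⟨j, hT2 j _ hj⟩⟩
        have h3 := hMon (v s) (v s') f1 f2 (by rw [hFl]; exact hlt)
        rw [hFl] at h3
        exact h3)
    have e1 : (fun j => Sum.elim id (fun q => v q.1 q.2) (T j)) = t := by
      funext j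
      rcases hTj : T j with a | q
      · exact (hT1 j a hTj).1.symm
      · exact (hT2 j q hTj).symm
    have e2 : (fun j => Sum.elim id (fun q => w q.1 q.2) (T j)) = fun j => F.mv φ (t j) := by
      funext j
      rcases hTj : T j with a | q
      · obtain ⟨h2, h3⟩ := hT1 j a hTj
        rw [h2]
        exact (Fam.mv_out φ h3).symm
      · have h2 := hT2 j q hTj
        rw [h2, Fam.mv_cell hok φ (hvc q.1)]
        rfl
    rw [e1, e2] at h1
    exact h1.symm
  · -- not symmetric
    obtain ⟨t₀, c, c', hA, hfr, hcc, hval⟩ := v_ctx2 hP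
    -- two members of the chain with the same labelling
    choose σ hσ using hxr
    obtain ⟨l, l', hll, hl, hl', hσl⟩ : ∃ l l' : ℕ, l < l' ∧ ∃ (hl : n < l) (hl' : n < l'),
        σ l hl = σ l' hl' := by
      obtain ⟨i, j, hij, h⟩ := Finite.exists_ne_map_eq_of_infinite
        (fun i : ℕ => σ (n + 1 + i) (by omega))
      rcases Nat.lt_or_gt_of_ne hij with h1 | h1
      · exact ⟨n + 1 + i, n + 1 + j, by omega, by omega, by omega, h⟩
      · exact ⟨n + 1 + j, n + 1 + i, by omega, by omega, by omega, h.symm⟩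
    obtain ⟨g1, g2⟩ := hval l l' (l' + 1) (by omega) hll (Nat.lt_succ_self _)
    let y : ℕ → (κ → ℕ) := fun l => rep (range (x l))
    have hy : ∀ m, n < m → y m ∈ F.cells := fun m hm => hFrep _ (VV_self hP hm)
    have hyne : ∀ a b, n < a → n < b → a ≠ b → y a ≠ y b := fun a b ha hb hab =>
      hrepne a b ha hb hab
    let φ : (κ → ℕ) → (κ → ℕ) := fun d => if d = y l then y l' else if d = y l' then y l else d
    have φ1 : φ (y l) = y l' := if_pos rfl
    have φ2 : φ (y l') = y l := by
      show (if y l' = y l then y l' else if y l' = y l' then y l else y l') = y l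
      rw [if_neg (hyne l' l hl' hl (by omega)), if_pos rfl]
    have φ3 : ∀ d, d ≠ y l → d ≠ y l' → φ d = d := by
      intro d h1 h2
      simp only [φ]
      rw [if_neg h1, if_neg h2]
    have φφ : ∀ d, φ (φ d) = d := by
      intro d
      by_cases h1 : d = y l
      · rw [h1, φ1, φ2]
      · by_cases h2 : d = y l'
        · rw [h2, φ2, φ1]
        · rw [φ3 d h1 h2, φ3 d h1 h2]
    refine ⟨fun j => vEC x (l' + 1) (x l) (x l') (t₀ j), φ, ⟨?_, ?_⟩, ?_⟩
    · rintro d ⟨hd, -⟩
      by_cases h1 : d = y l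
      · rw [h1, φ1]
        exact hy l' hl'
      · by_cases h2 : d = y l'
        · rw [h2, φ2]
          exact hy l hl
        · rw [φ3 d h1 h2]
          exact hd
    · intro d d' _ _ h
      rw [← φφ d, ← φφ d', h]
    · rw [g1]
      have e1 : (fun j => F.mv φ (vEC x (l' + 1) (x l) (x l') (t₀ j))) =
          fun j => vEC x (l' + 1) (x l') (x l) (t₀ j) := by
        funext j
        have xl : ∀ k, x l k = y l ((σ l hl).symm k) := by
          intro k
          show x l k = rep (range (x l)) ((σ l hl).symm k)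
          rw [hσ l hl, Equiv.apply_symm_apply]
        have xl' : ∀ k, x l' k = y l' ((σ l hl).symm k) := by
          intro k
          show x l' k = rep (range (x l')) ((σ l hl).symm k)
          rw [hσ l' hl', ← hσl, Equiv.apply_symm_apply]
        rcases htj : t₀ j with a | p | (k | k) | p
        · show F.mv φ a = a
          refine Fam.mv_out φ ?_
          rintro ⟨d, hd, k, hk⟩
          exact vA d (hFV d hd) k (hk ▸ hA j a htj)
        · show F.mv φ (x p.1 p.2) = x p.1 p.2
          refine Fam.mv_out φ ?_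
          rintro ⟨d, hd, k, hk⟩
          have := hfr j p htj
          exact vx d (hFV d hd) p.1 p.2 k (by omega) hk
        · show F.mv φ (x l k) = x l' k
          rw [xl k, Fam.mv_cell hok φ (hy l hl), φ1, xl' k]
        · show F.mv φ (x l' k) = x l k
          rw [xl' k, Fam.mv_cell hok φ (hy l' hl'), φ2, xl k]
        · show F.mv φ (x (l' + 1 + p.1) p.2) = x (l' + 1 + p.1) p.2
          have hm : n < l' + 1 + p.1 := by omega
          refine Fam.mv_fix hok φ (fun d hd hk => ?_)
          obtain ⟨k, hk⟩ := hk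
          have h1 : x (l' + 1 + p.1) p.2 = y (l' + 1 + p.1) ((σ _ hm).symm p.2) := by
            show _ = rep (range (x (l' + 1 + p.1))) ((σ _ hm).symm p.2)
            rw [hσ _ hm, Equiv.apply_symm_apply]
          rw [h1] at hk
          have h2 := hFdisj d hd _ (hy _ hm) _ _ hk
          rw [h2]
          exact φ3 _ (hyne _ _ hm hl (by omega)) (hyne _ _ hm hl' (by omega))
      rw [e1, g2]
      exact hcc.symm
  · intro c hc
    rw [hFc]
    exact ⟨hX hc, hrepX c hc⟩
  · intro v hv
    exact ⟨_, hFrep v hv, (hrep v hv).2⟩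

end Pool.H17.TC
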