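import Pool.Agent.H17.TC.ComTr

/-!
# Good sequences of cells in infinitely many families
-/

set_option autoImplicit false

namespace Pool.H17.TC

open Pool.H22.VC Function Set Pool.H17.TA Pool.H17.TB

variable {r : ℕ} {K ι κ κ' : Type} {N : Col r K ℕ} {A : Set ℕ} {x : ℕ → κ → ℕ}

/-- `c` is between `a` and `b` -/
def Bw (F : Fam κ) (a c b : κ → ℕ) : Prop := (F.lt a c ∧ F.lt c b) ∨ (F.lt b c ∧ F.lt c a)

/-- `y n l`, `l ∈ ℕ`, are different cells of `F n`, deep; no cell of `F n` which meets a point `≤ n`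
or a point of a cell `y i l`, `i < n`, `l ≤ i`, is between two of them; they are disjoint from
`F i`, `i < n`. -/
structure GSq (N : Col r K ℕ) (F : ℕ → Fam κ) (y : ℕ → ℕ → κ → ℕ) : Prop where
  mem : ∀ n l, y n l ∈ (F n).cells
  inj : ∀ n l l', y n l = y n l' → l = l'
  deep : ∀ n l, Deep (F n) (2 * r + 1) (y n l)
  gap : ∀ n l l' c, c ∈ (F n).cells →
    (∃ k, c k ≤ n ∨ ∃ i < n, ∃ m ≤ i, ∃ k', c k = y i m k') → ¬ Bw (F n) (y n l) c (y n l')
  off : ∀ n l k, ∀ i < n, y n l k ∉ (F i).supp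

private theorem gsq_last {α : Type} (R : α → α → Prop) (F : Finset α) (hF : F.Nonempty)
    (htot : ∀ x ∈ F, ∀ y ∈ F, x ≠ y → R x y ∨ R y x)
    (htr : ∀ x ∈ F, ∀ y ∈ F, ∀ z ∈ F, R x y → R y z → R x z) :
    ∃ m ∈ F, ∀ x ∈ F, x ≠ m → R x m := by
  classical
  induction F using Finset.induction_on with
  | empty => exact absurd hF Finset.not_nonempty_empty
  | insert a F ha ih =>
    rcases F.eq_empty_or_nonempty with h0 | h0
    · subst h0
      refine ⟨a, Finset.mem_insert_self _ _, fun x hx hne => ?_⟩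
      rw [Finset.mem_insert] at hx
      rcases hx with hx | hx
      · exact absurd hx hne
      · exact absurd hx (Finset.notMem_empty _)
    · have hs : ∀ x ∈ F, x ∈ insert a F := fun x hx => Finset.mem_insert_of_mem hx
      have haa : a ∈ insert a F := Finset.mem_insert_self _ _
      obtain ⟨m, hm, hmax⟩ := ih h0 (fun x hx y hy => htot x (hs x hx) y (hs y hy))
        (fun x hx y hy z hz => htr x (hs x hx) y (hs y hy) z (hs z hz))
      have ham : a ≠ m := fun h => ha (h ▸ hm)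
      rcases htot a haa m (hs m hm) ham with h1 | h1
      · refine ⟨m, hs m hm, fun x hx hne => ?_⟩
        rw [Finset.mem_insert] at hx
        rcases hx with hx | hx
        · rw [hx]
          exact h1
        · exact hmax x hx hne
      · refine ⟨a, haa, fun x hx hne => ?_⟩
        rw [Finset.mem_insert] at hx
        rcases hx with hx | hx
        · exact absurd hx hne
        · by_cases hxm : x = m
          · rw [hxm]
            exact h1
          · exact htr x (hs x hx) m (hs m hm) a haa (hmax x hx hxm) h1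

/-- only finitely many cells have few cells below them -/
private theorem gsq_few {G : Fam κ} (R : (κ → ℕ) → (κ → ℕ) → Prop)
    (htot : ∀ c ∈ G.cells, ∀ c' ∈ G.cells, c ≠ c' → R c c' ∨ R c' c)
    (htr : ∀ c ∈ G.cells, ∀ c' ∈ G.cells, ∀ c'' ∈ G.cells, R c c' → R c' c'' → R c c'') (m : ℕ) :
    {c | c ∈ G.cells ∧ ¬ ∃ Lo : Finset (κ → ℕ), m ≤ Lo.card ∧
      ∀ c' ∈ Lo, c' ∈ G.cells ∧ R c' c}.Finite := by
  classical
  by_contra hinf
  obtain ⟨U, hU1, hU2⟩ := Set.Infinite.exists_subset_card_eq hinf (m + 1)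
  have hUG : ∀ c ∈ U, c ∈ G.cells := fun c hc => (hU1 hc).1
  obtain ⟨u, hu, hmax⟩ := gsq_last R U (Finset.card_pos.1 (by omega))
    (fun x hx y hy => htot x (hUG x hx) y (hUG y hy))
    (fun x hx y hy z hz => htr x (hUG x hx) y (hUG y hy) z (hUG z hz))
  apply (hU1 hu).2
  refine ⟨U.erase u, ?_, fun c hc => ?_⟩
  · rw [Finset.card_erase_of_mem hu]
    omega
  · have h1 := Finset.mem_of_mem_erase hc
    exact ⟨hUG c h1, hmax c h1 (Finset.ne_of_mem_erase hc)⟩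

private theorem gsq_meet {G : Fam κ} (h : G.OK) {B : Set ℕ} (hB : B.Finite) :
    {c | c ∈ G.cells ∧ ∃ k, c k ∈ B}.Finite := by
  have h1 : {c | c ∈ G.cells ∧ ∃ k, c k ∈ B} ⊆ ⋃ a ∈ B, {c | c ∈ G.cells ∧ ∃ k, c k = a} := by
    rintro c ⟨hc1, k, hk⟩
    rw [mem_iUnion₂]
    exact ⟨c k, hk, hc1, k, rfl⟩
  refine (hB.biUnion fun a _ => ?_).subset h1
  refine Set.Subsingleton.finite ?_
  rintro c ⟨hc, k, hk⟩ c' ⟨hc', k', hk'⟩
  exact h.disj c hc c' hc' k k' (hk.trans hk'.symm)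

/-- one step -/
private theorem gsq_seq (hW : ¬ Wild N univ) (hN : (range N).Finite) [Finite κ] (F : ℕ → Fam κ)
    (hF : ∀ n, FN N (F n)) (hd : ∀ i j, i ≠ j → (Com (F i) (F j)).Finite) (n : ℕ)
    (B : {B : Set ℕ // B.Finite}) :
    ∃ z : ℕ → κ → ℕ, (∀ l, z l ∈ (F n).cells) ∧ (∀ l l', z l = z l' → l = l') ∧
      (∀ l, Deep (F n) (2 * r + 1) (z l)) ∧
      (∀ l l' c, c ∈ (F n).cells → (∃ k, c k ∈ B.1) → ¬ Bw (F n) (z l) c (z l')) ∧
      ∀ l k, ∀ i < n, z l k ∉ (F i).supp := by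
  classical
  obtain ⟨G, hG⟩ : ∃ G, G = F n := ⟨_, rfl⟩
  have hFG : FN N G := by
    rw [hG]
    exact hF n
  have hok := hFG.ok
  -- the bad sets
  have hS := gsq_meet hok B.2
  obtain ⟨S, hSd⟩ : ∃ S : Set (κ → ℕ), S = {c | c ∈ G.cells ∧ ∃ k, c k ∈ B.1} := ⟨_, rfl⟩
  rw [← hSd] at hS
  have hE : {c | c ∈ G.cells ∧ ∃ i < n, ∃ k, c k ∈ (F i).supp}.Finite := by
    have h1 : ∀ i < n, (Com (F i) G ∪ Prod.snd '' {p : (κ → ℕ) × (κ → ℕ) | p.1 ∈ (F i).cells ∧
        p.2 ∈ G.cells ∧ (range p.1 ∩ range p.2).Nonempty ∧ range p.1 ≠ range p.2}).Finite := by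
      intro i hi
      refine Set.Finite.union ?_ ((exc_finite hW hN (hF i) hFG).image _)
      rw [hG]
      exact hd i n hi.ne
    refine ((Set.finite_Iio n).biUnion fun i hi => h1 i hi).subset ?_
    rintro c ⟨hc, i, hi, k, c', hc', k', hk'⟩
    rw [mem_iUnion₂]
    refine ⟨i, hi, ?_⟩
    by_cases hr : range c' = range c
    · exact Or.inl ⟨hc, c', hc', hr⟩
    · exact Or.inr ⟨(c', c), ⟨hc', hc, ⟨c k, ⟨k', hk'⟩, ⟨k, rfl⟩⟩, hr⟩, rfl⟩
  have hD1 := gsq_few (G := G) G.lt hok.total hok.trans (2 * r + 1)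
  have hD2 := gsq_few (G := G) (fun a b => G.lt b a)
    (fun c hc c' hc' hne => (hok.total c hc c' hc' hne).symm)
    (fun c hc c' hc' c'' hc'' h1 h2 => hok.trans c'' hc'' c' hc' c hc h2 h1) (2 * r + 1)
  -- the good cells
  obtain ⟨Y, hY⟩ : ∃ Y : Set (κ → ℕ), Y = {c | c ∈ G.cells ∧ c ∉ S ∧
      (¬ ∃ i < n, ∃ k, c k ∈ (F i).supp) ∧
      (∃ Lo : Finset (κ → ℕ), 2 * r + 1 ≤ Lo.card ∧ ∀ c' ∈ Lo, c' ∈ G.cells ∧ G.lt c' c) ∧
      ∃ Up : Finset (κ → ℕ), 2 * r + 1 ≤ Up.card ∧ ∀ c' ∈ Up, c' ∈ G.cells ∧ G.lt c c'} :=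
    ⟨_, rfl⟩
  have hYi : Y.Infinite := by
    intro hfin
    apply hok.inf
    refine ((((hfin.union hS).union hE).union hD1).union hD2).subset fun c hc => ?_
    by_cases g1 : c ∈ S
    · exact Or.inl (Or.inl (Or.inl (Or.inr g1)))
    by_cases g2 : ∃ i < n, ∃ k, c k ∈ (F i).supp
    · exact Or.inl (Or.inl (Or.inr ⟨hc, g2⟩))
    by_cases g3 : ∃ Lo : Finset (κ → ℕ), 2 * r + 1 ≤ Lo.card ∧ ∀ c' ∈ Lo, c' ∈ G.cells ∧ G.lt c' c
    · by_cases g4 : ∃ Up : Finset (κ → ℕ), 2 * r + 1 ≤ Up.card ∧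
          ∀ c' ∈ Up, c' ∈ G.cells ∧ G.lt c c'
      · refine Or.inl (Or.inl (Or.inl (Or.inl ?_)))
        rw [hY]
        exact ⟨hc, g1, g2, g3, g4⟩
      · exact Or.inr ⟨hc, g4⟩
    · exact Or.inl (Or.inr ⟨hc, g3⟩)
  -- one pattern
  obtain ⟨P, hP⟩ : ∃ P : Set (κ → ℕ), {c | c ∈ Y ∧ {a | a ∈ S ∧ G.lt a c} = P}.Infinite := by
    by_contra hcon
    push Not at hcon
    apply hYi
    refine (hS.finite_subsets.biUnion fun P _ => hcon P).subset
      fun c hc => ?_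
    rw [mem_iUnion₂]
    exact ⟨{a | a ∈ S ∧ G.lt a c}, fun a ha => ha.1, hc, rfl⟩
  have hYm : ∀ c ∈ Y, c ∈ G.cells ∧ c ∉ S ∧ (¬ ∃ i < n, ∃ k, c k ∈ (F i).supp) ∧
      (∃ Lo : Finset (κ → ℕ), 2 * r + 1 ≤ Lo.card ∧ ∀ c' ∈ Lo, c' ∈ G.cells ∧ G.lt c' c) ∧
      ∃ Up : Finset (κ → ℕ), 2 * r + 1 ≤ Up.card ∧ ∀ c' ∈ Up, c' ∈ G.cells ∧ G.lt c c' := by
    intro c hc
    rw [hY] at hc
    exact hc
  let z := hP.natEmbedding
  have hz : ∀ l, (z l : κ → ℕ) ∈ Y ∧ {a | a ∈ S ∧ G.lt a (z l)} = P := fun l => (z l).2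
  have hzY := fun l => hYm _ (hz l).1
  have hpat : ∀ l l' c, c ∈ S → G.lt c (z l) → G.lt c (z l') := by
    intro l l' c hc hlt
    have g1 : c ∈ {a | a ∈ S ∧ G.lt a (z l)} := ⟨hc, hlt⟩
    rw [(hz l).2, ← (hz l').2] at g1
    exact g1.2
  refine ⟨fun l => z l, fun l => ?_, fun l l' hl => z.injective (Subtype.ext hl), fun l => ?_,
    fun l l' c hc hB hbw => ?_, fun l k i hi hk => (hzY l).2.2.1 ⟨i, hi, k, hk⟩⟩
  · rw [← hG]
    exact (hzY l).1
  · obtain ⟨Lo, h1, h2⟩ := (hzY l).2.2.2.1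
    obtain ⟨Up, h3, h4⟩ := (hzY l).2.2.2.2
    rw [← hG]
    exact ⟨Lo, Up, h1, h3, h2, h4⟩
  · rw [← hG] at hc hbw
    have hcS : c ∈ S := by
      rw [hSd]
      exact ⟨hc, hB⟩
    have key : ∀ l l', G.lt (z l) c → G.lt c (z l') → False := by
      intro l l' g1 g2
      have g3 := hpat l' l c hcS g2
      exact hok.irr c hc (hok.trans c hc _ (hzY l).1 c hc g3 g1)
    rcases hbw with ⟨g1, g2⟩ | ⟨g1, g2⟩
    · exact key l l' g1 g2
    · exact key l' l g1 g2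

/-- Existence. PROOF. Recursion on `n`. In `F n` choose a monotone sequence of cells (Ramsey); drop
finitely many terms: then all are deep (on one side the terms of the sequence before, on the other
side those after), no cell meeting the finite set of points in question is between two of them, and
they are disjoint from `F i`, `i < n`: only finitely many cells of `F n` have the range of a cell of
`F i` (`hd`) and only finitely many are exceptional (`exc_finite`). -/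
theorem exists_gSq (hW : ¬ Wild N univ) (hN : (range N).Finite) [Finite κ] (F : ℕ → Fam κ)
    (hF : ∀ n, FN N (F n)) (hd : ∀ i j, i ≠ j → (Com (F i) (F j)).Finite) :
    ∃ y, GSq N F y := by
  classical
  choose Z hZ1 hZ2 hZ3 hZ4 hZ5 using gsq_seq hW hN F hF hd
  let st : ℕ → {B : Set ℕ // B.Finite} → {B : Set ℕ // B.Finite} := fun n B =>
    ⟨B.1 ∪ {a | a ≤ n + 1} ∪ ⋃ m ∈ {m | m ≤ n}, range (Z n B m),
      (B.2.union (Set.finite_Iic (n + 1))).union
        ((Set.finite_Iic n).biUnion fun m _ => Set.finite_range _)⟩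
  let Bs : ℕ → {B : Set ℕ // B.Finite} := fun n =>
    Nat.rec ⟨{a | a ≤ 0}, Set.finite_Iic 0⟩ st n
  have hBs : ∀ n, Bs (n + 1) = st n (Bs n) := fun n => rfl
  have hmono : ∀ n, (Bs n).1 ⊆ (Bs (n + 1)).1 := by
    intro n a ha
    rw [hBs]
    exact Or.inl (Or.inl ha)
  have hmono' : ∀ m n, m ≤ n → (Bs m).1 ⊆ (Bs n).1 := by
    intro m n hmn
    induction n, hmn using Nat.le_induction with
    | base => exact Subset.rfl
    | succ n _ ih => exact ih.trans (hmono n)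
  have hle : ∀ n a, a ≤ n → a ∈ (Bs n).1 := by
    intro n a ha
    rcases n with _ | n
    · exact ha
    · rw [hBs]
      exact Or.inl (Or.inr ha)
  have hpt : ∀ n, ∀ i < n, ∀ m ≤ i, ∀ k, Z i (Bs i) m k ∈ (Bs n).1 := by
    intro n i hi m hm k
    apply hmono' (i + 1) n hi
    rw [hBs]
    right
    rw [mem_iUnion₂]
    exact ⟨m, hm, k, rfl⟩
  refine ⟨fun n => Z n (Bs n), ⟨fun n l => hZ1 n _ l, fun n l l' h => hZ2 n _ l l' h,
    fun n l => hZ3 n _ l, fun n l l' c hc hk => ?_, fun n l k i hi => hZ5 n _ l k i hi⟩⟩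
  refine hZ4 n _ l l' c hc ?_
  obtain ⟨k, hk⟩ := hk
  refine ⟨k, ?_⟩
  rcases hk with hk | ⟨i, hi, m, hm, k', hk'⟩
  · exact hle n _ hk
  · rw [hk']
    exact hpt n i hi m hm _

end Pool.H17.TC
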