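import Pool.Agent.H17.TC.FinList
import Pool.Agent.H17.TC.Cut

/-!
# The free families of a structure which is not wild
-/

set_option autoImplicit false

namespace Pool.H17.TC

open Pool.H22.VC Function Set Pool.H17.TA Pool.H17.TB

variable {r : ℕ} {K ι κ κ' : Type} {N : Col r K ℕ} {A : Set ℕ} {e : ℕ → ι → ℕ}

private theorem meet_fin0 (hW : ¬ Wild N univ) (hN : (range N).Finite) [Finite κ] [Finite κ']
    {F : Fam κ} {G : Fam κ'} (hF : FN N F) (hG : FN N G)
    (hc : {c | c ∈ F.cells ∧ ∃ c' ∈ G.cells, range c' = range c}.Finite) :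
    {c | c ∈ F.cells ∧ ∃ c' ∈ G.cells, (range c ∩ range c').Nonempty}.Finite := by
  have h1 := (exc_finite hW hN hF hG).image Prod.fst
  refine (h1.union hc).subset ?_
  rintro c ⟨h2, c', h3, h4⟩
  by_cases h5 : range c = range c'
  · exact Or.inr ⟨h2, c', h3, h5.symm⟩
  · exact Or.inl ⟨(c, c'), ⟨h2, h3, h4, h5⟩, rfl⟩

/-- Step 1. All maximal families of the list for `κ = Fin m`, `m ≤ r`, without the finitely many
cells which meet another family of the list (`exc_finite`; `Com` finite; different `m`: different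
numbers of points), cut into convex pieces. -/
theorem families0 (hW : ¬ Wild N univ) (hN : (range N).Finite) :
    ∃ (n : ℕ) (m : Fin n → ℕ) (G : ∀ b, Fam (Fin (m b))), (∀ b, FN N (G b)) ∧
      (∀ b b', b ≠ b' → Disjoint (G b).supp (G b').supp) ∧
      ∀ (m' : ℕ) (W : Fam (Fin m')), FMax N W → ∃ F : Fam (Fin m'), FMax N F ∧
        (Com F W).Infinite ∧ {c | c ∈ F.cells ∧ ∀ b, ∃ k, c k ∉ (G b).supp}.Finite := by
  classical
  choose n F hF1 hF2 hF3 using fun m : ℕ => fin_list (κ := Fin m) hW hN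
  obtain ⟨E, hE⟩ : ∃ E : ∀ m : ℕ, Fin (n m) → Set (Fin m → ℕ), ∀ m b, E m b =
      {c | c ∈ (F m b).cells ∧ ∃ (m' : Fin (r + 1)) (b' : Fin (n m')),
        (⟨m, b⟩ : Σ m : ℕ, Fin (n m)) ≠ ⟨m', b'⟩ ∧
          ∃ c' ∈ (F m' b').cells, (range c ∩ range c').Nonempty} := ⟨_, fun _ _ => rfl⟩
  have hEf : ∀ m b, (E m b).Finite := by
    intro m b
    have h1 : E m b ⊆ ⋃ j' : (Σ m' : Fin (r + 1), Fin (n m')),
        {c | c ∈ (F m b).cells ∧ (⟨m, b⟩ : Σ m : ℕ, Fin (n m)) ≠ ⟨j'.1, j'.2⟩ ∧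
          ∃ c' ∈ (F j'.1 j'.2).cells, (range c ∩ range c').Nonempty} := by
      rw [hE]
      rintro c ⟨h1, m', b', h2, c', h3, h4⟩
      rw [mem_iUnion]
      exact ⟨⟨m', b'⟩, h1, h2, c', h3, h4⟩
    refine (Set.finite_iUnion ?_).subset h1
    rintro ⟨m', b'⟩
    by_cases hne : (⟨m, b⟩ : Σ m : ℕ, Fin (n m)) = ⟨m', b'⟩
    · refine Set.Finite.subset Set.finite_empty ?_
      rintro c ⟨-, h2, -⟩
      exact absurd hne h2
    · refine (meet_fin0 hW hN (hF1 m b).1 (hF1 m' b').1 ?_).subset ?_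
      · generalize (m' : ℕ) = m₁ at b' hne
        by_cases hmm : m = m₁
        · subst hmm
          have hbb : b' ≠ b := by
            rintro rfl
            exact hne rfl
          exact hF2 m b' b hbb
        · refine Set.Finite.subset Set.finite_empty ?_
          rintro c ⟨h1, c', h2, h3⟩
          apply hmm
          have e1 : (range c).ncard = m := by
            rw [← Set.image_univ, Set.ncard_image_of_injective _ ((hF1 m b).1.ok.inj c h1),
              Set.ncard_univ, Nat.card_fin]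
          have e2 : (range c').ncard = m₁ := by
            rw [← Set.image_univ, Set.ncard_image_of_injective _ ((hF1 m₁ b').1.ok.inj c' h2),
              Set.ncard_univ, Nat.card_fin]
          rw [← e1, ← e2, h3]
      · rintro c ⟨h1, -, h2⟩
        exact ⟨h1, h2⟩
  choose nn P hP1 hP2 hP3 hP4 using fun m b => cut (hF1 m b).1 (E m b) (hEf m b)
  obtain ⟨G, hG⟩ : ∃ G : ∀ i : (Σ m : Fin (r + 1), Σ b : Fin (n m), Fin (nn m b)), Fam (Fin i.1),
      ∀ (m : Fin (r + 1)) (b : Fin (n m)) (q : Fin (nn m b)),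
        G ⟨m, b, q⟩ = ⟨P m b q, (F m b).lt⟩ := ⟨fun i => ⟨P i.1 i.2.1 i.2.2, (F i.1 i.2.1).lt⟩,
      fun _ _ _ => rfl⟩
  let e := (Fintype.equivFin (Σ m : Fin (r + 1), Σ b : Fin (n m), Fin (nn m b))).symm
  have hdis : ∀ i i' : (Σ m : Fin (r + 1), Σ b : Fin (n m), Fin (nn m b)), i ≠ i' →
      Disjoint (G i).supp (G i').supp := by
    rintro ⟨m, b, q⟩ ⟨m', b', q'⟩ hne
    rw [hG, hG, Set.disjoint_left]
    rintro a ⟨c, hc, k, hk⟩ ⟨c', hc', k', hk'⟩
    have hc0 : c ∈ P m b q := hc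
    have hc0' : c' ∈ P m' b' q' := hc'
    by_cases hmb : (⟨m, b⟩ : Σ m : ℕ, Fin (n m)) = ⟨m', b'⟩
    · have hmm : m = m' := Fin.ext (congrArg Sigma.fst hmb)
      subst hmm
      have hbb : b = b' := by
        have := hmb
        rw [Sigma.mk.injEq] at this
        exact eq_of_heq this.2
      subst hbb
      have hqq : q ≠ q' := by
        rintro rfl
        exact hne rfl
      have h1 := (hF1 m b).1.ok.disj c (hP2 m b q hc0).1 c' (hP2 m b q' hc0').1 k k'
        (hk.trans hk'.symm)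
      subst h1
      exact Set.disjoint_left.1 (hP3 m b q q' hqq) hc0 hc0'
    · have h1 := (hP2 m b q hc0).2
      apply h1
      rw [hE]
      exact ⟨(hP2 m b q hc0).1, m', b', hmb, c', (hP2 m' b' q' hc0').1,
        a, ⟨k, hk⟩, ⟨k', hk'⟩⟩
  refine ⟨_, fun q => ((e q).1 : ℕ), fun q => G (e q), fun q => ?_, fun q q' hqq => ?_, ?_⟩
  · have h1 : ∀ i, FN N (G i) := by
      rintro ⟨m, b, p⟩
      rw [hG]
      exact hP1 m b p
    exact h1 (e q)
  · exact hdis _ _ fun h => hqq (e.injective h)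
  · intro m' W hWm
    have hm' : m' ≤ r := by
      have := hWm.1.card_le
      rwa [Nat.card_fin] at this
    obtain ⟨b, hb⟩ := hF3 m' W hWm
    refine ⟨F m' b, hF1 m' b, hb, (hP4 m' b).subset ?_⟩
    rintro c ⟨h1, h2⟩
    refine ⟨h1, fun h3 => ?_⟩
    rw [mem_iUnion] at h3
    obtain ⟨q, hq⟩ := h3
    obtain ⟨k, hk⟩ := h2 (e.symm ⟨⟨m', Nat.lt_succ_of_le hm'⟩, b, q⟩)
    apply hk
    have h4 : ∀ i, i = ⟨⟨m', Nat.lt_succ_of_le hm'⟩, b, q⟩ → c k ∈ (G i).supp := by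
      rintro i rfl
      rw [hG]
      exact ⟨c, hq, k, rfl⟩
    exact h4 _ (e.apply_symm_apply _)

/-- L7. PROOF. Suppose `τ`, `τ'` do not commute: `c1'` gives a chain atom `T` (labels `Fin m'`: `CA.equiv`);
`exists_pure`: a subsequence `x` of the `e i ∘ T` is a pure chain; `g1` with `X = {x l | l > n}`: a free
family `V` containing the cells `x l`, `l > n`; `exists_max`: `V ≤ W`; `families0`: `F`; `mx`: only
finitely many cells of `W` do not have the range of a cell of `F`. So for infinitely many `l` the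
range of `x l` is the range of a cell of `F`, and (they are different) for infinitely many of them
the points are in `(G b).supp` for some `b`: contradiction. -/
theorem families (hW : ¬ Wild N univ) (hN : (range N).Finite) :
    ∃ (n : ℕ) (m : Fin n → ℕ) (G : ∀ b, Fam (Fin (m b))), (∀ b, FN N (G b)) ∧
      (∀ b b', b ≠ b' → Disjoint (G b).supp (G b').supp) ∧
      ∀ (A : Set ℕ) (ι : Type) [Finite ι] (e : ℕ → ι → ℕ), A.Finite → Hom N A e →
        (∀ i c b, e i c ∉ (G b).supp) → ∀ (κ κ' : Type) [Finite κ] [Finite κ'] (τ : κ → ι)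
          (τ' : κ' → ι), Perp N A e τ τ' := by
  classical
  obtain ⟨n, m, G, hG1, hG2, hG3⟩ := families0 hW hN
  refine ⟨n, m, G, hG1, hG2, ?_⟩
  intro A ι _ e hA hH hout κ κ' _ _ τ τ'
  suffices h0 : Perp N A e (id : ι → ι) (id : ι → ι) from h0.comp hH τ τ'
  by_contra hn
  obtain ⟨s, -, hs, -, -⟩ := c1' hW hH hA (τ := (id : ι → ι)) (τ' := (id : ι → ι))
    injective_id injective_id hn
  obtain ⟨m', ⟨E⟩⟩ := Finite.exists_equiv_fin s
  have hca := hs.equiv hH E.symm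
  obtain ⟨T, hT⟩ : ∃ T : Fin m' → ι, T = fun k => res s (id : ι → ι) (E.symm k) := ⟨_, rfl⟩
  rw [← hT] at hca
  obtain ⟨k₀⟩ := hca.nonempty hH
  obtain ⟨A', φ, hAA', hφ, hP, hM⟩ := exists_pure hW hH hA hca
  obtain ⟨x, hx⟩ : ∃ x : ℕ → Fin m' → ℕ, x = fun i k => e (φ i) (T k) := ⟨_, rfl⟩
  rw [← hx] at hP hM
  have hxr : ∀ l l', range (x l) = range (x l') → l = l' := by
    intro l l' h
    have h1 : x l k₀ ∈ range (x l') := by
      rw [← h]
      exact mem_range_self k₀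
    obtain ⟨k', hk'⟩ := h1
    exact (hP.hom.inj _ _ _ _ hk').1.symm
  obtain ⟨n₀, hn₀⟩ := g1 hW hN hP hM
  obtain ⟨V, hV, -, hXV, -, -⟩ := hn₀ n₀ le_rfl {c | ∃ l, n₀ < l ∧ x l = c} (by
    rintro c ⟨l, hl, rfl⟩
    exact VV_self hP hl) (by
    rintro c ⟨l, hl, rfl⟩ c' ⟨l', hl', rfl⟩ h
    rw [hxr l l' h])
  obtain ⟨W, hWm, hVW⟩ := exists_max hV
  obtain ⟨F, hF, hFW, hFe⟩ := hG3 m' W hWm
  have hfin := mx hW hN hF hWm.1 hFW
  -- the numbers `l` such that the range of `x l` is the range of a cell of `F`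
  have hbad1 : {l | n₀ < l ∧ x l ∉ Com F W}.Finite := by
    refine Set.Finite.of_finite_image (f := x) (hfin.subset ?_) ?_
    · rintro c ⟨l, ⟨hl, hl'⟩, rfl⟩
      exact ⟨hVW.1 (hXV ⟨l, hl, rfl⟩), hl'⟩
    · intro l _ l' _ h
      exact hxr l l' (by rw [h])
  have hbad2 : {l | n₀ < l ∧ ∃ c' ∈ F.cells, range c' = range (x l) ∧
      ∀ b, ∃ k, c' k ∉ (G b).supp}.Finite := by
    have h1 : ∀ l : {l | n₀ < l ∧ ∃ c' ∈ F.cells, range c' = range (x l) ∧
        ∀ b, ∃ k, c' k ∉ (G b).supp}, ∃ c' ∈ F.cells, range c' = range (x l) ∧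
          ∀ b, ∃ k, c' k ∉ (G b).supp := fun l => l.2.2
    choose f hf1 hf2 hf3 using h1
    have : Finite {c | c ∈ F.cells ∧ ∀ b, ∃ k, c k ∉ (G b).supp} := hFe.to_subtype
    have h2 : Injective (fun l : {l | n₀ < l ∧ ∃ c' ∈ F.cells, range c' = range (x l) ∧
        ∀ b, ∃ k, c' k ∉ (G b).supp} =>
        (⟨f l, hf1 l, hf3 l⟩ : {c | c ∈ F.cells ∧ ∀ b, ∃ k, c k ∉ (G b).supp})) := by
      intro l l' h
      have h3 : f l = f l' := congrArg Subtype.val h
      apply Subtype.ext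
      apply hxr
      rw [← hf2 l, ← hf2 l', h3]
    have := Finite.of_injective _ h2
    exact Set.toFinite _
  obtain ⟨l, hl, hl1, hl2⟩ : ∃ l, n₀ < l ∧ x l ∈ Com F W ∧ ¬ ∃ c' ∈ F.cells,
      range c' = range (x l) ∧ ∀ b, ∃ k, c' k ∉ (G b).supp := by
    obtain ⟨l, hl1, hl2⟩ := ((Set.Ioi_infinite n₀).sdiff (hbad1.union hbad2)).nonempty
    rw [mem_union, not_or] at hl2
    refine ⟨l, hl1, ?_, fun h => hl2.2 ⟨hl1, h⟩⟩
    by_contra h
    exact hl2.1 ⟨hl1, h⟩
  obtain ⟨-, c', hc', hcr⟩ := hl1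
  apply hl2
  refine ⟨c', hc', hcr, fun b => ⟨k₀, ?_⟩⟩
  have h1 : c' k₀ ∈ range (x l) := by
    rw [← hcr]
    exact mem_range_self k₀
  obtain ⟨k, hk⟩ := h1
  rw [← hk, hx]
  exact hout _ _ _

end Pool.H17.TC
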