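import Pool.Agent.H17.TC.MxUp

/-!
# L5 : maximal families
-/

set_option autoImplicit false

namespace Pool.H17.TC

open Pool.H22.VC Function Set Pool.H17.TA Pool.H17.TB

variable {r : ℕ} {K ι κ κ' : Type} {N : Col r K ℕ} {A : Set ℕ} {x : ℕ → κ → ℕ}

private theorem mx_inc (hW : ¬ Wild N univ) (hN : (range N).Finite) [Finite κ] {F G : Fam κ}
    (hF : FMax N F) (hG : FN N G) (hP : PCh N A x) (hMG : MG N A x)
    (hxF : ∀ l, x l ∈ F.cells) (hxG : ∀ l, x l ∈ G.cells)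
    (hincF : ∀ l, F.lt (x l) (x (l + 1))) (hincG : ∀ l, G.lt (x l) (x (l + 1))) :
    {c | c ∈ G.cells ∧ c ∉ Com F G}.Finite := by
  refine ((mx_low hW hN hP hMG hF hG hxF hxG hincF hincG).union
    (mx_up hW hN hP hMG hF hG hxF hxG hincF hincG)).subset ?_
  rintro c ⟨hc1, hc2⟩
  by_cases h : ∃ l, G.lt c (x l)
  · exact Or.inl ⟨hc1, h, hc2⟩
  · refine Or.inr ⟨hc1, fun l => ?_, hc2⟩
    have hne : x l ≠ c := by
      rintro rfl
      exact h ⟨l + 1, hincG l⟩
    rcases hG.ok.total _ (hxG l) c hc1 hne with h1 | h1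
    · exact h1
    · exact absurd ⟨l, h1⟩ h

private theorem mx_mono (hW : ¬ Wild N univ) (hN : (range N).Finite) [Finite κ] {F G : Fam κ}
    (hF : FMax N F) (hG : FN N G) (hP : PCh N A x) (hMG : MG N A x)
    (hxF : ∀ l, x l ∈ F.cells) (hxG : ∀ l, x l ∈ G.cells)
    (hincF : (∀ l, F.lt (x l) (x (l + 1))) ∨ ∀ l, F.lt (x (l + 1)) (x l))
    (hincG : (∀ l, G.lt (x l) (x (l + 1))) ∨ ∀ l, G.lt (x (l + 1)) (x l)) :
    {c | c ∈ G.cells ∧ c ∉ Com F G}.Finite := by
  rcases hincF with hF1 | hF1 <;> rcases hincG with hG1 | hG1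
  · exact mx_inc hW hN hF hG hP hMG hxF hxG hF1 hG1
  · exact mx_inc (F := F) (G := G.rev) hW hN hF hG.rev hP hMG hxF hxG hF1 hG1
  · exact mx_inc (F := F.rev) (G := G) hW hN hF.rev hG hP hMG hxF hxG hF1 hG1
  · exact mx_inc (F := F.rev) (G := G.rev) hW hN hF.rev hG.rev hP hMG hxF hxG hF1 hG1

/-- relabelling -/
private theorem exists_relab [Finite κ] {c c' : κ → ℕ} (hc : Injective c) (hc' : Injective c')
    (h : range c' = range c) : ∃ σ : κ ≃ κ, ∀ k, c' k = c (σ k) := by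
  have h1 : ∀ k, ∃ k', c k' = c' k := by
    intro k
    have h2 : c' k ∈ range c := by
      rw [← h]
      exact ⟨k, rfl⟩
    exact h2
  choose f hf using h1
  have hfi : Injective f := by
    intro a b hab
    apply hc'
    rw [← hf a, ← hf b, hab]
  exact ⟨Equiv.ofBijective f (Finite.injective_iff_bijective.1 hfi), fun k => (hf k).symm⟩

/-- L5. PROOF. One relabelling `σ` occurs infinitely often: replace `G` by `G.relab σ`; then
infinitely many cells are common. `chain_in2`; reverse `F` or `G` if the chain is decreasing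
(`FMax.rev`, `FN.rev`). `mx_low`, `mx_up`. -/
theorem mx (hW : ¬ Wild N univ) (hN : (range N).Finite) [Finite κ] {F G : Fam κ}
    (hF : FMax N F) (hG : FN N G) (hi : (Com F G).Infinite) :
    {c | c ∈ G.cells ∧ c ∉ Com F G}.Finite := by
  classical
  have hFok := hF.1.ok
  have hGok := hG.ok
  -- one relabelling occurs infinitely often
  have h1 : ∀ c ∈ Com F G, ∃ σ : κ ≃ κ, (fun k => c (σ k)) ∈ F.cells := by
    rintro c ⟨hc, c', hc', hr⟩
    obtain ⟨σ, hσ⟩ := exists_relab (hGok.inj c hc) (hFok.inj c' hc') hr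
    refine ⟨σ, ?_⟩
    have h2 : (fun k => c (σ k)) = c' := funext fun k => (hσ k).symm
    rw [h2]
    exact hc'
  have h2 : ∃ σ : κ ≃ κ, {c | c ∈ Com F G ∧ (fun k => c (σ k)) ∈ F.cells}.Infinite := by
    by_contra hcon
    apply hi
    have h3 : ∀ σ : κ ≃ κ, {c | c ∈ Com F G ∧ (fun k => c (σ k)) ∈ F.cells}.Finite := by
      intro σ
      by_contra h4
      exact hcon ⟨σ, h4⟩
    refine (Set.finite_iUnion h3).subset ?_
    intro c hc
    obtain ⟨σ, hσ⟩ := h1 c hc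
    exact mem_iUnion.2 ⟨σ, hc, hσ⟩
  obtain ⟨σ, hσ⟩ := h2
  have hG' : FN N (G.relab σ) := hG.relab σ
  have hcm : ∀ c, c ∈ G.cells → (fun k => c (σ k)) ∈ (G.relab σ).cells := by
    intro c hc
    show (fun k => c (σ (σ.symm k))) ∈ G.cells
    have h3 : (fun k => c (σ (σ.symm k))) = c := by
      funext k
      rw [Equiv.apply_symm_apply]
    rw [h3]
    exact hc
  let Y : Set (κ → ℕ) := {y | y ∈ F.cells ∧ y ∈ (G.relab σ).cells}
  have hinj : Injective (fun (c : κ → ℕ) => fun k => c (σ k)) := by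
    intro c c' h3
    funext k
    have h4 := congrFun h3 (σ.symm k)
    simpa using h4
  have hY : Y.Infinite := by
    refine (hσ.image (f := fun (c : κ → ℕ) => fun k => c (σ k)) hinj.injOn).mono ?_
    rintro y ⟨c, ⟨hc1, hc2⟩, rfl⟩
    exact ⟨hc2, hcm c hc1.1⟩
  obtain ⟨A, x, -, hP, hMG, hxY, hincF, hincG⟩ := chain_in2 hW hN hF.1 hG' (Y := Y)
    (fun y hy => hy.1) (fun y hy => hy.2) hY (C := ∅) Set.finite_empty
  have hfin := mx_mono hW hN hF hG' hP hMG (fun l => (hxY l).1) (fun l => (hxY l).2) hincF hincG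
  refine Set.Finite.of_finite_image (f := fun (c : κ → ℕ) => fun k => c (σ k)) ?_ hinj.injOn
  refine hfin.subset ?_
  rintro y ⟨c, ⟨hc1, hc2⟩, rfl⟩
  refine ⟨hcm c hc1, ?_⟩
  rintro ⟨-, c', hc', hr⟩
  apply hc2
  refine ⟨hc1, c', hc', ?_⟩
  rw [hr]
  ext a
  constructor
  · rintro ⟨k, rfl⟩
    exact ⟨σ k, rfl⟩
  · rintro ⟨k, rfl⟩
    exact ⟨σ.symm k, by simp⟩

end Pool.H17.TC
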