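import Pool.Agent.H17.TC.Rc2

/-!
# RECO : inserting cells in a cut
-/

set_option autoImplicit false

namespace Pool.H17.TC

open Pool.H22.VC Function Set Pool.H17.TA Pool.H17.TB

variable {r : ℕ} {K ι κ κ' : Type} {N : Col r K ℕ}

/-- the cells of `G` between `q n₀` and some `q l` -/
def hull (G : Fam κ) (q : ℕ → κ → ℕ) (n₀ : ℕ) : Set (κ → ℕ) :=
  {g | g ∈ G.cells ∧ G.lt (q n₀) g ∧ ∃ l, G.lt g (q l)}

/-- `F` with `hull G q n₀`, in reversed order, inserted in the cut defined by the sequence `x` -/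
def cutFam (F G : Fam κ) (x q : ℕ → κ → ℕ) (n₀ : ℕ) : Fam κ :=
  ⟨F.cells ∪ hull G q n₀, fun c c' => (c ∈ F.cells ∧ c' ∈ F.cells ∧ F.lt c c') ∨
    (c ∈ hull G q n₀ ∧ c' ∈ hull G q n₀ ∧ G.lt c' c) ∨
    (c ∈ F.cells ∧ c' ∈ hull G q n₀ ∧ ∃ l, F.lt c (x l)) ∨
    (c ∈ hull G q n₀ ∧ c' ∈ F.cells ∧ ∀ l, F.lt (x l) c')⟩

private theorem seq_lt {F : Fam κ} (h : F.OK) {x : ℕ → κ → ℕ} (hx : ∀ n, x n ∈ F.cells)
    (hi : ∀ n, F.lt (x n) (x (n + 1))) {m n : ℕ} (hmn : m < n) : F.lt (x m) (x n) := by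
  induction n with
  | zero => omega
  | succ n ih =>
    rcases Nat.lt_succ_iff_lt_or_eq.1 hmn with h1 | h1
    · exact h.trans _ (hx _) _ (hx _) _ (hx _) (ih h1) (hi n)
    · rw [h1]
      exact hi n

private theorem seq_inj {F : Fam κ} (h : F.OK) {x : ℕ → κ → ℕ} (hx : ∀ n, x n ∈ F.cells)
    (hi : ∀ n, F.lt (x n) (x (n + 1))) {m n : ℕ} (hmn : x m = x n) : m = n := by
  rcases lt_trichotomy m n with h1 | h1 | h1
  · have h2 := seq_lt h hx hi h1
    rw [hmn] at h2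
    exact absurd h2 (h.irr _ (hx _))
  · exact h1
  · have h2 := seq_lt h hx hi h1
    rw [hmn] at h2
    exact absurd h2 (h.irr _ (hx _))

private theorem seq_iff {F : Fam κ} (h : F.OK) {x : ℕ → κ → ℕ} (hx : ∀ n, x n ∈ F.cells)
    (hi : ∀ n, F.lt (x n) (x (n + 1))) (m n : ℕ) : F.lt (x m) (x n) ↔ m < n := by
  refine ⟨fun h1 => ?_, seq_lt h hx hi⟩
  rcases lt_trichotomy m n with h2 | h2 | h2
  · exact h2
  · subst h2
    exact absurd h1 (h.irr _ (hx _))
  · exact absurd (h.trans _ (hx _) _ (hx _) _ (hx _) h1 (seq_lt h hx hi h2)) (h.irr _ (hx _))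

private theorem lohi {F : Fam κ} (h : F.OK) {x : ℕ → κ → ℕ} (hx : ∀ n, x n ∈ F.cells)
    (hi : ∀ n, F.lt (x n) (x (n + 1))) {c : κ → ℕ} (hc : c ∈ F.cells) :
    (∃ l, F.lt c (x l)) ∨ ∀ l, F.lt (x l) c := by
  by_cases h1 : ∃ l, F.lt c (x l)
  · exact Or.inl h1
  · push Not at h1
    refine Or.inr fun l => ?_
    rcases h.total _ (hx l) _ hc (fun e => h1 (l + 1) (by
      rw [← e]
      exact hi l)) with h2 | h2
    · exact h2
    · exact absurd h2 (h1 l)

private theorem lohi' {F : Fam κ} (h : F.OK) {x : ℕ → κ → ℕ} (hx : ∀ n, x n ∈ F.cells)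
    {c : κ → ℕ} (hc : c ∈ F.cells) (h1 : ∃ l, F.lt c (x l)) (h2 : ∀ l, F.lt (x l) c) : False := by
  obtain ⟨l, hl⟩ := h1
  exact h.irr _ hc (h.trans _ hc _ (hx l) _ hc hl (h2 l))

private theorem hull_notF {F G : Fam κ} (hF : F.OK) {q : ℕ → κ → ℕ} {n₀ : ℕ}
    (hd : ∀ g ∈ hull G q n₀, ∀ k, g k ∉ F.supp) {c : κ → ℕ} (hc : c ∈ hull G q n₀) :
    c ∉ F.cells := by
  intro h
  obtain ⟨k⟩ := hF.nonempty
  exact hd c hc k ⟨c, h, k, rfl⟩

section lts

variable {F G : Fam κ} {x q : ℕ → κ → ℕ} {n₀ : ℕ}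

private theorem lt_FF (hF : F.OK) (hd : ∀ g ∈ hull G q n₀, ∀ k, g k ∉ F.supp) {c c' : κ → ℕ}
    (hc : c ∈ F.cells) (hc' : c' ∈ F.cells) : (cutFam F G x q n₀).lt c c' ↔ F.lt c c' := by
  constructor
  · rintro (h | h | h | h)
    · exact h.2.2
    · exact absurd hc (hull_notF hF hd h.1)
    · exact absurd hc' (hull_notF hF hd h.2.1)
    · exact absurd hc (hull_notF hF hd h.1)
  · intro h
    exact Or.inl ⟨hc, hc', h⟩

private theorem lt_hh (hF : F.OK) (hd : ∀ g ∈ hull G q n₀, ∀ k, g k ∉ F.supp) {c c' : κ → ℕ}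
    (hc : c ∈ hull G q n₀) (hc' : c' ∈ hull G q n₀) :
    (cutFam F G x q n₀).lt c c' ↔ G.lt c' c := by
  constructor
  · rintro (h | h | h | h)
    · exact absurd h.1 (hull_notF hF hd hc)
    · exact h.2.2
    · exact absurd h.1 (hull_notF hF hd hc)
    · exact absurd h.2.1 (hull_notF hF hd hc')
  · intro h
    exact Or.inr (Or.inl ⟨hc, hc', h⟩)

private theorem lt_Fh (hF : F.OK) (hd : ∀ g ∈ hull G q n₀, ∀ k, g k ∉ F.supp) {c c' : κ → ℕ}
    (hc : c ∈ F.cells) (hc' : c' ∈ hull G q n₀) :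
    (cutFam F G x q n₀).lt c c' ↔ ∃ l, F.lt c (x l) := by
  constructor
  · rintro (h | h | h | h)
    · exact absurd h.2.1 (hull_notF hF hd hc')
    · exact absurd hc (hull_notF hF hd h.1)
    · exact h.2.2
    · exact absurd hc (hull_notF hF hd h.1)
  · intro h
    exact Or.inr (Or.inr (Or.inl ⟨hc, hc', h⟩))

private theorem lt_hF (hF : F.OK) (hd : ∀ g ∈ hull G q n₀, ∀ k, g k ∉ F.supp) {c c' : κ → ℕ}
    (hc : c ∈ hull G q n₀) (hc' : c' ∈ F.cells) :
    (cutFam F G x q n₀).lt c c' ↔ ∀ l, F.lt (x l) c' := by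
  constructor
  · rintro (h | h | h | h)
    · exact absurd h.1 (hull_notF hF hd hc)
    · exact absurd hc' (hull_notF hF hd h.2.1)
    · exact absurd h.1 (hull_notF hF hd hc)
    · exact h.2.2
  · intro h
    exact Or.inr (Or.inr (Or.inr ⟨hc, hc', h⟩))

private theorem cut_ok (hF : F.OK) (hG : G.OK) (hx : ∀ n, x n ∈ F.cells)
    (hi : ∀ n, F.lt (x n) (x (n + 1))) (hd : ∀ g ∈ hull G q n₀, ∀ k, g k ∉ F.supp) :
    (cutFam F G x q n₀).OK := by
  have hsub : ∀ c ∈ hull G q n₀, c ∈ G.cells := fun c hc => hc.1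
  refine ⟨?_, ?_, ?_, ?_, ?_, hF.inf.mono subset_union_left⟩
  · rintro c (hc | hc)
    · exact hF.inj c hc
    · exact hG.inj c hc.1
  · rintro c (hc | hc) c' (hc' | hc') k k' hkk
    · exact hF.disj c hc c' hc' k k' hkk
    · exact absurd ⟨c, hc, k, hkk⟩ (hd c' hc' k')
    · exact absurd ⟨c', hc', k', hkk.symm⟩ (hd c hc k)
    · exact hG.disj c hc.1 c' hc'.1 k k' hkk
  · rintro c (hc | hc)
    · rw [lt_FF hF hd hc hc]
      exact hF.irr c hc
    · rw [lt_hh hF hd hc hc]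
      exact hG.irr c hc.1
  · rintro c (hc | hc) c' (hc' | hc') c'' (hc'' | hc'') h1 h2
    · rw [lt_FF hF hd hc hc'] at h1
      rw [lt_FF hF hd hc' hc''] at h2
      rw [lt_FF hF hd hc hc'']
      exact hF.trans c hc c' hc' c'' hc'' h1 h2
    · rw [lt_FF hF hd hc hc'] at h1
      rw [lt_Fh hF hd hc' hc''] at h2
      rw [lt_Fh hF hd hc hc'']
      obtain ⟨l, hl⟩ := h2
      exact ⟨l, hF.trans c hc c' hc' _ (hx l) h1 hl⟩
    · rw [lt_Fh hF hd hc hc'] at h1
      rw [lt_hF hF hd hc' hc''] at h2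
      rw [lt_FF hF hd hc hc'']
      obtain ⟨l, hl⟩ := h1
      exact hF.trans c hc _ (hx l) c'' hc'' hl (h2 l)
    · rw [lt_Fh hF hd hc hc'] at h1
      rw [lt_Fh hF hd hc hc'']
      exact h1
    · rw [lt_hF hF hd hc hc'] at h1
      rw [lt_FF hF hd hc' hc''] at h2
      rw [lt_hF hF hd hc hc'']
      intro l
      exact hF.trans _ (hx l) c' hc' c'' hc'' (h1 l) h2
    · rw [lt_hF hF hd hc hc'] at h1
      rw [lt_Fh hF hd hc' hc''] at h2
      exact (lohi' hF hx hc' h2 h1).elim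
    · rw [lt_hF hF hd hc' hc''] at h2
      rw [lt_hF hF hd hc hc'']
      exact h2
    · rw [lt_hh hF hd hc hc'] at h1
      rw [lt_hh hF hd hc' hc''] at h2
      rw [lt_hh hF hd hc hc'']
      exact hG.trans c'' hc''.1 c' hc'.1 c hc.1 h2 h1
  · rintro c (hc | hc) c' (hc' | hc') hne
    · rw [lt_FF hF hd hc hc', lt_FF hF hd hc' hc]
      exact hF.total c hc c' hc' hne
    · rw [lt_Fh hF hd hc hc', lt_hF hF hd hc' hc]
      exact lohi hF hx hi hc
    · rw [lt_hF hF hd hc hc', lt_Fh hF hd hc' hc]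
      exact (lohi hF hx hi hc').symm
    · rw [lt_hh hF hd hc hc', lt_hh hF hd hc' hc]
      exact (hG.total c hc.1 c' hc'.1 hne).symm

end lts

/-- Normal form. PROOF. Let `H = cutFam F G x q n₀`, `g 0, …, g (k - 1)` the used cells of `t` in the hull,
increasing in `G` (at most `r`), `θ (g s) = x (j s.rev)`, with `j` increasing and large (above all used
cells of `F` below some `x l`, and `x (j s)` not used). Move `g s` to `q (n s)` in `G`, `n` increasing and
large (`q (n s)` not used): order preserving, because the full cells of `G` outside the hull are not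
above `q n₀` or above all `q l`. Then `rl`. -/
theorem cut_norm [Finite κ] {F G : Fam κ} (hF : FN N F) (hG : FN N G) {E : ℕ → Set ℕ}
    {x q : ℕ → κ → ℕ} (hB : Bad N F E x q) (hq : ∀ n, q n ∈ G.cells)
    (hinc : ∀ n, G.lt (q n) (q (n + 1))) (n₀ : ℕ)
    (hd : ∀ g ∈ hull G q n₀, ∀ k, g k ∉ F.supp) (t : Fin r → ℕ) :
    ∃ θ : (κ → ℕ) → (κ → ℕ), Mv (cutFam F G x q n₀) t θ ∧
      (∀ c, Used (cutFam F G x q n₀) t c → θ c ∈ F.cells) ∧
      (∀ c, c ∈ F.cells → θ c = c) ∧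
      (∀ c c', Used (cutFam F G x q n₀) t c → Used (cutFam F G x q n₀) t c' →
        ((cutFam F G x q n₀).lt c c' ↔ F.lt (θ c) (θ c'))) ∧
      N (fun j => (cutFam F G x q n₀).mv θ (t j)) = N t := by
  classical
  have hH : (cutFam F G x q n₀).OK := cut_ok hF.ok hG.ok hB.mem hB.inc hd
  obtain ⟨k0⟩ := hF.ok.nonempty
  -- the used cells in the hull
  have hUf : {g | g ∈ hull G q n₀ ∧ ∃ j k, t j = g k}.Finite :=
    (used_finite hG.ok t).1.subset fun g hg => ⟨hg.1.1, hg.2⟩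
  obtain ⟨p, hp⟩ : ∃ p, {g | g ∈ hull G q n₀ ∧ ∃ j k, t j = g k}.ncard = p := ⟨_, rfl⟩
  obtain ⟨g, hg1, hg2, hg3⟩ := exists_incr hG.ok {g | g ∈ hull G q n₀ ∧ ∃ j k, t j = g k}
    (fun g hg => hg.1.1) hUf hp
  have hgi := incr_inj hG.ok hg1 hg2
  have hgl := incr_iff hG.ok hg1 hg2
  have hgh : ∀ s, g s ∈ hull G q n₀ := by
    intro s
    have h1 : g s ∈ range g := mem_range_self s
    rw [hg3] at h1
    exact h1.1
  have hgm : ∀ c ∈ hull G q n₀, (∃ j k, t j = c k) → ∃ s, g s = c := by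
    intro c hc hu
    have h1 : c ∈ range g := by
      rw [hg3]
      exact ⟨hc, hu⟩
    exact h1
  -- large numbers
  obtain ⟨M, hM⟩ : ∃ M, ∀ i, t i ≤ M := by
    obtain ⟨M, hM⟩ := (Set.finite_range t).bddAbove
    exact ⟨M, fun i => hM (mem_range_self i)⟩
  obtain ⟨J₀, hJ₀⟩ : ∃ J, ∀ c, Used F t c → (∃ l, F.lt c (x l)) → ∃ l, l ≤ J ∧ F.lt c (x l) := by
    let f : (κ → ℕ) → ℕ := fun c => if h : ∃ l, F.lt c (x l) then h.choose else 0
    obtain ⟨J, hJ⟩ := ((used_finite hF.ok t).1.image f).bddAbove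
    refine ⟨J, fun c hc hl => ⟨f c, hJ ⟨c, hc, rfl⟩, ?_⟩⟩
    simp only [f]
    rw [dif_pos hl]
    exact hl.choose_spec
  have htx : ∀ l, M ≤ l → ∀ i k, t i ≠ x l k := by
    intro l hl i k h
    apply (hB.out l k).1
    rw [← h]
    exact hB.le l _ ((hM i).trans hl)
  have htq : ∀ l, M ≤ l → ∀ i k, t i ≠ q l k := by
    intro l hl i k h
    apply (hB.out l k).2
    rw [← h]
    exact hB.le l _ ((hM i).trans hl)
  obtain ⟨j, hj⟩ : ∃ j : Fin p → ℕ, ∀ s, j s = J₀ + M + 1 + s := ⟨_, fun _ => rfl⟩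
  obtain ⟨n, hn⟩ : ∃ n : Fin p → ℕ, ∀ s, n s = J₀ + M + 1 + p + n₀ + 1 + s := ⟨_, fun _ => rfl⟩
  have hjM : ∀ s, M ≤ j s := fun s => by
    have := hj s
    omega
  have hnM : ∀ s, M ≤ n s := fun s => by
    have := hn s
    omega
  have hxl : ∀ m m', F.lt (x m) (x m') ↔ m < m' := seq_iff hF.ok hB.mem hB.inc
  have hJx : ∀ c, Used F t c → (∃ l, F.lt c (x l)) → ∀ s, F.lt c (x (j s)) := by
    intro c hc hl s
    obtain ⟨l, hl1, hl2⟩ := hJ₀ c hc hl
    have h1 := hj s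
    exact hF.ok.trans _ hc.1 _ (hB.mem l) _ (hB.mem _) hl2 ((hxl _ _).2 (by omega))
  -- the template
  have hT0 : ∀ i, ∃ y : ℕ ⊕ (Fin p × κ), (∀ a, y = Sum.inl a → a = t i ∧ ∀ s k, t i ≠ g s k) ∧
      ∀ z, y = Sum.inr z → t i = g z.1 z.2 := by
    intro i
    by_cases hi : ∃ s k, t i = g s k
    · obtain ⟨s, k, hk⟩ := hi
      refine ⟨Sum.inr (s, k), by simp, ?_⟩
      intro z hz
      rw [← Sum.inr.inj hz]
      exact hk
    · push Not at hi
      refine ⟨Sum.inl (t i), ?_, by simp⟩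
      intro a ha
      rw [← Sum.inl.inj ha]
      exact ⟨rfl, hi⟩
  choose T hT1 hT2 using hT0
  -- the move in G
  have hA : N (ap T (fun s => q (n s))) = N t := by
    let φ : (κ → ℕ) → (κ → ℕ) := fun c => if h : ∃ s, g s = c then q (n h.choose) else c
    have hφg : ∀ s, φ (g s) = q (n s) := by
      intro s
      have hex : ∃ s', g s' = g s := ⟨s, rfl⟩
      have h1 : hex.choose = s := hgi hex.choose_spec
      simp only [φ]
      rw [dif_pos hex, h1]
    have hφo : ∀ c, (¬ ∃ s, g s = c) → φ c = c := by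
      intro c hc
      simp only [φ]
      rw [dif_neg hc]
    have hMv : Mv G t φ := by
      constructor
      · intro c hc
        by_cases h1 : ∃ s, g s = c
        · obtain ⟨s, rfl⟩ := h1
          rw [hφg]
          exact hq _
        · rw [hφo c h1]
          exact hc.1
      · intro c c' hc hc' hcc
        by_cases h1 : ∃ s, g s = c <;> by_cases h2 : ∃ s, g s = c'
        · obtain ⟨s, rfl⟩ := h1
          obtain ⟨s', rfl⟩ := h2
          rw [hφg, hφg] at hcc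
          have h3 := seq_inj hG.ok hq hinc hcc
          have h4 : s = s' := by
            have e1 := hn s
            have e2 := hn s'
            exact Fin.ext (by omega)
          rw [h4]
        · obtain ⟨s, rfl⟩ := h1
          rw [hφg, hφo c' h2] at hcc
          obtain ⟨-, i, k, hk⟩ := hc'
          rw [← hcc] at hk
          exact absurd hk (htq _ (hnM s) i k)
        · obtain ⟨s, rfl⟩ := h2
          rw [hφg, hφo c h1] at hcc
          obtain ⟨-, i, k, hk⟩ := hc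
          rw [hcc] at hk
          exact absurd hk (htq _ (hnM s) i k)
        · rw [hφo c h1, hφo c' h2] at hcc
          exact hcc
    have hne : ∀ c s, Full G t c → c ≠ q (n s) := by
      intro c s hc h
      obtain ⟨i, hi⟩ := hc.2 k0
      rw [h] at hi
      exact htq _ (hnM s) i k0 hi
    have hMon : Mon G t φ := by
      intro c c' hc hc' hcc
      have uc : ∃ i k, t i = c k := by
        obtain ⟨i, hi⟩ := hc.2 k0
        exact ⟨i, k0, hi⟩
      have uc' : ∃ i k, t i = c' k := by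
        obtain ⟨i, hi⟩ := hc'.2 k0
        exact ⟨i, k0, hi⟩
      by_cases h1 : ∃ s, g s = c <;> by_cases h2 : ∃ s, g s = c'
      · obtain ⟨s, rfl⟩ := h1
        obtain ⟨s', rfl⟩ := h2
        rw [hφg, hφg]
        have h3 := (hgl s s').1 hcc
        rw [Fin.lt_def] at h3
        refine seq_lt hG.ok hq hinc ?_
        rw [hn, hn]
        omega
      · obtain ⟨s, rfl⟩ := h1
        rw [hφg, hφo c' h2]
        have h3 : G.lt (q n₀) c' :=
          hG.ok.trans _ (hq _) _ (hg1 s) _ hc'.1 (hgh s).2.1 hcc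
        rcases hG.ok.total c' hc'.1 _ (hq (n s)) (hne c' s hc') with h4 | h4
        · exact absurd (hgm c' ⟨hc'.1, h3, n s, h4⟩ uc') h2
        · exact h4
      · obtain ⟨s, rfl⟩ := h2
        rw [hφg, hφo c h1]
        obtain ⟨l, hl⟩ := (hgh s).2.2
        have h3 : G.lt c (q l) := hG.ok.trans _ hc.1 _ (hg1 s) _ (hq l) hcc hl
        rcases hG.ok.total c hc.1 _ (hq (n s)) (hne c s hc) with h4 | h4
        · exact h4
        · exfalso
          apply h1
          refine hgm c ⟨hc.1, ?_, l, h3⟩ uc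
          refine hG.ok.trans _ (hq _) _ (hq (n s)) _ hc.1 (seq_lt hG.ok hq hinc ?_) h4
          rw [hn]
          omega
      · rw [hφo c h1, hφo c' h2]
        exact hcc
    rw [← hG.free t φ hMv hMon]
    congr 1
    funext i
    unfold ap
    rcases hTi : T i with a | z
    · simp only [Sum.elim_inl, id_eq]
      obtain ⟨h1, h2⟩ := hT1 i a hTi
      rw [h1]
      symm
      refine Fam.mv_fix hG.ok φ ?_
      rintro c hc ⟨k, hk⟩
      refine hφo c ?_
      rintro ⟨s, rfl⟩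
      exact h2 s k hk.symm
    · simp only [Sum.elim_inr]
      rw [hT2 i z hTi, Fam.mv_cell hG.ok φ (hg1 _), hφg]
  -- the replacement lemma
  have hBB : N (ap T (fun s => q (n s))) = N (ap T (fun s => x (j s.rev))) := by
    refine rl hF hB T (J₀ + M + 1 + p + n₀ + 1) ?_ j n ?_ ?_ ?_ ?_ ?_ ?_
    · intro i a ha
      obtain ⟨h1, -⟩ := hT1 i a ha
      rw [h1]
      exact hB.le _ _ ((hM i).trans (by omega))
    · intro s s' hs
      rw [Fin.lt_def] at hs
      rw [hj, hj]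
      omega
    · intro s s' hs
      rw [Fin.lt_def] at hs
      rw [hn, hn]
      omega
    · intro s
      rw [hn]
      omega
    · intro s s'
      rw [hj, hn]
      have := s.2
      omega
    · intro c hc hk hl s
      refine hJx c ⟨hc, ?_⟩ hl s
      obtain ⟨i, hi⟩ := hk k0
      exact ⟨i, k0, (hT1 i _ hi).1.symm⟩
    · intro i a s k ha h
      obtain ⟨h1, -⟩ := hT1 i a ha
      rw [h1] at h
      exact htx _ (hjM s) i k h
  -- the move
  let θ : (κ → ℕ) → (κ → ℕ) := fun c => if h : ∃ s, g s = c then x (j h.choose.rev) else c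
  have hθg : ∀ s, θ (g s) = x (j s.rev) := by
    intro s
    have hex : ∃ s', g s' = g s := ⟨s, rfl⟩
    have h1 : hex.choose = s := hgi hex.choose_spec
    simp only [θ]
    rw [dif_pos hex, h1]
  have hθo : ∀ c, (¬ ∃ s, g s = c) → θ c = c := by
    intro c hc
    simp only [θ]
    rw [dif_neg hc]
  have hFg : ∀ c ∈ F.cells, ¬ ∃ s, g s = c := by
    rintro _ hc ⟨s, rfl⟩
    exact hull_notF hF.ok hd (hgh s) hc
  have hθF : ∀ c, c ∈ F.cells → θ c = c := fun c hc => hθo c (hFg c hc)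
  have hcase : ∀ c, Used (cutFam F G x q n₀) t c → c ∈ F.cells ∨ ∃ s, g s = c := by
    rintro c ⟨hc | hc, hu⟩
    · exact Or.inl hc
    · exact Or.inr (hgm c hc hu)
  have hθc : ∀ c, Used (cutFam F G x q n₀) t c → θ c ∈ F.cells := by
    intro c hc
    rcases hcase c hc with h1 | ⟨s, rfl⟩
    · rw [hθF c h1]
      exact h1
    · rw [hθg]
      exact hB.mem _
  refine ⟨θ, ⟨fun c hc => Or.inl (hθc c hc), ?_⟩, hθc, hθF, ?_, ?_⟩
  · intro c c' hc hc' hcc
    rcases hcase c hc with h1 | ⟨s, rfl⟩ <;> rcases hcase c' hc' with h2 | ⟨s', rfl⟩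
    · rw [hθF c h1, hθF c' h2] at hcc
      exact hcc
    · rw [hθF c h1, hθg] at hcc
      obtain ⟨-, i, k, hk⟩ := hc
      rw [hcc] at hk
      exact absurd hk (htx _ (hjM _) i k)
    · rw [hθF c' h2, hθg] at hcc
      obtain ⟨-, i, k, hk⟩ := hc'
      rw [← hcc] at hk
      exact absurd hk (htx _ (hjM _) i k)
    · rw [hθg, hθg] at hcc
      have h3 := seq_inj hF.ok hB.mem hB.inc hcc
      have h4 : s.rev = s'.rev := by
        have e1 := hj s.rev
        have e2 := hj s'.rev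
        exact Fin.ext (by omega)
      rw [Fin.rev_injective h4]
  · intro c c' hc hc'
    rcases hcase c hc with h1 | ⟨s, rfl⟩ <;> rcases hcase c' hc' with h2 | ⟨s', rfl⟩
    · rw [hθF c h1, hθF c' h2]
      exact lt_FF hF.ok hd h1 h2
    · rw [hθF c h1, hθg, lt_Fh hF.ok hd h1 (hgh s')]
      exact ⟨fun h => hJx c ⟨h1, hc.2⟩ h _, fun h => ⟨_, h⟩⟩
    · rw [hθF c' h2, hθg, lt_hF hF.ok hd (hgh s) h2]
      refine ⟨fun h => h _, fun h => ?_⟩
      rcases lohi hF.ok hB.mem hB.inc h2 with h3 | h3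
      · have h4 := hJx c' ⟨h2, hc'.2⟩ h3 s.rev
        exact absurd (hF.ok.trans _ h2 _ (hB.mem _) _ h2 h4 h) (hF.ok.irr _ h2)
      · exact h3
    · rw [hθg, hθg, lt_hh hF.ok hd (hgh s) (hgh s'), hgl, hxl, hj, hj]
      have e1 : (s.rev : ℕ) = p - (s + 1) := Fin.val_rev s
      have e2 : (s'.rev : ℕ) = p - (s' + 1) := Fin.val_rev s'
      have e3 := s.2
      have e4 := s'.2
      rw [Fin.lt_def]
      omega
  · rw [← hA, hBB]
    congr 1
    funext i
    unfold ap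
    rcases hTi : T i with a | z
    · simp only [Sum.elim_inl, id_eq]
      obtain ⟨h1, h2⟩ := hT1 i a hTi
      rw [h1]
      refine Fam.mv_fix hH θ ?_
      rintro c hc ⟨k, hk⟩
      refine hθo c ?_
      rintro ⟨s, rfl⟩
      exact h2 s k hk.symm
    · simp only [Sum.elim_inr]
      rw [hT2 i z hTi, Fam.mv_cell hH θ (Or.inr (hgh _)), hθg]

/-- ADD2. PROOF. `OK`: a cell of `F` is below some `x l` or above all `x l`; the hull is disjoint from
`F.supp`. `free`: let `t`, `φ` be an admissible move of `H`, `t'` the moved tuple; `cut_norm` for `t` and `t'`: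
`θ`, `θ'`; the two normal forms differ by the move `θ' ∘ φ ∘ θ⁻¹` of `F`, order preserving on the full
cells (`used_mv`, `full_mv`, `mv_comp`). `nsym`: the witness of `F`, with the identity on the hull. -/
theorem add_cut [Finite κ] {F G : Fam κ} (hF : FN N F) (hG : FN N G) {E : ℕ → Set ℕ}
    {x q : ℕ → κ → ℕ} (hB : Bad N F E x q) (hq : ∀ n, q n ∈ G.cells)
    (hinc : ∀ n, G.lt (q n) (q (n + 1))) (n₀ : ℕ)
    (hd : ∀ g ∈ hull G q n₀, ∀ k, g k ∉ F.supp) : FN N (cutFam F G x q n₀) := by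
  classical
  have hH : (cutFam F G x q n₀).OK := cut_ok hF.ok hG.ok hB.mem hB.inc hd
  have hsupp : F.supp ⊆ (cutFam F G x q n₀).supp := by
    rintro a ⟨c, hc, k, rfl⟩
    exact ⟨c, Or.inl hc, k, rfl⟩
  refine ⟨hH, ?_, ?_⟩
  · intro t φ hMv hMon
    obtain ⟨θ, a1, a2, a3, a4, a5⟩ := cut_norm hF hG hB hq hinc n₀ hd t
    obtain ⟨θ', b1, b2, b3, b4, b5⟩ := cut_norm hF hG hB hq hinc n₀ hd
      (fun j => (cutFam F G x q n₀).mv φ (t j))
    rw [← a5, ← b5]
    -- used cells of the normal form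
    have hu : ∀ c, Used F (fun j => (cutFam F G x q n₀).mv θ (t j)) c →
        ∃ c', Used (cutFam F G x q n₀) t c' ∧ θ c' = c := by
      intro c hc
      exact (used_mv hH a1 c).1 ⟨Or.inl hc.1, hc.2⟩
    have hf : ∀ c, Full F (fun j => (cutFam F G x q n₀).mv θ (t j)) c →
        ∃ c', Full (cutFam F G x q n₀) t c' ∧ θ c' = c := by
      intro c hc
      exact (full_mv hH a1 c).1 ⟨Or.inl hc.1, hc.2⟩
    have hfu : ∀ {t : Fin r → ℕ} {c}, Full (cutFam F G x q n₀) t c →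
        Used (cutFam F G x q n₀) t c := by
      intro t c hc
      obtain ⟨k0⟩ := hF.ok.nonempty
      obtain ⟨i, hi⟩ := hc.2 k0
      exact ⟨hc.1, i, k0, hi⟩
    have hus : ∀ c, Used (cutFam F G x q n₀) t c →
        Used (cutFam F G x q n₀) (fun j => (cutFam F G x q n₀).mv φ (t j)) (φ c) :=
      fun c hc => (used_mv hH hMv (φ c)).2 ⟨c, hc, rfl⟩
    let ψ : (κ → ℕ) → (κ → ℕ) := fun c =>
      if h : ∃ c', Used (cutFam F G x q n₀) t c' ∧ θ c' = c then θ' (φ h.choose) else c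
    have hψ : ∀ c', Used (cutFam F G x q n₀) t c' → ψ (θ c') = θ' (φ c') := by
      intro c' hc'
      have hex : ∃ c'', Used (cutFam F G x q n₀) t c'' ∧ θ c'' = θ c' := ⟨c', hc', rfl⟩
      have h1 : hex.choose = c' := a1.2 _ _ hex.choose_spec.1 hc' hex.choose_spec.2
      simp only [ψ]
      rw [dif_pos hex, h1]
    have hψM : Mv F (fun j => (cutFam F G x q n₀).mv θ (t j)) ψ := by
      constructor
      · intro c hc
        obtain ⟨c', hc', rfl⟩ := hu c hc
        rw [hψ c' hc']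
        exact b2 _ (hus c' hc')
      · intro c d hc hd' hcd
        obtain ⟨c', hc', rfl⟩ := hu c hc
        obtain ⟨d', hd'', rfl⟩ := hu d hd'
        rw [hψ c' hc', hψ d' hd''] at hcd
        have h1 := b1.2 _ _ (hus c' hc') (hus d' hd'') hcd
        rw [hMv.2 _ _ hc' hd'' h1]
    have hψm : Mon F (fun j => (cutFam F G x q n₀).mv θ (t j)) ψ := by
      intro c d hc hd' hcd
      obtain ⟨c', hc', rfl⟩ := hf c hc
      obtain ⟨d', hd'', rfl⟩ := hf d hd'
      rw [hψ c' (hfu hc'), hψ d' (hfu hd'')]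
      rw [← a4 c' d' (hfu hc') (hfu hd'')] at hcd
      rw [← b4 _ _ (hus c' (hfu hc')) (hus d' (hfu hd''))]
      exact hMon c' d' hc' hd'' hcd
    rw [← hF.free _ ψ hψM hψm]
    congr 1
    funext i
    by_cases hs : t i ∈ (cutFam F G x q n₀).supp
    · obtain ⟨c, hc, k, hk⟩ := hs
      have hcu : Used (cutFam F G x q n₀) t c := ⟨hc, i, k, hk.symm⟩
      rw [← hk, Fam.mv_cell hH φ hc, Fam.mv_cell hH θ hc, Fam.mv_cell hH θ' (hMv.1 c hcu),
        Fam.mv_cell hF.ok ψ (a2 c hcu), hψ c hcu]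
    · rw [Fam.mv_out φ hs, Fam.mv_out θ hs, Fam.mv_out θ' hs,
        Fam.mv_out ψ fun h => hs (hsupp h)]
  · obtain ⟨t, φ, hMv, hne⟩ := hF.nsym
    let φ' : (κ → ℕ) → (κ → ℕ) := fun c => if c ∈ F.cells then φ c else c
    have h1 : ∀ c ∈ F.cells, φ' c = φ c := fun c hc => if_pos hc
    have h2 : ∀ c, c ∉ F.cells → φ' c = c := fun c hc => if_neg hc
    have h3 : ∀ a, (cutFam F G x q n₀).mv φ' a = F.mv φ a := by
      intro a
      by_cases hs : a ∈ F.supp
      · obtain ⟨c, hc, k, rfl⟩ := hs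
        rw [Fam.mv_cell hH φ' (Or.inl hc), Fam.mv_cell hF.ok φ hc, h1 c hc]
      · rw [Fam.mv_out φ hs]
        refine Fam.mv_fix hH φ' ?_
        rintro c hc ⟨k, rfl⟩
        exact h2 c fun h => hs ⟨c, h, k, rfl⟩
    refine ⟨t, φ', ⟨?_, ?_⟩, ?_⟩
    · rintro c ⟨hc, hu⟩
      by_cases h4 : c ∈ F.cells
      · rw [h1 c h4]
        exact Or.inl (hMv.1 c ⟨h4, hu⟩)
      · rw [h2 c h4]
        exact hc
    · rintro c c' ⟨hc, hu⟩ ⟨hc', hu'⟩ hcc
      by_cases h4 : c ∈ F.cells <;> by_cases h5 : c' ∈ F.cells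
      · rw [h1 c h4, h1 c' h5] at hcc
        exact hMv.2 c c' ⟨h4, hu⟩ ⟨h5, hu'⟩ hcc
      · rw [h1 c h4, h2 c' h5] at hcc
        exfalso
        apply h5
        rw [← hcc]
        exact hMv.1 c ⟨h4, hu⟩
      · rw [h2 c h4, h1 c' h5] at hcc
        exfalso
        apply h4
        rw [hcc]
        exact hMv.1 c' ⟨h5, hu'⟩
      · rw [h2 c h4, h2 c' h5] at hcc
        exact hcc
    · simp only [h3]
      exact hne

end Pool.H17.TC
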