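import Pool.Agent.H17.TC.Rc3
import Pool.Agent.H17.TC.Rc4
import Pool.Agent.H17.TC.Mx

/-!
# RECO : cells of maximal families are recognised
-/

set_option autoImplicit false

namespace Pool.H17.TC

open Pool.H22.VC Function Set Pool.H17.TA Pool.H17.TB

variable {r : ℕ} {K ι κ κ' : Type} {N : Col r K ℕ}

/-- RECO. The cells of a maximal family are recognised by their quantifier free type over a finite
set, up to the labels. PROOF. Otherwise `exists_bad`: `G` (`F` or `F.rev`, maximal: `FMax.rev`), `Bad`;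
`bad_pch` and `Bad.sub`: `q` is a pure chain with minimal label group. `g1` for `X = {q l | n < l}` (ranges
are different) and large `n`: a family `V` with `V.cells ⊇ X`, `V.lt = LT n`, so `V.lt (q l) (q (l + 1))`
for `l > n` (`VT`, homogeneity). `exists_max`: `V ≤ W`. If `Com G W` is infinite then by `mx` almost all
cells of `W` are in `Com G W`, so some `q l` has the range of a cell of `G`: contradiction (`ncell`). If
`Com G W` is finite then only finitely many cells of `W` meet `G.supp` (`exc_finite`); so for large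
`n₀` the hull of `q` (shifted) is disjoint from `G.supp`. `add_cut`: `H` with `G ≤ H` (`FLe`), so by
maximality `q (n₀ + 1) ∈ G.cells`: contradiction (`ncell`). -/
theorem reco (hW : ¬ Wild N univ) (hN : (range N).Finite) [Finite κ] {F : Fam κ}
    (hF : FMax N F) :
    ∃ C : Set ℕ, C.Finite ∧ ∀ x ∈ F.cells, ∀ q : κ → ℕ, TyEq N C x q →
      ∃ c ∈ F.cells, range c = range q := by
  classical
  by_contra hcon
  obtain ⟨G, E, x, q, hG, hB⟩ := exists_bad hF.1.ok hcon
  have hGM : FMax N G := by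
    rcases hG with rfl | rfl
    · exact hF
    · exact hF.rev
  obtain ⟨A, φ, hφ, hP, hMG⟩ := bad_pch hW hN hGM.1 hB
  have hB1 := hB.sub hGM.1.ok hφ
  obtain ⟨y, hy⟩ : ∃ y : ℕ → κ → ℕ, y = fun i => q (φ i) := ⟨_, rfl⟩
  rw [← hy] at hP hMG
  have hB1 : Bad N G (fun n => E (φ n)) (fun n => x (φ n)) y := by
    rw [hy]
    exact hB1
  obtain ⟨k₀⟩ := hGM.1.ok.nonempty
  obtain ⟨n₁, hn₁⟩ := g1 hW hN hP hMG
  obtain ⟨V, hV, -, hXV, -, hVlt⟩ := hn₁ n₁ le_rfl {c | ∃ l, n₁ < l ∧ y l = c}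
    (by
      rintro c ⟨l, hl, rfl⟩
      exact VV_self hP hl)
    (by
      rintro c ⟨l, hl, rfl⟩ c' ⟨l', hl', rfl⟩ hr
      have h1 : y l k₀ ∈ range (y l') := by
        rw [← hr]
        exact ⟨k₀, rfl⟩
      obtain ⟨k, hk⟩ := h1
      rw [(hP.hom.inj _ _ _ _ hk).1])
  have hLT : ∀ l, n₁ < l → LT N A y n₁ (y l) (y (l + 1)) := by
    intro l hl
    refine ⟨l + 2, by omega, fun t ht htb => ?_⟩
    have h1 := v_relocs hP.hom (fun s : Fin 2 => l + (s : ℕ)) (fun s : Fin 2 => n₁ + 1 + (s : ℕ)) t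
      ht (fun j p hj s => by
        have h2 := htb j p hj
        have h3 := s.2
        omega) (fun s s' => by omega)
    rw [← h1]
    congr 1
    funext j
    rcases t j with a | p | ⟨s, k⟩
    · rfl
    · rfl
    · fin_cases s <;> rfl
  obtain ⟨W, hWM, hVW⟩ := exists_max hV
  obtain ⟨z, hz⟩ : ∃ z : ℕ → κ → ℕ, z = fun l => y (n₁ + 1 + l) := ⟨_, rfl⟩
  have hzV : ∀ l, z l ∈ V.cells := by
    intro l
    rw [hz]
    exact hXV ⟨n₁ + 1 + l, by omega, rfl⟩
  have hzW : ∀ l, z l ∈ W.cells := fun l => hVW.1 (hzV l)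
  have hzinc : ∀ l, W.lt (z l) (z (l + 1)) := by
    intro l
    have h1 : V.lt (z l) (z (l + 1)) := by
      rw [hVlt, hz]
      exact hLT _ (by omega)
    exact (hVW.2 _ (hzV _) _ (hzV _)).1 h1
  have hB2 := hB1.sub hGM.1.ok (φ := fun l => n₁ + 1 + l)
    (fun a b hab => Nat.add_lt_add_left hab _)
  have hB3 : Bad N G (fun n => E (φ (n₁ + 1 + n))) (fun n => x (φ (n₁ + 1 + n))) z := by
    rw [hz]
    exact hB2
  have hWok := hWM.1.ok
  have hzlt : ∀ i j, i < j → W.lt (z i) (z j) := by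
    intro i j hij
    obtain ⟨d, rfl⟩ := Nat.exists_eq_add_of_lt hij
    clear hij
    induction d with
    | zero => exact hzinc i
    | succ d ih => exact hWok.trans _ (hzW i) _ (hzW _) _ (hzW _) ih (hzinc _)
  have hzinj : Injective z := by
    intro m n he
    rcases Nat.lt_trichotomy m n with h1 | h1 | h1
    · have h2 := hzlt m n h1
      rw [he] at h2
      exact absurd h2 (hWok.irr _ (hzW _))
    · exact h1
    · have h2 := hzlt n m h1
      rw [he] at h2
      exact absurd h2 (hWok.irr _ (hzW _))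
  by_cases hcom : (Com G W).Infinite
  · have h1 := mx hW hN hGM hWM.1 hcom
    apply Set.infinite_range_of_injective hzinj
    refine h1.subset ?_
    rintro c ⟨l, rfl⟩
    refine ⟨hzW l, ?_⟩
    rintro ⟨-, c', hc', hr⟩
    exact hB3.ncell l c' hc' hr
  · have hcom' : (Com G W).Finite := Set.not_infinite.1 hcom
    have hexc := exc_finite hW hN hGM.1 hWM.1
    have hS : {w | w ∈ W.cells ∧ ∃ k, w k ∈ G.supp}.Finite := by
      refine (hcom'.union (hexc.image Prod.snd)).subset ?_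
      rintro w ⟨hw, k, g, hg, k', hk'⟩
      by_cases h1 : range g = range w
      · exact Or.inl ⟨hw, g, hg, h1⟩
      · exact Or.inr ⟨(g, w), ⟨hg, hw, ⟨g k', ⟨k', rfl⟩, ⟨k, hk'.symm⟩⟩, h1⟩, rfl⟩
    obtain ⟨n₀, hn₀⟩ : ∃ n₀, ∀ w ∈ {w | w ∈ W.cells ∧ ∃ k, w k ∈ G.supp},
        (∃ l, W.lt w (z l)) → W.lt w (z n₀) := by
      let lf : (κ → ℕ) → ℕ := fun c => if h : ∃ l, W.lt c (z l) then h.choose else 0
      obtain ⟨M, hM⟩ := (hS.image lf).bddAbove
      refine ⟨M + 1, fun c hc hl => ?_⟩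
      have h1 : lf c ≤ M := hM ⟨c, hc, rfl⟩
      have h2 : lf c = hl.choose := dif_pos hl
      have h3 := hl.choose_spec
      rw [← h2] at h3
      exact hWok.trans c hc.1 _ (hzW _) _ (hzW _) h3 (hzlt _ _ (by omega))
    have hd : ∀ g ∈ hull W z n₀, ∀ k, g k ∉ G.supp := by
      rintro g ⟨hg1, hg2, hg3⟩ k hk
      have h1 := hn₀ g ⟨hg1, k, hk⟩ hg3
      exact hWok.irr g hg1 (hWok.trans g hg1 _ (hzW _) g hg1 h1 hg2)
    have hadd := add_cut hGM.1 hWM.1 hB3 hzW hzinc n₀ hd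
    have hhull : ∀ g ∈ hull W z n₀, g ∉ G.cells := fun g hg hgG =>
      hd g hg k₀ ⟨g, hgG, k₀, rfl⟩
    have hle : FLe G (cutFam G W (fun n => x (φ (n₁ + 1 + n))) z n₀) := by
      refine ⟨fun c hc => Or.inl hc, fun c hc c' hc' => ⟨fun h1 => Or.inl ⟨hc, hc', h1⟩, ?_⟩⟩
      rintro (⟨-, -, h1⟩ | ⟨h1, -⟩ | ⟨-, h1, -⟩ | ⟨h1, -⟩)
      · exact h1
      · exact absurd hc (hhull c h1)
      · exact absurd hc' (hhull c' h1)
      · exact absurd hc (hhull c h1)
    have h1 : z (n₀ + 1) ∈ G.cells := by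
      refine hGM.2 _ hadd hle (Or.inr ⟨hzW _, hzinc n₀, n₀ + 2, hzinc _⟩)
    exact hB3.ncell _ _ h1 rfl

end Pool.H17.TC
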