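import Pool.Agent.H17.TC.FinList
import Pool.Agent.H17.TC.Rc5

/-!
# The maximal families of a structure which is not wild
-/

set_option autoImplicit false

namespace Pool.H17.TC

open Pool.H22.VC Function Set Pool.H17.TA Pool.H17.TB

variable {r : ℕ} {K ι κ κ' : Type} {N : Col r K ℕ} {A : Set ℕ} {e : ℕ → ι → ℕ}

private theorem meet_fin1 (hW : ¬ Wild N univ) (hN : (range N).Finite) [Finite κ] [Finite κ']
    {F : Fam κ} {G : Fam κ'} (hF : FN N F) (hG : FN N G)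
    (hc : {c | c ∈ F.cells ∧ ∃ c' ∈ G.cells, range c' = range c}.Finite) :
    {c | c ∈ F.cells ∧ ∃ c' ∈ G.cells, (range c ∩ range c').Nonempty}.Finite := by
  have h1 := (exc_finite hW hN hF hG).image Prod.fst
  refine (h1.union hc).subset ?_
  rintro c ⟨h2, c', h3, h4⟩
  by_cases h5 : range c = range c'
  · exact Or.inr ⟨h2, c', h3, h5.symm⟩
  · exact Or.inl ⟨(c, c'), ⟨h2, h3, h4, h5⟩, rfl⟩

/-- the list of maximal families -/
theorem max_list (hW : ¬ Wild N univ) (hN : (range N).Finite) :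
    ∃ (n : ℕ) (m : Fin n → ℕ) (F : ∀ b, Fam (Fin (m b))), (∀ b, FMax N (F b)) ∧
      (∀ b b', b ≠ b' →
        {c | c ∈ (F b).cells ∧ ∃ c' ∈ (F b').cells, (range c ∩ range c').Nonempty}.Finite) ∧
      ∀ (m' : ℕ) (W : Fam (Fin m')), FMax N W → ∃ G : Fam (Fin m'), FMax N G ∧
        (Com G W).Infinite ∧ ∀ c ∈ G.cells, ∀ k, ∃ b, c k ∈ (F b).supp := by
  classical
  choose n F hF1 hF2 hF3 using fun m : ℕ => fin_list (κ := Fin m) hW hN
  let e := (Fintype.equivFin (Σ m : Fin (r + 1), Fin (n m))).symm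
  refine ⟨_, fun q => ((e q).1 : ℕ), fun q => F (e q).1 (e q).2, fun q => hF1 _ _,
    fun q q' hqq => ?_, ?_⟩
  · have key : ∀ i i' : (Σ m : Fin (r + 1), Fin (n m)), i ≠ i' →
        {c | c ∈ (F i.1 i.2).cells ∧ ∃ c' ∈ (F i'.1 i'.2).cells,
          (range c ∩ range c').Nonempty}.Finite := by
      rintro ⟨⟨m, hm⟩, b⟩ ⟨⟨m₁, hm₁⟩, b'⟩ hne
      refine meet_fin1 hW hN (hF1 m b).1 (hF1 m₁ b').1 ?_
      by_cases hmm : m = m₁
      · subst hmm
        have hbb : b' ≠ b := by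
          rintro rfl
          exact hne rfl
        exact hF2 m b' b hbb
      · refine Set.Finite.subset Set.finite_empty ?_
        rintro c ⟨h1, c', h2, h3⟩
        apply hmm
        have e1 : (range c).ncard = m := by
          rw [← Set.image_univ, Set.ncard_image_of_injective _ ((hF1 m b).1.ok.inj c h1),
            Set.ncard_univ, Nat.card_fin]
        have e2 : (range c').ncard = m₁ := by
          rw [← Set.image_univ, Set.ncard_image_of_injective _ ((hF1 m₁ b').1.ok.inj c' h2),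
            Set.ncard_univ, Nat.card_fin]
        rw [← e1, ← e2, h3]
    exact key _ _ fun h => hqq (e.injective h)
  · intro m' W hWm
    have hm' : m' ≤ r := by
      have := hWm.1.card_le
      rwa [Nat.card_fin] at this
    obtain ⟨b, hb⟩ := hF3 m' W hWm
    refine ⟨F m' b, hF1 m' b, hb, fun c hc k => ⟨e.symm ⟨⟨m', Nat.lt_succ_of_le hm'⟩, b⟩, ?_⟩⟩
    have h4 : ∀ i : (Σ m : Fin (r + 1), Fin (n m)), i = ⟨⟨m', Nat.lt_succ_of_le hm'⟩, b⟩ →
        c k ∈ (F i.1 i.2).supp := by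
      rintro i rfl
      exact ⟨c, hc, k, rfl⟩
    exact h4 _ (e.apply_symm_apply _)

/-- The maximal families of a structure which is not wild: finitely many, almost disjoint; outside
their cells all homogeneous block sequences commute; their cells are recognised. -/
theorem max_families (hW : ¬ Wild N univ) (hN : (range N).Finite) :
    ∃ (n : ℕ) (m : Fin n → ℕ) (F : ∀ b, Fam (Fin (m b))), (∀ b, FMax N (F b)) ∧
      (∀ b b', b ≠ b' →
        {c | c ∈ (F b).cells ∧ ∃ c' ∈ (F b').cells, (range c ∩ range c').Nonempty}.Finite) ∧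
      (∀ (A : Set ℕ) (ι : Type) [Finite ι] (e : ℕ → ι → ℕ), A.Finite → Hom N A e →
        (∀ i c b, e i c ∉ (F b).supp) → ∀ (κ κ' : Type) [Finite κ] [Finite κ'] (τ : κ → ι)
          (τ' : κ' → ι), Perp N A e τ τ') ∧
      ∀ b, ∃ C : Set ℕ, C.Finite ∧ ∀ x ∈ (F b).cells, ∀ q : Fin (m b) → ℕ, TyEq N C x q →
        ∃ c ∈ (F b).cells, range c = range q := by
  classical
  obtain ⟨n, m, G, hG1, hG2, hG3⟩ := max_list hW hN
  refine ⟨n, m, G, hG1, hG2, ?_, fun b => reco hW hN (hG1 b)⟩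
  intro A ι _ e hA hH hout κ κ' _ _ τ τ'
  suffices h0 : Perp N A e (id : ι → ι) (id : ι → ι) from h0.comp hH τ τ'
  by_contra hn
  obtain ⟨s, -, hs, -, -⟩ := c1' hW hH hA (τ := (id : ι → ι)) (τ' := (id : ι → ι))
    injective_id injective_id hn
  obtain ⟨m', ⟨E⟩⟩ := Finite.exists_equiv_fin s
  have hca := hs.equiv hH E.symm
  obtain ⟨T, hT⟩ : ∃ T : Fin m' → ι, T = fun k => res s (id : ι → ι) (E.symm k) := ⟨_, rfl⟩
  rw [← hT] at hca
  obtain ⟨k₀⟩ := hca.nonempty hH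
  obtain ⟨A', φ, hAA', hφ, hP, hM⟩ := exists_pure hW hH hA hca
  obtain ⟨x, hx⟩ : ∃ x : ℕ → Fin m' → ℕ, x = fun i k => e (φ i) (T k) := ⟨_, rfl⟩
  rw [← hx] at hP hM
  have hxr : ∀ l l', range (x l) = range (x l') → l = l' := by
    intro l l' h
    have h1 : x l k₀ ∈ range (x l') := by
      rw [← h]
      exact mem_range_self k₀
    obtain ⟨k', hk'⟩ := h1
    exact (hP.hom.inj _ _ _ _ hk').1.symm
  obtain ⟨n₀, hn₀⟩ := g1 hW hN hP hM
  obtain ⟨V, hV, -, hXV, -, -⟩ := hn₀ n₀ le_rfl {c | ∃ l, n₀ < l ∧ x l = c} (by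
    rintro c ⟨l, hl, rfl⟩
    exact VV_self hP hl) (by
    rintro c ⟨l, hl, rfl⟩ c' ⟨l', hl', rfl⟩ h
    rw [hxr l l' h])
  obtain ⟨W, hWm, hVW⟩ := exists_max hV
  obtain ⟨F, hF, hFW, hFe⟩ := hG3 m' W hWm
  have hfin := mx hW hN hF hWm.1 hFW
  have hbad1 : {l | n₀ < l ∧ x l ∉ Com F W}.Finite := by
    refine Set.Finite.of_finite_image (f := x) (hfin.subset ?_) ?_
    · rintro c ⟨l, ⟨hl, hl'⟩, rfl⟩
      exact ⟨hVW.1 (hXV ⟨l, hl, rfl⟩), hl'⟩
    · intro l _ l' _ h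
      exact hxr l l' (by rw [h])
  obtain ⟨l, hl, hl1⟩ : ∃ l, n₀ < l ∧ x l ∈ Com F W := by
    obtain ⟨l, hl1, hl2⟩ := ((Set.Ioi_infinite n₀).sdiff hbad1).nonempty
    refine ⟨l, hl1, ?_⟩
    by_contra h
    exact hl2 ⟨hl1, h⟩
  obtain ⟨-, c', hc', hcr⟩ := hl1
  have h1 : x l k₀ ∈ range c' := by
    rw [hcr]
    exact mem_range_self k₀
  obtain ⟨k, hk⟩ := h1
  obtain ⟨b, hb⟩ := hFe c' hc' k
  rw [hk, hx] at hb
  exact hout _ _ _ hb

end Pool.H17.TC
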