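import Pool.Agent.H17.TB.PCh

/-!
# Subsequences of pure chains ; all atoms pure
-/

set_option autoImplicit false

namespace Pool.H17.TC

open Pool.H22.VC Function Set Pool.H17.TA Pool.H17.TB

variable {r : ℕ} {K ι κ κ' : Type} {N : Col r K ℕ} {A : Set ℕ} {e : ℕ → ι → ℕ}

/-- fewer letters -/
theorem Hom.letters (hH : Hom N A e) {τ : κ → ι} (hτ : Injective τ) :
    Hom N A (fun i k => e i (τ k)) := by
  refine ⟨fun i j c d h => ?_, fun i c => hH.notA _ _, fun φ hφ t ht => ?_⟩
  · obtain ⟨h1, h2⟩ := hH.inj _ _ _ _ h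
    exact ⟨h1, hτ h2⟩
  · have h1 := hH.hom φ hφ (fun j => Sum.map id (fun p : ℕ × κ => (p.1, τ p.2)) (t j)) (by
      intro j a hj
      refine ht j a ?_
      have hj' : Sum.map id (fun p : ℕ × κ => (p.1, τ p.2)) (t j) = Sum.inl a := hj
      rcases htj : t j with a' | p
      · rw [htj] at hj'
        exact congrArg Sum.inl (Sum.inl.inj hj')
      · rw [htj] at hj'
        exact absurd hj' (by simp))
    have e1 : (fun j => TA.ev (fun i k => e i (τ k)) (sh φ (t j))) =
        fun j => TA.ev e (sh φ (Sum.map id (fun p : ℕ × κ => (p.1, τ p.2)) (t j))) := by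
      funext j
      rcases t j with a | p <;> rfl
    have e2 : (fun j => TA.ev (fun i k => e i (τ k)) (t j)) =
        fun j => TA.ev e (Sum.map id (fun p : ℕ × κ => (p.1, τ p.2)) (t j)) := by
      funext j
      rcases t j with a | p <;> rfl
    rw [e1, e2]
    exact h1

private theorem ltr_ext {x : ℕ → κ → ℕ} {A' : Set ℕ} (hAA' : A ⊆ A') {φ : ℕ → ℕ}
    (hφ : StrictMono φ) : Ext A x A' (fun i => x (φ i)) (id : κ → κ) :=
  ⟨hAA', φ, hφ, fun _ _ => rfl⟩

/-- a subsequence of a pure chain, over more constants, is a pure chain (`CA.ext`, letters `id`) -/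
theorem PCh.sub (hW : ¬ Wild N univ) {x : ℕ → κ → ℕ} (hP : PCh N A x) [Finite κ] {A' : Set ℕ}
    (hA' : A'.Finite) (hAA' : A ⊆ A') {φ : ℕ → ℕ} (hφ : StrictMono φ)
    (hH : Hom N A' (fun i => x (φ i))) : PCh N A' (fun i => x (φ i)) := by
  refine ⟨hA', hH, ?_⟩
  exact CA.ext hW hP.hom hP.fin hH hA' (ltr_ext hAA' hφ) hP.ca

/-- the same for the label group (an extension of the subsequence is an extension of `x`,
`Ext.teq`) -/
theorem MG.sub {x : ℕ → κ → ℕ} (hP : PCh N A x) (hG : MG N A x) [Finite κ] {A' : Set ℕ}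
    (hA' : A'.Finite) (hAA' : A ⊆ A') {φ : ℕ → ℕ} (hφ : StrictMono φ)
    (hH : Hom N A' (fun i => x (φ i))) : MG N A' (fun i => x (φ i)) := by
  intro A'' m e' lam hA'' hH' hE σ hσ
  exact hG A'' m e' lam hA'' hH' (Ext.trans (ltr_ext hAA' hφ) hE) σ
    (Ext.teq hP.hom hH (ltr_ext hAA' hφ) hσ)

private theorem ltr_norm (hN : (range N).Finite) (hH : Hom N A e) {A'' : Set ℕ}
    (hA'' : A''.Finite) [Finite ι] {ψ : ℕ → ℕ} (hψ : StrictMono ψ) :
    ∃ (A' : Set ℕ) (χ : ℕ → ℕ), A'.Finite ∧ A'' ⊆ A' ∧ StrictMono χ ∧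
      Hom N A' (fun i => e (ψ (χ i))) := by
  classical
  obtain ⟨k, ⟨E⟩⟩ := Finite.exists_equiv_fin ι
  obtain ⟨A', φ, m, e', χ, h1, h2, h3, h4, h5, -, h7⟩ := norm (N := N) (A := A'') hN hA''
    (fun i => fun c : Fin k => e (ψ i) (E.symm c))
  have h8 : ∀ c : ι, ∃ d : Fin m, χ (E c) = Sum.inr d := by
    intro c
    rcases hc : χ (E c) with a | d
    · exfalso
      have g : ∀ i, e (ψ (φ i)) c = a := by
        intro i
        have g1 := h7 i (E c)
        rw [hc] at g1
        simpa using g1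
      have g2 := (hH.inj _ _ _ _ ((g 0).trans (g 1).symm)).1
      exact absurd (h3.injective (hψ.injective g2)) (by omega)
    · exact ⟨d, rfl⟩
  choose lam hlam using h8
  have h9 : ∀ i c, e' i (lam c) = e (ψ (φ i)) c := by
    intro i c
    have g1 := h7 i (E c)
    rw [hlam] at g1
    simpa using g1.symm
  have hinj : Injective lam := by
    intro c d hcd
    have g1 := h9 0 c
    rw [hcd, h9 0 d] at g1
    exact (hH.inj _ _ _ _ g1).2.symm
  refine ⟨A', φ, h1, h2, h3, ?_⟩
  have g := Hom.letters h4 hinj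
  have e1 : (fun i k => e' i (lam k)) = fun i => e (ψ (φ i)) := by
    funext i c
    exact h9 i c
  rw [e1] at g
  exact g

/-- After passing to a subsequence and adding constants all chain atoms of `e` are pure chains with
minimal label groups. PROOF. There are finitely many `T : Fin n → ι` which are chain atoms
(`n ≤ card ι`, because they are injective); one after the other: `exists_pure` for the present
sequence (`T` is still a chain atom: `CA.ext`); then `norm` with the constants obtained, for the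
whole blocks of the subsequence (all letters are letters; `Hom.letters`), so that the whole
subsequence is homogeneous; `PCh.sub`, `MG.sub` for all `T` already treated. -/
theorem pure_all (hW : ¬ Wild N univ) (hN : (range N).Finite) (hH : Hom N A e) (hA : A.Finite)
    [Finite ι] :
    ∃ (A' : Set ℕ) (φ : ℕ → ℕ), A'.Finite ∧ A ⊆ A' ∧ StrictMono φ ∧
      Hom N A' (fun i => e (φ i)) ∧ ∀ (n : ℕ) (T : Fin n → ι), CA N A e T →
        PCh N A' (fun i k => e (φ i) (T k)) ∧ MG N A' (fun i k => e (φ i) (T k)) := by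
  classical
  have hfin : {p : Σ n : ℕ, (Fin n → ι) | CA N A e p.2}.Finite := by
    refine Set.Finite.subset (Set.Finite.biUnion (Set.finite_Iic (Nat.card ι))
      (fun n _ => Set.finite_range (fun T : Fin n → ι => (⟨n, T⟩ : Σ n : ℕ, (Fin n → ι))))) ?_
    rintro ⟨n, T⟩ hT
    have hT' : CA N A e T := hT
    have hn : n ≤ Nat.card ι := by
      have := Nat.card_le_card_of_injective T hT'.inj
      simpa using this
    exact Set.mem_biUnion (show n ∈ Set.Iic (Nat.card ι) from hn) ⟨T, rfl⟩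
  have key : ∀ S : Finset (Σ n : ℕ, (Fin n → ι)), (∀ p ∈ S, CA N A e p.2) →
      ∃ (A' : Set ℕ) (φ : ℕ → ℕ), A'.Finite ∧ A ⊆ A' ∧ StrictMono φ ∧
        Hom N A' (fun i => e (φ i)) ∧ ∀ p ∈ S,
          PCh N A' (fun i k => e (φ i) (p.2 k)) ∧ MG N A' (fun i k => e (φ i) (p.2 k)) := by
    intro S
    induction S using Finset.induction_on with
    | empty =>
      intro _
      exact ⟨A, id, hA, Subset.rfl, strictMono_id, hH, fun p hp => absurd hp
        (Finset.notMem_empty p)⟩
    | insert p S hpS ih =>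
      intro hS
      obtain ⟨A', φ, h1, h2, h3, h4, h5⟩ := ih (fun q hq => hS q (Finset.mem_insert_of_mem hq))
      have hca : CA N A' (fun i => e (φ i)) p.2 :=
        CA.ext hW hH hA h4 h1 (ltr_ext h2 h3) (hS p (Finset.mem_insert_self p S))
      obtain ⟨A'', ψ, g1, g2, g3, g4⟩ := exists_pure hW h4 h1 hca
      obtain ⟨B, χ, k1, k2, k3, k4⟩ := ltr_norm hN h4 g3.fin g2
      refine ⟨B, fun i => φ (ψ (χ i)), k1, (h2.trans g1).trans k2, h3.comp (g2.comp k3), k4, ?_⟩
      intro q hq
      have hq' : CA N A e q.2 := hS q hq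
      have hHq : Hom N B (fun i k => e (φ (ψ (χ i))) (q.2 k)) := Hom.letters k4 hq'.inj
      rcases Finset.mem_insert.1 hq with rfl | hq2
      · exact ⟨PCh.sub hW g3 k1 k2 k3 hHq, MG.sub g3 g4 k1 k2 k3 hHq⟩
      · obtain ⟨l1, l2⟩ := h5 q hq2
        exact ⟨PCh.sub hW l1 k1 (g1.trans k2) (g2.comp k3) hHq,
          MG.sub l1 l2 k1 (g1.trans k2) (g2.comp k3) hHq⟩
  obtain ⟨A', φ, h1, h2, h3, h4, h5⟩ := key hfin.toFinset (fun p hp => hfin.mem_toFinset.1 hp)
  refine ⟨A', φ, h1, h2, h3, h4, fun n T hT => ?_⟩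
  exact h5 ⟨n, T⟩ (hfin.mem_toFinset.2 hT)

end Pool.H17.TC
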