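import Pool.Agent.H17.TC.Exc

/-!
# L2 : deep cells
-/

set_option autoImplicit false

namespace Pool.H17.TC

open Pool.H22.VC Function Set Pool.H17.TA Pool.H17.TB

variable {r : ℕ} {K ι κ κ' : Type} {N : Col r K ℕ}

/-- `k` has at least `n` cells on both sides -/
def Deep (G : Fam κ') (n : ℕ) (k : κ' → ℕ) : Prop :=
  ∃ Lo Up : Finset (κ' → ℕ), n ≤ Lo.card ∧ n ≤ Up.card ∧
    (∀ c ∈ Lo, c ∈ G.cells ∧ G.lt c k) ∧ ∀ c ∈ Up, c ∈ G.cells ∧ G.lt k c

/-- the cells of a family -/
private structure CL (F : Fam κ) where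
  val : κ → ℕ
  property : val ∈ F.cells

private theorem CL.inj {F : Fam κ} : Injective (CL.val (F := F)) := by
  rintro ⟨a, ha⟩ ⟨b, hb⟩ h
  cases h
  rfl

/-- increasing sequences in finite sets of cells -/
private theorem exists_inc {F : Fam κ} (h : F.OK) (S : Finset (κ → ℕ)) (hS : ∀ c ∈ S, c ∈ F.cells)
    {p : ℕ} (hp : p ≤ S.card) :
    ∃ lo : Fin p → κ → ℕ, (∀ s, lo s ∈ S) ∧ ∀ s s', s < s' → F.lt (lo s) (lo s') := by
  classical
  let i0 : LinearOrder (CL F) :=
    { le := fun c c' => c = c' ∨ F.lt c.1 c'.1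
      lt := fun c c' => F.lt c.1 c'.1
      le_refl := fun c => Or.inl rfl
      le_trans := by
        rintro a b c (rfl | h1) (rfl | h2)
        · exact Or.inl rfl
        · exact Or.inr h2
        · exact Or.inr h1
        · exact Or.inr (h.trans _ a.2 _ b.2 _ c.2 h1 h2)
      lt_iff_le_not_ge := by
        intro a b
        constructor
        · intro h1
          refine ⟨Or.inr h1, ?_⟩
          rintro (rfl | h2)
          · exact h.irr _ b.2 h1
          · exact h.irr _ a.2 (h.trans _ a.2 _ b.2 _ a.2 h1 h2)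
        · rintro ⟨rfl | h1, h2⟩
          · exact absurd (Or.inl rfl) h2
          · exact h1
      le_antisymm := by
        rintro a b (rfl | h1) (h2 | h2)
        · rfl
        · rfl
        · exact h2.symm
        · exact absurd (h.trans _ a.2 _ b.2 _ a.2 h1 h2) (h.irr _ a.2)
      le_total := by
        intro a b
        by_cases hab : a = b
        · exact Or.inl (Or.inl hab)
        · rcases h.total _ a.2 _ b.2 (fun e => hab (CL.inj e)) with h1 | h1
          · exact Or.inl (Or.inr h1)
          · exact Or.inr (Or.inr h1)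
      toDecidableLE := Classical.decRel _ }
  let S' : Finset (CL F) := S.attach.map ⟨fun c => ⟨c.1, hS c.1 c.2⟩, by
    intro a b hab
    exact Subtype.ext (congrArg CL.val hab)⟩
  have hS' : S'.card = S.card := by simp [S']
  have hmem : ∀ c ∈ S', c.val ∈ S := by
    intro c hc
    obtain ⟨b, -, rfl⟩ := Finset.mem_map.1 hc
    exact b.2
  refine ⟨fun s => (S'.orderEmbOfCardLe (hS'.symm ▸ hp) s).val,
    fun s => hmem _ (Finset.orderEmbOfCardLe_mem _ _ _), fun s s' hs => ?_⟩
  exact (S'.orderEmbOfCardLe (hS'.symm ▸ hp)).lt_iff_lt.2 hs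

private theorem exists_inc' {F : Fam κ} (h : F.OK) (Y : Set (κ → ℕ)) (hY : Y ⊆ F.cells)
    (hi : Y.Infinite) (p : ℕ) :
    ∃ d : Fin p → κ → ℕ, (∀ s, d s ∈ Y) ∧ ∀ s s', s < s' → F.lt (d s) (d s') := by
  obtain ⟨S, hS, hc⟩ := hi.exists_subset_card_eq p
  obtain ⟨d, h1, h2⟩ := exists_inc h S (fun c hc => hY (hS hc)) hc.ge
  exact ⟨d, fun s => hS (h1 s), h2⟩

/-- the cells meeting a finite set of points -/
private theorem ol_meet {F : Fam κ} (h : F.OK) {B : Set ℕ} (hB : B.Finite) :
    {c | c ∈ F.cells ∧ ¬ Disjoint (range c) B}.Finite ∧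
      {c | c ∈ F.cells ∧ ¬ Disjoint (range c) B}.ncard ≤ B.ncard := by
  classical
  have key : ∀ c, c ∈ {c | c ∈ F.cells ∧ ¬ Disjoint (range c) B} → ∃ k, c k ∈ B := by
    rintro c ⟨-, hc⟩
    rw [Set.not_disjoint_iff] at hc
    obtain ⟨x, ⟨k, rfl⟩, hx⟩ := hc
    exact ⟨k, hx⟩
  let g : (κ → ℕ) → ℕ := fun c => if hc : ∃ k, c k ∈ B then c hc.choose else 0
  have hg : ∀ c ∈ {c | c ∈ F.cells ∧ ¬ Disjoint (range c) B}, g c ∈ B ∧ ∃ k, g c = c k := by
    intro c hc
    have h1 := key c hc
    show (if hc : ∃ k, c k ∈ B then c hc.choose else 0) ∈ B ∧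
      ∃ k, (if hc : ∃ k, c k ∈ B then c hc.choose else 0) = c k
    rw [dif_pos h1]
    exact ⟨h1.choose_spec, _, rfl⟩
  have hinj : InjOn g {c | c ∈ F.cells ∧ ¬ Disjoint (range c) B} := by
    intro c hc c' hc' he
    obtain ⟨k, hk⟩ := (hg c hc).2
    obtain ⟨k', hk'⟩ := (hg c' hc').2
    exact h.disj c hc.1 c' hc'.1 k k' (by rw [← hk, ← hk', he])
  have hmaps : MapsTo g {c | c ∈ F.cells ∧ ¬ Disjoint (range c) B} B := fun c hc => (hg c hc).1
  exact ⟨Set.Finite.of_injOn hmaps hinj hB, Set.ncard_le_ncard_of_injOn g hmaps hinj hB⟩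

/-- the map `f a ↦ f' a`, the identity elsewhere -/
private noncomputable def swf (f f' : κ → ℕ) (x : ℕ) : ℕ :=
  open Classical in if h : ∃ a, f a = x then f' h.choose else x

private theorem swf_cell {f f' : κ → ℕ} (hf : Injective f) (a : κ) : swf f f' (f a) = f' a := by
  classical
  have h : ∃ b, f b = f a := ⟨a, rfl⟩
  unfold swf
  rw [dif_pos h, hf h.choose_spec]

private theorem swf_out {f f' : κ → ℕ} {x : ℕ} (h : ∀ a, f a ≠ x) : swf f f' x = x := by
  classical
  unfold swf
  rw [dif_neg (fun h' => h h'.choose h'.choose_spec)]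

/-- exchanging a cell which is only partially used with a cell which is not used -/
private theorem sw_inv {F : Fam κ} (hF : FN N F) {f f' : κ → ℕ} (hf : f ∈ F.cells)
    (hf' : f' ∈ F.cells) (hff : f ≠ f') {t : Fin r → ℕ} (h1 : ∃ a, ∀ j, t j ≠ f a)
    (h2 : ∀ j a, t j ≠ f' a) : N (fun j => swf f f' (t j)) = N t := by
  classical
  have hne : Nonempty κ := hF.ok.nonempty
  let φ : (κ → ℕ) → (κ → ℕ) := fun c => if c = f then f' else c
  have hφ1 : φ f = f' := if_pos rfl
  have hφ2 : ∀ c, c ≠ f → φ c = c := fun c hc => if_neg hc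
  have hnu : ¬ Used F t f' := by
    rintro ⟨-, j, a, hj⟩
    exact h2 j a hj
  have hnf : ¬ Full F t f := by
    rintro ⟨-, h⟩
    obtain ⟨a, ha⟩ := h1
    obtain ⟨j, hj⟩ := h a
    exact ha j hj
  have hmv : Mv F t φ := by
    refine ⟨fun c hc => ?_, fun c c' hc hc' he => ?_⟩
    · by_cases h : c = f
      · rw [h, hφ1]
        exact hf'
      · rw [hφ2 c h]
        exact hc.1
    · by_cases h : c = f
      · by_cases h' : c' = f
        · rw [h, h']
        · rw [h, hφ1, hφ2 c' h'] at he
          exact absurd (he ▸ hc') hnu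
      · by_cases h' : c' = f
        · rw [h', hφ1, hφ2 c h] at he
          exact absurd (he ▸ hc) hnu
        · rw [hφ2 c h, hφ2 c' h'] at he
          exact he
  have hmon : Mon F t φ := by
    intro c c' hc hc' hlt
    rw [hφ2 c (fun e => hnf (e ▸ hc)), hφ2 c' (fun e => hnf (e ▸ hc'))]
    exact hlt
  rw [← hF.free t φ hmv hmon]
  congr 1
  funext j
  by_cases hj : ∃ a, f a = t j
  · obtain ⟨a, ha⟩ := hj
    rw [← ha, swf_cell (hF.ok.inj f hf), Fam.mv_cell hF.ok φ hf a, hφ1]
  · push Not at hj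
    rw [swf_out hj]
    symm
    apply Fam.mv_fix hF.ok
    rintro c _ ⟨k, hk⟩
    apply hφ2
    rintro rfl
    exact hj k hk

/-- moves of cells in templates with constants inside the family, in cells which are not full -/
private theorem ap_mv {G : Fam κ} (hG : FN N G) {p : ℕ} (T : Fin r → ℕ ⊕ (Fin p × κ))
    (C D : Fin p → κ → ℕ)
    (hC : ∀ j s b, T j = Sum.inr (s, b) → C s ∈ G.cells ∧ D s ∈ G.cells)
    (hCi : ∀ j s b j' s' b', T j = Sum.inr (s, b) → T j' = Sum.inr (s', b') → C s = C s' → s = s')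
    (hDi : ∀ j s b j' s' b', T j = Sum.inr (s, b) → T j' = Sum.inr (s', b') → D s = D s' → s = s')
    (hcon : ∀ j a, T j = Sum.inl a → ∀ g ∈ G.cells, ∀ b, g b = a →
      (∀ j' s b', T j' = Sum.inr (s, b') → g ≠ C s ∧ g ≠ D s) ∧ ∃ b', ∀ j', ap T C j' ≠ g b')
    (ho : ∀ s s', (∀ k, ∃ j, T j = Sum.inr (s, k)) → (∀ k, ∃ j, T j = Sum.inr (s', k)) →
      G.lt (C s) (C s') → G.lt (D s) (D s')) : N (ap T C) = N (ap T D) := by
  classical
  have hne : Nonempty κ := hG.ok.nonempty
  let U : Fin p → Prop := fun s => ∃ j b, T j = Sum.inr (s, b)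
  let φ : (κ → ℕ) → (κ → ℕ) := fun g => if h : ∃ s, U s ∧ C s = g then D h.choose else g
  have hφ1 : ∀ s, U s → φ (C s) = D s := by
    intro s hs
    have hex : ∃ s', U s' ∧ C s' = C s := ⟨s, hs, rfl⟩
    show (if h : ∃ s', U s' ∧ C s' = C s then D h.choose else C s) = _
    rw [dif_pos hex]
    obtain ⟨⟨j, b, hj⟩, he⟩ := hex.choose_spec
    obtain ⟨j', b', hj'⟩ := hs
    rw [hCi j _ b j' s b' hj hj' he]
  have hφ2 : ∀ g, (∀ s, U s → g ≠ C s) → φ g = g := by
    intro g hg
    show (if h : ∃ s, U s ∧ C s = g then D h.choose else g) = g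
    rw [dif_neg]
    rintro ⟨s, hs, he⟩
    exact hg s hs he.symm
  have hapc : ∀ j a, T j = Sum.inl a → ap T C j = a := by
    intro j a h
    unfold ap
    rw [h]
    rfl
  have hapi : ∀ j s b, T j = Sum.inr (s, b) → ap T C j = C s b := by
    intro j s b h
    unfold ap
    rw [h]
    rfl
  have hapi' : ∀ j s b, T j = Sum.inr (s, b) → ap T D j = D s b := by
    intro j s b h
    unfold ap
    rw [h]
    rfl
  -- used cells
  have hcase : ∀ g, Used G (ap T C) g → (∃ s, U s ∧ g = C s) ∨
      ((∀ s, U s → g ≠ C s ∧ g ≠ D s) ∧ ¬ Full G (ap T C) g) := by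
    rintro g ⟨hg, j, k, hj⟩
    rcases hT : T j with a | ⟨s, b⟩
    · right
      rw [hapc j a hT] at hj
      obtain ⟨h1, b', h2⟩ := hcon j a hT g hg k hj.symm
      refine ⟨fun s hs => ?_, ?_⟩
      · obtain ⟨j', b'', hj'⟩ := hs
        exact h1 j' s b'' hj'
      · rintro ⟨-, h3⟩
        obtain ⟨j', hj'⟩ := h3 b'
        exact h2 j' hj'
    · left
      rw [hapi j s b hT] at hj
      exact ⟨s, ⟨j, b, hT⟩, (hG.ok.disj _ (hC j s b hT).1 g hg b k hj).symm⟩
  have hmv : Mv G (ap T C) φ := by
    refine ⟨fun g hg => ?_, fun g g' hg hg' he => ?_⟩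
    · rcases hcase g hg with ⟨s, hs, rfl⟩ | ⟨h1, -⟩
      · rw [hφ1 s hs]
        obtain ⟨j, b, hj⟩ := hs
        exact (hC j s b hj).2
      · rw [hφ2 g fun s hs => (h1 s hs).1]
        exact hg.1
    · rcases hcase g hg with ⟨s, hs, rfl⟩ | ⟨h1, -⟩
      · rcases hcase g' hg' with ⟨s', hs', rfl⟩ | ⟨h1', -⟩
        · rw [hφ1 s hs, hφ1 s' hs'] at he
          obtain ⟨j, b, hj⟩ := hs
          obtain ⟨j', b', hj'⟩ := hs'
          rw [hDi j s b j' s' b' hj hj' he]
        · rw [hφ1 s hs, hφ2 g' fun s hs => (h1' s hs).1] at he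
          exact absurd he.symm (h1' s hs).2
      · rcases hcase g' hg' with ⟨s', hs', rfl⟩ | ⟨h1', -⟩
        · rw [hφ1 s' hs', hφ2 g fun s hs => (h1 s hs).1] at he
          exact absurd he (h1 s' hs').2
        · rw [hφ2 g fun s hs => (h1 s hs).1, hφ2 g' fun s hs => (h1' s hs).1] at he
          exact he
  have hfp : ∀ g, Full G (ap T C) g → ∃ s, U s ∧ g = C s ∧ ∀ k, ∃ j, T j = Sum.inr (s, k) := by
    intro g hg
    have hu : Used G (ap T C) g := ⟨hg.1, by
      obtain ⟨j, hj⟩ := hg.2 (Classical.arbitrary κ)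
      exact ⟨j, _, hj⟩⟩
    rcases hcase g hu with ⟨s, hs, rfl⟩ | ⟨-, h2⟩
    · refine ⟨s, hs, rfl, fun k => ?_⟩
      obtain ⟨j, hj⟩ := hg.2 k
      rcases hT : T j with a | ⟨s', b⟩
      · rw [hapc j a hT] at hj
        obtain ⟨j', b', hj'⟩ := hs
        exact absurd rfl ((hcon j a hT _ hg.1 k hj.symm).1 j' s b' hj').1
      · rw [hapi j s' b hT] at hj
        have h1 := hG.ok.disj _ (hC j s' b hT).1 _ hg.1 b k hj
        obtain ⟨j', b', hj'⟩ := hs
        have h2 := hCi j s' b j' s b' hT hj' h1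
        subst h2
        have h3 : b = k := hG.ok.inj _ hg.1 hj
        subst h3
        exact ⟨j, hT⟩
    · exact absurd hg h2
  have hmon : Mon G (ap T C) φ := by
    intro g g' hg hg' hlt
    obtain ⟨s, hs, rfl, h1⟩ := hfp g hg
    obtain ⟨s', hs', rfl, h1'⟩ := hfp g' hg'
    rw [hφ1 s hs, hφ1 s' hs']
    exact ho s s' h1 h1' hlt
  rw [← hG.free _ φ hmv hmon]
  congr 1
  funext j
  rcases hT : T j with a | ⟨s, b⟩
  · rw [hapc j a hT]
    have e : ap T D j = a := by
      unfold ap
      rw [hT]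
      rfl
    rw [e]
    apply Fam.mv_fix hG.ok
    rintro g hg ⟨k, hk⟩
    refine hφ2 g fun s hs => ?_
    obtain ⟨j', b', hj'⟩ := hs
    exact ((hcon j a hT g hg k hk).1 j' s b' hj').1
  · rw [hapi j s b hT, hapi' j s b hT, Fam.mv_cell hG.ok φ (hC j s b hT).1 b, hφ1 s ⟨j, b, hT⟩]

/-- A fresh cell of `F`: disjoint from a finite set `B` of points and not exceptional with respect to
`G` (`exc_finite`). -/
theorem exists_fresh (hW : ¬ Wild N univ) (hN : (range N).Finite) [Finite κ] [Finite κ']
    {F : Fam κ} {G : Fam κ'} (hF : FN N F) (hG : FN N G) (B : Set ℕ) (hB : B.Finite) :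
    ∃ f ∈ F.cells, Disjoint (range f) B ∧
      ((∃ g ∈ G.cells, range g = range f) ∨ Disjoint (range f) G.supp) := by
  have h1 := (exc_finite hW hN hF hG).image Prod.fst
  have h2 := (ol_meet hF.ok hB).1
  obtain ⟨f, hf, hf'⟩ := (hF.ok.inf.sdiff (h1.union h2)).nonempty
  have h3 : ¬ ∃ g ∈ G.cells, (range f ∩ range g).Nonempty ∧ range f ≠ range g := by
    rintro ⟨g, hg, h4, h5⟩
    exact hf' (Or.inl ⟨(f, g), ⟨hf, hg, h4, h5⟩, rfl⟩)
  refine ⟨f, hf, ?_, ?_⟩
  · by_contra h4
    exact hf' (Or.inr ⟨hf, h4⟩)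
  · by_cases h4 : Disjoint (range f) G.supp
    · exact Or.inr h4
    · left
      rw [Set.not_disjoint_iff] at h4
      obtain ⟨x, hx, g, hg, k, hk⟩ := h4
      refine ⟨g, hg, ?_⟩
      by_contra h5
      exact h3 ⟨g, hg, ⟨x, hx, k, hk⟩, fun e => h5 e.symm⟩

/-- Change of constants. Let `T` be a template with constants outside `G.supp` (as in `Jmp`), `f` a
cell of `F`, not all of whose points are constants of `T`. Let `f'` be a fresh cell of `F`, disjoint
from the constants of `T`, and `T'` the template obtained by replacing the constants `f a` by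
`f' a`. Then `T` and `T'` have the same colours on all families of cells of `G` which do not meet
`f`, `f'`. (The move exchanging `f` and `f'`: in the tuple `ap T c` the cell `f` is used only
partially and `f'` is not used.) -/
theorem change_const [Finite κ] {F : Fam κ} {G : Fam κ'} (hF : FN N F) {p : ℕ}
    (T T' : Fin r → ℕ ⊕ (Fin p × κ')) {f f' : κ → ℕ} (hf : f ∈ F.cells) (hf' : f' ∈ F.cells)
    (hff : f ≠ f')
    (hne : ∃ a, ∀ j, T j ≠ Sum.inl (f a)) (hfr : ∀ j a, T j ≠ Sum.inl (f' a))
    (hT1 : ∀ j a, T j = Sum.inl (f a) → T' j = Sum.inl (f' a))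
    (hT2 : ∀ j, (∀ a, T j ≠ Sum.inl (f a)) → T' j = T j)
    (c : Fin p → κ' → ℕ) (hc : ∀ s k a, c s k ≠ f a ∧ c s k ≠ f' a) :
    N (ap T c) = N (ap T' c) := by
  have h1 : ∃ a, ∀ j, ap T c j ≠ f a := by
    obtain ⟨a, ha⟩ := hne
    refine ⟨a, fun j => ?_⟩
    unfold ap
    rcases hT : T j with b | ⟨s, b⟩
    · intro h
      exact ha j (by rw [hT]; exact congrArg Sum.inl h)
    · exact (hc s b a).1
  have h2 : ∀ j a, ap T c j ≠ f' a := by
    intro j a
    unfold ap
    rcases hT : T j with b | ⟨s, b⟩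
    · intro h
      exact hfr j a (by rw [hT]; exact congrArg Sum.inl h)
    · exact (hc s b a).2
  rw [← sw_inv hF hf hf' hff h1 h2]
  congr 1
  funext j
  unfold ap
  rcases hT : T j with b | ⟨s, b⟩
  · by_cases hb : ∃ a, f a = b
    · obtain ⟨a, ha⟩ := hb
      rw [hT1 j a (by rw [hT, ha])]
      show swf f f' b = f' a
      rw [← ha, swf_cell (hF.ok.inj f hf)]
    · push Not at hb
      rw [hT2 j (fun a h => hb a (by rw [hT] at h; exact (Sum.inl.inj h).symm)), hT]
      exact swf_out hb
  · rw [hT2 j (fun a h => by rw [hT] at h; cases h), hT]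
    exact swf_out fun a h => (hc s b a).1 h.symm

/-- L2. A cell `f` of `F` which meets a deep cell `k` of `G` is contained in it. PROOF. Suppose
`f a₀ ∉ range k`. `Jmp` for `G`: `T`, `i`, `i'`, `ε ≠ ε'`. The constants of `T` are outside `G.supp`, so
not all points of `f` are constants of `T` (`f` meets `k`). (1) Let `f'` be fresh, disjoint from the
constants of `T`, from `f`, `k`, and all `c ∈ Lo ∪ Up`. `T'` = `T` with constants changed from `f` to
`f'`. For all increasing `c` in `G` not meeting `f`, `f'`: `N (ap T' c) = ε`, and `ε'` for the swapped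
one (`change_const`). (2) Choose among the cells of `Lo` (below `k`) and `Up` not meeting `f` (at most
`card κ` cells of `G` meet `f`): `c_0 < … < c_{i-1} < h₁ < k < h₂ < c_{i+2} < …`. For `t₁` = (places:
`i` at `k`, `i + 1` at `h₂`) and `t₂` = (`i` at `k`, `i + 1` at `h₁`) we have `N (ap T' t₁) = ε`,
`N (ap T' t₂) = ε'`: move everything in `G` to cells not meeting `f`, `f'` (the constants of `T'` in `f'`
are outside `G.supp`, or part of a cell `g'` of `G` with the range of `f'`, which is used only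
partially and stays where it is). (3) Let `f''` be another fresh cell of `F`, disjoint from everything.
The move exchanging `f` and `f''` in `F`: in the two tuples the used points of `f` are those in
`range k`, not all of `f`; so the colours do not change, and `k` is replaced by `k'`, whose points
are those of `k` outside `f` and points of `f''`. (4) Now move `h₂` to `h₁` in `G` in the first
tuple: the only full cells of `G` are the `c_s` and `h₂` (`k` is used partially, the points in `f''`
are outside `G.supp` or part of a cell not fully used). The result is the second tuple. So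
`ε = ε'`. -/
theorem ol (hW : ¬ Wild N univ) (hN : (range N).Finite) [Finite κ] [Finite κ'] {F : Fam κ}
    {G : Fam κ'} (hF : FN N F) (hG : FN N G) {k : κ' → ℕ} (hk : k ∈ G.cells)
    (hd : Deep G (r + Nat.card κ + 1) k) {f : κ → ℕ} (hf : f ∈ F.cells)
    (hm : (range f ∩ range k).Nonempty) : range f ⊆ range k := by
  classical
  by_contra hsub
  obtain ⟨_, ⟨a0, rfl⟩, ha0⟩ := not_subset.1 hsub
  obtain ⟨_, ⟨a1, rfl⟩, ⟨b1, hb1⟩⟩ := hm
  obtain ⟨p, T, i, i', ε, ε', hJ⟩ := exists_jmp hG
  have hfi := hF.ok.inj f hf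
  have hnk : Nonempty κ' := hG.ok.nonempty
  obtain ⟨Lo, Up, hLo, hUp, hLo', hUp'⟩ := hd
  -- constants of `T`
  let B0 : Set ℕ := {x | ∃ j, T j = Sum.inl x}
  have hB0 : B0.Finite := by
    refine (finite_range (fun j => Sum.elim id (fun _ => 0) (T j))).subset ?_
    rintro x ⟨j, hj⟩
    exact ⟨j, by simp only; rw [hj]; rfl⟩
  let B1 : Set ℕ := B0 ∪ (range f ∪ (range k ∪ ⋃ c ∈ (Lo ∪ Up : Finset (κ' → ℕ)), range c))
  have hB1 : B1.Finite := by
    refine hB0.union ((finite_range f).union ((finite_range k).union ?_))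
    exact Set.Finite.biUnion (Finset.finite_toSet _) fun c _ => finite_range c
  obtain ⟨f1, hf1, hd1, hg1⟩ := exists_fresh hW hN hF hG B1 hB1
  obtain ⟨f2, hf2, hd2, hg2⟩ := exists_fresh hW hN hF hG (B1 ∪ range f1)
    (hB1.union (finite_range f1))
  have n1 : ∀ a x, x ∈ B1 → f1 a ≠ x := fun a x hx e =>
    Set.disjoint_left.1 hd1 ⟨a, rfl⟩ (e ▸ hx)
  have n2 : ∀ a x, x ∈ B1 → f2 a ≠ x := fun a x hx e =>
    Set.disjoint_left.1 hd2 ⟨a, rfl⟩ (Or.inl (e ▸ hx))
  have n21 : ∀ a b, f2 a ≠ f1 b := fun a b e =>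
    Set.disjoint_left.1 hd2 ⟨a, rfl⟩ (Or.inr (e ▸ ⟨b, rfl⟩))
  have mf : ∀ a, f a ∈ B1 := fun a => Or.inr (Or.inl ⟨a, rfl⟩)
  have mk : ∀ b, k b ∈ B1 := fun b => Or.inr (Or.inr (Or.inl ⟨b, rfl⟩))
  have mT : ∀ j x, T j = Sum.inl x → x ∈ B1 := fun j x h => Or.inl ⟨j, h⟩
  have mc : ∀ c, (c ∈ Lo ∨ c ∈ Up) → ∀ b, c b ∈ B1 := fun c hc b =>
    Or.inr (Or.inr (Or.inr (mem_biUnion (Finset.mem_coe.2 (Finset.mem_union.2 hc)) ⟨b, rfl⟩)))
  have hff1 : f ≠ f1 := fun e => n1 a0 (f a0) (mf a0) (by rw [e])
  have hff2 : f ≠ f2 := fun e => n2 a0 (f a0) (mf a0) (by rw [e])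
  -- cells of `Lo`, `Up` not meeting `f`
  have hmeet := ol_meet hG.ok (finite_range f)
  have hcard : ∀ S : Finset (κ' → ℕ), (∀ c ∈ S, c ∈ G.cells) → r + Nat.card κ + 1 ≤ S.card →
      r ≤ (S.filter fun c => Disjoint (range c) (range f)).card := by
    intro S hS hc
    have h1 : (S.filter fun c => ¬ Disjoint (range c) (range f)).card ≤ Nat.card κ := by
      have h2 : ((S.filter fun c => ¬ Disjoint (range c) (range f) : Finset (κ' → ℕ)) :
          Set (κ' → ℕ)) ⊆ {c | c ∈ G.cells ∧ ¬ Disjoint (range c) (range f)} := by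
        intro c hc
        rw [Finset.mem_coe, Finset.mem_filter] at hc
        exact ⟨hS c hc.1, hc.2⟩
      have h3 := Set.ncard_le_ncard h2 hmeet.1
      rw [Set.ncard_coe_finset] at h3
      refine h3.trans (hmeet.2.trans ?_)
      rw [← Set.image_univ]
      exact (Set.ncard_image_le finite_univ).trans (le_of_eq (Set.ncard_univ κ))
    have h4 := Finset.card_filter_add_card_filter_not (s := S)
      (fun c => Disjoint (range c) (range f))
    omega
  obtain ⟨lo, hlo1, hlo2⟩ := exists_inc hG.ok (Lo.filter fun c => Disjoint (range c) (range f))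
    (fun c hc => (hLo' c (Finset.mem_filter.1 hc).1).1)
    (hJ.le.trans (hcard Lo (fun c hc => (hLo' c hc).1) hLo))
  obtain ⟨up, hup1, hup2⟩ := exists_inc hG.ok (Up.filter fun c => Disjoint (range c) (range f))
    (fun c hc => (hUp' c (Finset.mem_filter.1 hc).1).1)
    (hJ.le.trans (hcard Up (fun c hc => (hUp' c hc).1) hUp))
  have lo_mem : ∀ s, lo s ∈ Lo := fun s => (Finset.mem_filter.1 (hlo1 s)).1
  have up_mem : ∀ s, up s ∈ Up := fun s => (Finset.mem_filter.1 (hup1 s)).1
  have lo_f : ∀ s b a, lo s b ≠ f a := fun s b a e =>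
    Set.disjoint_left.1 (Finset.mem_filter.1 (hlo1 s)).2 ⟨b, rfl⟩ ⟨a, e.symm⟩
  have up_f : ∀ s b a, up s b ≠ f a := fun s b a e =>
    Set.disjoint_left.1 (Finset.mem_filter.1 (hup1 s)).2 ⟨b, rfl⟩ ⟨a, e.symm⟩
  have lo_c : ∀ s, lo s ∈ G.cells := fun s => (hLo' _ (lo_mem s)).1
  have up_c : ∀ s, up s ∈ G.cells := fun s => (hUp' _ (up_mem s)).1
  have lo_k : ∀ s, G.lt (lo s) k := fun s => (hLo' _ (lo_mem s)).2
  have up_k : ∀ s, G.lt k (up s) := fun s => (hUp' _ (up_mem s)).2
  have lo_up : ∀ s s', G.lt (lo s) (up s') := fun s s' =>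
    hG.ok.trans _ (lo_c s) _ hk _ (up_c s') (lo_k s) (up_k s')
  have hii : (i' : ℕ) = (i : ℕ) + 1 := hJ.succ
  -- the two configurations
  let C1 : Fin p → κ' → ℕ := fun s => if (s : ℕ) < i then lo s else if s = i then k else up s
  let C2 : Fin p → κ' → ℕ := fun s => if (s : ℕ) ≤ i then lo s else if s = i' then k else up s
  have C1lo : ∀ s : Fin p, (s : ℕ) < i → C1 s = lo s := fun s hs => if_pos hs
  have C1k : C1 i = k := by
    show (if ((i : ℕ)) < i then lo i else if i = i then k else up i) = k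
    rw [if_neg (lt_irrefl _), if_pos rfl]
  have C1up : ∀ s : Fin p, (i : ℕ) < s → C1 s = up s := by
    intro s hs
    show (if ((s : ℕ)) < i then lo s else if s = i then k else up s) = up s
    rw [if_neg (by omega), if_neg (fun e => by rw [e] at hs; exact lt_irrefl _ hs)]
  have C2lo : ∀ s : Fin p, (s : ℕ) ≤ i → C2 s = lo s := fun s hs => if_pos hs
  have C2k : C2 i' = k := by
    show (if ((i' : ℕ)) ≤ i then lo i' else if i' = i' then k else up i') = k
    rw [if_neg (by omega), if_pos rfl]
  have C2up : ∀ s : Fin p, (i' : ℕ) < s → C2 s = up s := by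
    intro s hs
    show (if ((s : ℕ)) ≤ i then lo s else if s = i' then k else up s) = up s
    rw [if_neg (by omega), if_neg (fun e => by rw [e] at hs; exact lt_irrefl _ hs)]
  have tri1 : ∀ s : Fin p, (s : ℕ) < i ∨ s = i ∨ (i : ℕ) < s := by
    intro s
    rcases lt_trichotomy (s : ℕ) i with h | h | h
    · exact Or.inl h
    · exact Or.inr (Or.inl (Fin.ext h))
    · exact Or.inr (Or.inr h)
  have tri2 : ∀ s : Fin p, (s : ℕ) ≤ i ∨ s = i' ∨ (i' : ℕ) < s := by
    intro s
    rcases lt_trichotomy (s : ℕ) i' with h | h | h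
    · exact Or.inl (by omega)
    · exact Or.inr (Or.inl (Fin.ext h))
    · exact Or.inr (Or.inr h)
  have hC1 : Inc G C1 := by
    constructor
    · intro s
      rcases tri1 s with h | rfl | h
      · rw [C1lo s h]
        exact lo_c s
      · rw [C1k]
        exact hk
      · rw [C1up s h]
        exact up_c s
    · intro s s' hss
      have hss' : (s : ℕ) < s' := hss
      rcases tri1 s with h | rfl | h
      · rcases tri1 s' with h' | rfl | h'
        · rw [C1lo s h, C1lo s' h']
          exact hlo2 s s' hss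
        · rw [C1lo s h, C1k]
          exact lo_k s
        · rw [C1lo s h, C1up s' h']
          exact lo_up s s'
      · rw [C1k, C1up s' hss']
        exact up_k s'
      · rw [C1up s h, C1up s' (by omega)]
        exact hup2 s s' hss
  have hC2 : Inc G C2 := by
    constructor
    · intro s
      rcases tri2 s with h | rfl | h
      · rw [C2lo s h]
        exact lo_c s
      · rw [C2k]
        exact hk
      · rw [C2up s h]
        exact up_c s
    · intro s s' hss
      have hss' : (s : ℕ) < s' := hss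
      rcases tri2 s with h | rfl | h
      · rcases tri2 s' with h' | rfl | h'
        · rw [C2lo s h, C2lo s' h']
          exact hlo2 s s' hss
        · rw [C2lo s h, C2k]
          exact lo_k s
        · rw [C2lo s h, C2up s' h']
          exact lo_up s s'
      · rw [C2k, C2up s' hss']
        exact up_k s'
      · rw [C2up s h, C2up s' (by omega)]
        exact hup2 s s' hss
  -- all cells of the configurations are away from `f1`, `f2`
  have hC1B : ∀ s b, C1 s b ∈ B1 := by
    intro s b
    rcases tri1 s with h | rfl | h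
    · rw [C1lo s h]
      exact mc _ (Or.inl (lo_mem s)) b
    · rw [C1k]
      exact mk b
    · rw [C1up s h]
      exact mc _ (Or.inr (up_mem s)) b
  have hC2B : ∀ s b, C2 s b ∈ B1 := by
    intro s b
    rcases tri2 s with h | rfl | h
    · rw [C2lo s h]
      exact mc _ (Or.inl (lo_mem s)) b
    · rw [C2k]
      exact mk b
    · rw [C2up s h]
      exact mc _ (Or.inr (up_mem s)) b
  have hC1f : ∀ s, s ≠ i → ∀ b a, C1 s b ≠ f a := by
    intro s hs b a
    rcases tri1 s with h | h | h
    · rw [C1lo s h]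
      exact lo_f s b a
    · exact absurd h hs
    · rw [C1up s h]
      exact up_f s b a
  have hC2f : ∀ s, s ≠ i' → ∀ b a, C2 s b ≠ f a := by
    intro s hs b a
    rcases tri2 s with h | h | h
    · rw [C2lo s h]
      exact lo_f s b a
    · exact absurd h hs
    · rw [C2up s h]
      exact up_f s b a
  have hlt1 : ∀ s s', G.lt (C1 s) (C1 s') → s < s' := by
    intro s s' h
    rcases lt_trichotomy s s' with h' | h' | h'
    · exact h'
    · rw [h'] at h
      exact absurd h (hG.ok.irr _ (hC1.1 s'))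
    · exact absurd (hG.ok.trans _ (hC1.1 s) _ (hC1.1 s') _ (hC1.1 s) h (hC1.2 s' s h'))
        (hG.ok.irr _ (hC1.1 s))
  have hlt2 : ∀ s s', G.lt (C2 s) (C2 s') → s < s' := by
    intro s s' h
    rcases lt_trichotomy s s' with h' | h' | h'
    · exact h'
    · rw [h'] at h
      exact absurd h (hG.ok.irr _ (hC2.1 s'))
    · exact absurd (hG.ok.trans _ (hC2.1 s) _ (hC2.1 s') _ (hC2.1 s) h (hC2.2 s' s h'))
        (hG.ok.irr _ (hC2.1 s))
  have hincinj : ∀ C : Fin p → κ' → ℕ, Inc G C → ∀ s s', C s = C s' → s = s' := by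
    intro C hC s s' he
    rcases lt_trichotomy s s' with h' | h' | h'
    · have := hC.2 s s' h'
      rw [he] at this
      exact absurd this (hG.ok.irr _ (hC.1 s'))
    · exact h'
    · have := hC.2 s' s h'
      rw [he] at this
      exact absurd this (hG.ok.irr _ (hC.1 s'))
  -- the template with changed constants
  let T' : Fin r → ℕ ⊕ (Fin p × κ') := fun j =>
    Sum.elim (fun x => Sum.inl (swf f f1 x)) (fun q => Sum.inr q) (T j)
  have hT'l : ∀ j x, T j = Sum.inl x → T' j = Sum.inl (swf f f1 x) := by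
    intro j x h
    show Sum.elim _ _ (T j) = _
    rw [h]
    rfl
  have hT'r : ∀ j q, T j = Sum.inr q → T' j = Sum.inr q := by
    intro j q h
    show Sum.elim _ _ (T j) = _
    rw [h]
    rfl
  have hT'r' : ∀ j q, T' j = Sum.inr q → T j = Sum.inr q := by
    intro j q h
    rcases hT : T j with x | q'
    · rw [hT'l j x hT] at h
      cases h
    · rw [hT'r j q' hT] at h
      exact h
  -- constants of `T'`
  have hT'c : ∀ j x, T' j = Sum.inl x →
      (∃ a, x = f1 a ∧ T j = Sum.inl (f a)) ∨ (T j = Sum.inl x ∧ ∀ a, f a ≠ x) := by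
    intro j x h
    rcases hT : T j with x' | q'
    · rw [hT'l j x' hT] at h
      have hx := Sum.inl.inj h
      by_cases hx' : ∃ a, f a = x'
      · obtain ⟨a, rfl⟩ := hx'
        rw [swf_cell hfi] at hx
        exact Or.inl ⟨a, hx.symm, rfl⟩
      · push Not at hx'
        rw [swf_out hx'] at hx
        subst hx
        exact Or.inr ⟨rfl, hx'⟩
    · rw [hT'r j q' hT] at h
      cases h
  have hfa1 : ∀ j, T j ≠ Sum.inl (f a1) := fun j h => hJ.out j _ h ⟨k, hk, b1, hb1⟩
  have hchg : ∀ c : Fin p → κ' → ℕ, (∀ s b a, c s b ≠ f a ∧ c s b ≠ f1 a) →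
      N (ap T c) = N (ap T' c) := by
    intro c hc
    refine change_const (G := G) hF T T' hf hf1 hff1 ⟨a1, hfa1⟩ ?_ ?_ ?_ c hc
    · intro j a h
      exact n1 a _ (mT j _ h) rfl
    · intro j a h
      rw [hT'l j _ h, swf_cell hfi]
    · intro j h
      rcases hT : T j with x' | q'
      · rw [hT'l j x' hT, swf_out fun a e => h a (by rw [hT, e])]
      · exact hT'r j q' hT
  -- step 2
  obtain ⟨d, hd3, hd4⟩ := exists_inc' hG.ok
    {c | c ∈ G.cells ∧ Disjoint (range c) (range f ∪ range f1)} (fun c hc => hc.1) (by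
      have h1 := (ol_meet hG.ok ((finite_range f).union (finite_range f1))).1
      refine (hG.ok.inf.sdiff h1).mono ?_
      rintro c ⟨hc, hc'⟩
      refine ⟨hc, ?_⟩
      by_contra h2
      exact hc' ⟨hc, h2⟩) p
  have hdI : Inc G d := ⟨fun s => (hd3 s).1, hd4⟩
  have hdf : ∀ s b a, d s b ≠ f a ∧ d s b ≠ f1 a := fun s b a =>
    ⟨fun e => Set.disjoint_left.1 (hd3 s).2 ⟨b, rfl⟩ (Or.inl ⟨a, e.symm⟩),
      fun e => Set.disjoint_left.1 (hd3 s).2 ⟨b, rfl⟩ (Or.inr ⟨a, e.symm⟩)⟩
  -- cells of `G` containing a point of `f1` or `f2`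
  have hcell1 : ∀ g ∈ G.cells, ∀ b a, g b = f1 a → range g = range f1 := by
    intro g hg b a he
    rcases hg1 with ⟨g', hg', he'⟩ | hdis
    · have : f1 a ∈ range g' := by
        rw [he']
        exact ⟨a, rfl⟩
      obtain ⟨b', hb'⟩ := this
      have := hG.ok.disj g hg g' hg' b b' (by rw [he, hb'])
      rw [this, he']
    · exact absurd ⟨g, hg, b, he⟩ (Set.disjoint_left.1 hdis ⟨a, rfl⟩)
  have hcell2 : ∀ g ∈ G.cells, ∀ b a, g b = f2 a → range g = range f2 := by
    intro g hg b a he
    rcases hg2 with ⟨g', hg', he'⟩ | hdis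
    · have : f2 a ∈ range g' := by
        rw [he']
        exact ⟨a, rfl⟩
      obtain ⟨b', hb'⟩ := this
      have := hG.ok.disj g hg g' hg' b b' (by rw [he, hb'])
      rw [this, he']
    · exact absurd ⟨g, hg, b, he⟩ (Set.disjoint_left.1 hdis ⟨a, rfl⟩)
  -- constants of `T'` in `G.supp`, general form
  have hcon : ∀ C D : Fin p → κ' → ℕ, (∀ s b a, C s b ≠ f1 a) → (∀ s b a, D s b ≠ f1 a) →
      ∀ j x, T' j = Sum.inl x → ∀ g ∈ G.cells, ∀ b, g b = x →
        (∀ j' s b', T' j' = Sum.inr (s, b') → g ≠ C s ∧ g ≠ D s) ∧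
          ∃ b', ∀ j', ap T' C j' ≠ g b' := by
    intro C D hC hD j x hx g hg b hb
    rcases hT'c j x hx with ⟨a, rfl, hTj⟩ | ⟨hTj, -⟩
    · have hrg := hcell1 g hg b a hb
      refine ⟨fun j' s b' _ => ⟨?_, ?_⟩, ?_⟩
      · rintro rfl
        exact hC s b a hb
      · rintro rfl
        exact hD s b a hb
      · have : f1 a1 ∈ range g := by
          rw [hrg]
          exact ⟨a1, rfl⟩
        obtain ⟨b', hb'⟩ := this
        refine ⟨b', fun j' => ?_⟩
        rw [hb']
        rcases hT' : T' j' with x' | ⟨s, b''⟩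
        · have e : ap T' C j' = x' := by
            unfold ap
            rw [hT']
            rfl
          rw [e]
          rcases hT'c j' x' hT' with ⟨a', rfl, hTj'⟩ | ⟨hTj', -⟩
          · intro h
            have := hF.ok.inj f1 hf1 h
            subst this
            exact hfa1 j' hTj'
          · exact fun h => n1 a1 x' (mT j' x' hTj') h.symm
        · have e : ap T' C j' = C s b'' := by
            unfold ap
            rw [hT']
            rfl
          rw [e]
          exact hC s b'' a1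
    · exact absurd ⟨g, hg, b, hb⟩ (hJ.out j x hTj)
  have v1 : N (ap T' C1) = ε := by
    rw [← hJ.inc d hdI, hchg d hdf]
    refine ap_mv hG T' C1 d (fun j s b _ => ⟨hC1.1 s, hdI.1 s⟩)
      (fun _ s _ _ s' _ _ _ h => hincinj C1 hC1 s s' h)
      (fun _ s _ _ s' _ _ _ h => hincinj d hdI s s' h)
      (hcon C1 d (fun s b a h => n1 a _ (hC1B s b) h.symm) (fun s b a => (hdf s b a).2)) ?_
    intro s s' _ _ h
    exact hd4 s s' (hlt1 s s' h)
  have v2 : N (ap T' (fun s => C2 (Equiv.swap i i' s))) = ε' := by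
    rw [← hJ.swp d hdI, hchg (fun s => d (Equiv.swap i i' s)) (fun s b a => hdf _ b a)]
    refine ap_mv hG T' (fun s => C2 (Equiv.swap i i' s)) (fun s => d (Equiv.swap i i' s))
      (fun j s b _ => ⟨hC2.1 _, hdI.1 _⟩)
      (fun _ s _ _ s' _ _ _ h => (Equiv.swap i i').injective (hincinj C2 hC2 _ _ h))
      (fun _ s _ _ s' _ _ _ h => (Equiv.swap i i').injective (hincinj d hdI _ _ h))
      (hcon (fun s => C2 (Equiv.swap i i' s)) (fun s => d (Equiv.swap i i' s))
        (fun s b a h => n1 a _ (hC2B _ b) h.symm) (fun s b a => (hdf _ b a).2)) ?_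
    intro s s' _ _ h
    exact hd4 _ _ (hlt2 _ _ h)
  -- the swapped configuration
  let C3 : Fin p → κ' → ℕ := fun s => C2 (Equiv.swap i i' s)
  have hne' : i ≠ i' := by
    intro e
    rw [e] at hii
    omega
  have C3i : C3 i = k := by
    show C2 (Equiv.swap i i' i) = k
    rw [Equiv.swap_apply_left, C2k]
  have C3i' : C3 i' = lo i := by
    show C2 (Equiv.swap i i' i') = lo i
    rw [Equiv.swap_apply_right, C2lo i le_rfl]
  have C3s : ∀ s, s ≠ i → s ≠ i' → C3 s = C1 s := by
    intro s hs hs'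
    show C2 (Equiv.swap i i' s) = C1 s
    rw [Equiv.swap_apply_of_ne_of_ne hs hs']
    rcases tri1 s with h | h | h
    · rw [C1lo s h, C2lo s h.le]
    · exact absurd h hs
    · have : (i' : ℕ) < s := by
        have : (s : ℕ) ≠ i' := fun e => hs' (Fin.ext e)
        omega
      rw [C1up s h, C2up s this]
  -- step 3
  let T4 : Fin r → ℕ ⊕ (Fin p × κ') := fun j =>
    Sum.elim (fun x => Sum.inl x)
      (fun q => if q.1 = i then Sum.inl (swf f f2 (k q.2)) else Sum.inr q) (T' j)
  have hT4l : ∀ j x, T' j = Sum.inl x → T4 j = Sum.inl x := by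
    intro j x h
    show Sum.elim _ _ (T' j) = _
    rw [h]
    rfl
  have hT4i : ∀ j b, T' j = Sum.inr (i, b) → T4 j = Sum.inl (swf f f2 (k b)) := by
    intro j b h
    show Sum.elim _ _ (T' j) = _
    rw [h]
    show (if i = i then Sum.inl (swf f f2 (k b)) else Sum.inr (i, b)) = _
    rw [if_pos rfl]
  have hT4r : ∀ j s b, s ≠ i → T' j = Sum.inr (s, b) → T4 j = Sum.inr (s, b) := by
    intro j s b hs h
    show Sum.elim _ _ (T' j) = _
    rw [h]
    show (if s = i then Sum.inl (swf f f2 (k b)) else Sum.inr (s, b)) = _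
    rw [if_neg hs]
  have hT4r' : ∀ j s b, T4 j = Sum.inr (s, b) → T' j = Sum.inr (s, b) ∧ s ≠ i := by
    intro j s b h
    rcases hT' : T' j with x' | ⟨s', b'⟩
    · rw [hT4l j x' hT'] at h
      cases h
    · by_cases hs : s' = i
      · subst hs
        rw [hT4i j b' hT'] at h
        cases h
      · rw [hT4r j s' b' hs hT'] at h
        cases h
        exact ⟨rfl, hs⟩
  have hT4c : ∀ j x, T4 j = Sum.inl x → T' j = Sum.inl x ∨ ∃ b, x = swf f f2 (k b) := by
    intro j x h
    rcases hT' : T' j with x' | ⟨s', b'⟩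
    · rw [hT4l j x' hT'] at h
      cases h
      exact Or.inl rfl
    · by_cases hs : s' = i
      · subst hs
        rw [hT4i j b' hT'] at h
        cases h
        exact Or.inr ⟨b', rfl⟩
      · rw [hT4r j s' b' hs hT'] at h
        cases h
  have hT'f : ∀ j x, T' j = Sum.inl x → (∀ a, f a ≠ x) ∧ ∀ a, f2 a ≠ x := by
    intro j x h
    rcases hT'c j x h with ⟨a, rfl, -⟩ | ⟨h1, h2⟩
    · exact ⟨fun a' e => n1 a _ (mf a') e.symm, fun a' e => n21 a' a e⟩
    · exact ⟨h2, fun a' => n2 a' x (mT j x h1)⟩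
  have step3 : ∀ C : Fin p → κ' → ℕ, C i = k → (∀ s b, C s b ∈ B1) →
      (∀ s, s ≠ i → ∀ b a, C s b ≠ f a) → N (ap T' C) = N (ap T4 C) := by
    intro C hCi hCB hCf
    have h1 : ∃ a, ∀ j, ap T' C j ≠ f a := by
      refine ⟨a0, fun j => ?_⟩
      unfold ap
      rcases hT' : T' j with x | ⟨s, b⟩
      · exact fun h => (hT'f j x hT').1 a0 h.symm
      · by_cases hs : s = i
        · subst hs
          show C s b ≠ f a0
          rw [hCi]
          exact fun h => ha0 ⟨b, h⟩
        · exact hCf s hs b a0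
    have h2 : ∀ j a, ap T' C j ≠ f2 a := by
      intro j a
      unfold ap
      rcases hT' : T' j with x | ⟨s, b⟩
      · exact fun h => (hT'f j x hT').2 a h.symm
      · exact fun h => n2 a _ (hCB s b) h.symm
    rw [← sw_inv hF hf hf2 hff2 h1 h2]
    congr 1
    funext j
    unfold ap
    rcases hT' : T' j with x | ⟨s, b⟩
    · rw [hT4l j x hT']
      exact swf_out (hT'f j x hT').1
    · by_cases hs : s = i
      · subst hs
        rw [hT4i j b hT']
        show swf f f2 (C s b) = swf f f2 (k b)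
        rw [hCi]
      · rw [hT4r j s b hs hT']
        exact swf_out fun a h => hCf s hs b a h.symm
  have w1 : N (ap T4 C1) = ε := by
    rw [← step3 C1 C1k hC1B hC1f, v1]
  have w2 : N (ap T4 C3) = ε' := by
    rw [← step3 C3 C3i (fun s b => hC2B _ b) ?_, v2]
    intro s hs b a
    refine hC2f _ ?_ b a
    intro e
    apply hs
    have := congrArg (Equiv.swap i i') e
    rwa [Equiv.swap_apply_self, Equiv.swap_apply_right] at this
  -- step 4
  have hval : ∀ b, (∃ a, k b = f a ∧ swf f f2 (k b) = f2 a) ∨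
      ((∀ a, f a ≠ k b) ∧ swf f f2 (k b) = k b) := by
    intro b
    by_cases hb : ∃ a, f a = k b
    · obtain ⟨a, ha⟩ := hb
      left
      exact ⟨a, ha.symm, by rw [← ha, swf_cell hfi]⟩
    · push Not at hb
      exact Or.inr ⟨hb, swf_out hb⟩
  have hC3B : ∀ s b, C3 s b ∈ B1 := fun s b => hC2B _ b
  have hkne : ∀ s, s ≠ i → k ≠ C1 s ∧ k ≠ C3 s := by
    intro s hs
    have h1 : k ≠ C1 s := by
      rcases tri1 s with h | h | h
      · rw [C1lo s h]
        intro e
        have := lo_k s
        rw [← e] at this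
        exact hG.ok.irr k hk this
      · exact absurd h hs
      · rw [C1up s h]
        intro e
        have := up_k s
        rw [← e] at this
        exact hG.ok.irr k hk this
    refine ⟨h1, ?_⟩
    by_cases hs' : s = i'
    · rw [hs', C3i']
      intro e
      have := lo_k i
      rw [← e] at this
      exact hG.ok.irr k hk this
    · rw [C3s s hs hs']
      exact h1
  have hfin : N (ap T4 C1) = N (ap T4 C3) := by
    refine ap_mv hG T4 C1 C3 (fun j s b _ => ⟨hC1.1 s, hC2.1 _⟩)
      (fun _ s _ _ s' _ _ _ h => hincinj C1 hC1 s s' h)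
      (fun _ s _ _ s' _ _ _ h => (Equiv.swap i i').injective (hincinj C2 hC2 _ _ h)) ?_ ?_
    · intro j x hx g hg b hb
      -- entries of the tuple
      have hent : ∀ y : ℕ, (∀ j', T' j' ≠ Sum.inl y) → (∀ b, swf f f2 (k b) ≠ y) →
          (∀ s, s ≠ i → ∀ b, C1 s b ≠ y) → ∀ j', ap T4 C1 j' ≠ y := by
        intro y h1 h2 h3 j'
        rcases hT4 : T4 j' with x' | ⟨s, b'⟩
        · have e : ap T4 C1 j' = x' := by
            unfold ap
            rw [hT4]
            rfl
          rw [e]
          rintro rfl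
          rcases hT4c j' x' hT4 with h | ⟨b', h⟩
          · exact h1 j' h
          · exact h2 b' h.symm
        · have e : ap T4 C1 j' = C1 s b' := by
            unfold ap
            rw [hT4]
            rfl
          rw [e]
          exact h3 s (hT4r' j' s b' hT4).2 b'
      rcases hT4c j x hx with h | ⟨b', h⟩
      · rcases hT'c j x h with ⟨a, rfl, hTj⟩ | ⟨hTj, -⟩
        · have hrg := hcell1 g hg b a hb
          refine ⟨fun j' s b' _ => ⟨?_, ?_⟩, ?_⟩
          · rintro rfl
            exact n1 a _ (hC1B s b) hb.symm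
          · rintro rfl
            exact n1 a _ (hC3B s b) hb.symm
          · have : f1 a1 ∈ range g := by
              rw [hrg]
              exact ⟨a1, rfl⟩
            obtain ⟨b', hb'⟩ := this
            refine ⟨b', ?_⟩
            rw [hb']
            refine hent _ ?_ ?_ ?_
            · intro j' hj'
              rcases hT'c j' _ hj' with ⟨a', he, hTj'⟩ | ⟨hTj', -⟩
              · have := hF.ok.inj f1 hf1 he
                subst this
                exact hfa1 j' hTj'
              · exact n1 a1 _ (mT j' _ hTj') rfl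
            · intro b'' hb''
              rcases hval b'' with ⟨a', -, he⟩ | ⟨-, he⟩
              · rw [he] at hb''
                exact n21 a' a1 hb''
              · rw [he] at hb''
                exact n1 a1 _ (mk b'') hb''.symm
            · intro s _ b'' hb''
              exact n1 a1 _ (hC1B s b'') hb''.symm
        · exact absurd ⟨g, hg, b, hb⟩ (hJ.out j x hTj)
      · rcases hval b' with ⟨a, hka, he⟩ | ⟨hka, he⟩
        · rw [h, he] at hb
          have hrg := hcell2 g hg b a hb
          refine ⟨fun j' s b' _ => ⟨?_, ?_⟩, ?_⟩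
          · rintro rfl
            exact n2 a _ (hC1B s b) hb.symm
          · rintro rfl
            exact n2 a _ (hC3B s b) hb.symm
          · have : f2 a0 ∈ range g := by
              rw [hrg]
              exact ⟨a0, rfl⟩
            obtain ⟨b3, hb3⟩ := this
            refine ⟨b3, ?_⟩
            rw [hb3]
            refine hent _ ?_ ?_ ?_
            · intro j' hj'
              exact (hT'f j' _ hj').2 a0 rfl
            · intro b'' hb''
              rcases hval b'' with ⟨a', hka', he'⟩ | ⟨-, he'⟩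
              · rw [he'] at hb''
                have := hF.ok.inj f2 hf2 hb''
                subst this
                exact ha0 ⟨b'', hka'⟩
              · rw [he'] at hb''
                exact n2 a0 _ (mk b'') hb''.symm
            · intro s _ b'' hb''
              exact n2 a0 _ (hC1B s b'') hb''.symm
        · rw [h, he] at hb
          have hgk : g = k := hG.ok.disj g hg k hk b b' hb
          subst hgk
          refine ⟨fun j' s b'' hj' => hkne s (hT4r' j' s b'' hj').2, b1, ?_⟩
          rw [hb1]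
          refine hent _ ?_ ?_ ?_
          · intro j' hj'
            exact (hT'f j' _ hj').1 a1 rfl
          · intro b'' hb''
            rcases hval b'' with ⟨a', -, he'⟩ | ⟨hn, he'⟩
            · rw [he'] at hb''
              exact n2 a' _ (mf a1) hb''
            · rw [he'] at hb''
              exact hn a1 hb''.symm
          · intro s hs b''
            exact hC1f s hs b'' a1
    · intro s s' hs hs' hlt
      obtain ⟨j, hj⟩ := hs (Classical.arbitrary κ')
      obtain ⟨j', hj'⟩ := hs' (Classical.arbitrary κ')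
      have hsi := (hT4r' j s _ hj).2
      have hsi' := (hT4r' j' s' _ hj').2
      have hss := hlt1 s s' hlt
      have hss' : (s : ℕ) < s' := hss
      by_cases h1 : s = i'
      · by_cases h2 : s' = i'
        · rw [h1, h2] at hss
          exact absurd hss (lt_irrefl _)
        · rw [C3s s' hsi' h2, h1, C3i']
          have : (i : ℕ) < s' := by
            rw [h1] at hss'
            omega
          rw [C1up s' this]
          exact lo_up i s'
      · by_cases h2 : s' = i'
        · rw [C3s s hsi h1, h2, C3i']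
          have h3 : (s : ℕ) < i := by
            rw [h2] at hss'
            have : (s : ℕ) ≠ i := fun e => hsi (Fin.ext e)
            omega
          rw [C1lo s h3]
          exact hlo2 s i h3
        · rw [C3s s hsi h1, C3s s' hsi' h2]
          exact hlt
  exact hJ.ne (by rw [← w1, ← w2, hfin])

end Pool.H17.TC
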