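import Pool.Agent.H17.TC.Fam

/-!
# L3 : maximal families
-/

set_option autoImplicit false

namespace Pool.H17.TC

open Pool.H22.VC Function Set

variable {r : ℕ} {K κ κ' : Type} {N : Col r K ℕ}

private theorem fle_refl (F : Fam κ) : FLe F F := ⟨subset_rfl, fun _ _ _ _ => Iff.rfl⟩

private theorem fle_trans {F G H : Fam κ} (h1 : FLe F G) (h2 : FLe G H) : FLe F H :=
  ⟨h1.1.trans h2.1, fun c hc c' hc' =>
    (h1.2 c hc c' hc').trans (h2.2 c (h1.1 hc) c' (h1.1 hc'))⟩

private theorem lt_iff_of_cmp {F G : Fam κ} (h : FLe F G ∨ FLe G F) {v w : κ → ℕ}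
    (hv : v ∈ F.cells) (hw : w ∈ F.cells) (hv' : v ∈ G.cells) (hw' : w ∈ G.cells) :
    F.lt v w ↔ G.lt v w := by
  rcases h with h | h
  · exact h.2 v hv w hw
  · exact (h.2 v hv' w hw').symm

private theorem exists_big {c : Set (Fam κ)} (hne : c.Nonempty)
    (hch : ∀ F ∈ c, ∀ G ∈ c, FLe F G ∨ FLe G F) {S : Set (κ → ℕ)} (hS : S.Finite)
    (hSc : S ⊆ ⋃ F ∈ c, F.cells) : ∃ F ∈ c, S ⊆ F.cells := by
  induction S, hS using Set.Finite.induction_on with
  | empty =>
    obtain ⟨F, hF⟩ := hne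
    exact ⟨F, hF, Set.empty_subset _⟩
  | @insert a s _ _ ih =>
    obtain ⟨F, hF, hs⟩ := ih ((Set.subset_insert a s).trans hSc)
    have ha := hSc (Set.mem_insert a s)
    simp only [Set.mem_iUnion] at ha
    obtain ⟨G, hG, haG⟩ := ha
    rcases hch F hF G hG with h | h
    · exact ⟨G, hG, Set.insert_subset haG (hs.trans h.1)⟩
    · exact ⟨F, hF, Set.insert_subset (h.1 haG) hs⟩

/-- union of a chain of families -/
theorem FN.sUnion {c : Set (Fam κ)} (hc : ∀ F ∈ c, FN N F) (hne : c.Nonempty)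
    (hch : ∀ F ∈ c, ∀ G ∈ c, FLe F G ∨ FLe G F) :
    FN N ⟨⋃ F ∈ c, F.cells, fun v w => ∃ F ∈ c, v ∈ F.cells ∧ w ∈ F.cells ∧ F.lt v w⟩ := by
  classical
  obtain ⟨G, hG⟩ : ∃ G : Fam κ, G = ⟨⋃ F ∈ c, F.cells,
    fun v w => ∃ F ∈ c, v ∈ F.cells ∧ w ∈ F.cells ∧ F.lt v w⟩ := ⟨_, rfl⟩
  rw [← hG]
  have hGc : G.cells = ⋃ F ∈ c, F.cells := by rw [hG]
  have hGl : ∀ v w, G.lt v w ↔ ∃ F ∈ c, v ∈ F.cells ∧ w ∈ F.cells ∧ F.lt v w := by
    intro v w
    rw [hG]
  have hsub : ∀ F ∈ c, F.cells ⊆ G.cells := by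
    intro F hF
    rw [hGc]
    exact Set.subset_biUnion_of_mem (u := fun F : Fam κ => F.cells) hF
  have hbig : ∀ S : Set (κ → ℕ), S.Finite → S ⊆ G.cells → ∃ F ∈ c, S ⊆ F.cells := by
    intro S hS hSc
    rw [hGc] at hSc
    exact exists_big hne hch hS hSc
  have hlt : ∀ F ∈ c, ∀ v ∈ F.cells, ∀ w ∈ F.cells, (F.lt v w ↔ G.lt v w) := by
    intro F hF v hv w hw
    rw [hGl]
    constructor
    · intro h
      exact ⟨F, hF, hv, hw, h⟩
    · rintro ⟨F', hF', hv', hw', h'⟩
      exact (lt_iff_of_cmp (hch F hF F' hF') hv hw hv' hw').2 h'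
  have hok : G.OK := by
    refine ⟨?_, ?_, ?_, ?_, ?_, ?_⟩
    · intro v hv
      obtain ⟨F, hF, hs⟩ := hbig {v} (Set.finite_singleton v) (by simpa using hv)
      exact (hc F hF).ok.inj v (hs rfl)
    · intro v hv w hw
      obtain ⟨F, hF, hs⟩ := hbig {v, w} (Set.toFinite _)
        (by rintro x (rfl | rfl); exacts [hv, hw])
      exact (hc F hF).ok.disj v (hs (by simp)) w (hs (by simp))
    · intro v _ hvv
      obtain ⟨F, hF, hv, _, h⟩ := (hGl v v).1 hvv
      exact (hc F hF).ok.irr v hv h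
    · intro v hv w hw u hu h1 h2
      obtain ⟨F, hF, hs⟩ := hbig {v, w, u} (Set.toFinite _)
        (by rintro x (rfl | rfl | rfl); exacts [hv, hw, hu])
      have mv : v ∈ F.cells := hs (by simp)
      have mw : w ∈ F.cells := hs (by simp)
      have mu : u ∈ F.cells := hs (by simp)
      rw [← hlt F hF v mv w mw] at h1
      rw [← hlt F hF w mw u mu] at h2
      rw [← hlt F hF v mv u mu]
      exact (hc F hF).ok.trans v mv w mw u mu h1 h2
    · intro v hv w hw hne'
      obtain ⟨F, hF, hs⟩ := hbig {v, w} (Set.toFinite _)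
        (by rintro x (rfl | rfl); exacts [hv, hw])
      have mv : v ∈ F.cells := hs (by simp)
      have mw : w ∈ F.cells := hs (by simp)
      rw [← hlt F hF v mv w mw, ← hlt F hF w mw v mv]
      exact (hc F hF).ok.total v mv w mw hne'
    · obtain ⟨F, hF⟩ := hne
      exact (hc F hF).ok.inf.mono (hsub F hF)
  refine ⟨hok, ?_, ?_⟩
  · intro t φ hM hMon
    obtain ⟨F, hF, hs⟩ := hbig ({v | Used G t v} ∪ φ '' {v | Used G t v})
      ((used_finite hok t).1.union ((used_finite hok t).1.image φ)) (by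
        rintro x (hx | ⟨y, hy, rfl⟩)
        · exact hx.1
        · exact hM.1 y hy)
    have hFok := (hc F hF).ok
    have hu : ∀ v, Used F t v → Used G t v := fun v hv => ⟨hsub F hF hv.1, hv.2⟩
    have hfu : ∀ v, Full F t v → Full G t v := fun v hv => ⟨hsub F hF hv.1, hv.2⟩
    obtain ⟨k0⟩ := hok.nonempty
    have hfused : ∀ v, Full G t v → Used G t v := by
      intro v hv
      obtain ⟨j, hj⟩ := hv.2 k0
      exact ⟨hv.1, j, k0, hj⟩
    have hmv : (fun j => G.mv φ (t j)) = fun j => F.mv φ (t j) := by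
      funext j
      by_cases hsj : t j ∈ G.supp
      · obtain ⟨v, hv, k, hk⟩ := hsj
        have hvF : v ∈ F.cells := hs (Or.inl ⟨hv, j, k, hk.symm⟩)
        rw [← hk, Fam.mv_cell hok φ hv k, Fam.mv_cell hFok φ hvF k]
      · rw [Fam.mv_out _ hsj, Fam.mv_out]
        rintro ⟨v, hv, k, hk⟩
        exact hsj ⟨v, hsub F hF hv, k, hk⟩
    rw [hmv]
    apply (hc F hF).free
    · exact ⟨fun v hv => hs (Or.inr ⟨v, hu v hv, rfl⟩),
        fun v w hv hw hvw => hM.2 v w (hu v hv) (hu w hw) hvw⟩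
    · intro v w hv hw hvw
      have h1 := hMon v w (hfu v hv) (hfu w hw) ((hlt F hF v hv.1 w hw.1).1 hvw)
      exact (hlt F hF (φ v) (hs (Or.inr ⟨v, hfused v (hfu v hv), rfl⟩)) (φ w)
        (hs (Or.inr ⟨w, hfused w (hfu w hw), rfl⟩))).2 h1
  · obtain ⟨F, hF⟩ := hne
    obtain ⟨t, φ, hM, hne'⟩ := (hc F hF).nsym
    have hFok := (hc F hF).ok
    refine ⟨t, fun v => if v ∈ F.cells then φ v else v, ⟨?_, ?_⟩, ?_⟩
    · intro v hv
      by_cases hvF : v ∈ F.cells
      · simp only [hvF, if_true]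
        exact hsub F hF (hM.1 v ⟨hvF, hv.2⟩)
      · simp only [hvF, if_false]
        exact hv.1
    · intro v w hv hw hvw
      by_cases hvF : v ∈ F.cells
      · by_cases hwF : w ∈ F.cells
        · simp only [hvF, hwF, if_true] at hvw
          exact hM.2 v w ⟨hvF, hv.2⟩ ⟨hwF, hw.2⟩ hvw
        · simp only [hvF, hwF, if_true, if_false] at hvw
          exact absurd (hvw ▸ hM.1 v ⟨hvF, hv.2⟩) hwF
      · by_cases hwF : w ∈ F.cells
        · simp only [hvF, hwF, if_true, if_false] at hvw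
          exact absurd (hvw ▸ hM.1 w ⟨hwF, hw.2⟩) hvF
        · simpa only [hvF, hwF, if_false] using hvw
    · have hmv : (fun j => G.mv (fun v => if v ∈ F.cells then φ v else v) (t j)) =
          fun j => F.mv φ (t j) := by
        funext j
        by_cases hsj : t j ∈ G.supp
        · obtain ⟨v, hv, k, hk⟩ := hsj
          rw [← hk, Fam.mv_cell hok _ hv k]
          by_cases hvF : v ∈ F.cells
          · simp only [hvF, if_true]
            rw [Fam.mv_cell hFok φ hvF k]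
          · simp only [hvF, if_false]
            rw [Fam.mv_out]
            rintro ⟨w, hw, k', hk'⟩
            have := hok.disj w (hsub F hF hw) v hv k' k hk'
            rw [this] at hw
            exact hvF hw
        · rw [Fam.mv_out _ hsj, Fam.mv_out]
          rintro ⟨v, hv, k, hk⟩
          exact hsj ⟨v, hsub F hF hv, k, hk⟩
      rw [hmv]
      exact hne'

/-- Zorn's lemma -/
theorem exists_max {F : Fam κ} (hF : FN N F) : ∃ G : Fam κ, FMax N G ∧ FLe F G := by
  have hz := exists_maximal_of_chains_bounded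
    (α := {G : Fam κ // FN N G ∧ FLe F G}) (r := fun a b => FLe a.1 b.1) ?_ ?_
  · obtain ⟨m, hm⟩ := hz
    refine ⟨m.1, ⟨m.2.1, fun G hG hle => ?_⟩, m.2.2⟩
    exact (hm ⟨G, hG, fle_trans m.2.2 hle⟩ hle).1
  · intro c hc
    rcases c.eq_empty_or_nonempty with rfl | hne
    · exact ⟨⟨F, hF, fle_refl F⟩, by simp⟩
    · obtain ⟨c', hc'⟩ : ∃ c' : Set (Fam κ), c' = Subtype.val '' c := ⟨_, rfl⟩
      have hmem : ∀ G, G ∈ c' ↔ ∃ a ∈ c, a.1 = G := by
        intro G
        rw [hc']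
        exact Iff.rfl
      have hFN : ∀ G ∈ c', FN N G := by
        intro G hG
        obtain ⟨a, _, rfl⟩ := (hmem G).1 hG
        exact a.2.1
      have hch : ∀ G ∈ c', ∀ H ∈ c', FLe G H ∨ FLe H G := by
        intro G hG H hH
        obtain ⟨a, ha, rfl⟩ := (hmem G).1 hG
        obtain ⟨b, hb, rfl⟩ := (hmem H).1 hH
        by_cases hab : a = b
        · rw [hab]
          exact Or.inl (fle_refl _)
        · exact hc ha hb hab
      have hne' : c'.Nonempty := by
        obtain ⟨a, ha⟩ := hne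
        exact ⟨a.1, (hmem _).2 ⟨a, ha, rfl⟩⟩
      have hU := FN.sUnion (N := N) hFN hne' hch
      have hleU : ∀ G ∈ c', FLe G ⟨⋃ F ∈ c', F.cells,
          fun v w => ∃ F ∈ c', v ∈ F.cells ∧ w ∈ F.cells ∧ F.lt v w⟩ := by
        intro G hG
        refine ⟨Set.subset_biUnion_of_mem (u := fun F : Fam κ => F.cells) hG, ?_⟩
        intro v hv w hw
        constructor
        · intro h
          exact ⟨G, hG, hv, hw, h⟩
        · rintro ⟨H, hH, hv', hw', h⟩
          exact (lt_iff_of_cmp (hch G hG H hH) hv hw hv' hw').2 h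
      obtain ⟨a0, ha0⟩ := hne
      refine ⟨⟨_, hU, fle_trans a0.2.2 (hleU a0.1 ((hmem _).2 ⟨a0, ha0, rfl⟩))⟩, ?_⟩
      intro a ha
      exact hleU a.1 ((hmem _).2 ⟨a, ha, rfl⟩)
  · intro a b d h1 h2
    exact fle_trans h1 h2

end Pool.H17.TC
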