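import Pool.Agent.H17.TC.MxLow

/-!
# L5 : maximal families, upper half
-/

set_option autoImplicit false

namespace Pool.H17.TC

open Pool.H22.VC Function Set Pool.H17.TA Pool.H17.TB

variable {r : ℕ} {K ι κ κ' : Type} {N : Col r K ℕ} {A : Set ℕ} {x : ℕ → κ → ℕ}

private theorem fam_min (F : Fam κ) (h : F.OK) (S : Finset (κ → ℕ)) :
    S.Nonempty → (∀ c ∈ S, c ∈ F.cells) → ∃ m ∈ S, ∀ c ∈ S, c ≠ m → F.lt m c := by
  classical
  induction S using Finset.induction_on with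
  | empty =>
    intro h0
    exact absurd h0 (by simp)
  | insert a S ha ih =>
    intro _ hS
    rcases S.eq_empty_or_nonempty with h0 | h0
    · subst h0
      refine ⟨a, by simp, fun c hc hca => ?_⟩
      have : c = a := by simpa using hc
      exact absurd this hca
    · obtain ⟨m, hm, hmax⟩ := ih h0 (fun c hc => hS c (Finset.mem_insert_of_mem hc))
      have haF := hS a (Finset.mem_insert_self a S)
      have hmF := hS m (Finset.mem_insert_of_mem hm)
      have ham : m ≠ a := by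
        rintro rfl
        exact ha hm
      rcases h.total m hmF a haF ham with h1 | h1
      · refine ⟨m, Finset.mem_insert_of_mem hm, fun c hc hcm => ?_⟩
        rcases Finset.mem_insert.1 hc with rfl | hc
        · exact h1
        · exact hmax c hc hcm
      · refine ⟨a, Finset.mem_insert_self a S, fun c hc hca => ?_⟩
        rcases Finset.mem_insert.1 hc with rfl | hc
        · exact absurd rfl hca
        · rcases eq_or_ne c m with rfl | hcm
          · exact h1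
          · exact h.trans a haF m hmF c (hS c (Finset.mem_insert_of_mem hc)) h1 (hmax c hc hcm)

/-- few cells have fewer than `R` cells above -/
private theorem few_above (F : Fam κ) (h : F.OK) (R : ℕ) :
    {c | c ∈ F.cells ∧ ¬ ∃ Up : Finset (κ → ℕ), R ≤ Up.card ∧
      ∀ c' ∈ Up, c' ∈ F.cells ∧ F.lt c c'}.Finite := by
  classical
  by_contra hinf
  obtain ⟨S, hS, hcard⟩ := Set.Infinite.exists_subset_card_eq hinf (R + 1)
  have hne : S.Nonempty := by
    rw [← Finset.card_pos, hcard]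
    omega
  obtain ⟨m, hm, hmax⟩ := fam_min F h S hne (fun c hc => (hS hc).1)
  apply (hS hm).2
  refine ⟨S.erase m, ?_, fun c' hc' => ?_⟩
  · rw [Finset.card_erase_of_mem hm, hcard]
    omega
  · rw [Finset.mem_erase] at hc'
    exact ⟨(hS hc'.2).1, hmax c' hc'.2 hc'.1⟩

private theorem inc_lt (F : Fam κ) (h : F.OK) (hx : ∀ l, x l ∈ F.cells)
    (hinc : ∀ l, F.lt (x l) (x (l + 1))) (i j : ℕ) (hij : i < j) : F.lt (x i) (x j) := by
  obtain ⟨d, rfl⟩ := Nat.exists_eq_add_of_lt hij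
  clear hij
  induction d with
  | zero => exact hinc i
  | succ d ih => exact h.trans _ (hx i) _ (hx _) _ (hx _) ih (hinc _)

private theorem inc_iff (F : Fam κ) (h : F.OK) (hx : ∀ l, x l ∈ F.cells)
    (hinc : ∀ l, F.lt (x l) (x (l + 1))) (i j : ℕ) : F.lt (x i) (x j) ↔ i < j := by
  refine ⟨fun h1 => ?_, inc_lt F h hx hinc i j⟩
  by_contra h2
  rcases Nat.lt_or_ge j i with h3 | h3
  · exact h.irr _ (hx i) (h.trans _ (hx i) _ (hx j) _ (hx i) h1 (inc_lt F h hx hinc j i h3))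
  · have h4 : i = j := le_antisymm (not_lt.1 (fun h5 => h2 (by omega))) (not_lt.1 h2)
    subst h4
    exact h.irr _ (hx i) h1

private theorem range_eq_of_sub [Finite κ] {f b : κ → ℕ} (hf : Injective f) (hb : Injective b)
    (h : range f ⊆ range b) : range f = range b := by
  refine Set.eq_of_subset_of_ncard_le h ?_ (Set.finite_range b)
  rw [← Set.image_univ, ← Set.image_univ, Set.ncard_image_of_injective _ hf,
    Set.ncard_image_of_injective _ hb]

/-- Upper half: the same with `add_up`, `B` = the cells of `H` above all `x l` with at least `R` cells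
above (a cell of `H` above all `x l` or between). -/
theorem mx_up (hW : ¬ Wild N univ) (hN : (range N).Finite) (hP : PCh N A x) [Finite κ]
    (hMG : MG N A x) {F G : Fam κ} (hF : FMax N F) (hG : FN N G)
    (hxF : ∀ l, x l ∈ F.cells) (hxG : ∀ l, x l ∈ G.cells)
    (hincF : ∀ l, F.lt (x l) (x (l + 1))) (hincG : ∀ l, G.lt (x l) (x (l + 1))) :
    {c | c ∈ G.cells ∧ (∀ l, G.lt (x l) c) ∧ c ∉ Com F G}.Finite := by
  classical
  obtain ⟨n₁, hn₁⟩ := union_V hW hN hP hMG hF.1 hxF hincF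
  obtain ⟨n₂, hn₂⟩ := union_V hW hN hP hMG hG hxG hincG
  obtain ⟨n, hn⟩ : ∃ n, n = max n₁ n₂ := ⟨_, rfl⟩
  obtain ⟨HF, hHF1, hHF2, hHF3, -, -⟩ := hn₁ n (by rw [hn]; exact le_max_left _ _)
  obtain ⟨H, hH1, hH2, -, -, hH5⟩ := hn₂ n (by rw [hn]; exact le_max_right _ _)
  have hsub := hF.2 HF hHF1 hHF2
  have hVF : ∀ v ∈ VV N A x n, ∃ c ∈ F.cells, range c = range v := by
    intro v hv
    obtain ⟨c, hc, hcv⟩ := hHF3 v hv
    exact ⟨c, hsub hc, hcv⟩
  have hFok := hF.1.ok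
  have hHok := hH1.ok
  have hxH : ∀ l, x l ∈ H.cells := fun l => hH2.1 (hxG l)
  have hincH : ∀ l, H.lt (x l) (x (l + 1)) := fun l => (hH2.2 _ (hxG _) _ (hxG _)).1 (hincG l)
  have hltH := inc_iff H hHok hxH hincH
  have hltF := inc_iff F hFok hxF hincF
  obtain ⟨k₀⟩ := hHok.nonempty
  obtain ⟨R, hR⟩ : ∃ R, R = r + Nat.card κ + 1 := ⟨_, rfl⟩
  let B : Set (κ → ℕ) := {b | b ∈ H.cells ∧ (∀ l, H.lt (x l) b) ∧
    (¬ ∃ c' ∈ F.cells, range c' = range b) ∧
    ∃ Up : Finset (κ → ℕ), R ≤ Up.card ∧ ∀ c' ∈ Up, c' ∈ H.cells ∧ H.lt b c'}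
  let Y : Set (κ → ℕ) := {y | ∃ l, n < l ∧ x l = y}
  have hxinj : Injective x := by
    intro i j hij
    rcases Nat.lt_trichotomy i j with h1 | h1 | h1
    · have h2 := (hltH i j).2 h1
      rw [hij] at h2
      exact absurd h2 (hHok.irr _ (hxH j))
    · exact h1
    · have h2 := (hltH j i).2 h1
      rw [hij] at h2
      exact absurd h2 (hHok.irr _ (hxH j))
  have hYF : Y ⊆ F.cells := by
    rintro y ⟨l, -, rfl⟩
    exact hxF l
  have hYH : Y ⊆ H.cells := by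
    rintro y ⟨l, -, rfl⟩
    exact hxH l
  have hYinf : Y.Infinite := by
    have h1 : Y = x '' {l | n < l} := by
      ext y
      constructor
      · rintro ⟨l, hl, rfl⟩
        exact ⟨l, hl, rfl⟩
      · rintro ⟨l, hl, rfl⟩
        exact ⟨l, hl, rfl⟩
    rw [h1]
    exact (Set.Ioi_infinite n).image hxinj.injOn
  have hor : ∀ y ∈ Y, ∀ y' ∈ Y, F.lt y y' ↔ H.lt y y' := by
    rintro y ⟨l, -, rfl⟩ y' ⟨l', -, rfl⟩
    rw [hltF, hltH]
  have hBH : B ⊆ H.cells := fun b hb => hb.1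
  have hBF : ∀ b ∈ B, ∀ k, b k ∉ F.supp := by
    rintro b ⟨hb1, hb2, hb3, Up, hUp1, hUp2⟩ k ⟨f, hf, k', hk'⟩
    apply hb3
    refine ⟨f, hf, range_eq_of_sub (hFok.inj f hf) (hHok.inj b hb1) ?_⟩
    refine ol hW hN hF.1 hH1 hb1 ?_ hf ⟨b k, ⟨k', hk'⟩, ⟨k, rfl⟩⟩
    refine ⟨(Finset.range R).image (fun i => x i), Up, ?_, ?_, ?_, hUp2⟩
    · rw [Finset.card_image_of_injective _ hxinj, Finset.card_range, hR]
    · rw [← hR]
      exact hUp1
    · intro c hc
      rw [Finset.mem_image] at hc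
      obtain ⟨i, -, rfl⟩ := hc
      exact ⟨hxH _, hb2 _⟩
  have hup : ∀ b ∈ B, ∀ y ∈ Y, H.lt y b := by
    rintro b ⟨hb1, hb2, -⟩ y ⟨l, hl, rfl⟩
    exact hb2 l
  have hVH : ∀ g ∈ H.cells, H.lt (x n) g → (∃ l, H.lt g (x l)) →
      ∃ f ∈ F.cells, range f = range g := by
    intro g hg h1 h2
    exact hVF g ((hH5 g hg).2 ⟨h1, h2⟩)
  have hull : ∀ g ∈ H.cells, (∃ c, (c ∈ B ∨ c ∈ Y) ∧ H.lt g c) → (∃ y ∈ Y, H.lt y g) →
      g ∈ B ∨ ∃ f ∈ F.cells, range f = range g := by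
    rintro g hg ⟨c, hc, hgc⟩ ⟨y, ⟨l, hl, rfl⟩, hyg⟩
    by_cases hfg : ∃ f ∈ F.cells, range f = range g
    · exact Or.inr hfg
    have hng : H.lt (x n) g := hHok.trans _ (hxH n) _ (hxH l) _ hg ((hltH _ _).2 hl) hyg
    by_cases hl2 : ∃ l', H.lt g (x l')
    · exact absurd (hVH g hg hng hl2) hfg
    have hall : ∀ l', H.lt (x l') g := by
      intro l'
      have hne : x l' ≠ g := by
        rintro rfl
        exact hl2 ⟨l' + 1, hincH l'⟩
      rcases hHok.total _ (hxH l') g hg hne with h1 | h1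
      · exact h1
      · exact absurd ⟨l', h1⟩ hl2
    rcases hc with hc | ⟨l', hl', rfl⟩
    · left
      obtain ⟨hc1, hc2, hc3, Up, hUp1, hUp2⟩ := hc
      refine ⟨hg, hall, hfg, Up, hUp1, fun c' hc' => ⟨(hUp2 c' hc').1, ?_⟩⟩
      exact hHok.trans _ hg _ hc1 _ (hUp2 c' hc').1 hgc (hUp2 c' hc').2
    · exact absurd ⟨l', hgc⟩ hl2
  have hadd := add_up hF.1 hH1 hYF hYH hYinf hor hBH hBF hup hull
  have hBnot : ∀ b ∈ B, b ∉ F.cells := by
    intro b hb hbF
    exact hBF b hb k₀ ⟨b, hbF, k₀, rfl⟩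
  have hle : FLe F (addUp F H B) := by
    refine ⟨fun c hc => Or.inr hc, fun c hc c' hc' => ⟨fun h1 => Or.inr (Or.inr ⟨hc, hc', h1⟩), ?_⟩⟩
    rintro (⟨-, h1⟩ | ⟨h1, -⟩ | ⟨-, -, h1⟩)
    · exact absurd hc' (hBnot c' h1)
    · exact absurd hc (hBnot c h1)
    · exact h1
  have hBemp : ∀ b, b ∉ B := by
    intro b hb
    exact hBnot b hb (hF.2 _ hadd hle (Or.inl hb))
  refine (few_above H hHok R).subset ?_
  rintro c ⟨hc1, hc2, hc3⟩
  have hcH : c ∈ H.cells := hH2.1 hc1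
  have hcF : ¬ ∃ c' ∈ F.cells, range c' = range c := fun h1 => hc3 ⟨hc1, h1⟩
  refine ⟨hcH, fun hUp => ?_⟩
  exact hBemp c ⟨hcH, fun l => (hH2.2 _ (hxG l) c hc1).1 (hc2 l), hcF, hUp⟩

end Pool.H17.TC
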