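import Pool.Agent.H17.TC.GSq

/-!
# Cells of different maximal families do not form chain atoms
-/

set_option autoImplicit false

namespace Pool.H17.TC

open Pool.H22.VC Function Set Pool.H17.TA Pool.H17.TB

variable {r : ℕ} {K ι κ κ' : Type} {N : Col r K ℕ} {A : Set ℕ} {x : ℕ → κ → ℕ}

/-- the cells of the chain are ordered as their numbers -/
theorem LT_self (hP : PCh N A x) {n u v : ℕ} (h1 : n < u) (h2 : u < v) :
    LT N A x n (x u) (x v) := by
  refine ⟨v + 3, by omega, fun t ht htb => ?_⟩
  have h := v_relocs hP.hom (![u, v] : Fin 2 → ℕ) (fun s => n + 1 + (s : ℕ)) t ht (by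
    intro j p hp s
    have h3 := htb j p hp
    fin_cases s
    · show (p.1 < u ↔ p.1 < n + 1 + 0) ∧ (u < p.1 ↔ n + 1 + 0 < p.1)
      omega
    · show (p.1 < v ↔ p.1 < n + 1 + 1) ∧ (v < p.1 ↔ n + 1 + 1 < p.1)
      omega) (by
    intro s s'
    fin_cases s <;> fin_cases s'
    · show u < u ↔ n + 1 + 0 < n + 1 + 0
      omega
    · show u < v ↔ n + 1 + 0 < n + 1 + 1
      omega
    · show v < u ↔ n + 1 + 1 < n + 1 + 0
      omega
    · show v < v ↔ n + 1 + 1 < n + 1 + 1
      omega)
  refine Eq.trans ?_ h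
  congr 1
  funext j
  rcases t j with a | p | ⟨q, k⟩
  · rfl
  · rfl
  · fin_cases q <;> rfl

/-- only finitely many cells of `F` meet the support of `V` if few cells are common -/
theorem meet_supp_finite (hW : ¬ Wild N univ) (hN : (range N).Finite) [Finite κ] {F V : Fam κ}
    (hF : FN N F) (hV : FN N V) (hc : (Com F V).Finite) :
    {c | c ∈ F.cells ∧ ∃ k, c k ∈ V.supp}.Finite := by
  classical
  obtain ⟨k₀⟩ := hF.ok.nonempty
  have h1 := (exc_finite hW hN hF hV).image Prod.fst
  have h2 : (⋃ d ∈ Com F V, {c | c ∈ F.cells ∧ range c = range d}).Finite := by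
    refine hc.biUnion fun d _ => ?_
    refine Set.Subsingleton.finite ?_
    rintro c ⟨hc1, hc2⟩ c' ⟨hc1', hc2'⟩
    have h3 : c k₀ ∈ range c' := by
      rw [hc2', ← hc2]
      exact mem_range_self _
    obtain ⟨k, hk⟩ := h3
    exact (hF.ok.disj _ hc1' _ hc1 _ _ hk).symm
  refine (h1.union h2).subset ?_
  rintro c ⟨hcF, k, d, hd, k', hk'⟩
  by_cases he : range c = range d
  · right
    rw [mem_iUnion₂]
    exact ⟨d, ⟨hd, c, hcF, he⟩, hcF, he⟩
  · left
    exact ⟨(c, d), ⟨hcF, hd, ⟨c k, mem_range_self k, k', hk'⟩, he⟩, rfl⟩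

/-- The cells of different maximal families do not form a chain atom. PROOF. Suppose `lam` is a chain
atom. `exists_pure`, `g1`: a subsequence `x` of the cells is contained in a free family `V`, and
increasing in it. `V` has infinitely many common cells with at most one `F n` (`com_trans`, `hd`). Let
`Jmp` for `V`: `T`, `i`, `i'`, `ε ≠ ε'`, constants of `T` at most `a₀`. Choose `i₁` large, `n = ν i₁ ≥ a₀`
(number of the family of `x i₁`), such that `Com (F n) V` is finite and enough terms of `x` are before.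
Let `t₁`: place `i` at `x i₁`, place `i'` at the next term, `t₂`: place `i` at `x i₁`, place `i'` at the
preceding term; the lower places below, the upper ones above, all in `x`. So the colours are `ε` and
`ε'`. Move `x i₁ = y n l` in `F n` to a cell `y n l'` which is disjoint from `V.supp` (not common, not
exceptional) and from all points in question: this preserves the order of full cells of `F n`: such
a cell has a point among the constants (`≤ n`) or in a term `y n' m` with `n' < n` (`gap`), because the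
terms with `n' > n` are outside `(F n).supp` (`off`). The colours do not change. Now the place `i'`
can be moved in `V` from the next term to the preceding term: `ε = ε'`. -/
theorem not_ca (hW : ¬ Wild N univ) (hN : (range N).Finite) [Finite κ] {F : ℕ → Fam κ}
    (hF : ∀ n, FMax N (F n)) (hd : ∀ i j, i ≠ j → (Com (F i) (F j)).Finite)
    {y : ℕ → ℕ → κ → ℕ} (hy : GSq N F y) {A' : Set ℕ} (hA' : A'.Finite) {ι' : Type} [Finite ι']
    {e' : ℕ → ι' → ℕ} (hH' : Hom N A' e') {lam : κ → ι'} {ν lm : ℕ → ℕ} (hν : StrictMono ν)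
    (hl : ∀ i, lm i ≤ ν i) (h : ∀ i k, e' i (lam k) = y (ν i) (lm i) k) :
    ¬ CA N A' e' lam := by
  classical
  intro hca
  obtain ⟨A'', φ₀, -, hφ₀, hP, hMG⟩ := exists_pure hW hH' hA' hca
  obtain ⟨x, hxdef⟩ : ∃ x : ℕ → κ → ℕ, x = fun i k => e' (φ₀ i) (lam k) := ⟨_, rfl⟩
  rw [← hxdef] at hP hMG
  -- families of the terms
  obtain ⟨μ, hμ⟩ : ∃ μ : ℕ → ℕ, μ = fun i => ν (φ₀ i) := ⟨_, rfl⟩
  obtain ⟨ml, hml⟩ : ∃ ml : ℕ → ℕ, ml = fun i => lm (φ₀ i) := ⟨_, rfl⟩
  have hμm : StrictMono μ := by
    rw [hμ]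
    exact hν.comp hφ₀
  have hmle : ∀ i, ml i ≤ μ i := by
    intro i
    rw [hμ, hml]
    exact hl _
  have hxy : ∀ i, x i = y (μ i) (ml i) := by
    intro i
    funext k
    rw [hxdef, hμ, hml]
    exact h _ _
  obtain ⟨nV, hnV⟩ := g1 hW hN hP hMG
  obtain ⟨V, hV, hVV, hXV, -, hVlt⟩ := hnV nV le_rfl {c | ∃ l, nV < l ∧ c = x l} (by
    rintro _ ⟨l, hl, rfl⟩
    exact VV_self hP hl) (by
    rintro _ ⟨l, hl, rfl⟩ _ ⟨l', hl', rfl⟩ hr
    obtain ⟨k₀⟩ := hP.ca.nonempty hP.hom
    have h1 : x l k₀ ∈ range (x l') := by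
      rw [← hr]
      exact mem_range_self _
    obtain ⟨k, hk⟩ := h1
    rw [(hP.hom.inj _ _ _ _ hk).1])
  have hxV : ∀ l, nV < l → x l ∈ V.cells := fun l hl => hXV ⟨l, hl, rfl⟩
  have hlt : ∀ u v, nV < u → u < v → V.lt (x u) (x v) := by
    intro u v h1 h2
    rw [hVlt]
    exact LT_self hP h1 h2
  have hlt' : ∀ u v, nV < u → nV < v → V.lt (x u) (x v) → u < v := by
    intro u v h1 h2 h3
    rcases lt_trichotomy u v with h4 | h4 | h4
    · exact h4
    · subst h4
      exact absurd h3 (hV.ok.irr _ (hxV u h1))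
    · exact absurd (hV.ok.trans _ (hxV u h1) _ (hxV v h2) _ (hxV u h1) h3 (hlt v u h2 h4))
        (hV.ok.irr _ (hxV u h1))
  obtain ⟨k₀⟩ := hV.ok.nonempty
  have hxinj : ∀ u v, x u = x v → u = v := by
    intro u v h1
    have := congrFun h1 k₀
    exact (hP.hom.inj _ _ _ _ this).1
  -- at most one family has infinitely many common cells with `V`
  obtain ⟨ns, hns⟩ : ∃ ns, ∀ n, n ≠ ns → (Com (F n) V).Finite := by
    by_cases h1 : ∃ n, (Com (F n) V).Infinite
    · obtain ⟨n, hn⟩ := h1
      refine ⟨n, fun m hm => ?_⟩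
      by_contra hcon
      exact com_trans hW hN (hF m) (hF n) hV hcon hn (hd m n hm)
    · refine ⟨0, fun n _ => ?_⟩
      by_contra hcon
      exact h1 ⟨n, hcon⟩
  obtain ⟨p, T, i, i', ε, ε', hJ⟩ := exists_jmp hV
  have hii' : (i' : ℕ) = (i : ℕ) + 1 := hJ.succ
  have hipf : (i' : ℕ) < p := i'.2
  -- constants of the template
  have hCt : {a | ∃ j, T j = Sum.inl a}.Finite := by
    have h1 : (range T).Finite := Set.finite_range T
    refine (h1.preimage (f := (Sum.inl : ℕ → ℕ ⊕ (Fin p × κ)))
      Sum.inl_injective.injOn).subset ?_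
    rintro a ⟨j, hj⟩
    exact ⟨j, hj⟩
  obtain ⟨a₀, ha₀⟩ := hCt.bddAbove
  -- the place `i₁`
  obtain ⟨i₁, hi₁⟩ : ∃ i₁, i₁ = nV + p + ns + a₀ + 3 := ⟨_, rfl⟩
  have hi₁μ : i₁ ≤ μ i₁ := hμm.id_le i₁
  obtain ⟨n₁, hn₁⟩ : ∃ n₁, n₁ = μ i₁ := ⟨_, rfl⟩
  have hFn := (hF n₁).1
  have hfin : (Com (F n₁) V).Finite := hns n₁ (by omega)
  have hx₁ : x i₁ = y n₁ (ml i₁) := by
    rw [hxy, hn₁]
  have hx₁F : x i₁ ∈ (F n₁).cells := by
    rw [hx₁]
    exact hy.mem _ _
  -- the new cell `z`
  obtain ⟨l', hl'⟩ : ∃ l', (∀ k, y n₁ l' k ∉ V.supp) ∧ ∀ k j, T j ≠ Sum.inl (y n₁ l' k) := by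
    have h1 := meet_supp_finite hW hN hFn hV hfin
    have h2 := meet_finite hFn.ok hCt
    have h3 : {l | y n₁ l ∈ {c | c ∈ (F n₁).cells ∧ ∃ k, c k ∈ V.supp} ∪
        {c | c ∈ (F n₁).cells ∧ ∃ k, c k ∈ {a | ∃ j, T j = Sum.inl a}}}.Finite :=
      (h1.union h2).preimage (fun a _ b _ hab => hy.inj n₁ a b hab)
    obtain ⟨l', -, h4⟩ := Set.infinite_univ.exists_notMem_finite h3
    refine ⟨l', fun k hk => h4 (Or.inl ⟨hy.mem _ _, k, hk⟩), fun k j hj => h4 (Or.inr
      ⟨hy.mem _ _, k, j, hj⟩)⟩
  obtain ⟨z, hz⟩ : ∃ z, z = y n₁ l' := ⟨_, rfl⟩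
  rw [← hz] at hl'
  obtain ⟨hzV, hzT⟩ := hl'
  have hzF : z ∈ (F n₁).cells := by
    rw [hz]
    exact hy.mem _ _
  let T' : Fin r → ℕ ⊕ (Fin p × κ) := fun j =>
    Sum.elim Sum.inl (fun q => if q.1 = i then Sum.inl (z q.2) else Sum.inr q) (T j)
  -- moving `x i₁` to `z` in `F n₁`
  have hmove : ∀ b : Fin p → ℕ, (∀ s, nV < b s) → b i = i₁ → (∀ s, s ≠ i → b s ≠ i₁) →
      N (ap T (fun s => x (b s))) = N (ap T' (fun s => x (b s))) := by
    intro b hb hbi hbne
    let φ : (κ → ℕ) → (κ → ℕ) := fun c => if c = x i₁ then z else c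
    have hφ1 : φ (x i₁) = z := if_pos rfl
    have hφo : ∀ c, c ≠ x i₁ → φ c = c := fun c hc => if_neg hc
    have hused : ∀ c, Used (F n₁) (ap T (fun s => x (b s))) c → c = x i₁ ∨
        ∀ l l', ¬ Bw (F n₁) (y n₁ l) c (y n₁ l') := by
      rintro c ⟨hc, j, k, hjk⟩
      unfold ap at hjk
      rcases hTj : T j with a | ⟨s, k'⟩
      · right
        rw [hTj] at hjk
        have h1 : a = c k := hjk
        have h2 : a ≤ a₀ := ha₀ ⟨j, hTj⟩
        intro l l'
        exact hy.gap n₁ l l' c hc ⟨k, Or.inl (by omega)⟩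
      · rw [hTj] at hjk
        have h1 : x (b s) k' = c k := hjk
        rcases lt_trichotomy (b s) i₁ with h2 | h2 | h2
        · right
          intro l l'
          refine hy.gap n₁ l l' c hc ⟨k, Or.inr ⟨μ (b s), ?_, ml (b s), hmle _, k', ?_⟩⟩
          · rw [hn₁]
            exact hμm h2
          · rw [← h1, hxy]
        · left
          rw [h2] at h1
          exact (hFn.ok.disj _ hx₁F _ hc _ _ h1).symm
        · exfalso
          have h3 := hy.off (μ (b s)) (ml (b s)) k' n₁ (by rw [hn₁]; exact hμm h2)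
          apply h3
          rw [← hxy]
          exact ⟨c, hc, k, h1.symm⟩
    have hzu : ¬ Used (F n₁) (ap T (fun s => x (b s))) z := by
      rintro ⟨-, j, k, hjk⟩
      unfold ap at hjk
      rcases hTj : T j with a | ⟨s, k'⟩
      · rw [hTj] at hjk
        have h1 : a = z k := hjk
        exact hzT k j (by rw [hTj, h1])
      · rw [hTj] at hjk
        have h1 : x (b s) k' = z k := hjk
        exact hzV k ⟨_, hxV _ (hb s), k', h1⟩
    have hfull : ∀ c, Full (F n₁) (ap T (fun s => x (b s))) c →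
        Used (F n₁) (ap T (fun s => x (b s))) c := by
      rintro c ⟨hc, h4⟩
      obtain ⟨j, hj⟩ := h4 k₀
      exact ⟨hc, j, k₀, hj⟩
    have hMv : Mv (F n₁) (ap T (fun s => x (b s))) φ := by
      constructor
      · intro c hc
        by_cases h1 : c = x i₁
        · rw [h1, hφ1]
          exact hzF
        · rw [hφo c h1]
          exact hc.1
      · intro c c' hc hc' he
        by_cases h1 : c = x i₁
        · by_cases h2 : c' = x i₁
          · rw [h1, h2]
          · rw [h1, hφ1, hφo c' h2] at he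
            rw [he] at hzu
            exact absurd hc' hzu
        · by_cases h2 : c' = x i₁
          · rw [h2, hφ1, hφo c h1] at he
            rw [← he] at hzu
            exact absurd hc hzu
          · rw [hφo c h1, hφo c' h2] at he
            exact he
    have hMon : Mon (F n₁) (ap T (fun s => x (b s))) φ := by
      intro c c' hc hc' hcc
      by_cases h1 : c = x i₁
      · by_cases h2 : c' = x i₁
        · rw [h1, h2] at hcc
          exact absurd hcc (hFn.ok.irr _ hx₁F)
        · rw [h1, hφ1, hφo c' h2]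
          rw [h1] at hcc
          have h3 := ((hused c' (hfull c' hc')).resolve_left h2) (ml i₁) l'
          rw [← hx₁, ← hz] at h3
          rcases hFn.ok.total z hzF c' hc'.1 (fun e => by
            rw [e] at hzu
            exact hzu (hfull c' hc')) with h4 | h4
          · exact h4
          · exact absurd (Or.inl ⟨hcc, h4⟩) h3
      · by_cases h2 : c' = x i₁
        · rw [h2, hφ1, hφo c h1]
          rw [h2] at hcc
          have h3 := ((hused c (hfull c hc)).resolve_left h1) (ml i₁) l'
          rw [← hx₁, ← hz] at h3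
          rcases hFn.ok.total c hc.1 z hzF (fun e => by
            rw [← e] at hzu
            exact hzu (hfull c hc)) with h4 | h4
          · exact h4
          · exact absurd (Or.inr ⟨h4, hcc⟩) h3
        · rw [hφo c h1, hφo c' h2]
          exact hcc
    rw [← hFn.free _ φ hMv hMon]
    congr 1
    funext j
    unfold ap
    rcases hTj : T j with a | ⟨s, k'⟩
    · simp only [T', hTj, Sum.elim_inl]
      refine Fam.mv_fix hFn.ok φ fun c hc hk => ?_
      obtain ⟨k, hk⟩ := hk
      refine hφo c (fun e => ?_)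
      rw [e] at hk
      exact hJ.out j a hTj ⟨x i₁, hxV _ (by omega), k, hk⟩
    · simp only [T', hTj, Sum.elim_inr]
      by_cases hs : s = i
      · rw [if_pos hs, hs, hbi]
        show (F n₁).mv φ (x i₁ k') = z k'
        rw [Fam.mv_cell hFn.ok φ hx₁F, hφ1]
      · rw [if_neg hs]
        show (F n₁).mv φ (x (b s) k') = x (b s) k'
        refine Fam.mv_fix hFn.ok φ fun c hc hk => ?_
        obtain ⟨k, hk⟩ := hk
        refine hφo c (fun e => ?_)
        rw [e] at hk
        exact hbne s hs (hP.hom.inj _ _ _ _ hk).1.symm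
  -- the two sequences of numbers
  let a : Fin p → ℕ := fun s => if (s : ℕ) < i then i₁ + s - i - 1 else i₁ + s - i
  let b : Fin p → ℕ := fun s => if s = i' then i₁ - 1 else a s
  have ha1 : ∀ s, nV < a s := by
    intro s
    have := s.2
    have := i.2
    simp only [a]
    split_ifs <;> omega
  have ha2 : a i = i₁ := by
    simp only [a]
    rw [if_neg (lt_irrefl _)]
    omega
  have ha3 : ∀ s s' : Fin p, s < s' → a s < a s' := by
    intro s s' hs
    have h1 : (s : ℕ) < (s' : ℕ) := hs
    have := s'.2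
    have := i.2
    simp only [a]
    split_ifs <;> omega
  have hi'i : i' ≠ i := by
    intro e
    rw [e] at hii'
    omega
  have hb1 : ∀ s, nV < b s := by
    intro s
    simp only [b]
    split_ifs
    · omega
    · exact ha1 s
  have hb2 : b i = i₁ := by
    simp only [b]
    rw [if_neg (Ne.symm hi'i), ha2]
  have hane : ∀ s, s ≠ i → a s ≠ i₁ := by
    intro s hs e
    rcases lt_or_gt_of_ne hs with h1 | h1
    · have := ha3 _ _ h1
      omega
    · have := ha3 _ _ h1
      omega
  have hbne : ∀ s, s ≠ i → b s ≠ i₁ := by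
    intro s hs
    simp only [b]
    split_ifs
    · omega
    · exact hane s hs
  have hInc1 : Inc V (fun s => x (a s)) := ⟨fun s => hxV _ (ha1 s), fun s s' hs =>
    hlt _ _ (ha1 s) (ha3 s s' hs)⟩
  have e1 : N (ap T (fun s => x (a s))) = ε := hJ.inc _ hInc1
  have e2 : N (ap T (fun s => x (b s))) = ε' := by
    let a3 : Fin p → ℕ := fun s => if s = i then i₁ - 1 else if s = i' then i₁ else a s
    have h1 : ∀ s s' : Fin p, s < s' → a3 s < a3 s' := by
      intro s s' hs
      have g1 : (s : ℕ) < (s' : ℕ) := hs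
      have := s'.2
      have := i.2
      simp only [a3, a]
      split_ifs with h1 h2 h3 h4 h5 h6 h7 h8 <;>
        first
        | omega
        | (simp only [Fin.ext_iff] at *; omega)
    have h2 : ∀ s, nV < a3 s := by
      intro s
      simp only [a3]
      split_ifs
      · omega
      · omega
      · exact ha1 s
    have h3 : (fun s => x (b s)) = fun s => (fun s => x (a3 s)) (Equiv.swap i i' s) := by
      funext s
      show x (b s) = x (a3 (Equiv.swap i i' s))
      congr 1
      by_cases h4 : s = i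
      · rw [h4, Equiv.swap_apply_left, hb2]
        simp [a3, hi'i]
      · by_cases h5 : s = i'
        · rw [h5, Equiv.swap_apply_right]
          simp [a3, b]
        · rw [Equiv.swap_apply_of_ne_of_ne h4 h5]
          simp only [a3, b]
          rw [if_neg h4, if_neg h5, if_neg h5]
    rw [h3]
    exact hJ.swp _ ⟨fun s => hxV _ (h2 s), fun s s' hs => hlt _ _ (h2 s) (h1 s s' hs)⟩
  apply hJ.ne
  rw [← e1, ← e2, hmove a ha1 ha2 hane, hmove b hb1 hb2 hbne]
  -- the move in `V`
  have hbinj : Injective b := by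
    intro s s' hs
    by_contra hne
    have hcase : ∀ s s' : Fin p, s < s' → b s ≠ b s' := by
      intro s s' hs
      have g1 : (s : ℕ) < (s' : ℕ) := hs
      have := s'.2
      have := i.2
      simp only [b, a]
      split_ifs with h1 h2 h3 h4 h5 h6 h7 h8 <;>
        first
        | omega
        | (simp only [Fin.ext_iff] at *; omega)
    rcases lt_or_gt_of_ne hne with h1 | h1
    · exact hcase _ _ h1 hs
    · exact hcase _ _ h1 hs.symm
  refine ap_free hV T' ?_ (fun s => x (a s)) (fun s => x (b s)) (fun s => hxV _ (ha1 s))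
    (fun s => hxV _ (hb1 s)) ?_ (fun s s' hs => hbinj (hxinj _ _ hs)) ?_
  · intro j c hj
    rcases hTj : T j with a' | q
    · simp only [T', hTj, Sum.elim_inl, Sum.inl.injEq] at hj
      rw [← hj]
      exact hJ.out j a' hTj
    · simp only [T', hTj, Sum.elim_inr] at hj
      split_ifs at hj with hq
      · rw [← Sum.inl.inj hj]
        exact hzV _
  · intro s s' hs
    have h1 := hxinj _ _ hs
    by_contra hne
    rcases lt_or_gt_of_ne hne with h2 | h2
    · have := ha3 _ _ h2
      omega
    · have := ha3 _ _ h2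
      omega
  · intro s s' hs hs' hss
    have hsi : ∀ s : Fin p, (∀ k, ∃ j, T' j = Sum.inr (s, k)) → s ≠ i := by
      intro s hs e
      obtain ⟨j, hj⟩ := hs k₀
      rcases hTj : T j with a' | q
      · simp [T', hTj] at hj
      · simp only [T', hTj, Sum.elim_inr] at hj
        split_ifs at hj with hq
        · rw [Sum.inr.inj hj] at hq
          exact hq e
    have n1 := hsi s hs
    have n2 := hsi s' hs'
    have h1 : a s < a s' := hlt' _ _ (ha1 s) (ha1 s') hss
    refine hlt _ _ (hb1 s) ?_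
    have g0 : s ≠ s' := fun e => by rw [e] at h1; omega
    have g1 : (s : ℕ) < (s' : ℕ) := by
      rcases lt_or_gt_of_ne g0 with h2 | h2
      · exact h2
      · have := ha3 _ _ h2
        omega
    have := s'.2
    have := i.2
    simp only [b, a]
    split_ifs with h1 h2 h3 h4 h5 h6 h7 h8 <;>
      first
      | omega
      | (simp only [Fin.ext_iff, ne_eq] at *; omega)

end Pool.H17.TC
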