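import Pool.Agent.H17.TC.Qp
import Pool.Agent.H17.TC.NotCa

/-!
# No atom meets cells of different maximal families
-/

set_option autoImplicit false

namespace Pool.H17.TC

open Pool.H22.VC Function Set Pool.H17.TA Pool.H17.TB

variable {r : ℕ} {K ι κ κ' : Type} {N : Col r K ℕ} {A : Set ℕ} {x : ℕ → κ → ℕ}

/-- TRANS. No atom meets cells of different maximal families. PROOF. Suppose `T` meets `lam`. By `qp`
`range lam ⊆ range T`. `exists_pure` and `g1` for `T`: a subsequence of the cells `e' i ∘ T` is in a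
free family `V`, `card κ'' ≤ r` (`FN.card_le`). The cell `y (ν i) (lm i)` is deep in `F (ν i)` and meets
`e' i ∘ T ∈ V`, so by `ol` `range (e' i ∘ T) ⊆ range (y (ν i) (lm i))`. So `T` and `lam` have the same
range, and `lam` is a chain atom (`CA.equiv`-like): contradiction to `not_ca`. -/
theorem trans (hW : ¬ Wild N univ) (hN : (range N).Finite) [Finite κ] {F : ℕ → Fam κ}
    (hF : ∀ n, FMax N (F n)) (hd : ∀ i j, i ≠ j → (Com (F i) (F j)).Finite)
    {y : ℕ → ℕ → κ → ℕ} (hy : GSq N F y) {A' : Set ℕ} (hA' : A'.Finite) {ι' κ'' : Type}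
    [Finite ι'] [Finite κ''] {e' : ℕ → ι' → ℕ} (hH' : Hom N A' e') {lam : κ → ι'}
    {ν lm : ℕ → ℕ} (hν : StrictMono ν) (hl : ∀ i, lm i ≤ ν i)
    (h : ∀ i k, e' i (lam k) = y (ν i) (lm i) k) {T : κ'' → ι'} (hT : CA N A' e' T) :
    Disjoint (range T) (range lam) := by
  classical
  by_contra hnd
  rw [Set.not_disjoint_iff] at hnd
  obtain ⟨d₀, hd₀T, hd₀l⟩ := hnd
  have hcell : ∀ i, (fun k => e' i (lam k)) = y (ν i) (lm i) := fun i => funext (h i)
  have hcell' : ∀ i, (fun k => e' i (lam k)) ∈ (F (ν i)).cells := fun i => by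
    rw [hcell i]
    exact hy.mem _ _
  have hsub : range lam ⊆ range T :=
    qp hW hN (fun n => (hF n).1) hA' hH' hcell' hT ⟨d₀, hd₀T, hd₀l⟩
  -- a free family containing a subsequence of `T`
  obtain ⟨A'', φ, hAA, hφ, hPC, hMG⟩ := exists_pure hW hH' hA' hT
  obtain ⟨n₀, hn₀⟩ := g1 hW hN hPC hMG
  obtain ⟨k₁⟩ := hT.nonempty hH'
  obtain ⟨V, hV, -, hXV, -, -⟩ := hn₀ n₀ le_rfl {c | ∃ l, n₀ < l ∧ c = fun k => e' (φ l) (T k)}
    (by
      rintro c ⟨l, hl, rfl⟩
      exact VV_self hPC hl) (by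
      rintro c ⟨l, hl, rfl⟩ c' ⟨l', hl', rfl⟩ hr
      have h1 : e' (φ l) (T k₁) ∈ range (fun k => e' (φ l') (T k)) := by
        rw [← hr]
        exact ⟨k₁, rfl⟩
      obtain ⟨k, hk⟩ := h1
      have h2 := (hH'.inj _ _ _ _ hk).1
      rw [hφ.injective h2])
  have hcard := hV.card_le
  have hf : (fun k => e' (φ (n₀ + 1)) (T k)) ∈ V.cells := hXV ⟨n₀ + 1, Nat.lt_succ_self _, rfl⟩
  obtain ⟨i, hi⟩ : ∃ i, i = φ (n₀ + 1) := ⟨_, rfl⟩
  rw [← hi] at hf
  have hdeep : Deep (F (ν i)) (r + Nat.card κ'' + 1) (fun k => e' i (lam k)) := by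
    rw [hcell i]
    obtain ⟨Lo, Up, h1, h2, h3, h4⟩ := hy.deep (ν i) (lm i)
    exact ⟨Lo, Up, by omega, by omega, h3, h4⟩
  have hol := ol hW hN hV (hF (ν i)).1 (hcell' i) hdeep hf (by
    obtain ⟨k, hk⟩ := hd₀T
    obtain ⟨k', hk'⟩ := hd₀l
    exact ⟨e' i d₀, ⟨k, by rw [← hk]⟩, ⟨k', by rw [← hk']⟩⟩)
  have hsub' : range T ⊆ range lam := by
    rintro _ ⟨k, rfl⟩
    obtain ⟨k', hk'⟩ := hol ⟨k, rfl⟩
    exact ⟨k', (hH'.inj _ _ _ _ hk').2⟩
  have hr : range lam = range T := Subset.antisymm hsub hsub'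
  have hli : Injective lam := by
    intro k k' hk
    apply (hF (ν i)).1.ok.inj _ (hcell' i)
    show e' i (lam k) = e' i (lam k')
    rw [hk]
  -- the bijection
  have hex : ∀ k, ∃ k', T k' = lam k := fun k => hsub ⟨k, rfl⟩
  choose g hg using hex
  have hgb : Bijective g := by
    constructor
    · intro k k' hk
      apply hli
      rw [← hg, ← hg, hk]
    · intro k'
      obtain ⟨k, hk⟩ := hsub' ⟨k', rfl⟩
      refine ⟨k, hT.inj ?_⟩
      rw [hg, hk]
  have hca := hT.equiv hH' (Equiv.ofBijective g hgb)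
  have e1 : (fun k => T (Equiv.ofBijective g hgb k)) = lam := by
    funext k
    exact hg k
  rw [e1] at hca
  exact not_ca hW hN hF hd hy hA' hH' hν hl h hca

end Pool.H17.TC
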