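import Pool.Agent.H17.TC.Em
import Pool.Agent.H17.TC.Trans

/-!
# 6e : a substructure without chain atoms
-/

set_option autoImplicit false

namespace Pool.H17.TC

open Pool.H22.VC Function Set Pool.H17.TA Pool.H17.TB

variable {r : ℕ} {K ι κ κ' : Type} {N : Col r K ℕ} {A : Set ℕ} {e : ℕ → ι → ℕ}

/-- the constants outside `S`, the cells `y (φ k) l`, `l ≤ φ k`, and a set `C` -/
def DD (φ : ℕ → ℕ) (c : ℕ → Fin r → ℕ) (S : Set (Fin r)) (y : ℕ → ℕ → κ → ℕ) (C : Set ℕ) : Set ℕ :=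
  C ∪ {a | ∃ k, (∃ j, j ∉ S ∧ a = c (φ k) j) ∨ ∃ l ≤ φ k, ∃ u, a = y (φ k) l u}

/-- an infinite set of indices on which `k` takes every value finitely often -/
private theorem prd_sub {I : Set ℕ} (hI : I.Infinite) (k : ℕ → ℕ)
    (hk : ∀ M, {i | i ∈ I ∧ k i = M}.Finite) :
    ∃ ψ : ℕ → ℕ, StrictMono ψ ∧ (∀ n, ψ n ∈ I) ∧ StrictMono (fun n => k (ψ n)) := by
  classical
  have h0 : StrictMono (Nat.nth (fun i => i ∈ I)) := Nat.nth_strictMono hI
  have h1 : ∀ n, Nat.nth (fun i => i ∈ I) n ∈ I := fun n => Nat.nth_mem_of_infinite hI n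
  obtain ⟨φ, hφ, h⟩ := sub_one (fun n => k (Nat.nth (fun i => i ∈ I) n))
  rcases h with ⟨a, ha⟩ | h
  · exfalso
    have h2 : (range (fun n => Nat.nth (fun i => i ∈ I) (φ n))).Infinite :=
      Set.infinite_range_of_injective ((h0.comp hφ).injective)
    refine h2 ((hk a).subset ?_)
    rintro _ ⟨n, rfl⟩
    exact ⟨h1 _, ha n⟩
  · exact ⟨fun n => Nat.nth (fun i => i ∈ I) (φ n), h0.comp hφ, fun n => h1 _, h⟩

/-- common extension of two homogeneous sequences -/
private theorem prd_norm (hN : (range N).Finite) {ι₁ ι₂ : Type} [Finite ι₁] [Finite ι₂]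
    {A₁ A₂ : Set ℕ} {e₁ : ℕ → ι₁ → ℕ} {e₂ : ℕ → ι₂ → ℕ} (hA₁ : A₁.Finite) (hA₂ : A₂.Finite)
    (h₁ : ∀ i j c d, e₁ i c = e₁ j d → i = j ∧ c = d)
    (h₂ : ∀ i j c d, e₂ i c = e₂ j d → i = j ∧ c = d) :
    ∃ (A'' : Set ℕ) (φ : ℕ → ℕ) (m : ℕ) (e'' : ℕ → Fin m → ℕ) (lam₁ : ι₁ → Fin m)
      (lam₂ : ι₂ → Fin m), A''.Finite ∧ A₁ ⊆ A'' ∧ A₂ ⊆ A'' ∧ StrictMono φ ∧ Hom N A'' e'' ∧
      (∀ i c, e'' i (lam₁ c) = e₁ (φ i) c) ∧ ∀ i c, e'' i (lam₂ c) = e₂ (φ i) c := by
  classical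
  obtain ⟨k, ⟨E⟩⟩ := Finite.exists_equiv_fin ι₁
  obtain ⟨k', ⟨E'⟩⟩ := Finite.exists_equiv_fin ι₂
  obtain ⟨A', φ, m, e', χ, g1, g2, g3, g4, g5, -, g7⟩ := norm (N := N) (A := A₁ ∪ A₂) hN
    (hA₁.union hA₂) (fun i => Fin.append (fun c : Fin k => e₁ i (E.symm c))
      (fun c : Fin k' => e₂ i (E'.symm c)))
  have h8 : ∀ c : ι₁, ∃ d : Fin m, χ (Fin.castAdd k' (E c)) = Sum.inr d := by
    intro c
    rcases hc : χ (Fin.castAdd k' (E c)) with a | d
    · exfalso
      have g : ∀ i, e₁ (φ i) c = a := by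
        intro i
        have g1 := g7 i (Fin.castAdd k' (E c))
        rw [hc, Fin.append_left, E.symm_apply_apply] at g1
        exact g1
      have g2 := (h₁ _ _ _ _ ((g 0).trans (g 1).symm)).1
      exact absurd (g3.injective g2) (by omega)
    · exact ⟨d, rfl⟩
  have h9 : ∀ c : ι₂, ∃ d : Fin m, χ (Fin.natAdd k (E' c)) = Sum.inr d := by
    intro c
    rcases hc : χ (Fin.natAdd k (E' c)) with a | d
    · exfalso
      have g : ∀ i, e₂ (φ i) c = a := by
        intro i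
        have g1 := g7 i (Fin.natAdd k (E' c))
        rw [hc, Fin.append_right, E'.symm_apply_apply] at g1
        exact g1
      have g2 := (h₂ _ _ _ _ ((g 0).trans (g 1).symm)).1
      exact absurd (g3.injective g2) (by omega)
    · exact ⟨d, rfl⟩
  choose lam hlam using h8
  choose lam' hlam' using h9
  refine ⟨A', φ, m, e', lam, lam', g1, subset_union_left.trans g2, subset_union_right.trans g2,
    g3, g4, fun i c => ?_, fun i c => ?_⟩
  · have q1 := g7 i (Fin.castAdd k' (E c))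
    rw [hlam, Fin.append_left, E.symm_apply_apply] at q1
    exact q1.symm
  · have q1 := g7 i (Fin.natAdd k (E' c))
    rw [hlam', Fin.append_right, E'.symm_apply_apply] at q1
    exact q1.symm

/-- 6e. PROOF. Suppose `τ`, `τ'` do not commute. By `c1'` a subtuple `T` of `τ` is a chain atom; let `T k₀`
be one of its letters (the labels are not empty: `CA.nperp`). For large `i` the point
`e i (T k₀)` is not in the finite set `C`. Pass to a subsequence (`Hom.sub`; `CA` by `teq_sub`) for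
which one case of `DD` always occurs with fixed `j` resp. `u`, and with strictly increasing `k`
(`e i (T k₀)` are different points; for every `k` there are only finitely many points). CASE 1:
`e i (T k₀) = y (φ (k i)) (l i) u`: extend `e` by the cells `y (φ (k i)) (l i)` (`exists_ext`; they are
letters `lam`, because the points `y n l u` with different `n` are different, `GSq.off`): the letter of
`T k₀` is `lam u`, `T` is a chain atom in the extension (`CA.ext`): contradiction to `trans`. CASE 2: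
`e i (T k₀) = c (φ (k i)) j`, `j ∉ AL`: `norm` for the tuples (`e' (k i)`, `e i`) over `A' ∪ A`: an
extension `e''` of both; `χ j` is a letter `l` (otherwise `e i (T k₀)` would be constant), and `mu l` is
the letter of `T k₀`, which lies in a chain atom of `e''` (`CA.ext`): contradiction to `EM.off`. -/
theorem perp_D (hW : ¬ Wild N univ) (hN : (range N).Finite) [Finite κ] {F : ℕ → Fam κ}
    (hF : ∀ n, FMax N (F n)) (hd : ∀ i j, i ≠ j → (Com (F i) (F j)).Finite)
    {y : ℕ → ℕ → κ → ℕ} (hy : GSq N F y) {c : ℕ → Fin r → ℕ} {A' : Set ℕ} {φ : ℕ → ℕ} {m : ℕ}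
    {e' : ℕ → Fin m → ℕ} {χ : Fin r → ℕ ⊕ Fin m} (hE : EM N c A' φ e' χ) {C : Set ℕ}
    (hC : C.Finite) (hA : A.Finite) [Finite ι] (hH : Hom N A e)
    (hD : ∀ i l, e i l ∈ DD φ c (AL N A' e' χ) y C) {κ₁ κ₂ : Type} [Finite κ₁] [Finite κ₂]
    (τ : κ₁ → ι) (τ' : κ₂ → ι) : Perp N A e τ τ' := by
  classical
  suffices hid : Perp N A e (id : ι → ι) (id : ι → ι) from Perp.comp hH hid τ τ'
  by_contra hnp
  obtain ⟨s, -, hT, -, -⟩ := c1' hW hH hA (injective_id : Injective (id : ι → ι))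
    (injective_id : Injective (id : ι → ι)) hnp
  obtain ⟨k₀⟩ := hT.nonempty hH
  -- rename the labels
  obtain ⟨nT, ⟨ET⟩⟩ := Finite.exists_equiv_fin s
  have hT' : CA N A e (fun k : Fin nT => res s (id : ι → ι) (ET.symm k)) := hT.equiv hH ET.symm
  obtain ⟨T, hTdef⟩ : ∃ T : Fin nT → ι, T = fun k : Fin nT => res s (id : ι → ι) (ET.symm k) :=
    ⟨_, rfl⟩
  rw [← hTdef] at hT'
  obtain ⟨p₀, hp₀⟩ : ∃ p₀ : Fin nT, p₀ = ET k₀ := ⟨_, rfl⟩
  obtain ⟨l₀, hl₀⟩ : ∃ l₀ : ι, l₀ = T p₀ := ⟨_, rfl⟩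
  have hai : Injective (fun i => e i l₀) := fun i j hij => (hH.inj _ _ _ _ hij).1
  -- the cases
  have hbase : ∀ i, ∃ p : (κ ⊕ Fin r) × ℕ, e i l₀ ∈ C ∨
      (∃ u, p.1 = Sum.inl u ∧ ∃ l ≤ φ p.2, e i l₀ = y (φ p.2) l u) ∨
      (∃ j, p.1 = Sum.inr j ∧ j ∉ AL N A' e' χ ∧ e i l₀ = c (φ p.2) j) ∨ e i l₀ ∈ C := by
    intro i
    have h := hD i l₀
    rcases h with h | ⟨k, ⟨j, hj, h⟩ | ⟨l, hl, u, h⟩⟩
    · by_cases hr : Nonempty (κ ⊕ Fin r)
      · exact ⟨(hr.some, 0), Or.inl h⟩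
      · have : r = 0 := by
          by_contra h0
          exact hr ⟨Sum.inr ⟨0, Nat.pos_of_ne_zero h0⟩⟩
        subst this
        exact absurd (Perp.comp (r := 0) hH (by
          intro f b b' hb hb' hz hz' t ht
          exact congrArg N (Subsingleton.elim _ _)) (id : ι → ι) (id : ι → ι)) hnp
    · exact ⟨(Sum.inr j, k), Or.inr (Or.inr (Or.inl ⟨j, rfl, hj, h⟩))⟩
    · exact ⟨(Sum.inl u, k), Or.inr (Or.inl ⟨u, rfl, l, hl, h⟩)⟩
  choose p hp using hbase
  -- infinitely many indices outside `C`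
  have hCf : {i | e i l₀ ∈ C}.Finite := hC.preimage (fun i _ j _ hij => hai hij)
  obtain ⟨w, hw⟩ : ∃ w : κ ⊕ Fin r, {i | i ∈ {i | e i l₀ ∈ C}ᶜ ∧ (p i).1 = w}.Infinite := by
    by_contra hcon
    push Not at hcon
    have h1 : ({i | e i l₀ ∈ C}ᶜ).Infinite := hCf.infinite_compl
    apply h1
    have h2 : ({i | e i l₀ ∈ C}ᶜ) ⊆ ⋃ w : κ ⊕ Fin r,
        {i | i ∈ {i | e i l₀ ∈ C}ᶜ ∧ (p i).1 = w} := by
      intro i hi
      exact Set.mem_iUnion.2 ⟨(p i).1, hi, rfl⟩
    refine (Set.finite_iUnion (fun w => ?_)).subset h2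
    exact hcon w
  rcases w with u | j
  · -- CASE 1
    have hcase : ∀ i ∈ {i | i ∈ {i | e i l₀ ∈ C}ᶜ ∧ (p i).1 = Sum.inl u},
        ∃ l ≤ φ (p i).2, e i l₀ = y (φ (p i).2) l u := by
      rintro i ⟨hi1, hi2⟩
      rcases hp i with h | ⟨u', h1, h2⟩ | ⟨j, h1, -⟩ | h
      · exact absurd h hi1
      · rw [hi2] at h1
        obtain rfl := Sum.inl.inj h1
        exact h2
      · rw [hi2] at h1
        exact absurd h1 (by simp)
      · exact absurd h hi1
    obtain ⟨ψ, hψ, hψI, hkψ⟩ := prd_sub hw (fun i => (p i).2) (by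
      intro M
      have h1 : (⋃ l ∈ Set.Iic (φ M), {i | e i l₀ = y (φ M) l u}).Finite := by
        refine Set.Finite.biUnion (Set.finite_Iic _) (fun l _ => ?_)
        exact (Set.finite_singleton (y (φ M) l u)).preimage (fun i _ j _ hij => hai hij)
      refine h1.subset ?_
      rintro i ⟨hi, hiM⟩
      obtain ⟨l, hl, h⟩ := hcase i hi
      have hiM' : (p i).2 = M := hiM
      rw [hiM'] at hl h
      exact Set.mem_biUnion (show l ∈ Set.Iic (φ M) from hl) h)
    have hcase' : ∀ n, ∃ l ≤ φ (p (ψ n)).2, e (ψ n) l₀ = y (φ (p (ψ n)).2) l u :=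
      fun n => hcase _ (hψI n)
    choose lm hlm hlm' using hcase'
    have hφ : StrictMono φ := hE.es.mono
    have hν : StrictMono (fun n => φ (p (ψ n)).2) := hφ.comp hkψ
    have hH2 : Hom N A (fun n => e (ψ n)) := Hom.sub hH hψ
    -- the cells are different
    have hyne : ∀ n n' k, n' < n →
        y (φ (p (ψ n)).2) (lm n) k ≠ y (φ (p (ψ n')).2) (lm n') k := by
      intro n n' k hnn heq
      refine hy.off (φ (p (ψ n)).2) (lm n) k (φ (p (ψ n')).2) (hν hnn) ?_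
      exact ⟨_, hy.mem _ _, k, heq.symm⟩
    obtain ⟨k, ⟨E⟩⟩ := Finite.exists_equiv_fin κ
    obtain ⟨A₂, φ₂, m₂, e₃, lam₀, χ₂, q1, q2, q3, q4, q5, q6, q7⟩ := exists_ext hN hH2 hA
      (fun n => fun c : Fin k => y (φ (p (ψ n)).2) (lm n) (E.symm c))
    have h8 : ∀ c : κ, ∃ d : Fin m₂, χ₂ (E c) = Sum.inr d := by
      intro c
      rcases hc : χ₂ (E c) with a | d
      · exfalso
        have g : ∀ i, y (φ (p (ψ (φ₂ i))).2) (lm (φ₂ i)) c = a := by
          intro i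
          have g1 := q7 i (E c)
          rw [hc, E.symm_apply_apply] at g1
          exact g1
        exact hyne (φ₂ 1) (φ₂ 0) c (q3 Nat.zero_lt_one) ((g 1).trans (g 0).symm)
      · exact ⟨d, rfl⟩
    choose lam hlam using h8
    have hlam' : ∀ i c, e₃ i (lam c) = y (φ (p (ψ (φ₂ i))).2) (lm (φ₂ i)) c := by
      intro i c
      have g1 := q7 i (E c)
      rw [hlam, E.symm_apply_apply] at g1
      exact g1.symm
    have hx : Ext A e A₂ e₃ lam₀ := ⟨q2, fun i => ψ (φ₂ i), hψ.comp q3, fun i c => q5 i c⟩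
    have hca : CA N A₂ e₃ (fun k => lam₀ (T k)) := CA.ext hW hH hA q4 q1 hx hT'
    have hdis := trans hW hN hF hd hy q1 q4 (lam := lam) (ν := fun i => φ (p (ψ (φ₂ i))).2)
      (lm := fun i => lm (φ₂ i)) (hν.comp q3) (fun i => hlm _) hlam' hca
    have heq : lam₀ l₀ = lam u := by
      refine (q4.inj 0 0 _ _ ?_).2
      rw [q5, hlam']
      exact hlm' _
    exact Set.disjoint_left.1 hdis (show lam₀ l₀ ∈ range (fun k => lam₀ (T k)) from
      ⟨p₀, by rw [hl₀]⟩) ⟨u, heq.symm⟩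
  · -- CASE 2
    have hcase : ∀ i ∈ {i | i ∈ {i | e i l₀ ∈ C}ᶜ ∧ (p i).1 = Sum.inr j},
        j ∉ AL N A' e' χ ∧ e i l₀ = c (φ (p i).2) j := by
      rintro i ⟨hi1, hi2⟩
      rcases hp i with h | ⟨u', h1, h2⟩ | ⟨j', h1, h2⟩ | h
      · exact absurd h hi1
      · rw [hi2] at h1
        exact absurd h1 (by simp)
      · rw [hi2] at h1
        obtain rfl := Sum.inr.inj h1
        exact h2
      · exact absurd h hi1
    obtain ⟨ψ, hψ, hψI, hkψ⟩ := prd_sub hw (fun i => (p i).2) (by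
      intro M
      refine ((Set.finite_singleton (c (φ M) j)).preimage
        (f := fun i => e i l₀) (fun i _ j _ hij => hai hij)).subset ?_
      rintro i ⟨hi, hiM⟩
      have hiM' : (p i).2 = M := hiM
      have h := (hcase i hi).2
      rw [hiM'] at h
      exact h)
    have hjS : j ∉ AL N A' e' χ := (hcase _ (hψI 0)).1
    have hval : ∀ n, e (ψ n) l₀ = Sum.elim id (e' (p (ψ n)).2) (χ j) := by
      intro n
      rw [(hcase _ (hψI n)).2]
      exact hE.es.eq _ _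
    rcases hχj : χ j with a | l
    · have h0 := hval 0
      have h1 := hval 1
      rw [hχj] at h0 h1
      have h2 : ψ 1 = ψ 0 := hai (show e (ψ 1) l₀ = e (ψ 0) l₀ from h1.trans h0.symm)
      exact absurd (hψ.injective h2) (by omega)
    · have hval' : ∀ n, e (ψ n) l₀ = e' (p (ψ n)).2 l := by
        intro n
        have h := hval n
        rw [hχj] at h
        exact h
      obtain ⟨A'', φ₂, m₂, e'', lamA, lamB, q1, q2, q3, q4, q5, q6, q7⟩ :=
        prd_norm (N := N) hN (e₁ := fun n => e' (p (ψ n)).2) (e₂ := fun n => e (ψ n))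
          hE.es.fin hA (by
            intro i i' c d h
            obtain ⟨h1, h2⟩ := hE.es.hom.inj _ _ _ _ h
            exact ⟨hkψ.injective h1, h2⟩) (by
            intro i i' c d h
            obtain ⟨h1, h2⟩ := hH.inj _ _ _ _ h
            exact ⟨hψ.injective h1, h2⟩)
      have hxB : Ext A e A'' e'' lamB := ⟨q3, fun i => ψ (φ₂ i), hψ.comp q4, fun i c => q7 i c⟩
      have hxA : Ext A' e' A'' e'' lamA :=
        ⟨q2, fun i => (p (ψ (φ₂ i))).2, hkψ.comp q4, fun i c => q6 i c⟩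
      have hca : CA N A'' e'' (fun k => lamB (T k)) := CA.ext hW hH hA q5 q1 hxB hT'
      have heq : lamB l₀ = lamA l := by
        refine (q5.inj 0 0 _ _ ?_).2
        rw [q6, q7]
        exact hval' _
      refine hE.off hW q1 q5 hxA hjS hχj ⟨nT, fun k => lamB (T k), hca, ⟨p₀, ?_⟩⟩
      show lamB (T p₀) = lamA l
      rw [← hl₀, heq]

end Pool.H17.TC
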