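import Pool.Agent.H17.TC.Val
import Pool.Agent.H17.TC.PerpD
import Pool.Agent.H17.TC.CellOn
import Pool.Agent.H17.TC.Delta

/-!
# FINITENESS
-/

set_option autoImplicit false

namespace Pool.H17.TC

open Pool.H22.VC Function Set Pool.H17.TA Pool.H17.TB

variable {r : ℕ} {K ι κ κ' : Type} {N : Col r K ℕ} {A : Set ℕ} {e : ℕ → ι → ℕ}

private theorem fam_max' (F : Fam κ) (h : F.OK) (S : Finset (κ → ℕ)) :
    S.Nonempty → (∀ c ∈ S, c ∈ F.cells) → ∃ m ∈ S, ∀ c ∈ S, c ≠ m → F.lt c m := by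
  classical
  induction S using Finset.induction_on with
  | empty =>
    intro h0
    exact absurd h0 (by simp)
  | insert a S ha ih =>
    intro _ hS
    rcases S.eq_empty_or_nonempty with h0 | h0
    · subst h0
      refine ⟨a, by simp, fun c hc hca => ?_⟩
      have : c = a := by simpa using hc
      exact absurd this hca
    · obtain ⟨m, hm, hmax⟩ := ih h0 (fun c hc => hS c (Finset.mem_insert_of_mem hc))
      have haF := hS a (Finset.mem_insert_self a S)
      have hmF := hS m (Finset.mem_insert_of_mem hm)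
      have ham : a ≠ m := by
        rintro rfl
        exact ha hm
      rcases h.total a haF m hmF ham with h1 | h1
      · refine ⟨m, Finset.mem_insert_of_mem hm, fun c hc hcm => ?_⟩
        rcases Finset.mem_insert.1 hc with rfl | hc
        · exact h1
        · exact hmax c hc hcm
      · refine ⟨a, Finset.mem_insert_self a S, fun c hc hca => ?_⟩
        rcases Finset.mem_insert.1 hc with rfl | hc
        · exact absurd rfl hca
        · rcases eq_or_ne c m with rfl | hcm
          · exact h1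
          · exact h.trans c (hS c (Finset.mem_insert_of_mem hc)) m hmF a haF (hmax c hc hcm) h1

/-- sorting a finite set of cells -/
private theorem sort_cells (F : Fam κ) (h : F.OK) : ∀ (p : ℕ) (S : Finset (κ → ℕ)), S.card = p →
    (∀ c ∈ S, c ∈ F.cells) → ∃ s : Fin p → κ → ℕ, Inc F s ∧ ∀ q, s q ∈ S := by
  classical
  intro p
  induction p with
  | zero =>
    intro S _ _
    exact ⟨fun q => q.elim0, ⟨fun q => q.elim0, fun q => q.elim0⟩, fun q => q.elim0⟩
  | succ p ih =>
    intro S hS hSF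
    have hne : S.Nonempty := Finset.card_pos.1 (by omega)
    obtain ⟨m, hm, hmax⟩ := fam_max' F h S hne hSF
    obtain ⟨s, ⟨hs1, hs2⟩, hs3⟩ := ih (S.erase m)
      (by rw [Finset.card_erase_of_mem hm]; omega)
      (fun c hc => hSF c (Finset.mem_of_mem_erase hc))
    refine ⟨Fin.snoc (α := fun _ => κ → ℕ) s m, ⟨?_, ?_⟩, ?_⟩
    · intro q
      refine Fin.lastCases ?_ (fun q => ?_) q
      · rw [Fin.snoc_last]
        exact hSF m hm
      · rw [Fin.snoc_castSucc]
        exact hs1 q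
    · intro q q' hqq'
      revert hqq'
      refine Fin.lastCases ?_ (fun q' => ?_) q'
      · refine Fin.lastCases ?_ (fun q => ?_) q
        · intro h1
          exact absurd h1 (lt_irrefl _)
        · intro _
          rw [Fin.snoc_last, Fin.snoc_castSucc]
          have h2 := Finset.mem_erase.1 (hs3 q)
          exact hmax _ h2.2 h2.1
      · refine Fin.lastCases ?_ (fun q => ?_) q
        · intro h1
          exact absurd h1 (not_lt.2 (Fin.le_last _))
        · intro h1
          rw [Fin.snoc_castSucc, Fin.snoc_castSucc]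
          exact hs2 q q' (Fin.castSucc_lt_castSucc_iff.1 h1)
    · intro q
      refine Fin.lastCases ?_ (fun q => ?_) q
      · rw [Fin.snoc_last]
        exact hm
      · rw [Fin.snoc_castSucc]
        exact Finset.mem_of_mem_erase (hs3 q)

private theorem inc_inj {F : Fam κ} (h : F.OK) {p : ℕ} {s : Fin p → κ → ℕ} (hs : Inc F s) :
    Injective s := by
  intro a b hab
  rcases lt_trichotomy a b with h1 | h1 | h1
  · have h2 := hs.2 a b h1
    rw [hab] at h2
    exact absurd h2 (h.irr _ (hs.1 b))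
  · exact h1
  · have h2 := hs.2 b a h1
    rw [hab] at h2
    exact absurd h2 (h.irr _ (hs.1 b))

/-- Jump data of a sequence of families, constant on a subsequence. PROOF. `exists_jmp` for every
`F n`; the shape of the template (`inl j` if `T j` is a constant), `p ≤ r`, the places and the two
colours (in the finite set `range N`) take finitely many values. -/
theorem thin (hN : (range N).Finite) [Finite κ] {F : ℕ → Fam κ} (hF : ∀ n, FN N (F n)) :
    ∃ (ψ : ℕ → ℕ) (p : ℕ) (σ : Fin r → Fin r ⊕ (Fin p × κ)) (i i' : Fin p) (ε ε' : K)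
      (c : ℕ → Fin r → ℕ), StrictMono ψ ∧
        ∀ n, Jmp N (F (ψ n)) p (tmp σ (c n)) i i' ε ε' := by
  classical
  have h1 : ∀ n, ∃ d : (Σ p : Fin (r + 1), (Fin r → Fin r ⊕ (Fin (p : ℕ) × κ)) × Fin (p : ℕ) ×
      Fin (p : ℕ) × range N × range N), ∃ c : Fin r → ℕ,
        Jmp N (F n) (d.1 : ℕ) (tmp d.2.1 c) d.2.2.1 d.2.2.2.1 (d.2.2.2.2.1 : K)
          (d.2.2.2.2.2 : K) := by
    intro n
    obtain ⟨p, T, i, i', ε, ε', hJ⟩ := exists_jmp (hF n)
    have hT : T = tmp (fun j => Sum.elim (fun _ => Sum.inl j) Sum.inr (T j))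
        (fun j => Sum.elim id (fun _ => 0) (T j)) := by
      have aux : ∀ (j : Fin r) (x : ℕ ⊕ (Fin p × κ)), T j = x →
          x = Sum.map (fun j => Sum.elim id (fun _ => 0) (T j)) id
            (Sum.elim (fun _ => (Sum.inl j : Fin r ⊕ (Fin p × κ))) Sum.inr x) := by
        intro j x hx
        rcases x with a | b
        · show Sum.inl a = Sum.inl (Sum.elim id (fun _ => 0) (T j))
          rw [hx]
          rfl
        · rfl
      funext j
      exact aux j (T j) rfl
    obtain ⟨S, hSF, hSc⟩ := (hF n).ok.inf.exists_subset_card_eq p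
    obtain ⟨s, hs, -⟩ := sort_cells (F n) (hF n).ok p S hSc (fun c hc => hSF hc)
    have he : ε ∈ range N := ⟨_, hJ.inc s hs⟩
    have he' : ε' ∈ range N := ⟨_, hJ.swp s hs⟩
    refine ⟨⟨⟨p, Nat.lt_succ_of_le hJ.le⟩,
      (fun j => Sum.elim (fun _ => Sum.inl j) Sum.inr (T j)), i, i', ⟨ε, he⟩, ⟨ε', he'⟩⟩,
      (fun j => Sum.elim id (fun _ => 0) (T j)), ?_⟩
    show Jmp N (F n) p (tmp (fun j => Sum.elim (fun _ => Sum.inl j) Sum.inr (T j))
        (fun j => Sum.elim id (fun _ => 0) (T j))) i i' ε ε'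
    rw [← hT]
    exact hJ
  choose d c hdc using h1
  haveI : Finite (range N) := hN.to_subtype
  obtain ⟨v, hv⟩ := Finite.exists_infinite_fiber d
  have hvi : (d ⁻¹' {v}).Infinite := Set.infinite_coe_iff.1 hv
  obtain ⟨ψ, hψ1, hψ2⟩ : ∃ ψ : ℕ → ℕ, StrictMono ψ ∧ ∀ n, d (ψ n) = v := by
    haveI := hv
    refine ⟨fun n => Nat.nth (fun n => d n = v) n, Nat.nth_strictMono hvi, fun n => ?_⟩
    exact Nat.nth_mem_of_infinite (p := fun n => d n = v) hvi n
  obtain ⟨⟨p, hp⟩, σ, i, i', ⟨ε, he⟩, ⟨ε', he'⟩⟩ := v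
  refine ⟨ψ, p, σ, i, i', ε, ε', fun n => c (ψ n), hψ1, fun n => ?_⟩
  have h2 := hdc (ψ n)
  rw [hψ2 n] at h2
  exact h2

/-- 6f. A family whose jump is visible for the many cells `y l`, `l ≤ n`, with all constants and
cells in a cellular set `D`. PROOF. `delta` (with `u` = the numbers `q` of the constants of `T`, `a = r`)
gives `p` cells `y l`, `l ∈ H`; sort them by `F.lt`: `s`. The tuples `ap T s` and
`ap T (s ∘ swap i i')` have the same codes and the same pattern of the numbers `q`. So `ε = ε'`. -/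
theorem six_f [Finite κ] {D : Set ℕ} {m : ℕ} {f : ℕ → Fin m} {q : ℕ → ℕ}
    (hcell : ∀ t t' : Fin r → ℕ, (∀ j, t j ∈ D) → (∀ j, t' j ∈ D) →
      (∀ j, f (t j) = f (t' j)) → (∀ i j, q (t i) = q (t j) ↔ q (t' i) = q (t' j)) → N t = N t')
    (p : ℕ) : ∃ R : ℕ, ∀ (F : Fam κ) (y : ℕ → κ → ℕ) (n : ℕ) (T : Fin r → ℕ ⊕ (Fin p × κ))
      (i i' : Fin p) (ε ε' : K), F.OK → R ≤ n → (∀ l, y l ∈ F.cells) → Injective y →
        (∀ l ≤ n, ∀ k, y l k ∈ D) → (∀ j a, T j = Sum.inl a → a ∈ D) →
        Good N F y n T i i' ε ε' → ε = ε' := by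
  classical
  obtain ⟨R, hR⟩ := delta (κ := κ) m p r
  refine ⟨R, fun F y n T i i' ε ε' hF hRn hy hyi hyD hTD hG => ?_⟩
  obtain ⟨H, hHc, hHR, hH1, hH2, hH3, hH4⟩ := hR (fun l k => f (y l k)) (fun l k => q (y l k))
    (fun j => q (Sum.elim id (fun _ => 0) (T j)))
  obtain ⟨s, hs, hsS⟩ := sort_cells F hF p (H.image y)
    (by rw [Finset.card_image_of_injective _ hyi, hHc])
    (fun c hc => by
      obtain ⟨l, -, rfl⟩ := Finset.mem_image.1 hc
      exact hy l)
  have hL : ∀ b, ∃ l ∈ H, y l = s b := fun b => Finset.mem_image.1 (hsS b)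
  choose L hLH hLs using hL
  have hsi := inc_inj hF hs
  have hLi : Injective L := by
    intro a b hab
    apply hsi
    rw [← hLs a, ← hLs b, hab]
  obtain ⟨g1, g2⟩ := hG s hs (fun b => ⟨L b, by
    have := hHR _ (hLH b)
    omega, (hLs b).symm⟩)
  rw [← g1, ← g2]
  have hD : ∀ b k, s b k ∈ D := by
    intro b k
    rw [← hLs b]
    exact hyD _ (by
      have := hHR _ (hLH b)
      omega) k
  have hco : ∀ a b k, f (s a k) = f (s b k) := by
    intro a b k
    rw [← hLs a, ← hLs b]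
    exact congrFun (hH1 _ (hLH a) _ (hLH b)) k
  have hcst : ∀ a b k j x, T j = Sum.inl x → (q (s a k) = q x ↔ q (s b k) = q x) := by
    intro a b k j x hx
    have h1 := hH4 _ (hLH a) _ (hLH b) k j
    rw [hx] at h1
    rw [← hLs a, ← hLs b]
    exact h1
  refine hcell _ _ ?_ ?_ ?_ ?_
  · intro j
    show Sum.elim id (fun z => s z.1 z.2) (T j) ∈ D
    rcases hTj : T j with x | ⟨b, k⟩
    · exact hTD j x hTj
    · exact hD b k
  · intro j
    show Sum.elim id (fun z => s (Equiv.swap i i' z.1) z.2) (T j) ∈ D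
    rcases hTj : T j with x | ⟨b, k⟩
    · exact hTD j x hTj
    · exact hD _ k
  · intro j
    show f (Sum.elim id (fun z => s z.1 z.2) (T j)) =
      f (Sum.elim id (fun z => s (Equiv.swap i i' z.1) z.2) (T j))
    rcases hTj : T j with x | ⟨b, k⟩
    · rfl
    · exact hco _ _ k
  · intro j j'
    show q (Sum.elim id (fun z => s z.1 z.2) (T j)) = q (Sum.elim id (fun z => s z.1 z.2) (T j')) ↔
      q (Sum.elim id (fun z => s (Equiv.swap i i' z.1) z.2) (T j)) =
        q (Sum.elim id (fun z => s (Equiv.swap i i' z.1) z.2) (T j'))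
    rcases hTj : T j with x | ⟨b, k⟩ <;> rcases hTj' : T j' with x' | ⟨b', k'⟩
    · exact Iff.rfl
    · show q x = q (s b' k') ↔ q x = q (s (Equiv.swap i i' b') k')
      rw [eq_comm, hcst b' (Equiv.swap i i' b') k' j x hTj, eq_comm]
    · show q (s b k) = q x' ↔ q (s (Equiv.swap i i' b) k) = q x'
      exact hcst _ _ k j' x' hTj'
    · show q (s b k) = q (s b' k') ↔
        q (s (Equiv.swap i i' b) k) = q (s (Equiv.swap i i' b') k')
      by_cases hbb : b = b'
      · subst hbb
        rw [← hLs b, ← hLs (Equiv.swap i i' b)]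
        exact hH2 _ (hLH _) _ (hLH _) k k'
      · rw [← hLs b, ← hLs (Equiv.swap i i' b), ← hLs b', ← hLs (Equiv.swap i i' b')]
        exact hH3 _ (hLH _) _ (hLH _) _ (hLH _) _ (hLH _) (fun h => hbb (hLi h))
          (fun h => hbb ((Equiv.swap i i').injective (hLi h))) k k'

/-- FINITENESS. There is no infinite sequence of maximal families (of the same size of cells) with
pairwise finitely many common cells. PROOF. `thin`: replace `F` by `F ∘ ψ` (constants `c n`);
`exists_gSq`: `y`; `exists_em`; `val_star`: `j₀`; `D = DD φ c AL y (range (c (φ j₀)))` is infinite (the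
points `y (φ k) 0 u`, `GSq.off`); `perp_D`, `cell_on`, `six_f` for `n = φ k`, `k` large
(`F.OK`, `GSq.mem`, `GSq.inj`); `Jmp.ne`. -/
theorem no_seq (hW : ¬ Wild N univ) (hN : (range N).Finite) [Finite κ] (F : ℕ → Fam κ)
    (hF : ∀ n, FMax N (F n)) (hd : ∀ i j, i ≠ j → (Com (F i) (F j)).Finite) : False := by
  classical
  obtain ⟨ψ, p, σ, i, i', ε, ε', c, hψ, hJ⟩ := thin hN (fun n => (hF n).1)
  have hd' : ∀ a b, a ≠ b → (Com (F (ψ a)) (F (ψ b))).Finite :=
    fun a b hab => hd _ _ (fun h => hab (hψ.injective h))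
  obtain ⟨y, hy⟩ := exists_gSq hW hN (fun n => F (ψ n)) (fun n => (hF (ψ n)).1) hd'
  obtain ⟨A', φ, m, e', χ, hE⟩ := exists_em hW hN c
  obtain ⟨j₀, hj₀⟩ := val_star hW hN (F := fun n => F (ψ n)) (fun n => hF (ψ n)) hd' hy hJ hE
  obtain ⟨D, hDdef⟩ : ∃ D, D = DD φ c (AL N A' e' χ) y (range (c (φ j₀))) := ⟨_, rfl⟩
  obtain ⟨u₀⟩ := (hF 0).1.ok.nonempty
  have hφ := hE.es.mono
  have hDinf : D.Infinite := by
    have hinj : Injective (fun k => y (φ k) 0 u₀) := by
      have key : ∀ a b, a < b → y (φ a) 0 u₀ ≠ y (φ b) 0 u₀ := by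
        intro a b hab h1
        refine hy.off (φ b) 0 u₀ (φ a) (hφ hab) ?_
        exact ⟨y (φ a) 0, hy.mem _ _, u₀, h1⟩
      intro a b hab
      rcases Nat.lt_trichotomy a b with h1 | h1 | h1
      · exact absurd hab (key a b h1)
      · exact h1
      · exact absurd hab.symm (key b a h1)
    refine (Set.infinite_range_of_injective hinj).mono ?_
    rintro x ⟨k, rfl⟩
    rw [hDdef]
    exact Or.inr ⟨k, Or.inr ⟨0, Nat.zero_le _, u₀, rfl⟩⟩
  obtain ⟨m', f, q, hcell⟩ := cell_on hW hN hDinf (by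
    intro B ι _ e hB hH hD κ₁ κ₂ _ _ τ τ'
    refine perp_D hW hN (F := fun n => F (ψ n)) (fun n => hF (ψ n)) hd' hy hE
      (Set.finite_range (c (φ j₀))) hB hH ?_ τ τ'
    intro a b
    rw [← hDdef]
    exact hD a b)
  obtain ⟨R, hR⟩ := six_f (κ := κ) hcell p
  obtain ⟨k, hk⟩ : ∃ k, k = j₀ + R + 1 := ⟨_, rfl⟩
  have hRk : R ≤ φ k := by
    have h1 : k ≤ φ k := hφ.le_apply
    omega
  refine (hJ 0).ne ?_
  refine hR (F (ψ (φ k))) (y (φ k)) (φ k) _ i i' ε ε' (hF _).1.ok hRk (fun l => hy.mem _ _)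
    (fun l l' hll => hy.inj _ _ _ hll) ?_ ?_ (hj₀ k (by omega))
  · intro l hl u
    rw [hDdef]
    exact Or.inr ⟨k, Or.inr ⟨l, hl, u, rfl⟩⟩
  · intro j a hja
    rw [hDdef]
    have h1 : Sum.map (frc (AL N A' e' χ) (c (φ j₀)) (c (φ k))) id (σ j) = Sum.inl a := hja
    rcases hσ : σ j with j' | z
    · rw [hσ] at h1
      have h2 : frc (AL N A' e' χ) (c (φ j₀)) (c (φ k)) j' = a := Sum.inl.inj h1
      by_cases h3 : j' ∈ AL N A' e' χ
      · left
        refine ⟨j', ?_⟩
        rw [← h2]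
        exact (if_pos h3).symm
      · right
        refine ⟨k, Or.inl ⟨j', h3, ?_⟩⟩
        rw [← h2]
        exact if_neg h3
    · rw [hσ] at h1
      exact absurd h1 (by simp)

end Pool.H17.TC
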