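import Pool.Agent.H17.TC.GSq

/-!
# Atoms meeting cells
-/

set_option autoImplicit false

namespace Pool.H17.TC

open Pool.H22.VC Function Set Pool.H17.TA Pool.H17.TB

variable {r : ℕ} {K ι κ κ' : Type} {N : Col r K ℕ} {A : Set ℕ} {x : ℕ → κ → ℕ}

private theorem qp_meet {G : Fam κ} (h : G.OK) {B : Set ℕ} (hB : B.Finite) :
    {c | c ∈ G.cells ∧ ∃ k, c k ∈ B}.Finite := by
  have h1 : {c | c ∈ G.cells ∧ ∃ k, c k ∈ B} ⊆ ⋃ a ∈ B, {c | c ∈ G.cells ∧ ∃ k, c k = a} := by
    rintro c ⟨hc1, k, hk⟩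
    rw [mem_iUnion₂]
    exact ⟨c k, hk, hc1, k, rfl⟩
  refine (hB.biUnion fun a _ => ?_).subset h1
  refine Set.Subsingleton.finite ?_
  rintro c ⟨hc, k, hk⟩ c' ⟨hc', k', hk'⟩
  exact h.disj c hc c' hc' k k' (hk.trans hk'.symm)

/-- the move exchanging two cells of the block, both used only partially -/
private theorem qp_swap {ι : Type} {A : Set ℕ} {e : ℕ → ι → ℕ} (hH : Hom N A e) {G : ℕ → Fam κ}
    (hG : ∀ i, FN N (G i)) {L M : κ → ι} (hL : ∀ i, (fun k => e i (L k)) ∈ (G i).cells)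
    (hM : ∀ i, (fun k => e i (M k)) ∈ (G i).cells) (hLM : ∀ k k', L k ≠ M k') {γ : Type}
    (S S' : γ → ι) (hS : ∀ g, (∃ k, S g = L k ∧ S' g = M k) ∨ (∃ k, S g = M k ∧ S' g = L k) ∨
      (S g = S' g ∧ (∀ k, S g ≠ L k) ∧ ∀ k, S g ≠ M k))
    (hk : ∃ k₀, ∀ g, S g ≠ L k₀) (hk' : ∃ k₀, ∀ g, S g ≠ M k₀) :
    Teq N A e (blk 0 S) (blk 0 S') := by
  classical
  intro f b b' hb hb' hz hz' t ht
  rcases isEmpty_or_nonempty γ with he | ⟨⟨g₀⟩⟩
  · exact teq_pat hH (blk 0 S) (blk 0 S') (fun g => (he.false g).elim) (fun g => (he.false g).elim)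
      f b b' hb hb' hz hz' t ht
  have hfb : f < b := hz g₀
  have hfb' : f < b' := hz' g₀
  obtain ⟨B, hB⟩ : ∃ B, B = b + b' := ⟨_, rfl⟩
  rw [pl_shift hH (blk 0 S) le_rfl hb (b₁ := B) (by omega) hz
      (fun g => lt_of_lt_of_le (hz g) (by omega)) t ht,
    pl_shift hH (blk 0 S') le_rfl hb' (b₁ := B) (by omega) hz'
      (fun g => lt_of_lt_of_le (hz' g) (by omega)) t ht]
  obtain ⟨c₁, hc₁⟩ : ∃ c₁ : κ → ℕ, c₁ = fun k => e f (L k) := ⟨_, rfl⟩
  obtain ⟨c₂, hc₂⟩ : ∃ c₂ : κ → ℕ, c₂ = fun k => e f (M k) := ⟨_, rfl⟩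
  have h1 : c₁ ∈ (G f).cells := by
    rw [hc₁]
    exact hL f
  have h2 : c₂ ∈ (G f).cells := by
    rw [hc₂]
    exact hM f
  have h12 : c₁ ≠ c₂ := by
    intro h
    obtain ⟨k₀, -⟩ := hk
    have := congrFun h k₀
    rw [hc₁, hc₂] at this
    exact hLM k₀ k₀ (hH.inj _ _ _ _ this).2
  have hok := (hG f).ok
  obtain ⟨ψ, hψ⟩ : ∃ ψ : (κ → ℕ) → (κ → ℕ), ψ = fun c => if c = c₁ then c₂ else if c = c₂ then c₁
      else c := ⟨_, rfl⟩
  have ψ1 : ψ c₁ = c₂ := by
    rw [hψ]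
    exact if_pos rfl
  have ψ2 : ψ c₂ = c₁ := by
    rw [hψ]
    show (if c₂ = c₁ then c₂ else if c₂ = c₂ then c₁ else c₂) = c₁
    rw [if_neg h12.symm, if_pos rfl]
  have ψ3 : ∀ c, c ≠ c₁ → c ≠ c₂ → ψ c = c := by
    intro c g1 g2
    rw [hψ]
    show (if c = c₁ then c₂ else if c = c₂ then c₁ else c) = c
    rw [if_neg g1, if_neg g2]
  have ψi : ∀ c, ψ (ψ c) = c := by
    intro c
    by_cases g1 : c = c₁
    · rw [g1, ψ1, ψ2]
    · by_cases g2 : c = c₂
      · rw [g2, ψ2, ψ1]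
      · rw [ψ3 c g1 g2, ψ3 c g1 g2]
  -- the entries of the tuple
  have hent : ∀ (S : γ → ι) (j : Fin r) (d : ι), pl e f B (blk 0 S) (t j) = e f d →
      ∃ g, S g = d := by
    intro S j d hj
    rcases htj : t j with a | p | g | p <;> rw [htj] at hj
    · have g1 : a ∈ A := ht.1 j a htj
      have g2 : a = e f d := hj
      rw [g2] at g1
      exact absurd g1 (hH.notA _ _)
    · have g1 := ht.2 j p htj
      have g2 : e p.1 p.2 = e f d := hj
      have g3 := (hH.inj _ _ _ _ g2).1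
      omega
    · have g2 : e (f + 0) (S g) = e f d := hj
      exact ⟨g, (hH.inj _ _ _ _ g2).2⟩
    · have g2 : e (B + p.1) p.2 = e f d := hj
      have g3 := (hH.inj _ _ _ _ g2).1
      omega
  have hMv : Mv (G f) (fun j => pl e f B (blk 0 S) (t j)) ψ := by
    refine ⟨fun c hc => ?_, fun c c' _ _ hcc => ?_⟩
    · by_cases g1 : c = c₁
      · rw [g1, ψ1]
        exact h2
      · by_cases g2 : c = c₂
        · rw [g2, ψ2]
          exact h1
        · rw [ψ3 c g1 g2]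
          exact hc.1
    · rw [← ψi c, hcc, ψi]
  have hfull : ∀ c, Full (G f) (fun j => pl e f B (blk 0 S) (t j)) c → c ≠ c₁ ∧ c ≠ c₂ := by
    intro c hc
    constructor
    · intro g1
      obtain ⟨k₀, hk₀⟩ := hk
      obtain ⟨j, hj⟩ := hc.2 k₀
      rw [g1, hc₁] at hj
      obtain ⟨g, hg⟩ := hent S j _ hj
      exact hk₀ g hg
    · intro g1
      obtain ⟨k₀, hk₀⟩ := hk'
      obtain ⟨j, hj⟩ := hc.2 k₀
      rw [g1, hc₂] at hj
      obtain ⟨g, hg⟩ := hent S j _ hj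
      exact hk₀ g hg
  have hMon : Mon (G f) (fun j => pl e f B (blk 0 S) (t j)) ψ := by
    intro c c' hc hc' hlt
    rw [ψ3 c (hfull c hc).1 (hfull c hc).2, ψ3 c' (hfull c' hc').1 (hfull c' hc').2]
    exact hlt
  have h0 := (hG f).free _ ψ hMv hMon
  rw [← h0]
  congr 1
  funext j
  -- not in the two cells
  have hfix : ∀ a : ℕ, (∀ k, c₁ k ≠ a) → (∀ k, c₂ k ≠ a) → (G f).mv ψ a = a := by
    intro a g1 g2
    refine Fam.mv_fix hok ψ fun c _ hk => ψ3 c ?_ ?_
    · rintro rfl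
      obtain ⟨k, hk⟩ := hk
      exact g1 k hk
    · rintro rfl
      obtain ⟨k, hk⟩ := hk
      exact g2 k hk
  have hc1 : ∀ k, c₁ k = e f (L k) := fun k => by rw [hc₁]
  have hc2 : ∀ k, c₂ k = e f (M k) := fun k => by rw [hc₂]
  rcases htj : t j with a | p | g | p
  · have g1 : a ∈ A := ht.1 j a htj
    refine hfix a (fun k hk => ?_) (fun k hk => ?_)
    · rw [hc1] at hk
      rw [← hk] at g1
      exact hH.notA _ _ g1
    · rw [hc2] at hk
      rw [← hk] at g1
      exact hH.notA _ _ g1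
  · have g1 := ht.2 j p htj
    refine hfix (e p.1 p.2) (fun k hk => ?_) (fun k hk => ?_)
    · rw [hc1] at hk
      have g3 := (hH.inj _ _ _ _ hk).1
      omega
    · rw [hc2] at hk
      have g3 := (hH.inj _ _ _ _ hk).1
      omega
  · show (G f).mv ψ (e (f + 0) (S g)) = e (f + 0) (S' g)
    rcases hS g with ⟨k, g1, g2⟩ | ⟨k, g1, g2⟩ | ⟨g1, g2, g3⟩
    · rw [g1, g2]
      have g4 := Fam.mv_cell hok ψ h1 k
      rw [ψ1, hc1, hc2] at g4
      exact g4
    · rw [g1, g2]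
      have g4 := Fam.mv_cell hok ψ h2 k
      rw [ψ2, hc1, hc2] at g4
      exact g4
    · rw [← g1]
      refine hfix _ (fun k hk => ?_) (fun k hk => ?_)
      · rw [hc1] at hk
        exact g2 k (hH.inj _ _ _ _ hk).2.symm
      · rw [hc2] at hk
        exact g3 k (hH.inj _ _ _ _ hk).2.symm
  · refine hfix (e (B + p.1) p.2) (fun k hk => ?_) (fun k hk => ?_)
    · rw [hc1] at hk
      have g3 := (hH.inj _ _ _ _ hk).1
      omega
    · rw [hc2] at hk
      have g3 := (hH.inj _ _ _ _ hk).1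
      omega

/-- QP. Letters which are cells of families: an atom which meets the cell contains it. PROOF. Let `P`
be the set of the labels `k` with `lam k ∈ range T`, `P ≠ ∅`, and suppose `P ≠ univ`. Choose for every
`i` a cell `f i` of `F (ν i)` disjoint from the points `e' i c` and from `{a | a ≤ i}`, and extend `e'`
by the `f i` (`exists_ext`; they are letters `mu`): `e''`. Let `T'` be `T` with the letters `lam k`,
`k ∈ P`, replaced by `mu k`. For every context outside the block the move in `F (ν i)` exchanging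
the cell `lam` and the cell `mu` of the block does not change the colour (both are used only
partially): so `T` and `T'` have the same type in `e''`, `T'` is a chain atom (`CA.congr`), and `T` is
one (`CA.ext`). If some letter of `T` is not in `range lam` then `T`, `T'` meet, so they have equal
range (`c3`), but `lam k`, `k ∈ P`, is not in `range T'`. Otherwise `T`, `T'` are disjoint and similar,
so comparable (`c5'`); but the same move exchanges them: the pair `(T, T')` in a block has the type of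
`(T', T)`: contradiction (`T` would commute with itself). -/
theorem qp (hW : ¬ Wild N univ) (hN : (range N).Finite) [Finite κ] {F : ℕ → Fam κ}
    (hF : ∀ n, FN N (F n)) {A' : Set ℕ} (hA' : A'.Finite) {ι' κ'' : Type} [Finite ι']
    [Finite κ''] {e' : ℕ → ι' → ℕ} (hH' : Hom N A' e') {lam : κ → ι'} {ν : ℕ → ℕ}
    (h : ∀ i, (fun k => e' i (lam k)) ∈ (F (ν i)).cells) {T : κ'' → ι'} (hT : CA N A' e' T)
    (hm : (range T ∩ range lam).Nonempty) : range lam ⊆ range T := by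
  classical
  by_contra hcon
  have hcon' : ∃ k₀, lam k₀ ∉ range T := by
    by_contra hall
    push Not at hall
    apply hcon
    rintro _ ⟨k, rfl⟩
    exact hall k
  obtain ⟨k₀, hk₀⟩ := hcon'
  have hli : Injective lam := by
    intro k k' hk
    apply (hF (ν 0)).ok.inj _ (h 0)
    show e' 0 (lam k) = e' 0 (lam k')
    rw [hk]
  -- fresh cells
  have hfr : ∀ i, ∃ f ∈ (F (ν i)).cells, ∀ k, f k ∉ {a | a ≤ i} ∪ range (e' i) := by
    intro i
    have hB : ({a | a ≤ i} ∪ range (e' i)).Finite :=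
      (Set.finite_Iic i).union (Set.finite_range _)
    obtain ⟨f, hf1, hf2⟩ := ((hF (ν i)).ok.inf.diff (qp_meet (hF (ν i)).ok hB)).nonempty
    refine ⟨f, hf1, fun k hk => hf2 ⟨hf1, k, hk⟩⟩
  choose f hf1 hf2 using hfr
  obtain ⟨n, ⟨E⟩⟩ := Finite.exists_equiv_fin κ
  obtain ⟨A'', φ, m, e'', mu₀, χ, hA'', hAA, hφ, hH'', he'', hχ, hu⟩ :=
    exists_ext hN hH' hA' (fun i (c : Fin n) => f i (E.symm c))
  have hmu : ∀ k : κ, ∃ d, χ (E k) = Sum.inr d := by
    intro k
    rcases hc : χ (E k) with a | d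
    · exfalso
      have g1 := hu a (E k)
      rw [hc, E.symm_apply_apply] at g1
      have g2 : f (φ a) k = a := g1
      apply hf2 (φ a) k
      left
      show f (φ a) k ≤ φ a
      rw [g2]
      exact hφ.id_le a
    · exact ⟨d, rfl⟩
  choose mu hmu using hmu
  have hmu' : ∀ i k, e'' i (mu k) = f (φ i) k := by
    intro i k
    have g1 := hu i (E k)
    rw [hmu, E.symm_apply_apply] at g1
    exact g1.symm
  have hExt : Ext A' e' A'' e'' mu₀ := ⟨hAA, φ, hφ, he''⟩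
  have hm0 : Injective mu₀ := hExt.injective hH'
  have hne : ∀ c k, mu₀ c ≠ mu k := by
    intro c k hck
    apply hf2 (φ 0) k
    right
    rw [← hmu' 0 k, ← hck, he'']
    exact ⟨c, rfl⟩
  have hmi : Injective mu := by
    intro k k' hk
    apply (hF (ν (φ 0))).ok.inj _ (hf1 (φ 0))
    rw [← hmu', ← hmu', hk]
  have hL : ∀ i, (fun k => e'' i (mu₀ (lam k))) ∈ (F (ν (φ i))).cells := by
    intro i
    have g1 := h (φ i)
    have g2 : (fun k => e'' i (mu₀ (lam k))) = fun k => e' (φ i) (lam k) := by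
      funext k
      exact he'' _ _
    rw [g2]
    exact g1
  have hM : ∀ i, (fun k => e'' i (mu k)) ∈ (F (ν (φ i))).cells := by
    intro i
    have g2 : (fun k => e'' i (mu k)) = f (φ i) := by
      funext k
      exact hmu' _ _
    rw [g2]
    exact hf1 _
  have hLM : ∀ k k', mu₀ (lam k) ≠ mu k' := fun k k' => hne _ _
  -- the two atoms
  have c1 : CA N A'' e'' (fun k => mu₀ (T k)) := CA.ext hW hH' hA' hH'' hA'' hExt hT
  let T₂ : κ'' → Fin m := fun k => if hk : ∃ k', lam k' = T k then mu hk.choose else mu₀ (T k)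
  have hT₂a : ∀ k k', lam k' = T k → T₂ k = mu k' := by
    intro k k' hk
    have hex : ∃ k', lam k' = T k := ⟨k', hk⟩
    have g1 : T₂ k = mu hex.choose := dif_pos hex
    have g2 : hex.choose = k' := hli (hex.choose_spec.trans hk.symm)
    rw [g1, g2]
  have hT₂b : ∀ k, (¬ ∃ k', lam k' = T k) → T₂ k = mu₀ (T k) := fun k hk => dif_neg hk
  have hT₂i : Injective T₂ := by
    intro k k' hk
    by_cases g1 : ∃ q, lam q = T k <;> by_cases g2 : ∃ q, lam q = T k'
    · obtain ⟨q, hq⟩ := g1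
      obtain ⟨q', hq'⟩ := g2
      rw [hT₂a k q hq, hT₂a k' q' hq'] at hk
      apply hT.inj
      rw [← hq, ← hq', hmi hk]
    · obtain ⟨q, hq⟩ := g1
      rw [hT₂a k q hq, hT₂b k' g2] at hk
      exact absurd hk.symm (hne _ _)
    · obtain ⟨q', hq'⟩ := g2
      rw [hT₂b k g1, hT₂a k' q' hq'] at hk
      exact absurd hk (hne _ _)
    · rw [hT₂b k g1, hT₂b k' g2] at hk
      exact hT.inj (hm0 hk)
  have hk₀' : ∀ k, mu₀ (T k) ≠ mu₀ (lam k₀) := fun k hk => hk₀ ⟨k, hm0 hk⟩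
  have ht12 : Teq N A'' e'' (blk 0 (fun k => mu₀ (T k))) (blk 0 T₂) := by
    refine qp_swap hH'' (G := fun i => F (ν (φ i))) (fun i => hF _) hL hM hLM _ _ (fun k => ?_)
      ⟨k₀, hk₀'⟩ ⟨k₀, fun k => hne _ _⟩
    by_cases g1 : ∃ q, lam q = T k
    · obtain ⟨q, hq⟩ := g1
      exact Or.inl ⟨q, by rw [hq], hT₂a k q hq⟩
    · refine Or.inr (Or.inr ⟨(hT₂b k g1).symm, fun q hq => g1 ⟨q, (hm0 hq).symm⟩, fun q => hne _ _⟩)
  have c2 : CA N A'' e'' T₂ := c1.congr hH'' hT₂i ht12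
  by_cases hall : ∀ k, ∃ k', lam k' = T k
  · -- all letters in the cell
    have hd : Disjoint (range (fun k => mu₀ (T k))) (range T₂) := by
      rw [Set.disjoint_left]
      rintro _ ⟨k, rfl⟩ ⟨k', hk'⟩
      obtain ⟨q, hq⟩ := hall k'
      rw [hT₂a k' q hq] at hk'
      exact hne _ _ hk'.symm
    have hsw : Teq N A'' e'' (Sum.elim (blk 0 (fun k => mu₀ (T k))) (blk 0 T₂))
        (Sum.elim (blk 0 T₂) (blk 0 (fun k => mu₀ (T k)))) := by
      have g0 := qp_swap hH'' (G := fun i => F (ν (φ i))) (fun i => hF _) hL hM hLM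
        (Sum.elim (fun k => mu₀ (T k)) T₂ : κ'' ⊕ κ'' → Fin m)
        (Sum.elim T₂ (fun k => mu₀ (T k))) ?_ ⟨k₀, ?_⟩ ⟨k₀, ?_⟩
      · have g1 : ∀ u v : κ'' → Fin m, (blk 0 (Sum.elim u v) : κ'' ⊕ κ'' → ℕ × Fin m) =
            Sum.elim (blk 0 u) (blk 0 v) := by
          intro u v
          funext k
          rcases k with k | k <;> rfl
        rw [g1, g1] at g0
        exact g0
      · rintro (k | k)
        · obtain ⟨q, hq⟩ := hall k
          exact Or.inl ⟨q, by
            show mu₀ (T k) = mu₀ (lam q)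
            rw [hq], hT₂a k q hq⟩
        · obtain ⟨q, hq⟩ := hall k
          exact Or.inr (Or.inl ⟨q, hT₂a k q hq, by
            show mu₀ (T k) = mu₀ (lam q)
            rw [hq]⟩)
      · rintro (k | k)
        · exact hk₀' k
        · obtain ⟨q, hq⟩ := hall k
          show T₂ k ≠ _
          rw [hT₂a k q hq]
          exact (hne _ _).symm
      · rintro (k | k)
        · exact hne _ _
        · obtain ⟨q, hq⟩ := hall k
          show T₂ k ≠ mu k₀
          rw [hT₂a k q hq]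
          intro hqk
          have := hmi hqk
          rw [this] at hq
          exact hk₀ ⟨k, hq.symm⟩
    have hswc : ∀ u v : κ'' → ℕ × Fin m, (fun k : κ'' ⊕ κ'' => Sum.elim u v (Sum.swap k)) =
        Sum.elim v u := by
      intro u v
      funext k
      rcases k with k | k <;> rfl
    have t12' : Teq N A'' e'' (blk 1 T₂) (blk 1 (fun k => mu₀ (T k))) :=
      ((teq_blk hH'' 1 0 _).trans ht12.symm).trans (teq_blk hH'' 0 1 _)
    apply c1.nperp
    rcases c5' hW hH'' hA'' c1 hT₂i ht12 hd with hp | hp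
    · -- `hp : (T₁, T₂) ~ (T₁ at 0, T₂ at 1)`
      have g1 : Teq N A'' e'' (Sum.elim (blk 0 (fun k => mu₀ (T k))) (blk 0 T₂))
          (Sum.elim (blk 0 (fun k => mu₀ (T k))) (blk 1 (fun k => mu₀ (T k)))) :=
        Teq.trans hp (cp_back hH'' (Teq.refl hH'' _) t12' (fun _ _ => Nat.zero_lt_one)
          (fun _ _ => Nat.zero_lt_one))
      have g2 := Teq.comp hH'' hp (Sum.swap : κ'' ⊕ κ'' → κ'' ⊕ κ'')
      rw [hswc, hswc] at g2
      have g3 : Teq N A'' e'' (Sum.elim (blk 0 T₂) (blk 0 (fun k => mu₀ (T k))))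
          (Sum.elim (blk 1 (fun k => mu₀ (T k))) (blk 0 (fun k => mu₀ (T k)))) :=
        g2.trans (cp_front hH'' t12' (Teq.refl hH'' _) (fun _ _ => Nat.zero_lt_one)
          (fun _ _ => Nat.zero_lt_one))
      exact (g1.symm.trans hsw).trans g3
    · -- `hp : (T₂, T₁) ~ (T₂ at 0, T₁ at 1)`
      have g1 : Teq N A'' e'' (Sum.elim (blk 0 T₂) (blk 0 (fun k => mu₀ (T k))))
          (Sum.elim (blk 0 (fun k => mu₀ (T k))) (blk 1 (fun k => mu₀ (T k)))) :=
        Teq.trans hp (cp_back hH'' ht12.symm (Teq.refl hH'' _) (fun _ _ => Nat.zero_lt_one)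
          (fun _ _ => Nat.zero_lt_one))
      have g2 := Teq.comp hH'' hp (Sum.swap : κ'' ⊕ κ'' → κ'' ⊕ κ'')
      rw [hswc, hswc] at g2
      have g3 : Teq N A'' e'' (Sum.elim (blk 0 (fun k => mu₀ (T k))) (blk 0 T₂))
          (Sum.elim (blk 1 (fun k => mu₀ (T k))) (blk 0 (fun k => mu₀ (T k)))) :=
        g2.trans (cp_front hH'' (Teq.refl hH'' _) ht12.symm (fun _ _ => Nat.zero_lt_one)
          (fun _ _ => Nat.zero_lt_one))
      exact (g1.symm.trans hsw.symm).trans g3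
  · -- some letter outside the cell
    push Not at hall
    obtain ⟨k₁, hk₁⟩ := hall
    have hr := c3 hW hH'' hA'' c1 c2 ⟨mu₀ (T k₁), ⟨k₁, rfl⟩, ⟨k₁, hT₂b k₁ (by
      rintro ⟨q, hq⟩
      exact hk₁ q hq)⟩⟩
    obtain ⟨d, ⟨k₂, hk₂⟩, ⟨q, hq⟩⟩ := hm
    have g1 : mu₀ (T k₂) ∈ range T₂ := by
      rw [← hr]
      exact ⟨k₂, rfl⟩
    obtain ⟨k₃, hk₃⟩ := g1
    by_cases g2 : ∃ q, lam q = T k₃
    · obtain ⟨q', hq'⟩ := g2
      rw [hT₂a k₃ q' hq'] at hk₃
      exact hne _ _ hk₃.symm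
    · rw [hT₂b k₃ g2] at hk₃
      apply g2
      refine ⟨q, ?_⟩
      rw [hq, ← hk₂]
      exact (hm0 hk₃).symm

end Pool.H17.TC
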