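import Pool.Agent.H17.TB.Cax
import Pool.Agent.H17.TC.Jump

/-!
# RECO : bad sequences
-/

set_option autoImplicit false

namespace Pool.H17.TC

open Pool.H22.VC Function Set Pool.H17.TA Pool.H17.TB

variable {r : ℕ} {K ι κ κ' : Type} {N : Col r K ℕ}

/-- `q` has the quantifier free type of `x` over `C` -/
def TyEq (N : Col r K ℕ) (C : Set ℕ) (x q : κ → ℕ) : Prop :=
  Injective q ∧ (∀ k, ∀ a ∈ C, (q k = a ↔ x k = a)) ∧
    ∀ t : Fin r → ℕ ⊕ κ, (∀ j a, t j = Sum.inl a → a ∈ C) →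
      N (fun j => Sum.elim id q (t j)) = N (fun j => Sum.elim id x (t j))

/-- A sequence of cells `x n`, increasing in `F`, and of tuples `q n` which are not cells, but have
the type of `x n` over the finite set `E n`, which is closed under `F`-cells and contains everything
before. -/
structure Bad (N : Col r K ℕ) (F : Fam κ) (E : ℕ → Set ℕ) (x q : ℕ → κ → ℕ) : Prop where
  mem : ∀ n, x n ∈ F.cells
  fin : ∀ n, (E n).Finite
  le : ∀ n a, a ≤ n → a ∈ E n
  prev : ∀ m n, m < n → E m ⊆ E n ∧ ∀ k, x m k ∈ E n ∧ q m k ∈ E n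
  out : ∀ n k, x n k ∉ E n ∧ q n k ∉ E n
  inj : ∀ n, Injective (q n)
  cl : ∀ n, ∀ c ∈ F.cells, (∃ k, c k ∈ E n) → ∀ k, c k ∈ E n
  typ : ∀ n (t : Fin r → ℕ ⊕ κ), (∀ j a, t j = Sum.inl a → a ∈ E n) →
    N (fun j => Sum.elim id (q n) (t j)) = N (fun j => Sum.elim id (x n) (t j))
  ncell : ∀ n, ∀ c ∈ F.cells, range c ≠ range (q n)
  inc : ∀ n, F.lt (x n) (x (n + 1))

private theorem F_total {F : Fam κ} (h : F.OK) {c c' : κ → ℕ} (hc : c ∈ F.cells)
    (hc' : c' ∈ F.cells) (hne : c ≠ c') : F.lt c c' ∨ F.lt c' c := h.total c hc c' hc' hne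

/-- subsequences -/
theorem Bad.sub {F : Fam κ} (hF : F.OK) {E : ℕ → Set ℕ} {x q : ℕ → κ → ℕ} (h : Bad N F E x q)
    {φ : ℕ → ℕ} (hφ : StrictMono φ) :
    Bad N F (fun n => E (φ n)) (fun n => x (φ n)) (fun n => q (φ n)) := by
  have hlt : ∀ i j, i < j → F.lt (x i) (x j) := by
    intro i j hij
    obtain ⟨d, rfl⟩ := Nat.exists_eq_add_of_lt hij
    clear hij
    induction d with
    | zero => exact h.inc i
    | succ d ih => exact hF.trans _ (h.mem i) _ (h.mem _) _ (h.mem _) ih (h.inc _)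
  exact ⟨fun n => h.mem _, fun n => h.fin _, fun n a ha => h.le _ a (ha.trans hφ.le_apply),
    fun m n hmn => h.prev _ _ (hφ hmn), fun n => h.out _, fun n => h.inj _, fun n => h.cl _,
    fun n => h.typ _, fun n => h.ncell _, fun n => hlt _ _ (hφ (Nat.lt_succ_self n))⟩

/-- PROOF. For a finite set `D` let `D'` be `D` with all points of the cells which meet `D` (finite, closed
under cells by `disj`). There are `x ∈ F.cells` and `q` with `TyEq N D' x q`, `q` not a cell. Then no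
point of `x` is in `D'` (otherwise all are, and `q = x`), so no point of `q` is in `D'`. Recursion:
`E n` = closure of `{a | a ≤ n}` and all earlier `E m`, `x m`, `q m`. Ramsey for pairs (`ramseyN`, or
`Filter`-free): `x` is monotone on a subsequence; take `F.rev` if it is decreasing. -/
theorem exists_bad [Finite κ] {F : Fam κ} (hF : F.OK)
    (h : ¬ ∃ C : Set ℕ, C.Finite ∧ ∀ x ∈ F.cells, ∀ q : κ → ℕ, TyEq N C x q →
      ∃ c ∈ F.cells, range c = range q) :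
    ∃ (G : Fam κ) (E : ℕ → Set ℕ) (x q : ℕ → κ → ℕ), (G = F ∨ G = F.rev) ∧ Bad N G E x q := by
  classical
  -- closure under cells
  let cl : Set ℕ → Set ℕ := fun D =>
    D ∪ {a | ∃ c ∈ F.cells, (∃ k, c k ∈ D) ∧ ∃ k, c k = a}
  have hclfin : ∀ D : Set ℕ, D.Finite → (cl D).Finite := by
    intro D hD
    refine hD.union ?_
    have h1 : {a | ∃ c ∈ F.cells, (∃ k, c k ∈ D) ∧ ∃ k, c k = a} ⊆
        ⋃ d ∈ D, ⋃ c ∈ {c | c ∈ F.cells ∧ ∃ k, c k = d}, range c := by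
      rintro a ⟨c, hc, ⟨k, hk⟩, k', hk'⟩
      rw [mem_iUnion₂]
      refine ⟨c k, hk, ?_⟩
      rw [mem_iUnion₂]
      exact ⟨c, ⟨hc, k, rfl⟩, k', hk'⟩
    refine (hD.biUnion fun d _ => ?_).subset h1
    refine Set.Finite.biUnion ?_ (fun c _ => Set.finite_range c)
    refine Set.Subsingleton.finite ?_
    rintro c ⟨hc, k, hk⟩ c' ⟨hc', k', hk'⟩
    exact hF.disj c hc c' hc' k k' (hk.trans hk'.symm)
  have hclcl : ∀ D : Set ℕ, ∀ c ∈ F.cells, (∃ k, c k ∈ cl D) → ∀ k, c k ∈ cl D := by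
    rintro D c hc ⟨k, hk⟩ k'
    rcases hk with hk | ⟨c', hc', hk1, k'', hk''⟩
    · exact Or.inr ⟨c, hc, ⟨k, hk⟩, k', rfl⟩
    · have h1 := hF.disj c' hc' c hc k'' k hk''
      rw [← h1]
      exact Or.inr ⟨c', hc', hk1, k', rfl⟩
  -- good triples
  let Good : Set ℕ → (κ → ℕ) → (κ → ℕ) → Prop := fun D x q =>
    D.Finite ∧ x ∈ F.cells ∧ (∀ k, x k ∉ D ∧ q k ∉ D) ∧ Injective q ∧
      (∀ c ∈ F.cells, (∃ k, c k ∈ D) → ∀ k, c k ∈ D) ∧
      (∀ t : Fin r → ℕ ⊕ κ, (∀ j a, t j = Sum.inl a → a ∈ D) →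
        N (fun j => Sum.elim id q (t j)) = N (fun j => Sum.elim id x (t j))) ∧
      ∀ c ∈ F.cells, range c ≠ range q
  have step : ∀ D : Set ℕ, D.Finite → ∃ D' x q, Good D' x q ∧ D ⊆ D' := by
    intro D hD
    have h1 : ∃ x ∈ F.cells, ∃ q : κ → ℕ, TyEq N (cl D) x q ∧
        ¬ ∃ c ∈ F.cells, range c = range q := by
      by_contra hcon
      apply h
      refine ⟨cl D, hclfin D hD, fun x hx q hq => ?_⟩
      by_contra h2
      exact hcon ⟨x, hx, q, hq, h2⟩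
    obtain ⟨x, hx, q, ⟨hq1, hq2, hq3⟩, hnc⟩ := h1
    have hxD : ∀ k, x k ∉ cl D := by
      intro k hk
      apply hnc
      refine ⟨x, hx, ?_⟩
      have h3 : q = x := by
        funext k'
        exact (hq2 k' (x k') (hclcl D x hx ⟨k, hk⟩ k')).2 rfl
      rw [h3]
    have hqD : ∀ k, q k ∉ cl D := by
      intro k hk
      have h3 := (hq2 k (q k) hk).1 rfl
      rw [← h3] at hk
      exact hxD k hk
    exact ⟨cl D, x, q, ⟨hclfin D hD, hx, fun k => ⟨hxD k, hqD k⟩, hq1, hclcl D, hq3,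
      fun c hc he => hnc ⟨c, hc, he⟩⟩, subset_union_left⟩
  let S : Type := {p : Set ℕ × (κ → ℕ) × (κ → ℕ) // Good p.1 p.2.1 p.2.2}
  have step' : ∀ D : Set ℕ, D.Finite → ∃ s : S, D ⊆ s.1.1 := by
    intro D hD
    obtain ⟨D', x, q, h1, h2⟩ := step D hD
    exact ⟨⟨(D', x, q), h1⟩, h2⟩
  let nx : S → ℕ → Set ℕ := fun s n => (Set.Iic n ∪ s.1.1) ∪ (range s.1.2.1 ∪ range s.1.2.2)
  have hnx : ∀ s n, (nx s n).Finite := fun s n =>
    ((Set.finite_Iic n).union s.2.1).union ((Set.finite_range _).union (Set.finite_range _))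
  let f : ∀ D : Set ℕ, D.Finite → S := fun D hD => (step' D hD).choose
  have hf : ∀ (D : Set ℕ) (hD : D.Finite), D ⊆ (f D hD).1.1 := fun D hD =>
    (step' D hD).choose_spec
  let s : ℕ → S := fun n => Nat.rec (f (Set.Iic 0) (Set.finite_Iic 0))
    (fun n s => f (nx s (n + 1)) (hnx s (n + 1))) n
  have hs : ∀ n, s (n + 1) = f (nx (s n) (n + 1)) (hnx (s n) (n + 1)) := fun n => rfl
  have hle : ∀ n a, a ≤ n → a ∈ (s n).1.1 := by
    intro n a ha
    cases n with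
    | zero => exact hf (Set.Iic 0) (Set.finite_Iic 0) ha
    | succ n =>
      rw [hs]
      exact hf _ (hnx (s n) (n + 1)) (Or.inl (Or.inl ha))
  have hprev : ∀ m n, m < n → (s m).1.1 ⊆ (s n).1.1 ∧
      ∀ k, (s m).1.2.1 k ∈ (s n).1.1 ∧ (s m).1.2.2 k ∈ (s n).1.1 := by
    intro m n hmn
    induction n, hmn using Nat.le_induction with
    | base =>
      rw [hs]
      refine ⟨fun a ha => hf _ (hnx (s m) (m + 1)) (Or.inl (Or.inr ha)), fun k => ⟨?_, ?_⟩⟩
      · exact hf _ (hnx (s m) (m + 1)) (Or.inr (Or.inl ⟨k, rfl⟩))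
      · exact hf _ (hnx (s m) (m + 1)) (Or.inr (Or.inr ⟨k, rfl⟩))
    | succ n hmn ih =>
      have h1 : (s n).1.1 ⊆ (s (n + 1)).1.1 := by
        rw [hs]
        exact fun a ha => hf _ (hnx (s n) (n + 1)) (Or.inl (Or.inr ha))
      exact ⟨ih.1.trans h1, fun k => ⟨h1 (ih.2 k).1, h1 (ih.2 k).2⟩⟩
  obtain ⟨k₀⟩ := hF.nonempty
  have hxne : ∀ m n, m < n → (s m).1.2.1 ≠ (s n).1.2.1 := by
    intro m n hmn he
    have h1 := ((hprev m n hmn).2 k₀).1
    rw [he] at h1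
    exact ((s n).2.2.2.1 k₀).1 h1
  obtain ⟨φ, hφ, hφ2⟩ := ramseyN (C := Prop) 2
    (fun t => F.lt (s (t 0)).1.2.1 (s (t 1)).1.2.1)
  have hmono : (∀ n, F.lt (s (φ n)).1.2.1 (s (φ (n + 1))).1.2.1) ∨
      (∀ n, F.lt (s (φ (n + 1))).1.2.1 (s (φ n)).1.2.1) := by
    have h1 : ∀ n, (F.lt (s (φ n)).1.2.1 (s (φ (n + 1))).1.2.1) =
        (F.lt (s (φ 0)).1.2.1 (s (φ 1)).1.2.1) := by
      intro n
      have h2 := hφ2 ![n, n + 1] ![0, 1] (by
        intro a b hab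
        fin_cases a <;> fin_cases b <;> simp at hab ⊢) (by
        intro a b hab
        fin_cases a <;> fin_cases b <;> simp at hab ⊢)
      exact h2
    by_cases h2 : F.lt (s (φ 0)).1.2.1 (s (φ 1)).1.2.1
    · left
      intro n
      rw [h1 n]
      exact h2
    · right
      intro n
      rcases F_total hF (s (φ n)).2.2.1 (s (φ (n + 1))).2.2.1
        (hxne _ _ (hφ (Nat.lt_succ_self n))) with h3 | h3
      · rw [h1 n] at h3
        exact absurd h3 h2
      · exact h3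
  have hmain : ∀ G : Fam κ, G.cells = F.cells →
      (∀ n, G.lt (s (φ n)).1.2.1 (s (φ (n + 1))).1.2.1) →
      Bad N G (fun n => (s (φ n)).1.1) (fun n => (s (φ n)).1.2.1) (fun n => (s (φ n)).1.2.2) := by
    intro G hG hinc
    refine ⟨fun n => ?_, fun n => (s (φ n)).2.1, fun n a ha => hle _ a (ha.trans hφ.le_apply),
      fun m n hmn => hprev _ _ (hφ hmn), fun n => (s (φ n)).2.2.2.1,
      fun n => (s (φ n)).2.2.2.2.1, fun n => ?_, fun n => (s (φ n)).2.2.2.2.2.2.1,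
      fun n => ?_, hinc⟩
    · rw [hG]
      exact (s (φ n)).2.2.1
    · rw [hG]
      exact (s (φ n)).2.2.2.2.2.1
    · rw [hG]
      exact (s (φ n)).2.2.2.2.2.2.2
  rcases hmono with h1 | h1
  · exact ⟨F, _, _, _, Or.inl rfl, hmain F rfl h1⟩
  · exact ⟨F.rev, _, _, _, Or.inr rfl, hmain F.rev rfl h1⟩

end Pool.H17.TC
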