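import Pool.Agent.H17.TC.Rc1

/-!
# RECO : the replacement lemma
-/

set_option autoImplicit false

namespace Pool.H17.TC

open Pool.H22.VC Function Set Pool.H17.TA Pool.H17.TB

variable {r : ℕ} {K ι κ κ' : Type} {N : Col r K ℕ}

/-- RL. `q (n 0), …, q (n (p - 1))` may be replaced by `x (j (p - 1)), …, x (j 0)` (reversed). PROOF. One
place after the other, the last place first. At the place `s`: `q (n s)` is replaced by `x (n s)` (`typ`:
all other entries of the tuple are in `E (n s)`: constants, `q (n s')` with `s' < s`, `x (j ..)`), then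
`x (n s)` is moved to `x (j s.rev)` in `F`. The move is injective on the used cells: `x (j s.rev)` is not
used (`hfr`, `hj`; a cell meeting `q (n s')` does not meet `E (n s')`, which contains `x (j ..)`); and
`x (n s)` is used only at the place `s`. A full cell `c` of the tuple is `x (n s)`, or `x (j s'.rev)` with
`s' > s` (it is below both), or it consists of constants: if it meets some `q (n s')` then (`cl`) it does
not meet `E (n s')`, so it is contained in one `q (n s')`, and it is not (`ncell`, the same number of
points); in this case it is below all `x (j ..)` and `x (n s)`, or above all `x l` (`hlo`). So the move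
preserves the order of the full cells. -/
theorem rl [Finite κ] {F : Fam κ} (hF : FN N F) {E : ℕ → Set ℕ} {x q : ℕ → κ → ℕ}
    (hB : Bad N F E x q) {p : ℕ} (T : Fin r → ℕ ⊕ (Fin p × κ)) (n₀ : ℕ)
    (hT : ∀ i a, T i = Sum.inl a → a ∈ E n₀) (j n : Fin p → ℕ) (hj : StrictMono j)
    (hn : StrictMono n) (hn₀ : ∀ s, n₀ ≤ n s) (hjn : ∀ s s', j s < n s')
    (hlo : ∀ c ∈ F.cells, (∀ k, ∃ i, T i = Sum.inl (c k)) → (∃ l, F.lt c (x l)) →
      ∀ s, F.lt c (x (j s)))
    (hfr : ∀ i a s k, T i = Sum.inl a → a ≠ x (j s) k) :
    N (ap T (fun s => q (n s))) = N (ap T (fun s => x (j s.rev))) := by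
  classical
  have hok := hF.ok
  obtain ⟨k₀⟩ := hok.nonempty
  have hxlt : ∀ i j, i < j → F.lt (x i) (x j) := by
    intro i j hij
    obtain ⟨d, rfl⟩ := Nat.exists_eq_add_of_lt hij
    clear hij
    induction d with
    | zero => exact hB.inc i
    | succ d ih => exact hok.trans _ (hB.mem i) _ (hB.mem _) _ (hB.mem _) ih (hB.inc _)
  have hasym : ∀ c ∈ F.cells, ∀ c' ∈ F.cells, F.lt c c' → F.lt c' c → False :=
    fun c hc c' hc' h h' => hok.irr c hc (hok.trans c hc c' hc' c hc h h')
  have hxiff : ∀ i j, F.lt (x i) (x j) → i < j := by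
    intro i j h1
    by_contra h2
    rcases Nat.lt_or_ge j i with h3 | h3
    · exact hasym _ (hB.mem i) _ (hB.mem j) h1 (hxlt j i h3)
    · have h4 : i = j := by omega
      subst h4
      exact hok.irr _ (hB.mem i) h1
  have hEle : ∀ m n, m ≤ n → E m ⊆ E n := by
    intro m n hmn
    rcases Nat.lt_or_ge m n with h1 | h1
    · exact (hB.prev m n h1).1
    · have h2 : m = n := le_antisymm hmn h1
      rw [h2]
  have hTE : ∀ s i a, T i = Sum.inl a → a ∈ E (n s) := fun s i a hi =>
    hEle _ _ (hn₀ s) (hT i a hi)
  let cm : ℕ → Fin p → κ → ℕ := fun m s => if (s : ℕ) < m then q (n s) else x (j s.rev)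
  have hcm1 : ∀ m (s : Fin p), (s : ℕ) < m → cm m s = q (n s) := fun m s h => if_pos h
  have hcm2 : ∀ m (s : Fin p), ¬ (s : ℕ) < m → cm m s = x (j s.rev) := fun m s h => if_neg h
  have step : ∀ m, m < p → N (ap T (cm (m + 1))) = N (ap T (cm m)) := by
    intro m hm
    obtain ⟨z, hz⟩ : ∃ z : Fin p, z = ⟨m, hm⟩ := ⟨_, rfl⟩
    have hzm : (z : ℕ) = m := by rw [hz]
    -- the tuple with `x (n z)` at the place `z`
    let dm : Fin p → κ → ℕ := fun s => if s = z then x (n z) else cm m s
    have hdz : dm z = x (n z) := if_pos rfl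
    have hdo : ∀ s, s ≠ z → dm s = cm m s := fun s h => if_neg h
    have hcmo : ∀ s, s ≠ z → cm (m + 1) s = cm m s := by
      intro s hs
      have h1 : (s : ℕ) ≠ m := by
        intro h2
        apply hs
        rw [hz]
        exact Fin.ext h2
      by_cases h2 : (s : ℕ) < m
      · rw [hcm1 m s h2, hcm1 (m + 1) s (by omega)]
      · rw [hcm2 m s h2, hcm2 (m + 1) s (by omega)]
    -- the other entries are in `E (n z)`
    have hcE : ∀ s, s ≠ z → ∀ k, cm m s k ∈ E (n z) := by
      intro s hs k
      by_cases h2 : (s : ℕ) < m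
      · rw [hcm1 m s h2]
        have h3 : s < z := by
          rw [Fin.lt_def, hzm]
          exact h2
        exact ((hB.prev _ _ (hn h3)).2 k).2
      · rw [hcm2 m s h2]
        exact ((hB.prev _ _ (hjn s.rev z)).2 k).1
    have ha : N (ap T (cm (m + 1))) = N (ap T dm) := by
      let t : Fin r → ℕ ⊕ κ := fun i => Sum.elim Sum.inl
        (fun w => if w.1 = z then Sum.inr w.2 else Sum.inl (cm m w.1 w.2)) (T i)
      have h1 := hB.typ (n z) t (by
        intro i a hia
        have h2 : Sum.elim Sum.inl
          (fun w : Fin p × κ => if w.1 = z then Sum.inr w.2 else Sum.inl (cm m w.1 w.2)) (T i) =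
            (Sum.inl a : ℕ ⊕ κ) := hia
        rcases hTi : T i with b | ⟨s, k⟩
        · rw [hTi] at h2
          have h3 : b = a := Sum.inl.inj h2
          rw [← h3]
          exact hTE z i b hTi
        · rw [hTi] at h2
          by_cases h3 : s = z
          · simp [h3] at h2
          · have h4 : cm m s k = a := by
              simp only [Sum.elim_inr, if_neg h3] at h2
              exact Sum.inl.inj h2
            rw [← h4]
            exact hcE s h3 k)
      have e1 : (fun i => Sum.elim id (q (n z)) (t i)) = ap T (cm (m + 1)) := by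
        funext i
        show Sum.elim id (q (n z)) (Sum.elim Sum.inl
          (fun w : Fin p × κ => if w.1 = z then Sum.inr w.2 else Sum.inl (cm m w.1 w.2)) (T i)) =
            Sum.elim id (fun w => cm (m + 1) w.1 w.2) (T i)
        rcases hTi : T i with b | ⟨s, k⟩
        · rfl
        · by_cases h3 : s = z
          · simp only [Sum.elim_inr, if_pos h3]
            rw [h3, hcm1 (m + 1) z (by omega)]
          · simp only [Sum.elim_inr, if_neg h3, Sum.elim_inl, id]
            rw [hcmo s h3]
      have e2 : (fun i => Sum.elim id (x (n z)) (t i)) = ap T dm := by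
        funext i
        show Sum.elim id (x (n z)) (Sum.elim Sum.inl
          (fun w : Fin p × κ => if w.1 = z then Sum.inr w.2 else Sum.inl (cm m w.1 w.2)) (T i)) =
            Sum.elim id (fun w => dm w.1 w.2) (T i)
        rcases hTi : T i with b | ⟨s, k⟩
        · rfl
        · by_cases h3 : s = z
          · simp only [Sum.elim_inr, if_pos h3]
            rw [h3, hdz]
          · simp only [Sum.elim_inr, if_neg h3, Sum.elim_inl, id]
            rw [hdo s h3]
      rw [e1, e2] at h1
      exact h1
    rw [ha]
    -- the move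
    let φ : (κ → ℕ) → (κ → ℕ) := fun c => if c = x (n z) then x (j z.rev) else c
    have hφ1 : φ (x (n z)) = x (j z.rev) := if_pos rfl
    have hφ2 : ∀ c, c ≠ x (n z) → φ c = c := fun c h => if_neg h
    have hap : ∀ i, ap T dm i = Sum.elim id (fun w => dm w.1 w.2) (T i) := fun i => rfl
    -- all entries
    have hent : ∀ i, (∃ a, T i = Sum.inl a ∧ ap T dm i = a) ∨
        (∃ s k, s < z ∧ T i = Sum.inr (s, k) ∧ ap T dm i = q (n s) k) ∨
        (∃ k, T i = Sum.inr (z, k) ∧ ap T dm i = x (n z) k) ∨
        ∃ s k, z < s ∧ T i = Sum.inr (s, k) ∧ ap T dm i = x (j s.rev) k := by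
      intro i
      rw [hap]
      rcases hTi : T i with a | ⟨s, k⟩
      · exact Or.inl ⟨a, rfl, rfl⟩
      · right
        rcases lt_trichotomy s z with h1 | h1 | h1
        · left
          refine ⟨s, k, h1, rfl, ?_⟩
          show dm s k = _
          rw [hdo s h1.ne, hcm1 m s (by rw [← hzm]; exact h1)]
        · right; left
          refine ⟨k, by rw [h1], ?_⟩
          show dm s k = _
          rw [h1, hdz]
        · right; right
          refine ⟨s, k, h1, rfl, ?_⟩
          show dm s k = _
          rw [hdo s h1.ne', hcm2 m s (by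
            have h2 : (z : ℕ) < s := h1
            omega)]
    have hnu : ¬ Used F (ap T dm) (x (j z.rev)) := by
      rintro ⟨-, i, k, hik⟩
      rcases hent i with ⟨a, h1, h2⟩ | ⟨s, k', h0, h1, h2⟩ | ⟨k', h1, h2⟩ | ⟨s, k', h0, h1, h2⟩
      · exact hfr i a z.rev k h1 (h2.symm.trans hik)
      · have h3 := ((hB.prev _ _ (hjn z.rev s)).2 k).1
        rw [← hik, h2] at h3
        exact (hB.out (n s) k').2 h3
      · have h3 := ((hB.prev _ _ (hjn z.rev z)).2 k).1
        rw [← hik, h2] at h3
        exact (hB.out (n z) k').1 h3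
      · have h3 := hok.disj _ (hB.mem _) _ (hB.mem _) k' k (h2.symm.trans hik)
        have h4 : j s.rev < j z.rev := hj (Fin.rev_lt_rev.2 h0)
        have h5 := hxlt _ _ h4
        rw [h3] at h5
        exact hok.irr _ (hB.mem _) h5
    have hMv : Mv F (ap T dm) φ := by
      constructor
      · intro c hc
        by_cases h1 : c = x (n z)
        · rw [h1, hφ1]
          exact hB.mem _
        · rw [hφ2 c h1]
          exact hc.1
      · intro c c' hc hc' he
        by_cases h1 : c = x (n z) <;> by_cases h2 : c' = x (n z)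
        · rw [h1, h2]
        · rw [h1, hφ1, hφ2 c' h2] at he
          rw [← he] at hc'
          exact absurd hc' hnu
        · rw [h2, hφ1, hφ2 c h1] at he
          rw [he] at hc
          exact absurd hc hnu
        · rw [hφ2 c h1, hφ2 c' h2] at he
          exact he
    -- full cells
    have hfull : ∀ c, Full F (ap T dm) c → c = x (n z) ∨ (∃ s, z < s ∧ c = x (j s.rev)) ∨
        ∀ k, ∃ i, T i = Sum.inl (c k) := by
      rintro c ⟨hc, hfc⟩
      by_cases h1 : c = x (n z)
      · exact Or.inl h1
      by_cases h2 : ∃ s, z < s ∧ c = x (j s.rev)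
      · exact Or.inr (Or.inl h2)
      right; right
      -- every entry is a constant or in some `q`
      have h3 : ∀ k, (∃ i, T i = Sum.inl (c k)) ∨ ∃ s k', s < z ∧ c k = q (n s) k' := by
        intro k
        obtain ⟨i, hi⟩ := hfc k
        rcases hent i with ⟨a, e1, e2⟩ | ⟨s, k', e0, e1, e2⟩ | ⟨k', e1, e2⟩ | ⟨s, k', e0, e1, e2⟩
        · left
          refine ⟨i, ?_⟩
          rw [e1, ← e2, hi]
        · right
          exact ⟨s, k', e0, hi.symm.trans e2⟩
        · exact absurd (hok.disj c hc _ (hB.mem _) k k' (hi.symm.trans e2)) h1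
        · exact absurd ⟨s, e0, hok.disj c hc _ (hB.mem _) k k' (hi.symm.trans e2)⟩ h2
      by_contra h4
      have h5 : ∃ s k k', s < z ∧ c k = q (n s) k' := by
        by_contra h6
        apply h4
        intro k
        rcases h3 k with h7 | ⟨s, k', h7, h8⟩
        · exact h7
        · exact absurd ⟨s, k, k', h7, h8⟩ h6
      obtain ⟨s, k, k', hs, hk⟩ := h5
      have h6 : ∀ k, c k ∉ E (n s) := by
        intro k'' h7
        have h8 := hB.cl (n s) c hc ⟨k'', h7⟩ k
        rw [hk] at h8
        exact (hB.out (n s) k').2 h8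
      apply hB.ncell (n s) c hc
      refine Set.eq_of_subset_of_ncard_le ?_ ?_ (Set.finite_range _)
      · rintro y ⟨k'', rfl⟩
        rcases h3 k'' with ⟨i, h7⟩ | ⟨s', k₁, h7, h8⟩
        · exact absurd (hTE s i _ h7) (h6 k'')
        · rcases lt_trichotomy s' s with h9 | h9 | h9
          · have h10 := ((hB.prev _ _ (hn h9)).2 k₁).2
            rw [← h8] at h10
            exact absurd h10 (h6 k'')
          · rw [h8, h9]
            exact ⟨k₁, rfl⟩
          · have h10 := ((hB.prev _ _ (hn h9)).2 k').2
            rw [← hk] at h10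
            have h11 := hB.cl (n s') c hc ⟨k, h10⟩ k''
            rw [h8] at h11
            exact absurd h11 (hB.out (n s') k₁).2
      · rw [← Set.image_univ, ← Set.image_univ, Set.ncard_image_of_injective _ (hok.inj c hc),
          Set.ncard_image_of_injective _ (hB.inj _)]
    have hjz : F.lt (x (j z.rev)) (x (n z)) := hxlt _ _ (hjn _ _)
    have hMon : Mon F (ap T dm) φ := by
      intro c c' hc hc' hlt
      have hcF := hc.1
      have hcF' := hc'.1
      by_cases h1 : c = x (n z)
      · have h2 : c' ≠ x (n z) := by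
          rintro rfl
          rw [h1] at hlt
          exact hok.irr _ (hB.mem _) hlt
        rw [h1, hφ1, hφ2 c' h2]
        rw [h1] at hlt
        exact hok.trans _ (hB.mem _) _ (hB.mem _) _ hcF' hjz hlt
      · rw [hφ2 c h1]
        by_cases h2 : c' = x (n z)
        · rw [h2, hφ1]
          rw [h2] at hlt
          rcases hfull c hc with h3 | ⟨s, h3, h4⟩ | h3
          · exact absurd h3 h1
          · rw [h4]
            exact hxlt _ _ (hj (Fin.rev_lt_rev.2 h3))
          · exact hlo c hcF h3 ⟨_, hlt⟩ z.rev
        · rw [hφ2 c' h2]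
          exact hlt
    have key := hF.free (ap T dm) φ hMv hMon
    rw [← key]
    congr 1
    funext i
    show F.mv φ (ap T dm i) = ap T (cm m) i
    rcases hent i with ⟨a, e1, e2⟩ | ⟨s, k', e0, e1, e2⟩ | ⟨k', e1, e2⟩ | ⟨s, k', e0, e1, e2⟩
    · have h1 : ap T (cm m) i = a := by
        show Sum.elim id (fun w => cm m w.1 w.2) (T i) = a
        rw [e1]
        rfl
      rw [e2, h1]
      refine Fam.mv_fix hok φ ?_
      rintro c hc ⟨k, hk⟩
      refine hφ2 c ?_
      rintro rfl
      have h2 := hTE z i a e1
      rw [← hk] at h2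
      exact (hB.out (n z) k).1 h2
    · have h1 : ap T (cm m) i = q (n s) k' := by
        show Sum.elim id (fun w => cm m w.1 w.2) (T i) = _
        rw [e1]
        show cm m s k' = _
        rw [hcm1 m s (by rw [← hzm]; exact e0)]
      rw [e2, h1]
      refine Fam.mv_fix hok φ ?_
      rintro c hc ⟨k, hk⟩
      refine hφ2 c ?_
      rintro rfl
      have h2 := ((hB.prev _ _ (hn e0)).2 k').2
      rw [← hk] at h2
      exact (hB.out (n z) k).1 h2
    · have h1 : ap T (cm m) i = x (j z.rev) k' := by
        show Sum.elim id (fun w => cm m w.1 w.2) (T i) = _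
        rw [e1]
        show cm m z k' = _
        rw [hcm2 m z (by omega)]
      rw [e2, h1, Fam.mv_cell hok φ (hB.mem _), hφ1]
    · have h1 : ap T (cm m) i = x (j s.rev) k' := by
        show Sum.elim id (fun w => cm m w.1 w.2) (T i) = _
        rw [e1]
        show cm m s k' = _
        rw [hcm2 m s (by
          have h2 : (z : ℕ) < s := e0
          omega)]
      rw [e2, h1, Fam.mv_cell hok φ (hB.mem _), hφ2]
      intro h2
      have h3 := hxlt _ _ (hjn s.rev z)
      rw [h2] at h3
      exact hok.irr _ (hB.mem _) h3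
  have hall : ∀ m, m ≤ p → N (ap T (cm m)) = N (ap T (cm 0)) := by
    intro m
    induction m with
    | zero => intro _; rfl
    | succ m ih =>
      intro hm
      rw [step m (by omega)]
      exact ih (by omega)
  have e1 : (fun s => q (n s)) = cm p := by
    funext s
    rw [hcm1 p s s.2]
  have e2 : (fun s : Fin p => x (j s.rev)) = cm 0 := by
    funext s
    rw [hcm2 0 s (Nat.not_lt_zero _)]
  rw [e1, e2]
  exact hall p le_rfl

end Pool.H17.TC
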