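import Pool.Agent.H17.TC.Rc2
import Pool.Agent.H17.TC.FamCA
import Pool.Agent.H17.TB.PCh

/-!
# RECO : the bad tuples form a pure chain
-/

set_option autoImplicit false

namespace Pool.H17.TC

open Pool.H22.VC Function Set Pool.H17.TA Pool.H17.TB

variable {r : ℕ} {K ι κ κ' : Type} {N : Col r K ℕ}

private theorem inc_lt {F : Fam κ} (h : F.OK) {x : ℕ → κ → ℕ} (hx : ∀ l, x l ∈ F.cells)
    (hinc : ∀ l, F.lt (x l) (x (l + 1))) (i j : ℕ) (hij : i < j) : F.lt (x i) (x j) := by
  obtain ⟨d, rfl⟩ := Nat.exists_eq_add_of_lt hij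
  clear hij
  induction d with
  | zero => exact hinc i
  | succ d ih => exact h.trans _ (hx i) _ (hx _) _ (hx _) ih (hinc _)

private theorem inc_iff {F : Fam κ} (h : F.OK) {x : ℕ → κ → ℕ} (hx : ∀ l, x l ∈ F.cells)
    (hinc : ∀ l, F.lt (x l) (x (l + 1))) (i j : ℕ) : F.lt (x i) (x j) ↔ i < j := by
  refine ⟨fun h1 => ?_, inc_lt h hx hinc i j⟩
  by_contra h2
  rcases Nat.lt_or_ge j i with h3 | h3
  · exact h.irr _ (hx i) (h.trans _ (hx i) _ (hx j) _ (hx i) h1 (inc_lt h hx hinc j i h3))
  · have h4 : i = j := by omega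
    subst h4
    exact h.irr _ (hx i) h1

/-- the place of a block number -/
private def plc (P n : ℕ) : Fin (P + 1) := ⟨min n P, Nat.lt_succ_of_le (min_le_right _ _)⟩

private theorem plc_val {P n : ℕ} (h : n ≤ P) : ((plc P n : Fin (P + 1)) : ℕ) = n :=
  min_eq_left h

/-- tuples of letters of `q` become tuples of cells `x`, in reversed order -/
private theorem to_x [Finite κ] {F : Fam κ} (hF : FN N F) {E : ℕ → Set ℕ} {x q : ℕ → κ → ℕ}
    (hB : Bad N F E x q) {A : Set ℕ} (hAo : ∀ a ∈ A, a ∉ F.supp) (hAE : A ⊆ E 0)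
    (hH : Hom N A q) (P : ℕ) (w : Fin r → ℕ ⊕ (ℕ × κ)) (hw : ∀ j a, w j = Sum.inl a → a ∈ A)
    (hwP : ∀ j n c, w j = Sum.inr (n, c) → n ≤ P) :
    N (fun j => TA.ev q (w j)) =
      N (ap (fun j => Sum.map id (fun v : ℕ × κ => (plc P v.1, v.2)) (w j))
        (fun s => x (s.rev : ℕ))) := by
  classical
  obtain ⟨k₀⟩ := hF.ok.nonempty
  have h1 := hH.hom (fun n => n + (P + 1)) (fun a b hab => Nat.add_lt_add_right hab _) w hw
  rw [← h1]
  have h2 := rl hF hB (fun j => Sum.map id (fun v : ℕ × κ => (plc P v.1, v.2)) (w j)) 0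
    (by
      intro j a hj
      rcases hwj : w j with b | v
      · rw [hwj] at hj
        have h3 : b = a := Sum.inl.inj hj
        rw [← h3]
        exact hAE (hw j b hwj)
      · rw [hwj] at hj
        simp at hj) (fun s => (s : ℕ)) (fun s => (s : ℕ) + (P + 1)) (fun a b hab => hab)
    (fun a b hab => Nat.add_lt_add_right hab _) (fun s => Nat.zero_le _)
    (fun s s' => by
      have := s.2
      omega)
    (by
      intro c hc hall
      exfalso
      obtain ⟨j, hj⟩ := hall k₀
      have hj' : Sum.map id (fun v : ℕ × κ => (plc P v.1, v.2)) (w j) = Sum.inl (c k₀) := hj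
      rcases hwj : w j with b | v
      · rw [hwj] at hj'
        have h3 : b = c k₀ := Sum.inl.inj hj'
        have h4 := hAo b (hw j b hwj)
        rw [h3] at h4
        exact h4 ⟨c, hc, k₀, rfl⟩
      · rw [hwj] at hj'
        simp at hj')
    (by
      intro j a s k hj hak
      have hj' : Sum.map id (fun v : ℕ × κ => (plc P v.1, v.2)) (w j) = Sum.inl a := hj
      rcases hwj : w j with b | v
      · rw [hwj] at hj'
        have h3 : b = a := Sum.inl.inj hj'
        have h4 := hAo b (hw j b hwj)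
        rw [h3, hak] at h4
        exact h4 ⟨_, hB.mem _, k, rfl⟩
      · rw [hwj] at hj'
        simp at hj')
  rw [← h2]
  congr 1
  funext j
  show TA.ev q (sh _ (w j)) = Sum.elim id _ (Sum.map id _ (w j))
  rcases hwj : w j with b | ⟨n, c⟩
  · rfl
  · show q (n + (P + 1)) c = q ((plc P n : ℕ) + (P + 1)) c
    rw [plc_val (hwP j n c hwj)]

private theorem col_perm [Finite κ] {A : Set ℕ} {q : ℕ → κ → ℕ} (hH : Hom N A q) {p : ℕ}
    (T : Fin r → ℕ ⊕ (Fin p × κ)) (hT : ∀ j a, T j = Sum.inl a → a ∈ A)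
    (hp : Perp N A q (id : κ → κ) (id : κ → κ)) (σ : Equiv.Perm (Fin p)) (f : ℕ) :
    N (ap T (fun s => q (f + (s : ℕ)))) = N (ap T (fun s => q (f + (σ s : ℕ)))) := by
  classical
  let z : Fin p × κ → ℕ × κ := fun v => ((v.1 : ℕ), v.2)
  let ψ : ℕ → ℕ := fun m => if h : m < p then (σ ⟨m, h⟩ : ℕ) else m
  have hψ : ∀ s : Fin p, ψ (s : ℕ) = (σ s : ℕ) := fun s => dif_pos s.2
  have h1 := teq_perm hH z ψ (by
    rintro ⟨s, k⟩ ⟨s', k'⟩ hne he
    apply hne
    show (s : ℕ) = (s' : ℕ)
    have h2 : ψ (s : ℕ) = ψ (s' : ℕ) := he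
    rw [hψ, hψ] at h2
    rw [σ.injective (Fin.ext h2)]) (by
    intro a b _ _ _ _
    exact hp.comp hH (fun v : {k | (z k).1 = a} => (v : Fin p × κ).2)
      (fun v : {k | (z k).1 = b} => (v : Fin p × κ).2))
  have h2 := h1 f (f + p + 1) (f + p + 1) (by omega) (by omega)
    (fun v => by
      show f + (v.1 : ℕ) < f + p + 1
      have := v.1.2
      omega)
    (fun v => by
      show f + ψ (v.1 : ℕ) < f + p + 1
      rw [hψ]
      have := (σ v.1).2
      omega)
    (fun j => Sum.map id (fun v => Sum.inr (Sum.inl v)) (T j)) ⟨by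
      intro j a hj
      rcases hTj : T j with b | v
      · have hj' : Sum.map id (fun v => Sum.inr (Sum.inl v)) (T j) =
          (Sum.inl a : ℕ ⊕ ((ℕ × κ) ⊕ ((Fin p × κ) ⊕ (ℕ × κ)))) := hj
        rw [hTj] at hj'
        have h3 : b = a := Sum.inl.inj hj'
        rw [← h3]
        exact hT j b hTj
      · have hj' : Sum.map id (fun v => Sum.inr (Sum.inl v)) (T j) =
          (Sum.inl a : ℕ ⊕ ((ℕ × κ) ⊕ ((Fin p × κ) ⊕ (ℕ × κ)))) := hj
        rw [hTj] at hj'
        simp at hj', by
      intro j v hj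
      rcases hTj : T j with b | v'
      · have hj' : Sum.map id (fun v => Sum.inr (Sum.inl v)) (T j) =
          (Sum.inr (Sum.inl v) : ℕ ⊕ ((ℕ × κ) ⊕ ((Fin p × κ) ⊕ (ℕ × κ)))) := hj
        rw [hTj] at hj'
        simp at hj'
      · have hj' : Sum.map id (fun v => Sum.inr (Sum.inl v)) (T j) =
          (Sum.inr (Sum.inl v) : ℕ ⊕ ((ℕ × κ) ⊕ ((Fin p × κ) ⊕ (ℕ × κ)))) := hj
        rw [hTj] at hj'
        simp at hj'⟩
  have e1 : (fun j => pl q f (f + p + 1) z (Sum.map id (fun v => Sum.inr (Sum.inl v)) (T j))) =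
      ap T (fun s => q (f + (s : ℕ))) := by
    funext j
    show pl q f (f + p + 1) z (Sum.map id (fun v => Sum.inr (Sum.inl v)) (T j)) =
      Sum.elim id (fun v => q (f + (v.1 : ℕ)) v.2) (T j)
    rcases T j with b | v <;> rfl
  have e2 : (fun j => pl q f (f + p + 1) (fun k => (ψ (z k).1, (z k).2))
      (Sum.map id (fun v => Sum.inr (Sum.inl v)) (T j))) =
      ap T (fun s => q (f + (σ s : ℕ))) := by
    funext j
    show pl q f (f + p + 1) _ (Sum.map id (fun v => Sum.inr (Sum.inl v)) (T j)) =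
      Sum.elim id (fun v => q (f + (σ v.1 : ℕ)) v.2) (T j)
    rcases T j with b | v
    · rfl
    · show q (f + ψ (v.1 : ℕ)) v.2 = q (f + (σ v.1 : ℕ)) v.2
      rw [hψ]
  rw [e1, e2] at h2
  exact h2

/-- `rl` for a permuted template -/
private theorem rl_perm [Finite κ] {F : Fam κ} (hF : FN N F) {E : ℕ → Set ℕ} {x q : ℕ → κ → ℕ}
    (hB : Bad N F E x q) {A : Set ℕ} (hAo : ∀ a ∈ A, a ∉ F.supp) (hAE : A ⊆ E 0) {p : ℕ}
    (T : Fin r → ℕ ⊕ (Fin p × κ)) (hT : ∀ j a, T j = Sum.inl a → a ∈ A)
    (σ : Equiv.Perm (Fin p)) :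
    N (ap T (fun s => q (p + (σ s : ℕ)))) = N (ap T (fun s => x ((σ s).rev : ℕ))) := by
  classical
  obtain ⟨k₀⟩ := hF.ok.nonempty
  have hTT : ∀ j a, Sum.map id (fun v : Fin p × κ => (σ v.1, v.2)) (T j) = Sum.inl a →
      a ∈ A := by
    intro j a hj
    rcases hTj : T j with b | v
    · rw [hTj] at hj
      have h3 : b = a := Sum.inl.inj hj
      rw [← h3]
      exact hT j b hTj
    · rw [hTj] at hj
      simp at hj
  have h2 := rl hF hB (fun j => Sum.map id (fun v : Fin p × κ => (σ v.1, v.2)) (T j)) 0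
    (fun j a hj => hAE (hTT j a hj)) (fun s => (s : ℕ)) (fun s => p + (s : ℕ))
    (fun a b hab => hab)
    (fun a b hab => Nat.add_lt_add_left hab _) (fun s => Nat.zero_le _)
    (fun s s' => by
      have := s.2
      omega)
    (by
      intro c hc hall
      exfalso
      obtain ⟨j, hj⟩ := hall k₀
      exact hAo _ (hTT j _ hj) ⟨c, hc, k₀, rfl⟩)
    (by
      intro j a s k hj hak
      have h4 := hAo a (hTT j a hj)
      rw [hak] at h4
      exact h4 ⟨_, hB.mem _, k, rfl⟩)
  have e1 : ∀ c : Fin p → κ → ℕ,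
      ap (fun j => Sum.map id (fun v : Fin p × κ => (σ v.1, v.2)) (T j)) c =
        ap T (fun s => c (σ s)) := by
    intro c
    funext j
    show Sum.elim id (fun v => c v.1 v.2) (Sum.map id (fun v : Fin p × κ => (σ v.1, v.2)) (T j)) =
      Sum.elim id (fun v => c (σ v.1) v.2) (T j)
    rcases T j with b | v <;> rfl
  rw [e1, e1] at h2
  exact h2

private theorem bad_ca [Finite κ] {F : Fam κ} (hF : FN N F) {p : ℕ}
    {T : Fin r → ℕ ⊕ (Fin p × κ)} {i i' : Fin p} {ε ε' : K} (hJ : Jmp N F p T i i' ε ε')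
    {E : ℕ → Set ℕ} {x q : ℕ → κ → ℕ} (hB : Bad N F E x q) {A : Set ℕ} (hA : A.Finite)
    (hAo : ∀ a ∈ A, a ∉ F.supp) (hT : ∀ j a, T j = Sum.inl a → a ∈ A) (hAE : A ⊆ E 0)
    (hH : Hom N A q) : CA N A q (id : κ → κ) := by
  classical
  have hok := hF.ok
  have hlt := inc_iff hok hB.mem hB.inc
  have hxinj : ∀ m n, x m = x n → m = n := by
    intro m n he
    rcases Nat.lt_trichotomy m n with h1 | h1 | h1
    · have h2 := (hlt m n).2 h1
      rw [he] at h2
      exact absurd h2 (hok.irr _ (hB.mem _))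
    · exact h1
    · have h2 := (hlt n m).2 h1
      rw [he] at h2
      exact absurd h2 (hok.irr _ (hB.mem _))
  refine ⟨injective_id, ?_, ?_⟩
  · -- the whole tuples do not commute
    intro hp
    apply hJ.ne
    have c1 := col_perm hH T hT hp Fin.revPerm p
    have c2 := col_perm hH T hT hp ((Equiv.swap i i').trans Fin.revPerm) p
    rw [c1, rl_perm hF hB hAo hAE T hT, rl_perm hF hB hAo hAE T hT] at c2
    have e1 : (fun s : Fin p => x ((Fin.revPerm s).rev : ℕ)) = fun s : Fin p => x (s : ℕ) := by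
      funext s
      rw [Fin.revPerm_apply, Fin.rev_rev]
    have e2 : (fun s : Fin p => x ((((Equiv.swap i i').trans Fin.revPerm) s).rev : ℕ)) =
        fun s : Fin p => x (Equiv.swap i i' s : ℕ) := by
      funext s
      rw [Equiv.trans_apply, Fin.revPerm_apply, Fin.rev_rev]
    rw [e1, e2] at c2
    have hinc : Inc F (fun s : Fin p => x (s : ℕ)) :=
      ⟨fun s => hB.mem _, fun s s' hs => (hlt _ _).2 hs⟩
    rw [← hJ.inc _ hinc, ← hJ.swp _ hinc]
    exact c2
  · -- proper parts commute
    intro s s' hs f b b' hb hb' hz hz' t ht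
    obtain ⟨B, hBd⟩ : ∃ B, B = b + b' + f + 2 := ⟨_, rfl⟩
    have hz1 : ∀ k, f + (Sum.elim (blk 0 (res s (id : κ → κ))) (blk 1 (res s' (id : κ → κ)))
        k).1 < B := by
      rintro (k | k)
      · show f + 0 < B
        omega
      · show f + 1 < B
        omega
    have hz2 : ∀ k, f + (Sum.elim (blk 1 (res s (id : κ → κ))) (blk 0 (res s' (id : κ → κ)))
        k).1 < B := by
      rintro (k | k)
      · show f + 1 < B
        omega
      · show f + 0 < B
        omega
    rw [pl_shift hH _ le_rfl hb (by omega : f ≤ B) hz hz1 t ht,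
      pl_shift hH _ le_rfl hb' (by omega : f ≤ B) hz' hz2 t ht]
    simp only [pl_eq]
    -- a bound for all blocks
    obtain ⟨M, hM⟩ : ∃ M, ∀ j v, t j = Sum.inr (Sum.inr (Sum.inr v)) → v.1 ≤ M := by
      obtain ⟨M, hM⟩ := (Set.finite_range (fun j : Fin r => Sum.elim (fun _ => 0)
        (Sum.elim (fun _ => 0) (Sum.elim (fun _ => 0) (fun v : ℕ × κ => v.1))) (t j))).bddAbove
      refine ⟨M, fun j v hj => ?_⟩
      have h1 := hM (mem_range_self j)
      simpa [hj] using h1
    obtain ⟨P, hP⟩ : ∃ P, P = B + M := ⟨_, rfl⟩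
    have hcA : ∀ (z : (s ⊕ s') → ℕ × κ) j a, plT f B z (t j) = Sum.inl a → a ∈ A := by
      intro z j a hj
      rcases htj : t j with a' | v | k | v
      · rw [htj] at hj
        have h1 : a' = a := Sum.inl.inj hj
        rw [← h1]
        exact ht.1 j a' htj
      · rw [htj] at hj
        simp [plT] at hj
      · rw [htj] at hj
        simp [plT] at hj
      · rw [htj] at hj
        simp [plT] at hj
    have hcP : ∀ (z : (s ⊕ s') → ℕ × κ), (∀ k, (z k).1 ≤ 1) → ∀ j n c,
        plT f B z (t j) = Sum.inr (n, c) → n ≤ P := by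
      intro z hz j n c hj
      rcases htj : t j with a' | v | k | v
      · rw [htj] at hj
        simp [plT] at hj
      · rw [htj] at hj
        have h1 : v = (n, c) := Sum.inr.inj hj
        have h2 := ht.2 j v htj
        rw [h1] at h2
        simp only at h2
        omega
      · rw [htj] at hj
        have h1 : (f + (z k).1, (z k).2) = (n, c) := Sum.inr.inj hj
        have h2 : f + (z k).1 = n := congrArg Prod.fst h1
        have h3 := hz k
        omega
      · rw [htj] at hj
        have h1 : (B + v.1, v.2) = (n, c) := Sum.inr.inj hj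
        have h2 : B + v.1 = n := congrArg Prod.fst h1
        have h3 := hM j v htj
        omega
    rw [to_x hF hB hAo hAE hH P _ (hcA _) (hcP _ (by
        rintro (k | k)
        · exact Nat.zero_le _
        · exact le_rfl)),
      to_x hF hB hAo hAE hH P _ (hcA _) (hcP _ (by
        rintro (k | k)
        · exact le_rfl
        · exact Nat.zero_le _))]
    -- the two places
    obtain ⟨pf, hpf⟩ : ∃ pf, pf = plc P f := ⟨_, rfl⟩
    obtain ⟨pg, hpg⟩ : ∃ pg, pg = plc P (f + 1) := ⟨_, rfl⟩
    have vpf : (pf : ℕ) = f := by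
      rw [hpf]
      exact plc_val (by omega)
    have vpg : (pg : ℕ) = f + 1 := by
      rw [hpg]
      exact plc_val (by omega)
    have hpl : ∀ n, n ≤ P → n ≠ f → n ≠ f + 1 → Equiv.swap pf pg (plc P n) = plc P n := by
      intro n hn h1 h2
      have h3 : ((plc P n : Fin (P + 1)) : ℕ) = n := plc_val hn
      refine Equiv.swap_apply_of_ne_of_ne ?_ ?_
      · intro h4
        have h5 := congrArg Fin.val h4
        omega
      · intro h4
        have h5 := congrArg Fin.val h4
        omega
    obtain ⟨T₁, hT₁⟩ : ∃ T₁ : Fin r → ℕ ⊕ (Fin (P + 1) × κ), T₁ = fun j =>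
      Sum.map id (fun v : ℕ × κ => (plc P v.1, v.2)) (plT f B
        (Sum.elim (blk 0 (res s (id : κ → κ))) (blk 1 (res s' (id : κ → κ)))) (t j)) := ⟨_, rfl⟩
    have hT₂ : ∀ c : Fin (P + 1) → κ → ℕ, ap (fun j =>
      Sum.map id (fun v : ℕ × κ => (plc P v.1, v.2)) (plT f B
        (Sum.elim (blk 1 (res s (id : κ → κ))) (blk 0 (res s' (id : κ → κ)))) (t j))) c =
          ap T₁ (fun u => c (Equiv.swap pf pg u)) := by
      intro c
      funext j
      rw [hT₁]
      show Sum.elim id (fun v => c v.1 v.2) (Sum.map id (fun v : ℕ × κ => (plc P v.1, v.2))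
        (plT f B (Sum.elim (blk 1 (res s (id : κ → κ))) (blk 0 (res s' (id : κ → κ)))) (t j))) =
        Sum.elim id (fun v => c (Equiv.swap pf pg v.1) v.2)
          (Sum.map id (fun v : ℕ × κ => (plc P v.1, v.2)) (plT f B
            (Sum.elim (blk 0 (res s (id : κ → κ))) (blk 1 (res s' (id : κ → κ)))) (t j)))
      rcases htj : t j with a' | v | (k | k) | v
      · rfl
      · show c (plc P v.1) v.2 = c (Equiv.swap pf pg (plc P v.1)) v.2
        have h2 := ht.2 j v htj
        rw [hpl v.1 (by omega) (by omega) (by omega)]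
      · show c (plc P (f + 1)) (k : κ) = c (Equiv.swap pf pg (plc P f)) (k : κ)
        rw [← hpf, ← hpg, Equiv.swap_apply_left]
      · show c (plc P f) (k : κ) = c (Equiv.swap pf pg (plc P (f + 1))) (k : κ)
        rw [← hpf, ← hpg, Equiv.swap_apply_right]
      · show c (plc P (B + v.1)) v.2 = c (Equiv.swap pf pg (plc P (B + v.1))) v.2
        have h2 := hM j v htj
        rw [hpl (B + v.1) (by omega) (by omega) (by omega)]
    rw [hT₂, ← hT₁]
    -- full places
    have hfullf : (∀ k, ∃ j, T₁ j = Sum.inr (pf, k)) → s = univ := by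
      intro h
      refine Set.eq_univ_of_forall fun k => ?_
      obtain ⟨j, hj⟩ := h k
      rw [hT₁] at hj
      have hj' : Sum.map id (fun v : ℕ × κ => (plc P v.1, v.2)) (plT f B
        (Sum.elim (blk 0 (res s (id : κ → κ))) (blk 1 (res s' (id : κ → κ)))) (t j)) =
          Sum.inr (pf, k) := hj
      have hval : ∀ n c, n ≤ P → ((plc P n, c) : Fin (P + 1) × κ) = (pf, k) → n = f ∧ c = k := by
        intro n c hn he
        refine ⟨?_, congrArg Prod.snd he⟩
        have h1 := congrArg Fin.val (congrArg Prod.fst he)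
        have h2 : ((plc P n : Fin (P + 1)) : ℕ) = n := plc_val hn
        simp only at h1
        omega
      rcases htj : t j with a' | v | (k' | k') | v
      · rw [htj] at hj'
        exact absurd hj' (by simp [plT])
      · rw [htj] at hj'
        have h2 := ht.2 j v htj
        obtain ⟨h3, h4⟩ := hval v.1 v.2 (by omega) (Sum.inr.inj hj')
        omega
      · rw [htj] at hj'
        obtain ⟨h3, h4⟩ := hval (f + 0) (k' : κ) (by omega) (Sum.inr.inj hj')
        rw [← h4]
        exact k'.2
      · rw [htj] at hj'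
        obtain ⟨h3, h4⟩ := hval (f + 1) (k' : κ) (by omega) (Sum.inr.inj hj')
        omega
      · rw [htj] at hj'
        have h2 := hM j v htj
        obtain ⟨h3, h4⟩ := hval (B + v.1) v.2 (by omega) (Sum.inr.inj hj')
        omega
    have hfullg : (∀ k, ∃ j, T₁ j = Sum.inr (pg, k)) → s' = univ := by
      intro h
      refine Set.eq_univ_of_forall fun k => ?_
      obtain ⟨j, hj⟩ := h k
      rw [hT₁] at hj
      have hj' : Sum.map id (fun v : ℕ × κ => (plc P v.1, v.2)) (plT f B
        (Sum.elim (blk 0 (res s (id : κ → κ))) (blk 1 (res s' (id : κ → κ)))) (t j)) =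
          Sum.inr (pg, k) := hj
      have hval : ∀ n c, n ≤ P → ((plc P n, c) : Fin (P + 1) × κ) = (pg, k) →
          n = f + 1 ∧ c = k := by
        intro n c hn he
        refine ⟨?_, congrArg Prod.snd he⟩
        have h1 := congrArg Fin.val (congrArg Prod.fst he)
        have h2 : ((plc P n : Fin (P + 1)) : ℕ) = n := plc_val hn
        simp only at h1
        omega
      rcases htj : t j with a' | v | (k' | k') | v
      · rw [htj] at hj'
        exact absurd hj' (by simp [plT])
      · rw [htj] at hj'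
        have h2 := ht.2 j v htj
        obtain ⟨h3, h4⟩ := hval v.1 v.2 (by omega) (Sum.inr.inj hj')
        omega
      · rw [htj] at hj'
        obtain ⟨h3, h4⟩ := hval (f + 0) (k' : κ) (by omega) (Sum.inr.inj hj')
        omega
      · rw [htj] at hj'
        obtain ⟨h3, h4⟩ := hval (f + 1) (k' : κ) (by omega) (Sum.inr.inj hj')
        rw [← h4]
        exact k'.2
      · rw [htj] at hj'
        have h2 := hM j v htj
        obtain ⟨h3, h4⟩ := hval (B + v.1) v.2 (by omega) (Sum.inr.inj hj')
        omega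
    have hT₁A : ∀ j a, T₁ j = Sum.inl a → a ∉ F.supp := by
      intro j a hj
      rw [hT₁] at hj
      have hj' : Sum.map id (fun v : ℕ × κ => (plc P v.1, v.2)) (plT f B
        (Sum.elim (blk 0 (res s (id : κ → κ))) (blk 1 (res s' (id : κ → κ)))) (t j)) =
          Sum.inl a := hj
      rcases htj : t j with a' | v | k | v
      · rw [htj] at hj'
        have h1 : a' = a := Sum.inl.inj hj'
        rw [← h1]
        exact hAo a' (ht.1 j a' htj)
      · rw [htj] at hj'
        exact absurd hj' (by simp [plT])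
      · rw [htj] at hj'
        exact absurd hj' (by simp [plT])
      · rw [htj] at hj'
        exact absurd hj' (by simp [plT])
    refine ap_free hF T₁ hT₁A _ _ (fun u => hB.mem _) (fun u => hB.mem _) ?_ ?_ ?_
    · intro u v huv
      have h1 := hxinj _ _ huv
      exact Fin.rev_injective (Fin.ext h1)
    · intro u v huv
      have h1 := hxinj _ _ huv
      exact (Equiv.swap pf pg).injective (Fin.rev_injective (Fin.ext h1))
    · intro u v hu hv huv
      have huv' : F.lt (x (u.rev : ℕ)) (x (v.rev : ℕ)) := huv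
      rw [hlt] at huv'
      show F.lt (x ((Equiv.swap pf pg u).rev : ℕ)) (x ((Equiv.swap pf pg v).rev : ℕ))
      rw [hlt]
      rw [Fin.val_rev, Fin.val_rev] at huv'
      rw [Fin.val_rev, Fin.val_rev]
      have hu2 := u.2
      have hv2 := v.2
      have hnot : ¬ (u = pg ∧ v = pf) := by
        rintro ⟨rfl, rfl⟩
        rcases hs with hs | hs
        · exact hs (hfullf hv)
        · exact hs (hfullg hu)
      have key : ((Equiv.swap pf pg v : Fin (P + 1)) : ℕ) < (Equiv.swap pf pg u : ℕ) := by
        rw [Equiv.swap_apply_def, Equiv.swap_apply_def]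
        split_ifs with h1 h2 h3 h4 h5 h6 h7
        · exfalso
          rw [h1, h2] at huv'
          omega
        · exact absurd ⟨h3, h1⟩ hnot
        · have h8 : (u : ℕ) ≠ (pg : ℕ) := fun h => h3 (Fin.ext h)
          rw [h1] at huv'
          omega
        · rw [h4, h5] at huv'
          omega
        · exfalso
          rw [h4, h6] at huv'
          omega
        · rw [h4] at huv'
          omega
        · have h8 : (v : ℕ) ≠ (pf : ℕ) := fun h => h1 (Fin.ext h)
          rw [h7] at huv'
          omega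
        · rename_i h8
          rw [h8] at huv'
          have h9 : (v : ℕ) ≠ (pf : ℕ) := fun h => h1 (Fin.ext h)
          omega
        · omega
      have h1 := (Equiv.swap pf pg u).2
      omega

/-- PROOF. `exists_jmp`: `T`, places `i`, `i'`. `norm` for the pairs (`x n`, `q n`) over the constants of `T` and
of `fam_ca`: `A`, a subsequence (`Bad.sub`) such that `x` and `q` are homogeneous over `A` (their points are
letters). `nperp`: otherwise (proper parts included) all permutations of the blocks of `q` are invisible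
(`teq_perm`), so the colour of `ap T (fun s => q (n (π s)))` does not depend on `π`; by `rl` (for `T` with
permuted places; the constants of `T` are outside `F.supp`) the colour of `ap T (fun s => x (j (π s)))`
does not depend on `π`: contradiction to `Jmp`. `min`: a context and two parts of `q` in blocks
`f < f + 1` (one of them proper), blocks shifted to large numbers: by `rl` the colour is the one of the
same tuple with cells `x`, in reversed order; the move exchanging the two cells `x` (neighbours, at most one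
full) is order preserving (as in `fam_perp`). Finally `exists_pure` (for the chain atom `id`). -/
theorem bad_pch (hW : ¬ Wild N univ) (hN : (range N).Finite) [Finite κ] {F : Fam κ}
    (hF : FN N F) {E : ℕ → Set ℕ} {x q : ℕ → κ → ℕ} (hB : Bad N F E x q) :
    ∃ (A : Set ℕ) (φ : ℕ → ℕ), StrictMono φ ∧ PCh N A (fun i => q (φ i)) ∧
      MG N A (fun i => q (φ i)) := by
  classical
  obtain ⟨p, T, i, i', ε, ε', hJ⟩ := exists_jmp hF
  obtain ⟨A, hA⟩ : ∃ A : Set ℕ, A = {a | ∃ j, T j = Sum.inl a} := ⟨_, rfl⟩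
  have hAfin : A.Finite := by
    have h1 : A ⊆ (fun j => Sum.elim id (fun _ => 0) (T j)) '' (univ : Set (Fin r)) := by
      intro a ha
      rw [hA] at ha
      obtain ⟨j, hj⟩ := ha
      exact ⟨j, mem_univ _, by simp [hj]⟩
    exact (Set.finite_univ.image _).subset h1
  have hAo : ∀ a ∈ A, a ∉ F.supp := by
    intro a ha
    rw [hA] at ha
    obtain ⟨j, hj⟩ := ha
    exact hJ.out j a hj
  obtain ⟨n₁, hn₁⟩ := hAfin.bddAbove
  have hqq : ∀ m n k k', q m k = q n k' → m = n ∧ k = k' := by
    have h1 : ∀ m n k k', m < n → q m k ≠ q n k' := by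
      intro m n k k' hmn he
      have h2 := ((hB.prev m n hmn).2 k).2
      rw [he] at h2
      exact (hB.out n k').2 h2
    intro m n k k' he
    rcases Nat.lt_trichotomy m n with h2 | h2 | h2
    · exact absurd he (h1 m n k k' h2)
    · subst h2
      exact ⟨rfl, hB.inj m he⟩
    · exact absurd he.symm (h1 n m k' k h2)
  obtain ⟨φ, hφ, hH⟩ := hom_sub (N := N) (A := A) (e := fun n => q (n₁ + n)) hN hAfin
    (fun m n k k' he => by
      obtain ⟨h1, h2⟩ := hqq _ _ _ _ he
      exact ⟨by omega, h2⟩)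
    (fun n k hk => (hB.out (n₁ + n) k).2 (hB.le _ _ ((hn₁ hk).trans (Nat.le_add_right _ _))))
  have hφ' : StrictMono (fun n => n₁ + φ n) := fun a b hab => Nat.add_lt_add_left (hφ hab) n₁
  have hB' := hB.sub hF.ok hφ'
  have hAE : A ⊆ E (n₁ + φ 0) := fun a ha => hB.le _ _ ((hn₁ ha).trans (Nat.le_add_right _ _))
  have hca := bad_ca hF hJ hB' hAfin hAo (fun j a hj => by
    rw [hA]
    exact ⟨j, hj⟩) hAE hH
  obtain ⟨A', ψ, -, hψ, hP, hM⟩ := exists_pure hW hH hAfin hca
  exact ⟨A', fun n => n₁ + φ (ψ n), hφ'.comp hψ, hP, hM⟩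

end Pool.H17.TC
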