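import Pool.Agent.H17.TC.SubV2

/-!
# Cells of a family which are cells of `VV`
-/

set_option autoImplicit false

namespace Pool.H17.TC

open Pool.H22.VC Function Set Pool.H17.TA Pool.H17.TB

variable {r : ℕ} {K ι κ κ' : Type} {N : Col r K ℕ} {A : Set ℕ} {x : ℕ → κ → ℕ}

/-- SEP. For large `n`: if a cell `g` of `G` has the range of a cell `v` of `VV n` then it is between
`x n` and some `x l` in `G`. PROOF (helper22, no limits needed). `v` looks over `A` and the blocks
`≤ n` or `≥ L` like `x (n + 1)`. Take a context `t₀` which shows the order of two cells of the chain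
(`v_ctx2`, front blocks `< r ≤ n`, far blocks `≥ L + 1`). The pair `(x n, v)` has the colour of
`(x n, x (n + 1))`, the pair `(x L, v)` has the colour of `(x L, x (n + 1))`: different. If `g` is not
between `x n` and some `x l` then it is below `x n` or above all `x l`, so the move of `x n` to `x L` in
`G` passes no full cell (the cells meeting `A` above `x n` are above all `x l`, `n` large): the colours
are equal, a contradiction. -/
theorem sep (hW : ¬ Wild N univ) (hN : (range N).Finite) (hP : PCh N A x) [Finite κ]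
    (hMG : MG N A x) {G : Fam κ} (hG : FN N G)
    (hx : ∀ l, x l ∈ G.cells) (hinc : ∀ l, G.lt (x l) (x (l + 1))) :
    ∃ n₀, ∀ n, n₀ ≤ n → ∀ g ∈ G.cells, ∀ v ∈ VV N A x n, range g = range v →
      G.lt (x n) g ∧ ∃ l, G.lt g (x l) := by
  classical
  have hok := hG.ok
  obtain ⟨k₀⟩ := hok.nonempty
  have hxlt : ∀ i j, i < j → G.lt (x i) (x j) := by
    intro i j hij
    obtain ⟨d, rfl⟩ := Nat.exists_eq_add_of_lt hij
    clear hij
    induction d with
    | zero => exact hinc i
    | succ d ih => exact hok.trans _ (hx i) _ (hx _) _ (hx _) ih (hinc _)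
  have hasym : ∀ c ∈ G.cells, ∀ c' ∈ G.cells, G.lt c c' → G.lt c' c → False :=
    fun c hc c' hc' h h' => hok.irr c hc (hok.trans c hc c' hc' c hc h h')
  -- the cells which meet `A`
  obtain ⟨S, hS⟩ : ∃ S : Set (κ → ℕ), S = {c | c ∈ G.cells ∧ ∃ k, c k ∈ A} := ⟨_, rfl⟩
  have hSfin : S.Finite := by
    have h1 : S ⊆ ⋃ a ∈ A, {c | c ∈ G.cells ∧ ∃ k, c k = a} := by
      intro c hc
      rw [hS] at hc
      obtain ⟨hc1, k, hk⟩ := hc
      rw [mem_iUnion₂]
      exact ⟨c k, hk, hc1, k, rfl⟩
    refine (hP.fin.biUnion fun a _ => ?_).subset h1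
    refine Set.Subsingleton.finite ?_
    rintro c ⟨hc, k, hk⟩ c' ⟨hc', k', hk'⟩
    exact hok.disj c hc c' hc' k k' (hk.trans hk'.symm)
  obtain ⟨n₁, hn₁⟩ : ∃ n₁, ∀ c ∈ S, (∃ l, G.lt c (x l)) → G.lt c (x n₁) := by
    let lf : (κ → ℕ) → ℕ := fun c => if h : ∃ l, G.lt c (x l) then h.choose else 0
    obtain ⟨M, hM⟩ := (hSfin.image lf).bddAbove
    refine ⟨M + 1, fun c hc hl => ?_⟩
    have h1 : lf c ≤ M := hM ⟨c, hc, rfl⟩
    have h2 : lf c = hl.choose := dif_pos hl
    have h3 := hl.choose_spec
    rw [← h2] at h3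
    have hcG : c ∈ G.cells := by
      rw [hS] at hc
      exact hc.1
    exact hok.trans c hcG _ (hx _) _ (hx _) h3 (hxlt _ _ (by omega))
  obtain ⟨t₀, ε, ε', hA, hfr, hne, hval⟩ := v_ctx2 hP
  refine ⟨n₁ + r + 1, fun n hn g hg v hv hgv => ?_⟩
  obtain ⟨L, hnL, hVL⟩ := hv
  by_contra hcon
  -- `g` is not a cell of the chain
  have hgx : ∀ l, g ≠ x l := by
    rintro l rfl
    by_cases hl : l ≤ n
    · have h1 : v k₀ ∈ range (x l) := by
        rw [hgv]
        exact mem_range_self _
      obtain ⟨k, hk⟩ := h1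
      exact hVL.2.2.1 l k k₀ (Or.inl hl) hk.symm
    · exact hcon ⟨hxlt _ _ (by omega), l + 1, hxlt _ _ (by omega)⟩
  -- `g` is below `x n` or above the chain
  have hpos : ¬ G.lt (x n) g ∨ ∀ l, G.lt (x l) g := by
    by_cases h1 : G.lt (x n) g
    · right
      intro l
      rcases hok.total _ (hx l) _ hg (hgx l).symm with h2 | h2
      · exact h2
      · exact absurd ⟨h1, l, h2⟩ hcon
    · exact Or.inl h1
  -- the colours
  have hcol : ∀ l, l ≤ n ∨ L ≤ l → N (fun j => vEC x (L + 1) (x l) v (t₀ j)) =
      N (fun j => vEC x (L + 1) (x l) (x (n + 1)) (t₀ j)) := by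
    intro l hl
    let t : Fin r → ℕ ⊕ ((ℕ × κ) ⊕ κ) := fun j =>
      Sum.elim Sum.inl (Sum.elim (fun p => Sum.inr (Sum.inl p)) (Sum.elim
        (Sum.elim (fun k => Sum.inr (Sum.inl (l, k))) (fun k => Sum.inr (Sum.inr k)))
        (fun p => Sum.inr (Sum.inl (L + 1 + p.1, p.2))))) (t₀ j)
    have h1 := hVL.2.2.2 t (by
      intro j a hj
      rcases htj : t₀ j with b | p | (k | k) | p <;>
        simp only [t, htj, Sum.elim_inl, Sum.elim_inr, Sum.inl.injEq, reduceCtorEq] at hj
      rw [← hj]
      exact hA j b htj) (by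
      intro j p hj
      rcases htj : t₀ j with b | q | (k | k) | q <;>
        simp only [t, htj, Sum.elim_inl, Sum.elim_inr, Sum.inr.injEq, Sum.inl.injEq,
          reduceCtorEq] at hj
      · rw [← hj]
        have := hfr j q htj
        left
        omega
      · rw [← hj]
        exact hl
      · rw [← hj]
        right
        show L ≤ L + 1 + q.1
        omega)
    refine Eq.trans ?_ (h1.trans ?_)
    · congr 1
      funext j
      rcases htj : t₀ j with b | q | (k | k) | q <;> simp only [t, htj] <;> rfl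
    · congr 1
      funext j
      rcases htj : t₀ j with b | q | (k | k) | q <;> simp only [t, htj] <;> rfl
  have c1 : N (fun j => vEC x (L + 1) (x n) v (t₀ j)) = ε := by
    rw [hcol n (Or.inl le_rfl)]
    exact (hval n (n + 1) (L + 1) (by omega) (by omega) (by omega)).1
  have c2 : N (fun j => vEC x (L + 1) (x L) v (t₀ j)) = ε' := by
    rw [hcol L (Or.inr le_rfl)]
    exact (hval (n + 1) L (L + 1) (by omega) (by omega) (by omega)).2
  -- the move
  obtain ⟨s, hs⟩ : ∃ s : Fin r → ℕ, s = fun j => vEC x (L + 1) (x n) v (t₀ j) := ⟨_, rfl⟩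
  let φ : (κ → ℕ) → (κ → ℕ) := fun c => if c = x n then x L else c
  have hφn : φ (x n) = x L := if_pos rfl
  have hφo : ∀ c, c ≠ x n → φ c = c := fun c hc => if_neg hc
  have hxinj : ∀ i j, x i = x j → i = j := by
    intro i j h
    have := congrFun h k₀
    exact (hP.hom.inj _ _ _ _ this).1
  have hnotA : ∀ c ∈ G.cells, (∃ k, c k ∈ A) → ∀ l, c ≠ x l := by
    rintro c hc ⟨k, hk⟩ l rfl
    exact hP.hom.notA _ _ hk
  have hvg : ∀ k, ∃ k', v k = g k' := by
    intro k
    have : v k ∈ range g := by
      rw [hgv]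
      exact mem_range_self k
    obtain ⟨k', hk'⟩ := this
    exact ⟨k', hk'.symm⟩
  -- used cells
  have hused : ∀ c, Used G s c → c = x n ∨ c = g ∨ (∃ k, c k ∈ A) ∨ (∃ i < n, c = x i) ∨
      ∃ i, L < i ∧ c = x i := by
    rintro c ⟨hc, j, k, hjk⟩
    rw [hs] at hjk
    rcases htj : t₀ j with a | p | (k' | k') | p
    · have h1 : a = c k := by
        have := hjk
        simp only [htj] at this
        exact this
      exact Or.inr (Or.inr (Or.inl ⟨k, h1 ▸ hA j a htj⟩))
    · have h1 : x p.1 p.2 = c k := by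
        have := hjk
        simp only [htj] at this
        exact this
      have := hfr j p htj
      exact Or.inr (Or.inr (Or.inr (Or.inl ⟨p.1, by omega,
        (hok.disj _ (hx _) _ hc _ _ h1).symm⟩)))
    · have h1 : x n k' = c k := by
        have := hjk
        simp only [htj] at this
        exact this
      exact Or.inl (hok.disj _ (hx _) _ hc _ _ h1).symm
    · have h1 : v k' = c k := by
        have := hjk
        simp only [htj] at this
        exact this
      obtain ⟨k'', hk''⟩ := hvg k'
      rw [hk''] at h1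
      exact Or.inr (Or.inl (hok.disj _ hg _ hc _ _ h1).symm)
    · have h1 : x (L + 1 + p.1) p.2 = c k := by
        have := hjk
        simp only [htj] at this
        exact this
      exact Or.inr (Or.inr (Or.inr (Or.inr ⟨L + 1 + p.1, by omega,
        (hok.disj _ (hx _) _ hc _ _ h1).symm⟩)))
  have hnL' : ∀ c, Used G s c → c ≠ x L := by
    intro c hc
    rcases hused c hc with h | h | h | ⟨i, hi, h⟩ | ⟨i, hi, h⟩
    · rw [h]
      intro h'
      have := hxinj _ _ h'
      omega
    · rw [h]
      exact hgx L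
    · exact hnotA c hc.1 h L
    · rw [h]
      intro h'
      have := hxinj _ _ h'
      omega
    · rw [h]
      intro h'
      have := hxinj _ _ h'
      omega
  have hMv : Mv G s φ := by
    constructor
    · intro c hc
      by_cases h : c = x n
      · rw [h, hφn]
        exact hx L
      · rw [hφo c h]
        exact hc.1
    · intro c c' hc hc' h
      by_cases h1 : c = x n
      · by_cases h2 : c' = x n
        · rw [h1, h2]
        · rw [h1, hφn, hφo c' h2] at h
          exact absurd h.symm (hnL' c' hc')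
      · by_cases h2 : c' = x n
        · rw [h2, hφn, hφo c h1] at h
          exact absurd h (hnL' c hc)
        · rw [hφo c h1, hφo c' h2] at h
          exact h
  have hfull : ∀ c, Full G s c → Used G s c := by
    rintro c ⟨hc, h4⟩
    obtain ⟨j, hj⟩ := h4 k₀
    exact ⟨hc, j, k₀, hj⟩
  have hMon : Mon G s φ := by
    intro c c' hc hc' hlt
    by_cases h1 : c = x n
    · by_cases h2 : c' = x n
      · rw [h1, h2] at hlt
        exact absurd hlt (hok.irr _ (hx n))
      · rw [h1, hφn, hφo c' h2]
        rw [h1] at hlt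
        rcases hused c' (hfull c' hc') with h | h | h | ⟨i, hi, h⟩ | ⟨i, hi, h⟩
        · exact absurd h h2
        · rw [h] at hlt ⊢
          rcases hpos with h3 | h3
          · exact absurd hlt h3
          · exact h3 L
        · -- a cell meeting `A`
          have hcS : c' ∈ S := by
            rw [hS]
            exact ⟨hc'.1, h⟩
          rcases hok.total _ (hx L) _ hc'.1 (hnotA c' hc'.1 h L).symm with h3 | h3
          · exact h3
          · exfalso
            have h4 := hn₁ c' hcS ⟨L, h3⟩
            have h5 := hok.trans _ hc'.1 _ (hx _) _ (hx n) h4 (hxlt n₁ n (by omega))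
            exact hasym _ (hx n) _ hc'.1 hlt h5
        · exfalso
          rw [h] at hlt
          exact hasym _ (hx n) _ (hx i) hlt (hxlt _ _ hi)
        · rw [h]
          exact hxlt _ _ hi
    · by_cases h2 : c' = x n
      · rw [h2, hφn, hφo c h1]
        rw [h2] at hlt
        exact hok.trans _ hc.1 _ (hx n) _ (hx L) hlt (hxlt _ _ (by omega))
      · rw [hφo c h1, hφo c' h2]
        exact hlt
  have key := hG.free s φ hMv hMon
  have e1 : (fun j => G.mv φ (s j)) = fun j => vEC x (L + 1) (x L) v (t₀ j) := by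
    funext j
    have hsj : s j = vEC x (L + 1) (x n) v (t₀ j) := by
      rw [hs]
    rw [hsj]
    rcases htj : t₀ j with a | p | (k | k) | p
    · show G.mv φ a = a
      refine Fam.mv_fix hok φ fun c hc hk => ?_
      obtain ⟨k, hk⟩ := hk
      exact hφo c (hnotA c hc ⟨k, by rw [hk]; exact hA j a htj⟩ n)
    · show G.mv φ (x p.1 p.2) = x p.1 p.2
      have := hfr j p htj
      rw [Fam.mv_cell hok φ (hx p.1), hφo _ (fun h => by
        have := hxinj _ _ h
        omega)]
    · show G.mv φ (x n k) = x L k
      rw [Fam.mv_cell hok φ (hx n), hφn]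
    · show G.mv φ (v k) = v k
      obtain ⟨k', hk'⟩ := hvg k
      rw [hk', Fam.mv_cell hok φ hg, hφo _ (hgx n)]
    · show G.mv φ (x (L + 1 + p.1) p.2) = x (L + 1 + p.1) p.2
      rw [Fam.mv_cell hok φ (hx _), hφo _ (fun h => by
        have := hxinj _ _ h
        omega)]
  rw [e1, hs, c1, c2] at key
  exact hne key.symm

end Pool.H17.TC
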