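import Pool.Agent.H17.TC.G1

/-!
# Cells of a family between `x n` and the far cells
-/

set_option autoImplicit false

namespace Pool.H17.TC

open Pool.H22.VC Function Set Pool.H17.TA Pool.H17.TB

variable {r : ℕ} {K ι κ κ' : Type} {N : Col r K ℕ} {A : Set ℕ} {x : ℕ → κ → ℕ}

/-- The chain `x` is an increasing sequence of cells of `G`. Then, for large `n`, every cell `g` of
`G` between `x n` and some `x l` is in `VV n`. PROOF. Only finitely many cells of `G` meet the finite
set `A`; choose `n₀` such that none of them is between `x n₀` and some `x l` (those below some `x l`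
are below `x n₀`). Let `x n < g < x l`, `n ≥ n₀`, `L = max l (n + 2)`. A context over `A` and the blocks
`≤ n` or `≥ L`: move `g` to `x (n + 1)` in `G`, everything else fixed. The full cells of the tuple
are `g`, cells `x i` with `i ≤ n` or `i ≥ L`, and cells consisting of points of `A` (and points of
other cells: impossible), which are not between `x n` and `x l`; so the move preserves the order
(`x (n + 1)` itself is not used). -/
theorem mem_VV_of_between (hP : PCh N A x) [Finite κ] {G : Fam κ} (hG : FN N G)
    (hx : ∀ l, x l ∈ G.cells) (hinc : ∀ l, G.lt (x l) (x (l + 1))) :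
    ∃ n₀, ∀ n, n₀ ≤ n → ∀ g ∈ G.cells, G.lt (x n) g → (∃ l, G.lt g (x l)) →
      g ∈ VV N A x n := by
  classical
  have hok := hG.ok
  obtain ⟨k0⟩ := hok.nonempty
  have hinc' : ∀ i j, i < j → G.lt (x i) (x j) := by
    intro i j hij
    induction j, hij using Nat.le_induction with
    | base => exact hinc i
    | succ m hm ih => exact hok.trans _ (hx i) _ (hx m) _ (hx (m + 1)) ih (hinc m)
  have hasym : ∀ c ∈ G.cells, ∀ c' ∈ G.cells, G.lt c c' → ¬ G.lt c' c := by
    intro c hc c' hc' h1 h2
    exact hok.irr c hc (hok.trans c hc c' hc' c hc h1 h2)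
  -- the cells meeting `A`
  have hBfin : {c | c ∈ G.cells ∧ ∃ k, c k ∈ A}.Finite := by
    have hch : ∀ c : {c | c ∈ G.cells ∧ ∃ k, c k ∈ A}, ∃ a : A, ∃ k, c.1 k = a := by
      rintro ⟨c, _, k, hk⟩
      exact ⟨⟨c k, hk⟩, k, rfl⟩
    choose f hf using hch
    haveI : Finite A := hP.fin.to_subtype
    have hinj : Injective f := by
      intro c c' hcc
      obtain ⟨k, hk⟩ := hf c
      obtain ⟨k', hk'⟩ := hf c'
      rw [hcc] at hk
      exact Subtype.ext (hok.disj c.1 c.2.1 c'.1 c'.2.1 k k' (hk.trans hk'.symm))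
    have : Finite {c | c ∈ G.cells ∧ ∃ k, c k ∈ A} := Finite.of_injective f hinj
    exact Set.toFinite _
  have hb : ∀ b : κ → ℕ, ∃ m : ℕ, ∀ n, m ≤ n → b ∈ G.cells → (∃ l, G.lt b (x l)) →
      ¬ G.lt (x n) b := by
    intro b
    by_cases hbl : ∃ l, G.lt b (x l)
    · obtain ⟨l, hl⟩ := hbl
      refine ⟨l, fun n hn hb _ => ?_⟩
      rcases Nat.eq_or_lt_of_le hn with rfl | hlt
      · exact hasym b hb _ (hx _) hl
      · exact hasym b hb _ (hx _) (hok.trans b hb _ (hx l) _ (hx n) hl (hinc' l n hlt))
    · exact ⟨0, fun n _ _ h => absurd h hbl⟩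
  choose m hm using hb
  obtain ⟨n₀, hn₀⟩ := (hBfin.image m).bddAbove
  refine ⟨n₀, ?_⟩
  intro n hn g hg hng hgl
  obtain ⟨l, hl⟩ := hgl
  have hBn : ∀ b ∈ G.cells, (∃ k, b k ∈ A) → (∃ l, G.lt b (x l)) → ¬ G.lt (x n) b := by
    intro b hb hbA hbl
    refine hm b n (le_trans (hn₀ ⟨b, ⟨hb, hbA⟩, rfl⟩) hn) hb hbl
  have hnl : n < l := by
    by_contra hcon
    rcases Nat.eq_or_lt_of_le (not_lt.1 hcon) with h | h
    · rw [h] at hl
      exact hasym _ (hx n) g hg hng hl
    · exact hasym _ (hx n) g hg hng (hok.trans g hg _ (hx l) _ (hx n) hl (hinc' l n h))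
  obtain ⟨L, hL⟩ : ∃ L, L = max l (n + 2) := ⟨_, rfl⟩
  have hLl : l ≤ L := by rw [hL]; exact le_max_left _ _
  have hLn : n + 2 ≤ L := by rw [hL]; exact le_max_right _ _
  have hgA : ∀ k, g k ∉ A := fun k hk => hBn g hg ⟨k, hk⟩ ⟨l, hl⟩ hng
  have hgx : ∀ i, (i ≤ n ∨ L ≤ i) → g ≠ x i := by
    rintro i (hi | hi) rfl
    · rcases Nat.eq_or_lt_of_le hi with h | h
      · rw [h] at hng
        exact hok.irr _ (hx n) hng
      · exact hasym _ (hx n) _ (hx i) hng (hinc' i n h)
    · rcases Nat.eq_or_lt_of_le (hLl.trans hi) with h | h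
      · rw [h] at hl
        exact hok.irr _ (hx i) hl
      · exact hasym _ (hx i) _ (hx l) hl (hinc' l i h)
  refine ⟨L, by omega, hok.inj g hg, hgA, ?_, ?_⟩
  · intro i c k hi hgk
    exact hgx i hi (hok.disj g hg _ (hx i) k c hgk)
  · intro t htA htb
    by_cases hgn : g = x (n + 1)
    · rw [hgn]
    obtain ⟨u, hu⟩ : ∃ u : Fin r → ℕ,
      u = fun j => Sum.elim id (Sum.elim (fun p : ℕ × κ => x p.1 p.2) g) (t j) := ⟨_, rfl⟩
    rw [← hu]
    -- the cells used by u
    have hused : ∀ c, Used G u c → (∃ k, c k ∈ A) ∨ (∃ i, (i ≤ n ∨ L ≤ i) ∧ c = x i) ∨ c = g := by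
      rintro c ⟨hc, j, k, hjk⟩
      rw [hu] at hjk
      simp only at hjk
      rcases htj : t j with a | p | q
      · rw [htj] at hjk
        left
        refine ⟨k, ?_⟩
        rw [← hjk]
        exact htA j a htj
      · rw [htj] at hjk
        right; left
        exact ⟨p.1, htb j p htj, (hok.disj _ (hx p.1) c hc p.2 k hjk).symm⟩
      · rw [htj] at hjk
        right; right
        exact (hok.disj g hg c hc q k hjk).symm
    have hnot : ∀ c, Used G u c → c ≠ x (n + 1) := by
      rintro c hc rfl
      rcases hused _ hc with ⟨k, hk⟩ | ⟨i, hi, hxi⟩ | h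
      · exact hP.hom.notA _ _ hk
      · have h1 : x (n + 1) k0 = x i k0 := by rw [hxi]
        have := (hP.hom.inj _ _ _ _ h1).1
        omega
      · exact hgn h.symm
    have hfu : ∀ c, Full G u c → Used G u c := by
      rintro c ⟨hc, hf⟩
      obtain ⟨j, hj⟩ := hf k0
      exact ⟨hc, j, k0, hj⟩
    obtain ⟨φ, hφ⟩ : ∃ φ : (κ → ℕ) → (κ → ℕ), φ = fun c => if c = g then x (n + 1) else c :=
      ⟨_, rfl⟩
    have hφg : φ g = x (n + 1) := by rw [hφ]; simp
    have hφc : ∀ c, c ≠ g → φ c = c := by
      intro c hc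
      rw [hφ]
      simp [hc]
    have h1 := hG.free u φ ⟨?_, ?_⟩ ?_
    · rw [← h1]
      congr 1
      funext j
      rw [hu]
      simp only
      rcases htj : t j with a | p | q
      · simp only [Sum.elim_inl, id]
        apply Fam.mv_fix hok
        rintro c hc ⟨k, hk⟩
        apply hφc
        rintro rfl
        exact hgA k (hk ▸ htA j a htj)
      · simp only [Sum.elim_inl, Sum.elim_inr]
        rw [Fam.mv_cell hok φ (hx p.1) p.2, hφc]
        exact (hgx p.1 (htb j p htj)).symm
      · simp only [Sum.elim_inr]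
        rw [Fam.mv_cell hok φ hg q, hφg]
    · intro c hc
      by_cases hcg : c = g
      · rw [hcg, hφg]
        exact hx _
      · rw [hφc c hcg]
        exact hc.1
    · intro c c' hc hc' hcc
      by_cases hcg : c = g
      · by_cases hcg' : c' = g
        · rw [hcg, hcg']
        · rw [hcg, hφg, hφc c' hcg'] at hcc
          exact absurd hcc.symm (hnot c' hc')
      · by_cases hcg' : c' = g
        · rw [hcg', hφg, hφc c hcg] at hcc
          exact absurd hcc (hnot c hc)
        · rwa [hφc c hcg, hφc c' hcg'] at hcc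
    · intro c c' hc hc' hlt
      have huc := hfu c hc
      have huc' := hfu c' hc'
      by_cases hcg : c = g
      · by_cases hcg' : c' = g
        · rw [hcg, hcg'] at hlt
          exact absurd hlt (hok.irr g hg)
        · rw [hcg] at hlt
          rw [hcg, hφg, hφc c' hcg']
          rcases hused c' huc' with hA' | ⟨i, hi, rfl⟩ | h
          · have h2 : G.lt (x n) c' := hok.trans _ (hx n) g hg c' huc'.1 hng hlt
            rcases hok.total _ (hx (n + 1)) c' huc'.1 (hnot c' huc').symm with h3 | h3
            · exact h3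
            · exact absurd h2 (hBn c' huc'.1 hA' ⟨n + 1, h3⟩)
          · rcases hi with hi | hi
            · exfalso
              rcases Nat.eq_or_lt_of_le hi with h | h
              · rw [h] at hlt
                exact hasym _ (hx n) g hg hng hlt
              · exact hasym _ (hx n) g hg hng
                  (hok.trans g hg _ (hx i) _ (hx n) hlt (hinc' i n h))
            · exact hinc' (n + 1) i (by omega)
          · exact absurd h hcg'
      · by_cases hcg' : c' = g
        · rw [hcg'] at hlt
          rw [hcg', hφg, hφc c hcg]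
          rcases hused c huc with hA' | ⟨i, hi, rfl⟩ | h
          · have h2 : ¬ G.lt (x n) c :=
              hBn c huc.1 hA' ⟨l, hok.trans c huc.1 g hg _ (hx l) hlt hl⟩
            by_cases h4 : c = x n
            · rw [h4]
              exact hinc n
            · rcases hok.total c huc.1 _ (hx n) h4 with h5 | h5
              · exact hok.trans c huc.1 _ (hx n) _ (hx (n + 1)) h5 (hinc n)
              · exact absurd h5 h2
          · rcases hi with hi | hi
            · exact hinc' i (n + 1) (by omega)
            · exfalso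
              rcases Nat.eq_or_lt_of_le (hLl.trans hi) with h | h
              · rw [← h] at hlt
                exact hasym _ (hx l) g hg hlt hl
              · exact hasym _ (hx i) _ (hx l) (hok.trans _ (hx i) g hg _ (hx l) hlt hl)
                  (hinc' l i h)
          · exact absurd h hcg
        · rw [hφc c hcg, hφc c' hcg']
          exact hlt

end Pool.H17.TC
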