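import Pool.Agent.H17.TC.SubV

/-!
# Cells of a family between `x n` and the far cells: the order
-/

set_option autoImplicit false

namespace Pool.H17.TC

open Pool.H22.VC Function Set Pool.H17.TA Pool.H17.TB

variable {r : ℕ} {K ι κ κ' : Type} {N : Col r K ℕ} {A : Set ℕ} {x : ℕ → κ → ℕ}

/-- and for two such cells the orders agree (move `(g, g')` to `(x (n + 1), x (n + 2))`) -/
theorem LT_of_between (hP : PCh N A x) [Finite κ] {G : Fam κ} (hG : FN N G)
    (hx : ∀ l, x l ∈ G.cells) (hinc : ∀ l, G.lt (x l) (x (l + 1))) :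
    ∃ n₀, ∀ n, n₀ ≤ n → ∀ g ∈ G.cells, ∀ g' ∈ G.cells, G.lt (x n) g → G.lt g g' →
      (∃ l, G.lt g' (x l)) → LT N A x n g g' := by
  classical
  have hok := hG.ok
  have hne := hok.nonempty
  obtain ⟨k₀⟩ := hne
  have hxlt : ∀ i j, i < j → G.lt (x i) (x j) := by
    intro i j hij
    obtain ⟨d, rfl⟩ := Nat.exists_eq_add_of_lt hij
    clear hij
    induction d with
    | zero => exact hinc i
    | succ d ih => exact hok.trans _ (hx i) _ (hx _) _ (hx _) ih (hinc _)
  have hasym : ∀ c ∈ G.cells, ∀ c' ∈ G.cells, G.lt c c' → G.lt c' c → False :=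
    fun c hc c' hc' h h' => hok.irr c hc (hok.trans c hc c' hc' c hc h h')
  -- the cells which meet `A`
  obtain ⟨S, hS⟩ : ∃ S : Set (κ → ℕ), S = {c | c ∈ G.cells ∧ ∃ k, c k ∈ A} := ⟨_, rfl⟩
  have hSfin : S.Finite := by
    have h1 : S ⊆ ⋃ a ∈ A, {c | c ∈ G.cells ∧ ∃ k, c k = a} := by
      intro c hc
      rw [hS] at hc
      obtain ⟨hc1, k, hk⟩ := hc
      rw [mem_iUnion₂]
      exact ⟨c k, hk, hc1, k, rfl⟩
    refine (hP.fin.biUnion fun a _ => ?_).subset h1
    refine Set.Subsingleton.finite ?_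
    rintro c ⟨hc, k, hk⟩ c' ⟨hc', k', hk'⟩
    exact hok.disj c hc c' hc' k k' (hk.trans hk'.symm)
  obtain ⟨n₀, hn₀⟩ : ∃ n₀, ∀ c ∈ S, (∃ l, G.lt c (x l)) → G.lt c (x n₀) := by
    let lf : (κ → ℕ) → ℕ := fun c => if h : ∃ l, G.lt c (x l) then h.choose else 0
    obtain ⟨M, hM⟩ := (hSfin.image lf).bddAbove
    refine ⟨M + 1, fun c hc hl => ?_⟩
    have h1 : lf c ≤ M := hM ⟨c, hc, rfl⟩
    have h2 : lf c = hl.choose := dif_pos hl
    have h3 := hl.choose_spec
    rw [← h2] at h3
    have hcG : c ∈ G.cells := by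
      rw [hS] at hc
      exact hc.1
    exact hok.trans c hcG _ (hx _) _ (hx _) h3 (hxlt _ _ (by omega))
  refine ⟨n₀, fun n hn g hg g' hg' h1 h2 h3 => ?_⟩
  obtain ⟨l₀, hl₀⟩ := h3
  obtain ⟨L, hL⟩ : ∃ L, L = l₀ + n + 3 := ⟨_, rfl⟩
  have hgg' : g ≠ g' := by
    intro h
    rw [h] at h2
    exact hok.irr g' hg' h2
  have hng' : G.lt (x n) g' := hok.trans _ (hx n) _ hg _ hg' h1 h2
  have hgl₀ : G.lt g (x l₀) := hok.trans _ hg _ hg' _ (hx _) h2 hl₀
  -- low and high cells
  let low : (κ → ℕ) → Prop := fun c => c = x n ∨ G.lt c (x n)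
  let high : (κ → ℕ) → Prop := fun c => ∀ i < L, G.lt (x i) c
  have hlow : ∀ c ∈ G.cells, low c → ∀ y ∈ G.cells, G.lt (x n) y → G.lt c y := by
    rintro c hc (rfl | hc1) y hy hy1
    · exact hy1
    · exact hok.trans _ hc _ (hx n) _ hy hc1 hy1
  have hhigh : ∀ c ∈ G.cells, high c → ∀ y ∈ G.cells, (∃ i < L, y = x i ∨ G.lt y (x i)) →
      G.lt y c := by
    rintro c hc hc1 y hy ⟨i, hi, rfl | hy1⟩
    · exact hc1 i hi
    · exact hok.trans _ hy _ (hx i) _ hc hy1 (hc1 i hi)
  have hA1 : ∀ c ∈ G.cells, (∃ k, c k ∈ A) → low c ∨ high c := by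
    intro c hc hk
    have hcS : c ∈ S := by
      rw [hS]
      exact ⟨hc, hk⟩
    by_cases hl : ∃ l, G.lt c (x l)
    · left
      right
      have h4 := hn₀ c hcS hl
      rcases Nat.lt_or_ge n₀ n with h5 | h5
      · exact hok.trans c hc _ (hx _) _ (hx _) h4 (hxlt _ _ h5)
      · have h6 : n₀ = n := le_antisymm hn h5
        rw [← h6]
        exact h4
    · right
      intro i _
      have hne : x i ≠ c := by
        intro h
        obtain ⟨k, hk⟩ := hk
        rw [← h] at hk
        exact hP.hom.notA _ _ hk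
      rcases hok.total _ (hx i) _ hc hne with h4 | h4
      · exact h4
      · exact absurd ⟨i, h4⟩ hl
  have hX1 : ∀ i, i ≤ n ∨ L ≤ i → low (x i) ∨ high (x i) := by
    rintro i (hi | hi)
    · left
      rcases Nat.lt_or_ge i n with h5 | h5
      · exact Or.inr (hxlt _ _ h5)
      · exact Or.inl (congrArg x (le_antisymm hi h5))
    · right
      intro i' hi'
      exact hxlt _ _ (by omega)
  have hglow : ¬ low g := by
    intro h
    exact hok.irr g hg (hlow g hg h g hg h1)
  have hg'low : ¬ low g' := by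
    intro h
    exact hok.irr g' hg' (hlow g' hg' h g' hg' hng')
  have hghigh : ¬ high g := by
    intro h
    exact hok.irr g hg (hhigh g hg h g hg ⟨l₀, by omega, Or.inr hgl₀⟩)
  have hg'high : ¬ high g' := by
    intro h
    exact hok.irr g' hg' (hhigh g' hg' h g' hg' ⟨l₀, by omega, Or.inr hl₀⟩)
  have hneg : ∀ c, low c ∨ high c → c ≠ g ∧ c ≠ g' := by
    intro c hc
    constructor
    · rintro rfl
      rcases hc with hc | hc
      · exact hglow hc
      · exact hghigh hc
    · rintro rfl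
      rcases hc with hc | hc
      · exact hg'low hc
      · exact hg'high hc
  let φ : (κ → ℕ) → (κ → ℕ) := fun c => if c = g then x (n + 1) else if c = g' then x (n + 2) else c
  have hφg : φ g = x (n + 1) := if_pos rfl
  have hφg' : φ g' = x (n + 2) := by
    show (if g' = g then x (n + 1) else if g' = g' then x (n + 2) else g') = x (n + 2)
    rw [if_neg (Ne.symm hgg'), if_pos rfl]
  have hφo : ∀ c, low c ∨ high c → φ c = c := by
    intro c hc
    obtain ⟨h4, h5⟩ := hneg c hc
    simp only [φ]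
    rw [if_neg h4, if_neg h5]
  refine ⟨L, by omega, fun t ht htb => ?_⟩
  obtain ⟨s, hs⟩ : ∃ s : Fin r → ℕ, s = fun j => Sum.elim id (Sum.elim (fun p => x p.1 p.2)
    (fun q : Fin 2 × κ => (![g, g'] : Fin 2 → κ → ℕ) q.1 q.2)) (t j) := ⟨_, rfl⟩
  have hused : ∀ c, Used G s c → c = g ∨ c = g' ∨ (low c ∨ high c) := by
    rintro c ⟨hc, j, k, hjk⟩
    rw [hs] at hjk
    rcases htj : t j with a | p | ⟨q, k'⟩
    · simp only [htj, Sum.elim_inl, id] at hjk
      right; right
      exact hA1 c hc ⟨k, by rw [← hjk]; exact ht j a htj⟩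
    · simp only [htj, Sum.elim_inl, Sum.elim_inr] at hjk
      have h4 := hok.disj _ (hx p.1) c hc p.2 k hjk
      right; right
      rw [← h4]
      exact hX1 _ (htb j p htj)
    · simp only [htj, Sum.elim_inr] at hjk
      fin_cases q
      · left
        exact (hok.disj _ hg c hc k' k hjk).symm
      · right; left
        exact (hok.disj _ hg' c hc k' k hjk).symm
  have hfull : ∀ c, Full G s c → Used G s c := by
    rintro c ⟨hc, h4⟩
    obtain ⟨j, hj⟩ := h4 k₀
    exact ⟨hc, j, k₀, hj⟩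
  have hlt1 : G.lt (x n) (x (n + 1)) := hxlt _ _ (by omega)
  have hlt2 : G.lt (x n) (x (n + 2)) := hxlt _ _ (by omega)
  have hlt12 : G.lt (x (n + 1)) (x (n + 2)) := hxlt _ _ (by omega)
  have hL1 : ∃ i < L, x (n + 1) = x i ∨ G.lt (x (n + 1)) (x i) := ⟨n + 1, by omega, Or.inl rfl⟩
  have hL2 : ∃ i < L, x (n + 2) = x i ∨ G.lt (x (n + 2)) (x i) := ⟨n + 2, by omega, Or.inl rfl⟩
  have hLg : ∃ i < L, g = x i ∨ G.lt g (x i) := ⟨l₀, by omega, Or.inr hgl₀⟩
  have hLg' : ∃ i < L, g' = x i ∨ G.lt g' (x i) := ⟨l₀, by omega, Or.inr hl₀⟩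
  -- other cells are different from the new ones
  have hno : ∀ c ∈ G.cells, low c ∨ high c → x (n + 1) ≠ c ∧ x (n + 2) ≠ c := by
    intro c hc hlh
    rcases hlh with h4 | h4
    · refine ⟨fun h => ?_, fun h => ?_⟩
      · have h5 := hlow c hc h4 _ (hx _) hlt1
        rw [h] at h5
        exact hok.irr c hc h5
      · have h5 := hlow c hc h4 _ (hx _) hlt2
        rw [h] at h5
        exact hok.irr c hc h5
    · refine ⟨fun h => ?_, fun h => ?_⟩
      · have h5 := hhigh c hc h4 _ (hx _) hL1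
        rw [h] at h5
        exact hok.irr c hc h5
      · have h5 := hhigh c hc h4 _ (hx _) hL2
        rw [h] at h5
        exact hok.irr c hc h5
  have hx12 : x (n + 1) ≠ x (n + 2) := by
    intro h
    rw [h] at hlt12
    exact hok.irr _ (hx _) hlt12
  have hMv : Mv G s φ := by
    constructor
    · intro c hc
      rcases hused c hc with rfl | rfl | h4
      · rw [hφg]
        exact hx _
      · rw [hφg']
        exact hx _
      · rw [hφo c h4]
        exact hc.1
    · intro c c' hc hc' he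
      rcases hused c hc with rfl | rfl | h4 <;> rcases hused c' hc' with rfl | rfl | h5
      · rfl
      · rw [hφg, hφg'] at he
        exact absurd he hx12
      · rw [hφg, hφo c' h5] at he
        exact absurd he (hno c' hc'.1 h5).1
      · rw [hφg, hφg'] at he
        exact absurd he.symm hx12
      · rfl
      · rw [hφg', hφo c' h5] at he
        exact absurd he (hno c' hc'.1 h5).2
      · rw [hφg, hφo c h4] at he
        exact absurd he.symm (hno c hc.1 h4).1
      · rw [hφg', hφo c h4] at he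
        exact absurd he.symm (hno c hc.1 h4).2
      · rw [hφo c h4, hφo c' h5] at he
        exact he
  have hMon : Mon G s φ := by
    intro c c' hc hc' hlt
    have hcG := hc.1
    have hcG' := hc'.1
    rcases hused c (hfull c hc) with rfl | rfl | h4 <;>
      rcases hused c' (hfull c' hc') with rfl | rfl | h5
    · exact absurd hlt (hok.irr _ hcG)
    · rw [hφg, hφg']
      exact hlt12
    · rw [hφg, hφo c' h5]
      rcases h5 with h5 | h5
      · exact (hasym _ hcG _ hcG' hlt (hlow c' hcG' h5 _ hg h1)).elim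
      · exact hhigh c' hcG' h5 _ (hx _) hL1
    · exact (hasym _ hg _ hg' h2 hlt).elim
    · exact absurd hlt (hok.irr _ hcG)
    · rw [hφg', hφo c' h5]
      rcases h5 with h5 | h5
      · exact (hasym _ hcG _ hcG' hlt (hlow c' hcG' h5 _ hg' hng')).elim
      · exact hhigh c' hcG' h5 _ (hx _) hL2
    · rw [hφg, hφo c h4]
      rcases h4 with h4 | h4
      · exact hlow c hcG h4 _ (hx _) hlt1
      · exact (hasym _ hcG _ hcG' hlt (hhigh c hcG h4 _ hg hLg)).elim
    · rw [hφg', hφo c h4]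
      rcases h4 with h4 | h4
      · exact hlow c hcG h4 _ (hx _) hlt2
      · exact (hasym _ hcG _ hcG' hlt (hhigh c hcG h4 _ hg' hLg')).elim
    · rw [hφo c h4, hφo c' h5]
      exact hlt
  have key := hG.free s φ hMv hMon
  have e1 : (fun j => G.mv φ (s j)) = fun j => Sum.elim id (Sum.elim (fun p => x p.1 p.2)
      (fun q : Fin 2 × κ => x (n + 1 + (q.1 : ℕ)) q.2)) (t j) := by
    funext j
    have hsj : s j = Sum.elim id (Sum.elim (fun p => x p.1 p.2)
        (fun q : Fin 2 × κ => (![g, g'] : Fin 2 → κ → ℕ) q.1 q.2)) (t j) := by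
      rw [hs]
    rw [hsj]
    rcases htj : t j with a | p | ⟨q, k⟩
    · show G.mv φ a = a
      refine Fam.mv_fix hok φ fun c hc hk => ?_
      obtain ⟨k, hk⟩ := hk
      exact hφo c (hA1 c hc ⟨k, by rw [hk]; exact ht j a htj⟩)
    · show G.mv φ (x p.1 p.2) = x p.1 p.2
      rw [Fam.mv_cell hok φ (hx p.1), hφo _ (hX1 _ (htb j p htj))]
    · fin_cases q
      · show G.mv φ (g k) = x (n + 1) k
        rw [Fam.mv_cell hok φ hg, hφg]
      · show G.mv φ (g' k) = x (n + 2) k
        rw [Fam.mv_cell hok φ hg', hφg']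
  rw [e1, hs] at key
  exact key.symm

end Pool.H17.TC
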