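import Pool.Agent.H17.TC.Sep
import Pool.Agent.H17.TC.Exc
import Pool.Agent.H17.TC.Add

/-!
# L4 : adding all cells around a chain to a family
-/

set_option autoImplicit false

namespace Pool.H17.TC

open Pool.H22.VC Function Set Pool.H17.TA Pool.H17.TB

variable {r : ℕ} {K ι κ κ' : Type} {N : Col r K ℕ} {A : Set ℕ} {x : ℕ → κ → ℕ}

/-- a cell of `VV n` is before some far cell of the chain -/
private theorem unv_far (hP : PCh N A x) {n L : ℕ} {c : κ → ℕ} (hL : n + 1 < L)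
    (h : VL N A x n L c) : LT N A x n c (x L) := by
  refine ⟨L + 1, by omega, ?_⟩
  intro t ht htb
  let M : ℕ ⊕ ((ℕ × κ) ⊕ (Fin 2 × κ)) → ℕ ⊕ ((ℕ × κ) ⊕ κ) :=
    Sum.elim Sum.inl (Sum.elim (fun p => Sum.inr (Sum.inl p))
      (fun q => if q.1 = 0 then Sum.inr (Sum.inr q.2) else Sum.inr (Sum.inl (L, q.2))))
  have h0 := h.2.2.2 (fun j => M (t j)) ?_ ?_
  · have e1 : ∀ u : κ → ℕ, (fun j => Sum.elim id (Sum.elim (fun p => x p.1 p.2) u) (M (t j))) =
        fun j => Sum.elim id (Sum.elim (fun p => x p.1 p.2)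
          (fun q : Fin 2 × κ => (![u, x L] : Fin 2 → κ → ℕ) q.1 q.2)) (t j) := by
      intro u
      funext j
      rcases t j with a | p | ⟨i, k⟩
      · rfl
      · rfl
      · rcases Fin.exists_fin_two.1 ⟨i, rfl⟩ with hi | hi <;> rw [hi] <;> rfl
    rw [e1, e1] at h0
    rw [h0]
    have e2 : ∀ q : Fin 2 × κ, (![x (n + 1), x L] : Fin 2 → κ → ℕ) q.1 q.2 =
        x ((![n + 1, L] : Fin 2 → ℕ) q.1) q.2 := by
      rintro ⟨i, k⟩
      rcases Fin.exists_fin_two.1 ⟨i, rfl⟩ with hi | hi <;> rw [hi] <;> rfl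
    simp only [e2]
    refine v_relocs hP.hom (![n + 1, L] : Fin 2 → ℕ) (fun s => n + 1 + (s : ℕ)) t ht
      (fun j p hj s => ?_) (fun s s' => ?_)
    · have g1 := htb j p hj
      rcases Fin.exists_fin_two.1 ⟨s, rfl⟩ with hi | hi <;> rw [hi]
      · show (p.1 < n + 1 ↔ p.1 < n + 1 + 0) ∧ (n + 1 < p.1 ↔ n + 1 + 0 < p.1)
        omega
      · show (p.1 < L ↔ p.1 < n + 1 + 1) ∧ (L < p.1 ↔ n + 1 + 1 < p.1)
        omega
    · rcases Fin.exists_fin_two.1 ⟨s, rfl⟩ with hi | hi <;>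
        rcases Fin.exists_fin_two.1 ⟨s', rfl⟩ with hi' | hi' <;> rw [hi, hi']
      · show n + 1 < n + 1 ↔ n + 1 + 0 < n + 1 + 0
        omega
      · show n + 1 < L ↔ n + 1 + 0 < n + 1 + 1
        omega
      · show L < n + 1 ↔ n + 1 + 1 < n + 1 + 0
        omega
      · show L < L ↔ n + 1 + 1 < n + 1 + 1
        omega
  · intro j a hj
    change M (t j) = _ at hj
    rcases htj : t j with b | p | ⟨i, k⟩ <;> rw [htj] at hj
    · rw [← Sum.inl.inj hj]
      exact ht j b htj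
    · exact absurd hj (by simp [M])
    · change (if i = 0 then _ else _) = _ at hj
      split_ifs at hj
  · intro j q hj
    change M (t j) = _ at hj
    rcases htj : t j with b | p | ⟨i, k⟩ <;> rw [htj] at hj
    · exact absurd hj (by simp [M])
    · have hj' : p = q := Sum.inl.inj (Sum.inr.inj hj)
      rw [← hj']
      have := htb j p htj
      omega
    · change (if i = 0 then _ else _) = _ at hj
      split_ifs at hj with h1
      · exact absurd hj (by simp)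
      · have hj' : (L, k) = q := Sum.inl.inj (Sum.inr.inj hj)
        rw [← hj']
        exact Or.inr le_rfl

/-- for large `n` the cells of `VV n` are not exceptional with respect to `G` -/
private theorem unv_exc (hW : ¬ Wild N univ) (hN : (range N).Finite) (hP : PCh N A x) [Finite κ]
    (hMG : MG N A x) {G : Fam κ} (hG : FN N G) :
    ∃ n₂, ∀ n, n₂ ≤ n → ∀ v ∈ VV N A x n, ∀ g ∈ G.cells, (range g ∩ range v).Nonempty →
      range g = range v := by
  classical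
  obtain ⟨m₀, hm₀⟩ := g1 hW hN hP hMG
  obtain ⟨n₁, hn₁⟩ : ∃ n₁, n₁ = m₀ + r := ⟨_, rfl⟩
  obtain ⟨F₁, hF₁, hF₁V, -, hF₁r, -⟩ := hm₀ n₁ (by omega) ∅ (empty_subset _)
    (fun c hc => absurd hc (notMem_empty c))
  have hE := exc_finite hW hN hG hF₁
  obtain ⟨E, hEd⟩ : ∃ E : Set ((κ → ℕ) × (κ → ℕ)), E = {p | p.1 ∈ G.cells ∧ p.2 ∈ F₁.cells ∧
    (range p.1 ∩ range p.2).Nonempty ∧ range p.1 ≠ range p.2} := ⟨_, rfl⟩
  rw [← hEd] at hE
  obtain ⟨W, hWd⟩ : ∃ W : Set (κ → ℕ), W = {v | v ∈ VV N A x n₁ ∧ ∃ p ∈ E, range v = range p.2} :=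
    ⟨_, rfl⟩
  have hWf : W.Finite := by
    refine (hE.biUnion fun p _ => Set.Finite.pi' (fun _ : κ => Set.finite_range p.2)).subset ?_
    intro v hv
    rw [hWd] at hv
    obtain ⟨-, p, hp, hr⟩ := hv
    rw [mem_iUnion₂]
    refine ⟨p, hp, fun k => ?_⟩
    rw [← hr]
    exact ⟨k, rfl⟩
  have hdec : ∀ v ∈ W, ∃ m, ∀ n, m ≤ n → v ∉ VV N A x n := by
    intro v hv
    rw [hWd] at hv
    exact VV_dec hP (by omega) hv.1
  let b : (κ → ℕ) → ℕ := fun v => if h : v ∈ W then (hdec v h).choose else 0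
  obtain ⟨M, hM⟩ := (hWf.image b).bddAbove
  refine ⟨n₁ + M, fun n hn v hv g hg hm => ?_⟩
  by_contra hne
  obtain ⟨c₁, hc₁, hr⟩ := hF₁r v (VV_anti hP (by omega) hv)
  have hvW : v ∈ W := by
    rw [hWd]
    refine ⟨VV_anti hP (by omega) hv, (g, c₁), ?_, hr.symm⟩
    rw [hEd]
    refine ⟨hg, hc₁, ?_, ?_⟩
    · show (range g ∩ range c₁).Nonempty
      rw [hr]
      exact hm
    · show range g ≠ range c₁
      rw [hr]
      exact hne
  have h1 : b v ≤ M := hM ⟨v, hvW, rfl⟩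
  have h2 : b v = (hdec v hvW).choose := dif_pos hvW
  exact (hdec v hvW).choose_spec n (by omega) hv

/-- L4. PROOF. Let `n` be large. `g1` with `X = G.cells ∩ VV n` gives `F₀`. `exc_finite` for `G` and
for the family of `g1` for one fixed `n₁`; the cells of `VV n`, `n` large, are in `VV n₁` and are not
exceptional (`VV_anti`, `VV_dec`): so a cell of `G` and a cell of `F₀` are disjoint or have the same
range, and in the second case the cell of `G` is between `x n` and some `x l` (`sep`), so it is in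
`VV n` (`mem_VV_of_between`), so in `X`. Let `B` be the set of the cells of `G` which are `x n` or below
`x n`, `B'` the set of the cells of `G` above all `x l`, `Y = {x l | l > n}`. The orders of `F₀` and `G`
agree on `Y`. `add_low` for `F₀`, `G`, `Y`, `B` (hull: a cell of `G` between is in `B` or between `x n`
and some `x l`), then `add_up` for the result, `G`, `Y`, `B'`. The order of `G` is respected
(`LT_of_between`). -/
theorem union_V (hW : ¬ Wild N univ) (hN : (range N).Finite) (hP : PCh N A x) [Finite κ]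
    (hMG : MG N A x) {G : Fam κ} (hG : FN N G)
    (hx : ∀ l, x l ∈ G.cells) (hinc : ∀ l, G.lt (x l) (x (l + 1))) :
    ∃ n₀, ∀ n, n₀ ≤ n → ∃ H : Fam κ, FN N H ∧ FLe G H ∧
      (∀ v ∈ VV N A x n, ∃ c ∈ H.cells, range c = range v) ∧
      (∀ c ∈ H.cells, c ∈ G.cells ∨ c ∈ VV N A x n) ∧
      ∀ c ∈ H.cells, (c ∈ VV N A x n ↔ H.lt (x n) c ∧ ∃ l, H.lt c (x l)) := by
  classical
  obtain ⟨m₁, hm₁⟩ := g1 hW hN hP hMG
  obtain ⟨m₂, hm₂⟩ := unv_exc hW hN hP hMG hG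
  obtain ⟨m₃, hm₃⟩ := sep hW hN hP hMG hG hx hinc
  obtain ⟨m₄, hm₄⟩ := mem_VV_of_between hP hG hx hinc
  obtain ⟨m₅, hm₅⟩ := LT_of_between hP hG hx hinc
  refine ⟨m₁ + m₂ + m₃ + m₄ + m₅ + r, fun n hn => ?_⟩
  have hok := hG.ok
  obtain ⟨k₀⟩ := hok.nonempty
  have hxlt : ∀ i j, i < j → G.lt (x i) (x j) := by
    intro i j hij
    obtain ⟨d, rfl⟩ := Nat.exists_eq_add_of_lt hij
    clear hij
    induction d with
    | zero => exact hinc i
    | succ d ih => exact hok.trans _ (hx i) _ (hx _) _ (hx _) ih (hinc _)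
  have hasym : ∀ c ∈ G.cells, ∀ c' ∈ G.cells, G.lt c c' → G.lt c' c → False :=
    fun c hc c' hc' h h' => hok.irr c hc (hok.trans c hc c' hc' c hc h h')
  obtain ⟨X, hX⟩ : ∃ X : Set (κ → ℕ), X = {c | c ∈ G.cells ∧ c ∈ VV N A x n} := ⟨_, rfl⟩
  have hXm : ∀ c, c ∈ X ↔ c ∈ G.cells ∧ c ∈ VV N A x n := fun c => by
    rw [hX]
    exact Iff.rfl
  have hrange : ∀ c ∈ G.cells, ∀ c' ∈ G.cells, range c = range c' → c = c' := by
    intro c hc c' hc' hr
    have h1 : c k₀ ∈ range c' := by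
      rw [← hr]
      exact ⟨k₀, rfl⟩
    obtain ⟨k, hk⟩ := h1
    exact hok.disj c hc c' hc' k₀ k hk.symm
  obtain ⟨F₀, hF₀, hF₀V, hXF, hF₀r, hF₀lt⟩ := hm₁ n (by omega) X
    (fun c hc => ((hXm c).1 hc).2)
    (fun c hc c' hc' => hrange c ((hXm c).1 hc).1 c' ((hXm c').1 hc').1)
  have hok₀ := hF₀.ok
  -- position of the cells of `G`
  have hbet : ∀ g ∈ G.cells, g ∈ VV N A x n ↔ G.lt (x n) g ∧ ∃ l, G.lt g (x l) := by
    intro g hg
    constructor
    · intro h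
      exact hm₃ n (by omega) g hg g h rfl
    · rintro ⟨h1, h2⟩
      exact hm₄ n (by omega) g hg h1 h2
  have htri : ∀ g ∈ G.cells, (g = x n ∨ G.lt g (x n)) ∨ g ∈ X ∨ ∀ l, G.lt (x l) g := by
    intro g hg
    by_cases h1 : g = x n
    · exact Or.inl (Or.inl h1)
    rcases hok.total g hg _ (hx n) h1 with h2 | h2
    · exact Or.inl (Or.inr h2)
    by_cases h3 : ∃ l, G.lt g (x l)
    · exact Or.inr (Or.inl ((hXm g).2 ⟨hg, (hbet g hg).2 ⟨h2, h3⟩⟩))
    · refine Or.inr (Or.inr fun l => ?_)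
      rcases Nat.lt_or_ge n l with h4 | h4
      · by_cases h5 : g = x l
        · exact absurd ⟨l + 1, by rw [h5]; exact hinc l⟩ h3
        · rcases hok.total g hg _ (hx l) h5 with h6 | h6
          · exact absurd ⟨l, h6⟩ h3
          · exact h6
      · rcases Nat.lt_or_ge l n with h5 | h5
        · exact hok.trans _ (hx l) _ (hx n) _ hg (hxlt _ _ h5) h2
        · have h6 : l = n := le_antisymm h4 h5
          rw [h6]
          exact h2
  -- a cell of `G` which meets a cell of `F₀` is this cell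
  have hstar : ∀ g ∈ G.cells, ∀ c ∈ F₀.cells, (∃ k k', g k = c k') → g = c ∧ g ∈ X := by
    intro g hg c hc hm
    obtain ⟨k, k', hk⟩ := hm
    have h1 := hm₂ n (by omega) c (hF₀V hc) g hg ⟨g k, ⟨k, rfl⟩, ⟨k', hk.symm⟩⟩
    have h2 := hm₃ n (by omega) g hg c (hF₀V hc) h1
    have h3 : g ∈ X := (hXm g).2 ⟨hg, (hbet g hg).2 h2⟩
    exact ⟨hok₀.disj g (hXF h3) c hc k k' hk, h3⟩
  -- the orders agree on `X`
  have hltX : ∀ g ∈ X, ∀ g' ∈ X, G.lt g g' → F₀.lt g g' := by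
    intro g hg g' hg' h
    obtain ⟨h1, h2⟩ := (hXm g).1 hg
    obtain ⟨h3, h4⟩ := (hXm g').1 hg'
    rw [hF₀lt]
    exact hm₅ n (by omega) g h1 g' h3 ((hbet g h1).1 h2).1 h ((hbet g' h3).1 h4).2
  have hXor : ∀ g ∈ X, ∀ g' ∈ X, F₀.lt g g' ↔ G.lt g g' := by
    intro g hg g' hg'
    refine ⟨fun h => ?_, hltX g hg g' hg'⟩
    obtain ⟨h1, h2⟩ := (hXm g).1 hg
    obtain ⟨h3, h4⟩ := (hXm g').1 hg'
    have hne : g ≠ g' := by
      rintro rfl
      exact hok₀.irr _ (hXF hg) h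
    rcases hok.total g h1 g' h3 hne with h5 | h5
    · exact h5
    · exact absurd (hok₀.trans _ (hXF hg) _ (hXF hg') _ (hXF hg) h (hltX g' hg' g hg h5))
        (hok₀.irr _ (hXF hg))
  have hxX : ∀ l, n < l → x l ∈ X := fun l hl => (hXm _).2 ⟨hx l, VV_self hP hl⟩
  obtain ⟨Y, hY⟩ : ∃ Y : Set (κ → ℕ), Y = {c | ∃ l, n < l ∧ c = x l} := ⟨_, rfl⟩
  have hYm : ∀ c, c ∈ Y ↔ ∃ l, n < l ∧ c = x l := fun c => by
    rw [hY]
    exact Iff.rfl
  have hYX : ∀ c ∈ Y, c ∈ X := by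
    intro c hc
    obtain ⟨l, hl, rfl⟩ := (hYm c).1 hc
    exact hxX l hl
  have hYi : Y.Infinite := by
    have h1 : Injective (fun l => x (n + 1 + l)) := by
      intro l l' h
      have h2 := (hP.hom.inj _ _ _ _ (congrFun h k₀)).1
      omega
    refine (Set.infinite_range_of_injective h1).mono ?_
    rintro _ ⟨l, rfl⟩
    exact (hYm _).2 ⟨n + 1 + l, by omega, rfl⟩
  obtain ⟨B, hB⟩ : ∃ B : Set (κ → ℕ), B = {g | g ∈ G.cells ∧ (g = x n ∨ G.lt g (x n))} :=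
    ⟨_, rfl⟩
  have hBm : ∀ g, g ∈ B ↔ g ∈ G.cells ∧ (g = x n ∨ G.lt g (x n)) := fun g => by
    rw [hB]
    exact Iff.rfl
  obtain ⟨B', hB'⟩ : ∃ B' : Set (κ → ℕ), B' = {g | g ∈ G.cells ∧ ∀ l, G.lt (x l) g} :=
    ⟨_, rfl⟩
  have hB'm : ∀ g, g ∈ B' ↔ g ∈ G.cells ∧ ∀ l, G.lt (x l) g := fun g => by
    rw [hB']
    exact Iff.rfl
  have hBX : ∀ g ∈ B, g ∉ X := by
    intro g hg hgX
    obtain ⟨h1, h2⟩ := (hBm g).1 hg
    have h3 := ((hbet g h1).1 ((hXm g).1 hgX).2).1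
    rcases h2 with h2 | h2
    · rw [h2] at h3
      exact hok.irr _ (hx n) h3
    · exact hasym _ h1 _ (hx n) h2 h3
  have hB'X : ∀ g ∈ B', g ∉ X := by
    intro g hg hgX
    obtain ⟨h1, h2⟩ := (hB'm g).1 hg
    obtain ⟨-, l, h3⟩ := (hbet g h1).1 ((hXm g).1 hgX).2
    exact hasym _ h1 _ (hx l) h3 (h2 l)
  have hBB' : ∀ g ∈ B, g ∉ B' := by
    intro g hg hg'
    obtain ⟨h1, h2⟩ := (hBm g).1 hg
    have h3 := ((hB'm g).1 hg').2 n
    rcases h2 with h2 | h2
    · rw [h2] at h3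
      exact hok.irr _ (hx n) h3
    · exact hasym _ h1 _ (hx n) h2 h3
  have hcls : ∀ g ∈ G.cells, g ∈ B ∨ g ∈ X ∨ g ∈ B' := by
    intro g hg
    rcases htri g hg with h | h | h
    · exact Or.inl ((hBm g).2 ⟨hg, h⟩)
    · exact Or.inr (Or.inl h)
    · exact Or.inr (Or.inr ((hB'm g).2 ⟨hg, h⟩))
  have hBlt : ∀ g ∈ B, ∀ l, n < l → G.lt g (x l) := by
    intro g hg l hl
    obtain ⟨h1, h2⟩ := (hBm g).1 hg
    rcases h2 with h2 | h2
    · rw [h2]
      exact hxlt _ _ hl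
    · exact hok.trans _ h1 _ (hx n) _ (hx l) h2 (hxlt _ _ hl)
  -- adding below
  have H₁ : FN N (addLow F₀ G B) := by
    refine add_low hF₀ hG (Y := Y) (fun c hc => hXF (hYX c hc))
      (fun c hc => ((hXm c).1 (hYX c hc)).1) hYi
      (fun y hy y' hy' => hXor y (hYX y hy) y' (hYX y' hy')) (fun g hg => ((hBm g).1 hg).1)
      ?_ ?_ ?_
    · rintro b hb k ⟨c, hc, k', hk'⟩
      exact hBX b hb (hstar b ((hBm b).1 hb).1 c hc ⟨k, k', hk'.symm⟩).2
    · intro b hb y hy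
      obtain ⟨l, hl, rfl⟩ := (hYm y).1 hy
      exact hBlt b hb l hl
    · rintro g hg - ⟨y, hy, hgy⟩
      obtain ⟨l, hl, rfl⟩ := (hYm y).1 hy
      rcases hcls g hg with h | h | h
      · exact Or.inl h
      · exact Or.inr ⟨g, hXF h, rfl⟩
      · exact absurd (((hB'm g).1 h).2 l) (fun h' => hasym _ hg _ (hx l) hgy h')
  have H₂ : FN N (addUp (addLow F₀ G B) G B') := by
    refine add_up H₁ hG (Y := Y) (fun c hc => Or.inr (hXF (hYX c hc)))
      (fun c hc => ((hXm c).1 (hYX c hc)).1) hYi ?_ (fun g hg => ((hB'm g).1 hg).1) ?_ ?_ ?_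
    · intro y hy y' hy'
      rw [← hXor y (hYX y hy) y' (hYX y' hy')]
      constructor
      · rintro (⟨h1, -⟩ | ⟨h1, -⟩ | ⟨-, -, h1⟩)
        · exact absurd (hYX y hy) (hBX y h1)
        · exact absurd (hYX y hy) (hBX y h1)
        · exact h1
      · intro h1
        exact Or.inr (Or.inr ⟨hXF (hYX y hy), hXF (hYX y' hy'), h1⟩)
    · rintro b hb k ⟨c, hc, k', hk'⟩
      rcases hc with hc | hc
      · have h1 := hok.disj b ((hB'm b).1 hb).1 c ((hBm c).1 hc).1 k k' hk'.symm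
        rw [← h1] at hc
        exact hBB' b hc hb
      · exact hB'X b hb (hstar b ((hB'm b).1 hb).1 c hc ⟨k, k', hk'.symm⟩).2
    · intro b hb y hy
      obtain ⟨l, hl, rfl⟩ := (hYm y).1 hy
      exact ((hB'm b).1 hb).2 l
    · rintro g hg - ⟨y, hy, hgy⟩
      obtain ⟨l, hl, rfl⟩ := (hYm y).1 hy
      rcases hcls g hg with h | h | h
      · exact absurd (hBlt g h l hl) (fun h' => hasym _ hg _ (hx l) h' hgy)
      · exact Or.inr ⟨g, Or.inr (hXF h), rfl⟩
      · exact Or.inl h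
  have hokH := H₂.ok
  have hGH : G.cells ⊆ (addUp (addLow F₀ G B) G B').cells := by
    intro g hg
    rcases hcls g hg with h | h | h
    · exact Or.inr (Or.inl h)
    · exact Or.inr (Or.inr (hXF h))
    · exact Or.inl h
  have hone : ∀ c ∈ G.cells, ∀ c' ∈ G.cells, G.lt c c' →
      (addUp (addLow F₀ G B) G B').lt c c' := by
    intro c hc c' hc' h
    rcases hcls c' hc' with h1 | h1 | h1
    · -- `c'` low
      rcases hcls c hc with h2 | h2 | h2
      · exact Or.inr (Or.inr ⟨Or.inl h2, Or.inl h1, Or.inr (Or.inl ⟨h2, h1, h⟩)⟩)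
      · exfalso
        have h3 := ((hbet c hc).1 ((hXm c).1 h2).2).1
        have h4 := hok.trans _ (hx n) _ hc _ hc' h3 h
        rcases ((hBm c').1 h1).2 with h5 | h5
        · rw [h5] at h4
          exact hok.irr _ (hx n) h4
        · exact hasym _ hc' _ (hx n) h5 h4
      · exfalso
        have h3 := ((hB'm c).1 h2).2 n
        have h4 := hok.trans _ (hx n) _ hc _ hc' h3 h
        rcases ((hBm c').1 h1).2 with h5 | h5
        · rw [h5] at h4
          exact hok.irr _ (hx n) h4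
        · exact hasym _ hc' _ (hx n) h5 h4
    · rcases hcls c hc with h2 | h2 | h2
      · exact Or.inr (Or.inr ⟨Or.inl h2, Or.inr (hXF h1), Or.inl ⟨h2, hXF h1⟩⟩)
      · exact Or.inr (Or.inr ⟨Or.inr (hXF h2), Or.inr (hXF h1),
          Or.inr (Or.inr ⟨hXF h2, hXF h1, hltX c h2 c' h1 h⟩)⟩)
      · exfalso
        obtain ⟨-, l, h3⟩ := (hbet c' hc').1 ((hXm c').1 h1).2
        have h4 := ((hB'm c).1 h2).2 l
        exact hasym _ hc _ hc' h (hok.trans _ hc' _ (hx l) _ hc h3 h4)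
    · rcases hcls c hc with h2 | h2 | h2
      · exact Or.inl ⟨Or.inl h2, h1⟩
      · exact Or.inl ⟨Or.inr (hXF h2), h1⟩
      · exact Or.inr (Or.inl ⟨h2, h1, h⟩)
  have hxnH := hGH (hx n)
  refine ⟨addUp (addLow F₀ G B) G B', H₂, ⟨hGH, fun c hc c' hc' => ⟨hone c hc c' hc', fun h => ?_⟩⟩,
    fun v hv => ?_, fun c hc => ?_, fun c hc => ⟨fun hv => ?_, fun h => ?_⟩⟩
  · have hne : c ≠ c' := by
      rintro rfl
      exact hokH.irr _ (hGH hc) h
    rcases hok.total c hc c' hc' hne with h1 | h1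
    · exact h1
    · exact absurd (hokH.trans _ (hGH hc) _ (hGH hc') _ (hGH hc) h (hone c' hc' c hc h1))
        (hokH.irr _ (hGH hc))
  · obtain ⟨c, hc, hr⟩ := hF₀r v hv
    exact ⟨c, Or.inr (Or.inr hc), hr⟩
  · rcases hc with hc | hc | hc
    · exact Or.inl ((hB'm c).1 hc).1
    · exact Or.inl ((hBm c).1 hc).1
    · exact Or.inr (hF₀V hc)
  · -- cells of `VV n`
    have hcF : c ∈ F₀.cells := by
      rcases hc with hc | hc | hc
      · exact absurd ((hXm c).2 ⟨((hB'm c).1 hc).1, hv⟩) (hB'X c hc)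
      · exact absurd ((hXm c).2 ⟨((hBm c).1 hc).1, hv⟩) (hBX c hc)
      · exact hc
    have hxnB : x n ∈ B := (hBm _).2 ⟨hx n, Or.inl rfl⟩
    refine ⟨Or.inr (Or.inr ⟨Or.inl hxnB, Or.inr hcF, Or.inl ⟨hxnB, hcF⟩⟩), ?_⟩
    obtain ⟨L, hL, hVL⟩ := hv
    refine ⟨L, Or.inr (Or.inr ⟨Or.inr hcF, Or.inr (hXF (hxX L (by omega))),
      Or.inr (Or.inr ⟨hcF, hXF (hxX L (by omega)), ?_⟩)⟩)⟩
    rw [hF₀lt]
    exact unv_far hP hL hVL
  · obtain ⟨h1, l, h2⟩ := h
    rcases hc with hc | hc | hc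
    · exfalso
      have h3 := hone _ (hx l) _ ((hB'm c).1 hc).1 (((hB'm c).1 hc).2 l)
      exact hokH.irr _ (Or.inl hc) (hokH.trans _ (Or.inl hc) _ (hGH (hx l)) _ (Or.inl hc) h2 h3)
    · exfalso
      rcases ((hBm c).1 hc).2 with h3 | h3
      · rw [h3] at h1
        exact hokH.irr _ hxnH h1
      · have h4 := hone _ ((hBm c).1 hc).1 _ (hx n) h3
        exact hokH.irr _ hxnH (hokH.trans _ hxnH _ (Or.inr (Or.inl hc)) _ hxnH h1 h4)
    · exact hF₀V hc

end Pool.H17.TC
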