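import Pool.Agent.H17.TC.Em
import Pool.Agent.H17.TC.Trans

/-!
# 6d : frozen constants
-/

set_option autoImplicit false

namespace Pool.H17.TC

open Pool.H22.VC Function Set Pool.H17.TA Pool.H17.TB

variable {r : ℕ} {K ι κ κ' : Type} {N : Col r K ℕ} {A : Set ℕ} {e : ℕ → ι → ℕ}

/-- the template with the shape `σ` and the constants `c` -/
def tmp {p : ℕ} (σ : Fin r → Fin r ⊕ (Fin p × κ)) (c : Fin r → ℕ) : Fin r → ℕ ⊕ (Fin p × κ) :=
  fun j => Sum.map c id (σ j)

open Classical in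
/-- the constants `d` at the places in `S` -/
noncomputable def frc (S : Set (Fin r)) (d c : Fin r → ℕ) : Fin r → ℕ :=
  fun j => if j ∈ S then d j else c j

/-- the colours of a visible transposition on the cells `y l`, `l ≤ n` -/
def Good (N : Col r K ℕ) (F : Fam κ) (y : ℕ → κ → ℕ) (n : ℕ) {p : ℕ}
    (T : Fin r → ℕ ⊕ (Fin p × κ)) (i i' : Fin p) (ε ε' : K) : Prop :=
  ∀ s : Fin p → κ → ℕ, Inc F s → (∀ q, ∃ l ≤ n, s q = y l) →
    N (ap T s) = ε ∧ N (ap T (fun q => s (Equiv.swap i i' q))) = ε'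

/-- colours of tuples in the block `0` -/
private theorem col0 {κ₁ : Type} {Z Z' : κ₁ → ι} (h : Teq N A e (blk 0 Z) (blk 0 Z'))
    (t : Fin r → ℕ ⊕ κ₁) (ht : ∀ j a, t j = Sum.inl a → a ∈ A) :
    N (fun j => Sum.elim id (fun k => e 0 (Z k)) (t j)) =
      N (fun j => Sum.elim id (fun k => e 0 (Z' k)) (t j)) := by
  have h1 := h 0 1 1 (Nat.zero_le _) (Nat.zero_le _) (fun k => by simp [blk])
    (fun k => by simp [blk]) (fun j => Sum.map id (fun k => Sum.inr (Sum.inl k)) (t j)) (by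
      refine ⟨fun j a hj => ?_, fun j q hj => ?_⟩
      · rcases htj : t j with b | k
        · simp only [htj] at hj
          exact ht j a (by rw [htj]; simpa using hj)
        · simp [htj] at hj
      · rcases htj : t j with b | k
        · simp [htj] at hj
        · simp [htj] at hj)
  have e1 : ∀ Z : κ₁ → ι, (fun j => pl e 0 1 (blk 0 Z)
      ((fun j => Sum.map id (fun k => Sum.inr (Sum.inl k)) (t j)) j)) =
        fun j => Sum.elim id (fun k => e 0 (Z k)) (t j) := by
    intro Z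
    funext j
    rcases htj : t j with b | k
    · simp [pl, htj]
    · simp [pl, htj, blk]
  rw [e1 Z, e1 Z'] at h1
  exact h1

/-- 6d. PROOF. Suppose that for every `j₀` there is `k > j₀` which is not good. Recursively:
`a b < a' b < a (b + 1)`, `a' b` not good for `j₀ = a b`, witness `s b`. `norm` over `A'` for the tuples
(`e' (a b)`, `e' (a' b)`, points of `s b`): `e''` over `A''`; the first two parts are letters
(`Ext A' e' A'' e'' mu0`, `mu1`), the points of `s b` are letters, because `y n l k` is not in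
`(F i).supp` for `i < n` (`GSq.off`), so they are different for different `b`. By `trans` the letters
of the cells `s b q` are in no atom; the letters `mu1 l`, `l = χ j`, `j ∉ AL`, are in no atom
(`EM.off`). Let `B` be the set of the ranges of the pure atoms of `EM.pure` (`j ∈ AL`), `T b` one of
them for every `b ∈ B`. `copy_prec` for the pure chains `fun i k => e' i (T b k)`: `mu0 ∘ T b` and
`mu1 ∘ T b` are atoms of the same type. They have the same order: if `mu1 ∘ T b` and `mu1 ∘ T b'` are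
similar and `Prec`, then `Prec (T b) (T b')` in `e'` (`Ext.prec`); `mu0 ∘ T b`, `mu0 ∘ T b'` are similar
too, so comparable (`c5`); the wrong order would give `Prec (T b') (T b)` in `e'`, and both together
`Perp`, a contradiction. So `frz` (with `ρ` = the other letters, injective enumeration) replaces the
letters `mu1 ∘ T b` by `mu0 ∘ T b`: the colour of the frozen template is the one of the template of
`F (φ (a' b))`, for `s b` and for the swapped one: `Jmp.inc`, `Jmp.swp`. Contradiction. -/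
theorem val_star (hW : ¬ Wild N univ) (hN : (range N).Finite) [Finite κ] {F : ℕ → Fam κ}
    (hF : ∀ n, FMax N (F n)) (hd : ∀ i j, i ≠ j → (Com (F i) (F j)).Finite)
    {y : ℕ → ℕ → κ → ℕ} (hy : GSq N F y) {p : ℕ} {σ : Fin r → Fin r ⊕ (Fin p × κ)}
    {i i' : Fin p} {ε ε' : K} {c : ℕ → Fin r → ℕ}
    (hJ : ∀ n, Jmp N (F n) p (tmp σ (c n)) i i' ε ε') {A' : Set ℕ} {φ : ℕ → ℕ} {m : ℕ}
    {e' : ℕ → Fin m → ℕ} {χ : Fin r → ℕ ⊕ Fin m} (hE : EM N c A' φ e' χ) :
    ∃ j₀, ∀ k, j₀ < k → Good N (F (φ k)) (y (φ k)) (φ k)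
      (tmp σ (frc (AL N A' e' χ) (c (φ j₀)) (c (φ k)))) i i' ε ε' := by
  classical
  by_contra hcon
  have hA' := hE.es.fin
  have hH' := hE.es.hom
  have hφm := hE.es.mono
  have hcon' : ∀ j₀, ∃ k, j₀ < k ∧ ¬ Good N (F (φ k)) (y (φ k)) (φ k)
      (tmp σ (frc (AL N A' e' χ) (c (φ j₀)) (c (φ k)))) i i' ε ε' := by
    intro j₀
    by_contra h
    exact hcon ⟨j₀, fun k hk => by_contra fun hn => h ⟨k, hk, hn⟩⟩
  choose g hg1 hg2 using hcon'
  have hbad : ∀ j₀, ∃ s : Fin p → κ → ℕ, Inc (F (φ (g j₀))) s ∧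
      (∀ q, ∃ l ≤ φ (g j₀), s q = y (φ (g j₀)) l) ∧
      ¬ (N (ap (tmp σ (frc (AL N A' e' χ) (c (φ j₀)) (c (φ (g j₀))))) s) = ε ∧
        N (ap (tmp σ (frc (AL N A' e' χ) (c (φ j₀)) (c (φ (g j₀)))))
          (fun q => s (Equiv.swap i i' q))) = ε') := by
    intro j₀
    by_contra hc
    apply hg2 j₀
    intro s hs hl
    by_contra hn
    exact hc ⟨s, hs, hl, hn⟩
  choose S hS1 hS2 hS3 using hbad
  choose L hL1 hL2 using hS2
  -- the sequence
  obtain ⟨a, ha0, has⟩ : ∃ a : ℕ → ℕ, a 0 = 0 ∧ ∀ b, a (b + 1) = g (a b) + 1 :=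
    ⟨fun b => Nat.rec 0 (fun _ x => g x + 1) b, rfl, fun b => rfl⟩
  have hab : ∀ b, a b < g (a b) := fun b => hg1 _
  have hba : ∀ b, g (a b) < a (b + 1) := fun b => by rw [has]; exact Nat.lt_succ_self _
  have ham : StrictMono a := strictMono_nat_of_lt_succ fun b => (hab b).trans (hba b)
  have ha'm : StrictMono (fun b => g (a b)) :=
    strictMono_nat_of_lt_succ fun b => (hba b).trans (hab (b + 1))
  obtain ⟨A'', φ'', m'', e'', χ'', hA'', hAA, hφ'', hH'', hχA, hχ⟩ :=
    norm' (J := (Fin m ⊕ Fin m) ⊕ (Fin p × κ)) hN hA'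
      (fun b => Sum.elim (Sum.elim (e' (a b)) (e' (g (a b)))) (fun q => S (a b) q.1 q.2))
  -- letters
  have hlet0 : ∀ l : Fin m, ∃ l', χ'' (Sum.inl (Sum.inl l)) = Sum.inr l' := by
    intro l
    rcases hx : χ'' (Sum.inl (Sum.inl l)) with v | l'
    · exfalso
      have h0 := hχ 0 (Sum.inl (Sum.inl l))
      have h1 := hχ 1 (Sum.inl (Sum.inl l))
      rw [hx] at h0 h1
      simp only [Sum.elim_inl, id] at h0 h1
      have h2 := (hH'.inj _ _ _ _ (h0.trans h1.symm)).1
      have h3 := ham.injective h2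
      have h4 := hφ''.injective h3
      omega
    · exact ⟨l', rfl⟩
  have hlet1 : ∀ l : Fin m, ∃ l', χ'' (Sum.inl (Sum.inr l)) = Sum.inr l' := by
    intro l
    rcases hx : χ'' (Sum.inl (Sum.inr l)) with v | l'
    · exfalso
      have h0 := hχ 0 (Sum.inl (Sum.inr l))
      have h1 := hχ 1 (Sum.inl (Sum.inr l))
      rw [hx] at h0 h1
      simp only [Sum.elim_inl, Sum.elim_inr, id] at h0 h1
      have h2 := (hH'.inj _ _ _ _ (h0.trans h1.symm)).1
      have h3 := ha'm.injective h2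
      have h4 := hφ''.injective h3
      omega
    · exact ⟨l', rfl⟩
  have hlet2 : ∀ q : Fin p × κ, ∃ l', χ'' (Sum.inr q) = Sum.inr l' := by
    intro q
    rcases hx : χ'' (Sum.inr q) with v | l'
    · exfalso
      have h0 := hχ 0 (Sum.inr q)
      have h1 := hχ 1 (Sum.inr q)
      rw [hx] at h0 h1
      simp only [Sum.elim_inl, Sum.elim_inr, id] at h0 h1
      have h2 : S (a (φ'' 1)) q.1 q.2 ∈ (F (φ (g (a (φ'' 0))))).supp := by
        rw [h1, ← h0]
        exact ⟨_, (hS1 (a (φ'' 0))).1 q.1, q.2, rfl⟩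
      rw [hL2] at h2
      exact hy.off _ _ _ _ (hφm (ha'm (hφ'' Nat.zero_lt_one))) h2
    · exact ⟨l', rfl⟩
  choose mu0 hmu0 using hlet0
  choose mu1 hmu1 using hlet1
  choose ls hls using hlet2
  have e0 : ∀ j l, e'' j (mu0 l) = e' (a (φ'' j)) l := by
    intro j l
    have := hχ j (Sum.inl (Sum.inl l))
    rw [hmu0] at this
    exact this.symm
  have e1 : ∀ j l, e'' j (mu1 l) = e' (g (a (φ'' j))) l := by
    intro j l
    have := hχ j (Sum.inl (Sum.inr l))
    rw [hmu1] at this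
    exact this.symm
  have e2 : ∀ j q, e'' j (ls q) = S (a (φ'' j)) q.1 q.2 := by
    intro j q
    have := hχ j (Sum.inr q)
    rw [hls] at this
    exact this.symm
  have hx0 : Ext A' e' A'' e'' mu0 := ⟨hAA, fun j => a (φ'' j), ham.comp hφ'', e0⟩
  have hx1 : Ext A' e' A'' e'' mu1 := ⟨hAA, fun j => g (a (φ'' j)), ha'm.comp hφ'', e1⟩
  have im0 := hx0.injective hH'
  have im1 := hx1.injective hH'
  -- the letters of the cells are in no atom
  have hcellno : ∀ q, ¬ ATT N A'' e'' (ls q) := by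
    rintro q ⟨n, T, hT, hq⟩
    have h1 := trans hW hN hF hd hy hA'' hH'' (lam := fun k => ls (q.1, k))
      (ν := fun j => φ (g (a (φ'' j)))) (lm := fun j => L (a (φ'' j)) q.1)
      (hφm.comp (ha'm.comp hφ'')) (fun j => hL1 _ _) (fun j k => by
        rw [e2, hL2]) hT
    exact Set.disjoint_left.1 h1 hq ⟨q.2, rfl⟩
  have hoff : ∀ j ∉ AL N A' e' χ, ∀ l, χ j = Sum.inr l → ¬ ATT N A'' e'' (mu1 l) :=
    fun j hj l hl => EM.off hW hE hA'' hH'' hx1 hj hl
  -- the pure atoms
  let B : Type := {s : Set (Fin m) // ∃ (n : ℕ) (T : Fin n → Fin m), range T = s ∧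
    CA N A' e' T ∧ PCh N A' (fun i k => e' i (T k)) ∧ MG N A' (fun i k => e' i (T k))}
  have : Finite B := Subtype.finite
  have hBex : ∀ b : B, ∃ (n : ℕ) (T : Fin n → Fin m), range T = b.1 ∧
    CA N A' e' T ∧ PCh N A' (fun i k => e' i (T k)) ∧ MG N A' (fun i k => e' i (T k)) :=
    fun b => b.2
  choose n T hT1 hT2 hT3 hT4 using hBex
  have hcopy : ∀ b : B, CA N A'' e'' (fun k => mu0 (T b k)) ∧ CA N A'' e'' (fun k => mu1 (T b k)) ∧
      Teq N A'' e'' (blk 0 (fun k => mu1 (T b k))) (blk 0 (fun k => mu0 (T b k))) ∧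
      Prec N A'' e'' (fun k => mu0 (T b k)) (fun k => mu1 (T b k)) ∧
      Disjoint (range (fun k => mu0 (T b k))) (range (fun k => mu1 (T b k))) := by
    intro b
    refine copy_prec hW (hT3 b) (hT4 b) hA'' hAA hH'' (a := fun j => a (φ'' j))
      (b := fun j => g (a (φ'' j))) (fun j k => e0 j _) (fun j k => e1 j _)
      (fun j => hab _) (fun j => ?_)
    exact (hba _).trans_le (ham.monotone (Nat.succ_le_of_lt (hφ'' (Nat.lt_succ_self j))))
  have hdisj : ∀ b b' : B, b ≠ b' → Disjoint (range (T b)) (range (T b')) := by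
    intro b b' hbb
    by_contra hnd
    apply hbb
    apply Subtype.ext
    rw [← hT1 b, ← hT1 b']
    exact c3 hW hH' hA' (hT2 b) (hT2 b') (Set.not_disjoint_iff_nonempty_inter.1 hnd)
  have hdm : ∀ mu : Fin m → Fin m'', Injective mu → ∀ b b' : B, b ≠ b' →
      Disjoint (range (fun k => mu (T b k))) (range (fun k => mu (T b' k))) := by
    intro mu hmu b b' hbb
    rw [Set.disjoint_left]
    rintro _ ⟨k, rfl⟩ ⟨k', hk'⟩
    exact Set.disjoint_left.1 (hdisj b b' hbb) ⟨k, rfl⟩ ⟨k', hmu hk'⟩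
  have hord : ∀ b b' : B, b ≠ b' →
      Sim N A'' e'' (fun k => mu1 (T b k)) (fun k => mu1 (T b' k)) →
      Prec N A'' e'' (fun k => mu1 (T b k)) (fun k => mu1 (T b' k)) →
      Prec N A'' e'' (fun k => mu0 (T b k)) (fun k => mu0 (T b' k)) := by
    intro b b' hbb hs hp
    have s1 : Sim N A'' e'' (fun k => mu0 (T b k)) (fun k => mu1 (T b k)) :=
      ⟨Equiv.refl _, (hcopy b).2.2.1.symm⟩
    have s2 : Sim N A'' e'' (fun k => mu1 (T b' k)) (fun k => mu0 (T b' k)) :=
      ⟨Equiv.refl _, (hcopy b').2.2.1⟩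
    have s3 := (s1.trans hH'' hs).trans hH'' s2
    rcases c5 hW hH'' hA'' (hcopy b).1 (hcopy b').1 s3 (hdm mu0 im0 b b' hbb) with h | h
    · exact h
    · exfalso
      have h1 := hx1.prec hH' hH'' hp
      have h2 := hx0.prec hH' hH'' h
      have s4 := hx1.sim hH' hH'' hs
      have h3 := (bef_blk_iff hH' 0 (T b) (T b')).2 h1
      have h4 := (bef_blk_iff hH' 0 (T b') (T b)).2 h2
      exact Bef.asymm hH' ((hT2 b).not_perp hH' s4) (Teq.refl hH' _) (Teq.refl hH' _) h3 h4
  -- the other letters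
  let R : Set (Fin m'') := {l | (∃ q, l = ls q) ∨ ∃ j, j ∉ AL N A' e' χ ∧ ∃ l', χ j = Sum.inr l' ∧
    l = mu1 l'}
  have hR : ∀ l : R, ¬ ATT N A'' e'' (l : Fin m'') := by
    rintro ⟨l, ⟨q, rfl⟩ | ⟨j, hj, l', hl', rfl⟩⟩
    · exact hcellno q
    · exact hoff j hj l' hl'
  have hfrz := frz hW hH'' hA'' n (fun b k => mu1 (T b k)) (fun b k => mu0 (T b k))
    (fun b => (hcopy b).2.1) (fun b => (hcopy b).1) (fun b => (hcopy b).2.2.1)
    (hdm mu1 im1) (hdm mu0 im0) hord (fun l : R => (l : Fin m'')) Subtype.val_injective hR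
  -- the colours in the block 0
  set a₀ := a (φ'' 0) with ha₀
  set a₁ := g a₀ with ha₁
  have main : ∀ s : Fin p → κ → ℕ, (∀ q k, ∃ q', s q k = e'' 0 (ls q')) →
      N (ap (tmp σ (frc (AL N A' e' χ) (c (φ a₀)) (c (φ a₁)))) s) =
        N (ap (tmp σ (c (φ a₁))) s) := by
    intro s hs
    -- the label of the place `j`
    have hlab : ∀ j, ∃ u : ℕ ⊕ (((b : B) × Fin (n b)) ⊕ R), (∀ v, u = Sum.inl v → v ∈ A'') ∧
        Sum.elim id (fun k => e'' 0 (Sum.elim (fun q : (b : B) × Fin (n b) => mu1 (T q.1 q.2))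
          (fun l : R => (l : Fin m'')) k)) u = ap (tmp σ (c (φ a₁))) s j ∧
        Sum.elim id (fun k => e'' 0 (Sum.elim (fun q : (b : B) × Fin (n b) => mu0 (T q.1 q.2))
          (fun l : R => (l : Fin m'')) k)) u =
            ap (tmp σ (frc (AL N A' e' χ) (c (φ a₀)) (c (φ a₁)))) s j := by
      intro j
      rcases hσ : σ j with l | q
      · have f1 : ap (tmp σ (c (φ a₁))) s j = c (φ a₁) l := by
          simp [ap, tmp, hσ]
        have f2 : ap (tmp σ (frc (AL N A' e' χ) (c (φ a₀)) (c (φ a₁)))) s j =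
            if l ∈ AL N A' e' χ then c (φ a₀) l else c (φ a₁) l := by
          simp [ap, tmp, hσ, frc]
        rw [f1, f2, hE.es.eq, hE.es.eq]
        rcases hl : χ l with v | l'
        · refine ⟨Sum.inl v, ?_, ?_, ?_⟩
          · rintro w hw
            rw [← Sum.inl.inj hw]
            exact hAA (hE.es.cst l v hl)
          · simp
          · simp
        · by_cases hla : l ∈ AL N A' e' χ
          · obtain ⟨l₁, hl₁, hat⟩ := id hla
            rw [hl] at hl₁
            have hl₂ := Sum.inr.inj hl₁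
            subst hl₂
            obtain ⟨n', T', hT', c1, c2, c3'⟩ := hE.pure l' ⟨l, hl⟩ hat
            obtain ⟨b, hb⟩ : ∃ b : B, b.1 = range T' := ⟨⟨range T', n', T', rfl, c1, c2, c3'⟩, rfl⟩
            rw [← hb, ← hT1 b] at hT'
            obtain ⟨k, hk⟩ := hT'
            refine ⟨Sum.inr (Sum.inl ⟨b, k⟩), ?_, ?_, ?_⟩
            · intro v hv
              simp at hv
            · simp only [Sum.elim_inr, Sum.elim_inl, hk, e1]
              rfl
            · simp only [Sum.elim_inr, Sum.elim_inl, hk, e0, if_pos hla]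
              rfl
          · refine ⟨Sum.inr (Sum.inr ⟨mu1 l', Or.inr ⟨l, hla, l', hl, rfl⟩⟩), ?_, ?_, ?_⟩
            · intro v hv
              simp at hv
            · simp only [Sum.elim_inr, e1]
              rfl
            · simp only [Sum.elim_inr, e1, if_neg hla]
              rfl
      · obtain ⟨q', hq'⟩ := hs q.1 q.2
        have f1 : ap (tmp σ (c (φ a₁))) s j = s q.1 q.2 := by
          simp [ap, tmp, hσ]
        have f2 : ap (tmp σ (frc (AL N A' e' χ) (c (φ a₀)) (c (φ a₁)))) s j = s q.1 q.2 := by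
          simp [ap, tmp, hσ]
        rw [f1, f2]
        refine ⟨Sum.inr (Sum.inr ⟨ls q', Or.inl ⟨q', rfl⟩⟩), ?_, ?_, ?_⟩
        · intro v hv
          simp at hv
        · simp only [Sum.elim_inr, hq']
        · simp only [Sum.elim_inr, hq']
    choose u hu1 hu2 hu3 using hlab
    have h1 := col0 hfrz u (fun j v hv => hu1 j v hv)
    have g1 : (fun j => Sum.elim id (fun k => e'' 0 (Sum.elim (fun q : (b : B) × Fin (n b) =>
        mu1 (T q.1 q.2)) (fun l : R => (l : Fin m'')) k)) (u j)) = ap (tmp σ (c (φ a₁))) s :=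
      funext hu2
    have g2 : (fun j => Sum.elim id (fun k => e'' 0 (Sum.elim (fun q : (b : B) × Fin (n b) =>
        mu0 (T q.1 q.2)) (fun l : R => (l : Fin m'')) k)) (u j)) =
          ap (tmp σ (frc (AL N A' e' χ) (c (φ a₀)) (c (φ a₁)))) s := funext hu3
    rw [g1, g2] at h1
    exact h1.symm
  apply hS3 a₀
  constructor
  · rw [main (S a₀) (fun q k => ⟨(q, k), (e2 0 (q, k)).symm⟩)]
    exact (hJ _).inc _ (hS1 a₀)
  · rw [main _ (fun q k => ⟨(Equiv.swap i i' q, k), (e2 0 (Equiv.swap i i' q, k)).symm⟩)]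
    exact (hJ _).swp _ (hS1 a₀)

end Pool.H17.TC
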